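import Pool.Agent.Helper35.KL.Ll

/-!
# P1-P15 are inherited by free products
-/

namespace Pool.Agent.Helper35.KL

section main

variable {ι : Type} {B : ι → Type} {M : ∀ i, CoxeterMatrix (B i)} {L : (sumM M).Group → ℤ}
variable {H : Type} [Ring H] [Algebra LP H] (D : KLD (sumM M) L H)
variable (hL : IsWeight (sumM M) L) (hl : ∀ i, (Dc D i).Lus) (hb : ∀ i, (Dc D i).Bounded)

theorem Lk_spt (k : ℕ) (m : ℤ) (w : (sumM M).Group) (t : D.JJ) {z : (sumM M).Group}
    (hz : D.a z ≠ k) : D.Lk k m w t z = 0 := by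
  classical
  rw [KLD.Core.sum_single' t, map_sum, Finsupp.finsetSum_apply]
  refine Finset.sum_eq_zero fun c _ => ?_
  rw [map_smul, Finsupp.smul_apply, KLD.Lk_single, KLD.tk_apply, if_neg hz, smul_zero]

theorem bul_eq (k : ℕ) (t : D.JJ) (y z : (sumM M).Group) :
    D.bul k t (Finsupp.single y 1) z = ∑ c ∈ t.support, t c * D.tk k k (D.C c * D.C y) z := by
  classical
  conv_lhs => rw [KLD.Core.sum_single' t]
  rw [map_sum, LinearMap.sum_apply, Finsupp.finsetSum_apply]
  refine Finset.sum_congr rfl fun c _ => ?_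
  rw [map_smul, LinearMap.smul_apply, Finsupp.smul_apply, KLD.bul_single, smul_eq_mul]

theorem up_mul (m : ℤ) (k : ℕ) (w : (sumM M).Group) (t : D.JJ) {z : (sumM M).Group}
    (hz : D.a z = k) : (D.C.repr (D.C w * D.up t) z).coeff m = D.Lk k m w t z := by
  rw [KLD.Core.Lk_apply k m w t hz, KLD.up_eq, Finset.mul_sum, map_sum,
    Finsupp.finsetSum_apply, cf_sum]
  refine Finset.sum_congr rfl fun c _ => ?_
  rw [mul_smul_comm, map_zsmul, Finsupp.smul_apply, cf_zsmul]
  rfl

theorem bet_repr (m : ℤ) (k : ℕ) (y : (sumM M).Group) (s : H) (z : (sumM M).Group) :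
    (D.C.repr (bet D k y s) z).coeff m =
      D.bul k (D.tk k m s) (Finsupp.single y 1) z := by
  classical
  rw [bul_eq]
  have h1 : bet D k y s = ∑ c ∈ (D.C.repr s).support, D.C.repr s c • bet D k y (D.C c) := by
    conv_lhs => rw [← D.C.linearCombination_repr s]
    rw [Finsupp.linearCombination_apply, Finsupp.sum, map_sum]
    exact Finset.sum_congr rfl fun c _ => map_smul _ _ _
  rw [h1, map_sum, Finsupp.finsetSum_apply, cf_sum]
  have h3 : (D.tk k m s).support ⊆ (D.C.repr s).support := Finsupp.support_onFinset_subset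
  rw [Finset.sum_subset h3]
  · refine Finset.sum_congr rfl fun c _ => ?_
    rw [map_smul, Finsupp.smul_apply, smul_eq_mul]
    by_cases hc : D.a c = k
    · rw [bet_C D hc, KLD.repr_BB, mul_smul_comm, mul_one, cf_zsmul, D.tk_apply k m s,
        if_pos hc, mul_comm]
    · rw [bet_C_ne D hc, map_zero, Finsupp.zero_apply, mul_zero, cf_zero, D.tk_apply k m s,
        if_neg hc, zero_mul]
  · intro c _ hc
    rw [Finsupp.notMem_support_iff.1 hc, zero_mul]

include hL hl hb in
theorem LL_pos {k : ℕ} (hk : 0 < k) (m : ℤ) (w x y : (sumM M).Group) (hx : D.a x = k) :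
    D.Lk k m w (D.bul k (Finsupp.single x 1) (Finsupp.single y 1)) =
      D.bul k (D.Lk k m w (Finsupp.single x 1)) (Finsupp.single y 1) := by
  classical
  ext z
  by_cases hz : D.a z = k
  · have hx' : al D x = k := by rw [← a_eq_al D hL hl hb, hx]
    have h1 := LL_main D hL hl hb hk hx' y (D.C w)
    have h2 : D.C.repr (D.C w * D.BB k x y - bet D k y (D.C w * D.C x)) z = 0 := by
      rw [I_eq_al D hL hl hb, Module.Basis.mem_span_image] at h1
      by_contra hne
      have h3 : k < al D z := h1 (Finsupp.mem_support_iff.2 hne)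
      rw [← a_eq_al D hL hl hb] at h3
      omega
    rw [map_sub, Finsupp.sub_apply, sub_eq_zero] at h2
    have h4 : (D.C.repr (D.C w * D.BB k x y) z).coeff m =
        (D.C.repr (bet D k y (D.C w * D.C x)) z).coeff m := by rw [h2]
    rw [KLD.BB_eq, up_mul D m k w _ hz, bet_repr] at h4
    rw [h4, KLD.Lk_single]
  · rw [Lk_spt D k m w _ hz, bul_eq]
    refine (Finset.sum_eq_zero fun c _ => ?_).symm
    rw [KLD.tk_apply, if_neg hz, mul_zero]

include hL hl hb in
theorem LL_nil (m : ℤ) (w x y : (sumM M).Group) (hx : D.a x = 0) :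
    D.Lk 0 m w (D.bul 0 (Finsupp.single x 1) (Finsupp.single y 1)) =
      D.bul 0 (D.Lk 0 m w (Finsupp.single x 1)) (Finsupp.single y 1) := by
  classical
  have h0 : ∀ z, D.a z = 0 → z = 1 := by
    intro z hz
    by_contra hne
    rw [a_eq_al D hL hl hb] at hz
    have := al_pos D hL hb hne
    omega
  have h1 : D.a 1 = 0 := KLD.a_one hL
  rw [h0 x hx]
  ext z
  by_cases hz : D.a z = 0
  · rw [h0 z hz, KLD.Core.Lk_apply 0 m w _ h1, bul_eq]
    have h2 : ∀ t : D.JJ, (∀ c, D.a c ≠ 0 → t c = 0) → ∀ f : (sumM M).Group → ℤ,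
        ∑ c ∈ t.support, t c * f c = t 1 * f 1 := by
      intro t ht f
      refine Finset.sum_eq_single 1 ?_ ?_
      · intro c _ hc
        rw [ht c (fun h => hc (h0 c h)), zero_mul]
      · intro h
        rw [Finsupp.notMem_support_iff.1 h, zero_mul]
    rw [h2 _ (fun c hc => by rw [KLD.bul_single, KLD.tk_apply, if_neg hc]),
      h2 _ (fun c hc => Lk_spt D 0 m w _ hc), KLD.bul_single, KLD.Lk_single, KLD.tk_apply,
      KLD.tk_apply, if_pos h1, if_pos h1]
    rw [mul_comm]
    rfl
  · rw [Lk_spt D 0 m w _ hz, bul_eq]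
    refine (Finset.sum_eq_zero fun c _ => ?_).symm
    rw [KLD.tk_apply, if_neg hz, mul_zero]

include hL hl hb in
/-- The core properties of the free product. -/
theorem core [Finite ι] : D.Core where
  bdd := bounded_sum D hL hl hb
  P1' := P1_sum D hL hl hb
  P2' hz h := P2_sum D hL hl hb hz h
  P3' := P3_sum D hL hl hb
  P4' h := by
    rw [a_eq_al D hL hl hb, a_eq_al D hL hl hb]
    exact al_leLR D hL hl hb h
  P6' hz := P6_sum D hL hl hb hz
  Q' h := by
    rw [a_eq_al D hL hl hb, a_eq_al D hL hl hb, a_eq_al D hL hl hb]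
    exact Q_sum D hL hl hb h
  P12' I _ hw := P12_sum D hL hl hb I hw
  LL k m w x y hx := by
    rcases Nat.eq_zero_or_pos k with h | h
    · subst h
      exact LL_nil D hL hl hb m w x y hx
    · exact LL_pos D hL hl hb h m w x y hx

end main

/-- Boundedness and P1-P15 are inherited by free products of weighted Coxeter groups. -/
theorem lusztig_sum {ι : Type} [Finite ι] {B : ι → Type} (M : ∀ i, CoxeterMatrix (B i))
    (L : (sumM M).Group → ℤ) (hL : IsWeight (sumM M) L)
    (h : ∀ i, Lusztig (M i) fun x => L (emb M i x)) : Lusztig (sumM M) L := by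
  intro H _ _ D
  have hb : ∀ i, (Dc D i).Bounded := fun i => (h i (sA D i) (Dc D i)).1
  have hl : ∀ i, (Dc D i).Lus := fun i => (h i (sA D i) (Dc D i)).2
  have hc := core D hL hl hb
  exact ⟨hc.bdd, hc.lus hL⟩

end Pool.Agent.Helper35.KL
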