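import Pool.Agent.Helper35.KL.Cg
import Pool.Agent.Helper35.KL.Ex.X3
import Pool.Agent.Helper35.KL.Main

/-!
# P1-P15 are inherited by parabolic subgroups
-/

namespace Pool.Agent.Helper35.KL

section par

variable {B₁ B : Type} {M₁ : CoxeterMatrix B₁} {M : CoxeterMatrix B} {f : M₁.Group →* M.Group}
variable {j : B₁ → B} (hf : IsPar f j) {L : M.Group → ℤ}
variable {H : Type} [Ring H] [Algebra LP H] (D : KLD M L H)

theorem expand_Cp (t : pA hf D) :
    (t : H) = ((Dp hf D).C.repr t).sum fun z c => c • D.C (f z) := by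
  have h := (Dp hf D).C.linearCombination_repr t
  rw [Finsupp.linearCombination_apply, Finsupp.sum] at h
  have h2 := congrArg (pA hf D).val h
  rw [map_sum] at h2
  rw [Finsupp.sum]
  refine h2.symm.trans (Finset.sum_congr rfl fun z _ => ?_)
  rw [map_smul]
  congr 1
  exact coe_Cp hf D z

theorem repr_par (t : pA hf D) (z : M₁.Group) :
    D.C.repr (t : H) (f z) = (Dp hf D).C.repr t z := by
  classical
  rw [expand_Cp hf D t, Finsupp.sum, map_sum, Finsupp.finsetSum_apply, Finset.sum_eq_single z]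
  · rw [map_smul, Finsupp.smul_apply, Module.Basis.repr_self, Finsupp.single_eq_same, smul_eq_mul,
      mul_one]
  · intro c _ hc
    rw [map_smul, Finsupp.smul_apply, Module.Basis.repr_self,
      Finsupp.single_eq_of_ne (fun h => hc (hf.inj h).symm), smul_zero]
  · intro hz
    rw [Finsupp.notMem_support_iff.1 hz, zero_smul, map_zero, Finsupp.zero_apply]

theorem repr_par_ne (t : pA hf D) {w : M.Group} (hw : ∀ z, w ≠ f z) :
    D.C.repr (t : H) w = 0 := by
  classical
  rw [expand_Cp hf D t, Finsupp.sum, map_sum, Finsupp.finsetSum_apply]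
  refine Finset.sum_eq_zero fun c _ => ?_
  rw [map_smul, Finsupp.smul_apply, Module.Basis.repr_self,
    Finsupp.single_eq_of_ne (fun h => hw c h), smul_zero]

theorem h_par (x y z : M₁.Group) : (Dp hf D).h x y z = D.h (f x) (f y) (f z) := by
  rw [KLD.h, KLD.h, ← repr_par, Subalgebra.coe_mul, coe_Cp, coe_Cp]

include hf in
theorem h_par_ne (x y : M₁.Group) {w : M.Group} (h : D.h (f x) (f y) w ≠ 0) :
    ∃ z, w = f z := by
  by_contra hne
  push Not at hne
  apply h
  have h1 := repr_par_ne hf D ((Dp hf D).C x * (Dp hf D).C y) hne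
  rwa [Subalgebra.coe_mul, coe_Cp, coe_Cp] at h1

theorem p_par (x y : M₁.Group) : (Dp hf D).p x y = D.p (f x) (f y) := by
  have h1 : (Dp hf D).T = pT hf D := by
    refine Module.Basis.eq_of_apply_eq fun x => Subtype.ext ?_
    rw [coe_Tp, coe_pT]
  rw [KLD.p, KLD.p, ← coe_Cp hf, repr_pT, h1]

theorem par_image (hf : IsPar f j) (I : Set B₁) :
    (par M₁ I).map f = par M (j '' I) := by
  rw [par, MonoidHom.map_closure, par]
  congr 1
  ext x
  constructor
  · rintro ⟨_, ⟨b, hb, rfl⟩, rfl⟩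
    exact ⟨j b, ⟨b, hb, rfl⟩, (hf.sm b).symm⟩
  · rintro ⟨_, ⟨b, hb, rfl⟩, rfl⟩
    exact ⟨_, ⟨b, hb, rfl⟩, hf.sm b⟩

theorem aPar_par (I : Set B₁) (w : M₁.Group) :
    (Dp hf D).aPar I w = D.aPar (j '' I) (f w) := by
  rw [KLD.aPar, KLD.aPar]
  congr 1
  ext n
  constructor
  · rintro ⟨x, hx, y, hy, h⟩
    rw [h_par] at h
    refine ⟨f x, ?_, f y, ?_, h⟩
    · rw [← par_image hf]
      exact ⟨x, hx, rfl⟩
    · rw [← par_image hf]
      exact ⟨y, hy, rfl⟩
  · rintro ⟨x, hx, y, hy, h⟩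
    rw [← par_image hf] at hx hy
    obtain ⟨x, hx, rfl⟩ := hx
    obtain ⟨y, hy, rfl⟩ := hy
    exact ⟨x, hx, y, hy, by rwa [h_par]⟩

theorem a_univ (w : M₁.Group) : (Dp hf D).aPar Set.univ w = (Dp hf D).a w := by
  have h1 : par M₁ (Set.univ : Set B₁) = ⊤ := by
    rw [par, Set.image_univ]
    exact M₁.toCoxeterSystem.subgroup_closure_range_simple
  rw [KLD.aPar, KLD.a, h1]
  congr 1
  ext n
  constructor
  · rintro ⟨x, -, y, -, h⟩
    exact ⟨x, y, h⟩
  · rintro ⟨x, y, h⟩
    exact ⟨x, Subgroup.mem_top _, y, Subgroup.mem_top _, h⟩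

variable (hc : D.Core)

include hc in
theorem a_par (w : M₁.Group) : (Dp hf D).a w = D.a (f w) := by
  rw [← a_univ, aPar_par]
  refine hc.P12' _ _ ?_
  rw [← par_image hf]
  refine ⟨w, ?_, rfl⟩
  have h1 : par M₁ (Set.univ : Set B₁) = ⊤ := by
    rw [par, Set.image_univ]
    exact M₁.toCoxeterSystem.subgroup_closure_range_simple
  rw [h1]
  exact Subgroup.mem_top _

include hc in
theorem g_par (x y z : M₁.Group) : (Dp hf D).g x y z = D.g (f x) (f y) (f z) := by
  rw [KLD.g, KLD.g, h_par, a_par hf D hc, map_inv]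

include hc in
theorem nn_par (z : M₁.Group) : (Dp hf D).nn z = D.nn (f z) := by
  rw [KLD.nn, KLD.nn, p_par, a_par hf D hc, map_one]

theorem leLR_par {y w : M₁.Group} (h : (Dp hf D).leLR y w) : D.leLR (f y) (f w) := by
  refine Relation.ReflTransGen.lift f ?_ _ _ h
  intro a b hab
  change D.stL (f a) (f b) ∨ D.stR (f a) (f b)
  rcases hab with ⟨s, hs⟩ | ⟨s, hs⟩
  · left
    refine ⟨j s, ?_⟩
    have h1 := h_par hf D (sm M₁ s) b a
    rw [hf.sm] at h1
    change D.h (sm M (j s)) (f b) (f a) ≠ 0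
    rw [← h1]
    exact hs
  · right
    refine ⟨j s, ?_⟩
    have h1 := h_par hf D b (sm M₁ s) a
    rw [hf.sm] at h1
    change D.h (f b) (sm M (j s)) (f a) ≠ 0
    rw [← h1]
    exact hs

include hc in
theorem tk_par (k : ℕ) (m : ℤ) (x y z : M₁.Group) :
    (Dp hf D).tk k m ((Dp hf D).C x * (Dp hf D).C y) z =
      D.tk k m (D.C (f x) * D.C (f y)) (f z) := by
  have h1 := h_par hf D x y z
  rw [KLD.h, KLD.h] at h1
  rw [KLD.tk_apply, KLD.tk_apply, h1, a_par hf D hc]

include hc in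
theorem sum_par (k : ℕ) (m : ℤ) (x y : M₁.Group) (F : M₁.Group → ℤ) (F' : M.Group → ℤ)
    (hF : ∀ z, F' (f z) = F z) :
    ∑ c ∈ ((Dp hf D).tk k m ((Dp hf D).C x * (Dp hf D).C y)).support,
      (Dp hf D).tk k m ((Dp hf D).C x * (Dp hf D).C y) c * F c =
    ∑ c ∈ (D.tk k m (D.C (f x) * D.C (f y))).support,
      D.tk k m (D.C (f x) * D.C (f y)) c * F' c := by
  refine Finset.sum_bij (fun c _ => f c) ?_ ?_ ?_ ?_
  · intro c hc'
    rw [Finsupp.mem_support_iff] at hc' ⊢
    rwa [tk_par hf D hc] at hc'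
  · intro c _ c' _ h
    exact hf.inj h
  · intro c hc'
    rw [Finsupp.mem_support_iff] at hc'
    obtain ⟨z, rfl⟩ := h_par_ne hf D x y (w := c) (fun h0 => hc' (by
      rw [KLD.h] at h0
      rw [KLD.tk_apply, h0, cf_zero, ite_self]))
    refine ⟨z, ?_, rfl⟩
    rw [Finsupp.mem_support_iff, tk_par hf D hc]
    exact hc'
  · intro c _
    rw [tk_par hf D hc, hF]

include hc in
/-- The core properties are inherited by parabolic subgroups. -/
theorem core_par : (Dp hf D).Core where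
  bdd := by
    obtain ⟨N, hN⟩ := hc.bdd
    refine ⟨N, fun x y z => ?_⟩
    rw [h_par]
    exact hN _ _ _
  P1' z := by
    rw [p_par, a_par hf D hc, map_one]
    exact hc.P1' _
  P2' {x y z} hz h := by
    rw [nn_par hf D hc] at hz
    rw [g_par hf D hc] at h
    have h1 := hc.P2' hz h
    rw [← map_inv] at h1
    exact hf.inj h1
  P3' y := by
    obtain ⟨z, h1, h2, h3, h4⟩ := hc.P3' (f y)
    have h5 : D.g (f y)⁻¹ (f y) z ≠ 0 := by rwa [h2]
    rw [KLD.g, ← map_inv] at h5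
    obtain ⟨z', hz'⟩ := h_par_ne hf D y⁻¹ y (w := z⁻¹) (fun h0 => h5 (by rw [h0, cf_zero]))
    obtain ⟨z, rfl⟩ : ∃ z'', z = f z'' := ⟨z'⁻¹, by rw [map_inv, ← hz', inv_inv]⟩
    refine ⟨z, ?_, ?_, ?_, ?_⟩
    · rwa [nn_par hf D hc]
    · rw [g_par hf D hc, nn_par hf D hc, map_inv, h2]
    · rwa [nn_par hf D hc]
    · intro w h6 h7
      rw [nn_par hf D hc] at h6
      rw [g_par hf D hc, map_inv] at h7
      exact hf.inj (h4 _ h6 h7)
  P4' {y w} h := by
    rw [a_par hf D hc, a_par hf D hc]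
    exact hc.P4' (leLR_par hf D h)
  P6' {z} hz := by
    rw [nn_par hf D hc] at hz
    have h1 := hc.P6' hz
    rw [← map_inv] at h1
    exact hf.inj h1
  Q' {x y z} h := by
    rw [g_par hf D hc] at h
    rw [a_par hf D hc, a_par hf D hc, a_par hf D hc]
    exact hc.Q' h
  P12' I w hw := by
    rw [aPar_par, a_par hf D hc]
    refine hc.P12' _ _ ?_
    rw [← par_image hf]
    exact ⟨w, hw, rfl⟩
  LL k m w x y hx := by
    rw [a_par hf D hc] at hx
    have h1 := hc.LL k m (f w) (f x) (f y) hx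
    ext z
    have h2 := DFunLike.congr_fun h1 (f z)
    rw [KLD.Lk_sum, KLD.bul_sum, KLD.bul_single, KLD.Lk_single] at h2 ⊢
    rw [sum_par hf D hc k k x y _ (fun c => D.tk k m (D.C (f w) * D.C c) (f z))
        (fun c => (tk_par hf D hc k m w c z).symm),
      sum_par hf D hc k m w x _ (fun c => D.tk k k (D.C c * D.C (f y)) (f z))
        (fun c => (tk_par hf D hc k k c y z).symm)]
    exact h2

end par

/-- P1-P15 are inherited by parabolic subgroups. -/
theorem lusztig_par {B₁ B : Type} {M₁ : CoxeterMatrix B₁} {M : CoxeterMatrix B}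
    {f : M₁.Group →* M.Group} {j : B₁ → B} (hf : IsPar f j) {L : M.Group → ℤ}
    (hL : IsWeight M L) (h : Lusztig M L) : Lusztig M₁ fun x => L (f x) := by
  obtain ⟨H, i1, i2, ⟨D⟩⟩ := exists_KLD M L hL
  have h1 := h H D
  have hc := h1.2.core hL h1.1
  exact lusztig_of_core (MulEquiv.refl _) (Equiv.refl _) (fun b => rfl) (fun w => rfl)
    (isWeight_par hf hL) (Dp hf D) (core_par hf D hc)

theorem isPar_emb {ι : Type} {B : ι → Type} (M : ∀ i, CoxeterMatrix (B i)) (i : ι) :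
    IsPar (emb M i) (fun b => ⟨i, b⟩) :=
  ⟨fun b => emb_sm i b, fun x => len_emb i x⟩

/-- A free product is bounded and satisfies P1-P15 if and only if the factors do. -/
theorem lusztig_sum_iff {ι : Type} [Finite ι] {B : ι → Type} (M : ∀ i, CoxeterMatrix (B i))
    (L : (sumM M).Group → ℤ) (hL : IsWeight (sumM M) L) :
    Lusztig (sumM M) L ↔ ∀ i, Lusztig (M i) fun x => L (emb M i x) :=
  ⟨fun h i => lusztig_par (isPar_emb M i) hL h, fun h => lusztig_sum M L hL h⟩

end Pool.Agent.Helper35.KL
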