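import Pool.Agent.Helper35.KL.Uq

/-!
# P1-P15 imply the core properties; isomorphic weighted Coxeter groups
-/

namespace Pool.Agent.Helper35.KL

namespace KLD

variable {B : Type} {M : CoxeterMatrix B} {L : M.Group → ℤ} {H : Type} [Ring H] [Algebra LP H]
variable {D : KLD M L H}

theorem Lus.LL (hl : D.Lus) (hL : IsWeight M L) (k : ℕ) (m : ℤ) (w x y : M.Group)
    (hx : D.a x = k) : D.Lk k m w (D.bul k (Finsupp.single x 1) (Finsupp.single y 1)) =
      D.bul k (D.Lk k m w (Finsupp.single x 1)) (Finsupp.single y 1) := by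
  classical
  ext z
  rw [Lk_sum, bul_sum, bul_single, Lk_single]
  by_cases hz : D.a z = k
  · have h1 := hl.P15 w y x z (by rw [hx, hz])
    have h2 := congrArg (fun t => TensorProduct.lid ℤ ℤ
      (TensorProduct.map (cfH m) (cfH k) t)) h1
    simp only [Finsupp.sum, map_sum, TensorProduct.map_tmul, TensorProduct.lid_tmul,
      cfH_apply, smul_eq_mul] at h2
    have h3 : (D.tk k k (D.C x * D.C y)).support ⊆ (D.C.repr (D.C x * D.C y)).support :=
      Finsupp.support_onFinset_subset
    have h4 : (D.tk k m (D.C w * D.C x)).support ⊆ (D.C.repr (D.C w * D.C x)).support :=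
      Finsupp.support_onFinset_subset
    rw [Finset.sum_subset h3 (fun c _ hc => by
        rw [Finsupp.notMem_support_iff.1 hc, zero_mul]),
      Finset.sum_subset h4 (fun c _ hc => by
        rw [Finsupp.notMem_support_iff.1 hc, zero_mul])]
    have h5 : ∀ c ∈ (D.C.repr (D.C x * D.C y)).support,
        D.tk k k (D.C x * D.C y) c * D.tk k m (D.C w * D.C c) z =
          (D.h w c z).coeff m * (D.C.repr (D.C x * D.C y) c).coeff k := by
      intro c hc
      rw [tk_apply, tk_apply, if_pos hz, mul_comm]
      split_ifs with h6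
      · rfl
      · have h7 : D.h w c z = 0 := by
          by_contra hne
          have h8 := hl.a_leL (D.leL_of_h hL hne)
          have h9 := hl.a_leR (D.leR_of_repr hL (Finsupp.mem_support_iff.1 hc))
          omega
        rw [h7, cf_zero, zero_mul, mul_zero]
    have h6 : ∀ c ∈ (D.C.repr (D.C w * D.C x)).support,
        D.tk k m (D.C w * D.C x) c * D.tk k k (D.C c * D.C y) z =
          (D.C.repr (D.C w * D.C x) c).coeff m * (D.h c y z).coeff k := by
      intro c hc
      rw [tk_apply, tk_apply, if_pos hz]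
      split_ifs with h6
      · rfl
      · have h7 : D.h c y z = 0 := by
          by_contra hne
          have h8 := hl.a_leR (D.leR_of_h hL hne)
          have h9 := hl.a_leL (D.leL_of_repr hL (Finsupp.mem_support_iff.1 hc))
          omega
        rw [h7, cf_zero, zero_mul, mul_zero]
    rw [Finset.sum_congr rfl h5, Finset.sum_congr rfl h6]
    exact h2.symm
  · rw [Finset.sum_eq_zero fun c _ => by
        rw [D.tk_apply k m (D.C w * D.C c) z, if_neg hz, mul_zero],
      Finset.sum_eq_zero fun c _ => by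
        rw [D.tk_apply k k (D.C c * D.C y) z, if_neg hz, mul_zero]]

/-- P1-P15 imply the core properties. -/
theorem Lus.core (hl : D.Lus) (hL : IsWeight M L) (hb : D.Bounded) : D.Core where
  bdd := hb
  P1' := hl.P1'
  P2' {x y z} hz h := hl.P2 x y z (hl.inD_nn.2 hz) h
  P3' y := by
    obtain ⟨z, ⟨h1, h2⟩, h3⟩ := hl.P3 y
    have h4 := hl.P5 y z (D.nn z) (hl.delta h1) h2
    refine ⟨z, hl.inD_nn.1 h1, h4.1, h4.2, fun z' h5 h6 => ?_⟩
    exact h3 z' ⟨hl.inD_nn.2 h5, h6⟩
  P4' {y w} h := hl.P4 y w h
  P6' {z} hz := hl.inv_of_inD (hl.inD_nn.2 hz)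
  Q' {x y z} h := hl.Q h
  P12' := hl.P12
  LL k m w x y hx := hl.LL hL k m w x y hx

end KLD

section cg

variable {B B' : Type} {M : CoxeterMatrix B} {M' : CoxeterMatrix B'}

/-- The homomorphism of Coxeter groups given by a map of the generators. -/
noncomputable def gmap (j : B → B') (h : ∀ a b, M' (j a) (j b) = M a b) :
    M.Group →* M'.Group :=
  M.toCoxeterSystem.lift ⟨fun b => sm M' (j b), by
    intro a b
    have h1 := M'.toCoxeterSystem.simple_mul_simple_pow (j a) (j b)
    rwa [h] at h1⟩

theorem gmap_sm (j : B → B') (h : ∀ a b, M' (j a) (j b) = M a b) (b : B) :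
    gmap j h (sm M b) = sm M' (j b) := M.toCoxeterSystem.lift_apply_simple _ b

/-- The isomorphism of Coxeter groups given by a bijection of the generators. -/
noncomputable def giso (e : B ≃ B') (h : ∀ a b, M' (e a) (e b) = M a b) :
    M.Group ≃* M'.Group :=
  MulEquiv.ofBijective (gmap e h) (by
    have h' : ∀ a b, M (e.symm a) (e.symm b) = M' a b := by
      intro a b
      rw [← h, Equiv.apply_symm_apply, Equiv.apply_symm_apply]
    have h1 : (gmap e.symm h').comp (gmap e h) = MonoidHom.id _ := by
      refine M.toCoxeterSystem.ext_simple fun b => ?_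
      change gmap e.symm h' (gmap e h (sm M b)) = sm M b
      rw [gmap_sm, gmap_sm, Equiv.symm_apply_apply]
    have h2 : (gmap e h).comp (gmap e.symm h') = MonoidHom.id _ := by
      refine M'.toCoxeterSystem.ext_simple fun b => ?_
      change gmap e h (gmap e.symm h' (sm M' b)) = sm M' b
      rw [gmap_sm, gmap_sm, Equiv.apply_symm_apply]
    refine ⟨fun x y hxy => ?_, fun y => ⟨gmap e.symm h' y, DFunLike.congr_fun h2 y⟩⟩
    have h3 := DFunLike.congr_fun h1 x
    have h4 := DFunLike.congr_fun h1 y
    change gmap e.symm h' (gmap e h x) = x at h3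
    change gmap e.symm h' (gmap e h y) = y at h4
    rw [← h3, ← h4, hxy])

theorem giso_sm (e : B ≃ B') (h : ∀ a b, M' (e a) (e b) = M a b) (b : B) :
    giso e h (sm M b) = sm M' (e b) := gmap_sm e h b

theorem isWeight_iso (φ : M.Group ≃* M'.Group) (e : B ≃ B')
    (hφ : ∀ b, φ (sm M b) = sm M' (e b)) {L' : M'.Group → ℤ} (hL : IsWeight M' L') :
    IsWeight M fun w => L' (φ w) where
  add w w' h := by
    rw [map_mul]
    refine hL.add _ _ ?_
    rw [← map_mul, len_equiv φ e hφ, len_equiv φ e hφ, len_equiv φ e hφ, h]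
  pos b := by
    rw [hφ]
    exact hL.pos _

/-- P1-P15 for one Hecke algebra imply P1-P15 for isomorphic weighted Coxeter groups. -/
theorem lusztig_of_core (φ : M.Group ≃* M'.Group) (e : B ≃ B')
    (hφ : ∀ b, φ (sm M b) = sm M' (e b)) {L : M.Group → ℤ} {L' : M'.Group → ℤ}
    (hLL : ∀ w, L w = L' (φ w)) (hL' : IsWeight M' L')
    {H : Type} [Ring H] [Algebra LP H] (D : KLD M L H) (hc : D.Core) : Lusztig M' L' := by
  intro H' _ _ D'
  have h := KLD.Core.transfer D D' φ e hφ (KLD.h_iso D D' φ e hφ hLL)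
    (KLD.p_iso D D' φ e hφ hLL) hc
  exact ⟨h.bdd, h.lus hL'⟩

/-- P1-P15 for all positive weight functions. -/
def AllL {B : Type} (M : CoxeterMatrix B) : Prop :=
  ∀ L : M.Group → ℤ, IsWeight M L → Lusztig M L

end cg

end Pool.Agent.Helper35.KL
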