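import Pool.Agent.Helper35.KL.Pr

/-!
# The final form of the closure theorem
-/

namespace Pool.Agent.Helper35.KL

/-- The weighted Coxeter group has a Hecke algebra with a Kazhdan-Lusztig basis, it is bounded,
and P1-P15 hold. -/
def BoundedP1P15 {B : Type} (M : CoxeterMatrix B) (L : M.Group → ℤ) : Prop :=
  (∃ (H : Type) (_ : Ring H) (_ : Algebra LP H), Nonempty (KLD M L H)) ∧ Lusztig M L

theorem bounded_iff {B : Type} {M : CoxeterMatrix B} {L : M.Group → ℤ} (hL : IsWeight M L) :
    BoundedP1P15 M L ↔ Lusztig M L :=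
  ⟨fun h => h.2, fun h => ⟨exists_KLD M L hL, h⟩⟩

end Pool.Agent.Helper35.KL
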