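import Pool.Agent.Helper35.KL.FP

/-!
# The lattice estimates for the free product
-/

namespace Pool.Agent.Helper35.KL

section ab

variable {ι : Type} {B : ι → Type} {M : ∀ i, CoxeterMatrix (B i)} {L : (sumM M).Group → ℤ}
variable {H : Type} [Ring H] [Algebra LP H] (D : KLD (sumM M) L H)
variable (hL : IsWeight (sumM M) L) (hl : ∀ i, (Dc D i).Lus) (hb : ∀ i, (Dc D i).Bounded)
variable {N : ℕ} (hN : 0 < N)

/-- The filtration of a component. -/
noncomputable abbrev fi (N : ℕ) (i : ι) : Fil (Dc D i) := (hl i).fil (isWeight_emb i hL) N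

theorem mid_T (u v : List (Ltr M)) (i : ι) (z : (M i).Group) :
    TT D u * D.T (emb M i z) * TT D v = TT D (u ++ ⟨i, z⟩ :: v) := by
  rw [TT_append, TT_cons, mul_assoc]

theorem mid_one (u v : List (Ltr M)) (i : ι) :
    TT D u * D.T (emb M i 1) * TT D v = TT D u * TT D v := by
  rw [map_one, D.T_one, mul_one]

theorem mid_cc (u v : List (Ltr M)) (i : ι) (t : sA D i) :
    (FF D hL hl hN).cc (TT D u * (t : H) * TT D v) =
      ∑ z ∈ ((fi D hL hl N i).cc t).support, (fi D hL hl N i).cc t z •
        (FF D hL hl hN).cc (TT D u * D.T (emb M i z) * TT D v) := by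
  have h1 : TT D u * (t : H) * TT D v -
      ∑ z ∈ ((fi D hL hl N i).cc t).support, (fi D hL hl N i).cc t z •
        (TT D u * D.T (emb M i z) * TT D v) ∈ (FF D hL hl hN).I := by
    have h2 := comp_sub D hL hl hN i t
    have h3 := (FF D hL hl hN).I_mulR (TT D v) ((FF D hL hl hN).I_mulL (TT D u) h2)
    rw [mul_sub, sub_mul, Finsupp.sum, Finset.mul_sum, Finset.sum_mul] at h3
    have h4 : ∀ z ∈ ((fi D hL hl N i).cc t).support,
        TT D u * ((fi D hL hl N i).cc t z • D.T (emb M i z)) * TT D v =
        (fi D hL hl N i).cc t z • (TT D u * D.T (emb M i z) * TT D v) := by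
      intro z _
      rw [mul_smul_comm, smul_mul_assoc]
    rwa [Finset.sum_congr rfl h4] at h3
  rw [(FF D hL hl hN).cc_congr h1, map_sum]
  refine Finset.sum_congr rfl fun z _ => ?_
  rw [map_smul]

theorem cc_TT_light {l : List (Ltr M)} (h : Red l) (h2 : ¬ Hv D N l) :
    (FF D hL hl hN).cc (TT D l) = Finsupp.single (pr l) 1 := by
  rw [TT_red D h]
  exact (FF D hL hl hN).cc_T (by rwa [FF_hv_pr D hL hl hN h])

/-- Estimates for `TT l`. -/
def PB (l : List (Ltr M)) : Prop := TT D l ∈ (FF D hL hl hN).Lam 0 ∧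
  (Hv D N l → TT D l ∈ (FF D hL hl hN).Lam (-1) ∧ Dle (-N) ((FF D hL hl hN).cc (TT D l) 1))

open scoped Classical in
/-- Estimates for products. -/
def PA (u v : List (Ltr M)) : Prop := TT D u * TT D v ∈ (FF D hL hl hN).Lam (N - 1) ∧
  Dle 0 ((FF D hL hl hN).cc (TT D u * TT D v) 1) ∧
  ((FF D hL hl hN).cc (TT D u * TT D v) 1).coeff 0 =
    if pr u * pr v = 1 ∧ ¬ Hv D N v then 1 else 0

theorem PB_light {l : List (Ltr M)} (h : Red l) (h2 : ¬ Hv D N l) : PB D hL hl hN l := by
  refine ⟨?_, fun h3 => absurd h3 h2⟩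
  rw [TT_red D h]
  exact (FF D hL hl hN).T_Lam (by rwa [FF_hv_pr D hL hl hN h])

theorem cc_one_light {l : List (Ltr M)} (h : Red l) (h2 : ¬ Hv D N l) (hne : l ≠ []) :
    (FF D hL hl hN).cc (TT D l) 1 = 0 := by
  classical
  rw [cc_TT_light D hL hl hN h h2, Finsupp.single_apply, if_neg]
  rw [pr_eq_one h]
  exact hne

theorem exists_heavy {l : List (Ltr M)} (h : Hv D N l) :
    ∃ (u : List (Ltr M)) (i : ι) (x : (M i).Group) (v : List (Ltr M)),
      l = u ++ ⟨i, x⟩ :: v ∧ N ≤ (Dc D i).a x := by
  obtain ⟨x, hx, hx2⟩ := h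
  obtain ⟨u, v, rfl⟩ := List.append_of_mem hx
  exact ⟨u, x.1, x.2, v, rfl, hx2⟩

open scoped Classical in
/-- The number of letters `x` with `a x ≥ N`. -/
noncomputable def cnt (N : ℕ) (l : List (Ltr M)) : ℕ := l.countP fun x => decide (N ≤ al1 D x)

theorem cnt_mid (u v : List (Ltr M)) (x : Ltr M) : cnt D N (u ++ x :: v) =
    cnt D N (u ++ v) + cnt D N [x] := by
  classical
  rw [cnt, cnt, cnt, List.countP_append, List.countP_append, List.countP_cons,
    List.countP_cons, List.countP_nil]
  omega

theorem cnt_heavy {x : Ltr M} (h : N ≤ al1 D x) : cnt D N [x] = 1 := by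
  classical
  rw [cnt, List.countP_cons, List.countP_nil, if_pos (by simpa using h)]

theorem cnt_light {x : Ltr M} (h : ¬ N ≤ al1 D x) : cnt D N [x] = 0 := by
  classical
  rw [cnt, List.countP_cons, List.countP_nil, if_neg (by simpa using h)]

include hb in
theorem PB_step (n : ℕ)
    (hA : ∀ u v : List (Ltr M), Red u → Red v → u.length + v.length < n → PA D hL hl hN u v) :
    ∀ l : List (Ltr M), Red l → l.length ≤ n → PB D hL hl hN l := by
  classical
  suffices h : ∀ k (l : List (Ltr M)), Red l → l.length ≤ n → cnt D N l ≤ k → PB D hL hl hN l from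
    fun l h1 h2 => h _ l h1 h2 le_rfl
  intro k
  induction k with
  | zero =>
    intro l hr _ hc
    refine PB_light D hL hl hN hr ?_
    intro h
    obtain ⟨u, i, x, v, rfl, hx⟩ := exists_heavy D h
    rw [cnt_mid, cnt_heavy D (x := ⟨i, x⟩) hx] at hc
    omega
  | succ k ih =>
    intro l hr hlen hc
    by_cases hh : Hv D N l
    · obtain ⟨u, i, x, v, rfl, hx⟩ := exists_heavy D hh
      have hmid := red_mid.1 hr
      have hx1 : x ≠ 1 := hmid.2.2.1
      have hlen' : u.length + v.length < n := by
        rw [List.length_append, List.length_cons] at hlen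
        omega
      have hPA := hA u v hmid.1 hmid.2.2.2.1 hlen'
      set c := (fi D hL hl N i).cc ((Dc D i).T x) with hc'
      have hc1 : ∀ z, Dle (-1) (c z) := ((hl i).T_Lam (isWeight_emb i hL) x).2 hx
      have hc2 : Dle (-N) (c 1) := ((hl i).cc_T_one (isWeight_emb i hL) (hb i) hN hx).1
      have hc3 : ∀ z ∈ c.support, (Dc D i).a z < N := by
        intro z hz
        by_contra h
        exact (Finsupp.mem_support_iff.1 hz) ((fi D hL hl N i).cc_hv (by
          change N ≤ (Dc D i).a z
          omega) _)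
      have hPB : ∀ z ∈ c.support, z ≠ 1 → PB D hL hl hN (u ++ ⟨i, z⟩ :: v) := by
        intro z hz hz1
        refine ih _ (hr.replace hz1) ?_ ?_
        · rw [List.length_append, List.length_cons] at hlen ⊢
          exact hlen
        · rw [cnt_mid, cnt_heavy D (x := ⟨i, x⟩) hx] at hc
          rw [cnt_mid, cnt_light D (x := ⟨i, z⟩) (by
            have := hc3 z hz
            change ¬ N ≤ (Dc D i).a z
            omega)]
          omega
      have hexp := mid_cc D hL hl hN u v i ((Dc D i).T x)
      rw [coe_T, mid_T] at hexp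
      have hterm : ∀ z ∈ c.support, c z • (TT D u * D.T (emb M i z) * TT D v) ∈
          (FF D hL hl hN).Lam (-1) ∧
          Dle (-N) (c z * (FF D hL hl hN).cc (TT D u * D.T (emb M i z) * TT D v) 1) := by
        intro z hz
        by_cases hz1 : z = 1
        · subst hz1
          rw [mid_one]
          constructor
          · have := (FF D hL hl hN).smul_Lam hc2 hPA.1
            exact (FF D hL hl hN).Lam_mono (by omega) this
          · exact hc2.mul_of_eq hPA.2.1 (by omega)
        · rw [mid_T]
          have h1 := hPB z hz hz1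
          constructor
          · have := (FF D hL hl hN).smul_Lam (hc1 z) h1.1
            exact (FF D hL hl hN).Lam_mono (by omega) this
          · by_cases hh2 : Hv D N (u ++ ⟨i, z⟩ :: v)
            · exact (hc1 z).mul_of_eq (h1.2 hh2).2 (by omega)
            · rw [cc_one_light D hL hl hN (hr.replace hz1) hh2 (by simp), mul_zero]
              exact Dle.zero _
      have hcc : ∀ w, (FF D hL hl hN).cc (TT D (u ++ ⟨i, x⟩ :: v)) w =
          ∑ z ∈ c.support, (FF D hL hl hN).cc (c z • (TT D u * D.T (emb M i z) * TT D v)) w := by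
        intro w
        rw [hexp, Finsupp.finsetSum_apply]
        refine Finset.sum_congr rfl fun z _ => ?_
        rw [map_smul]
      have hm1 : TT D (u ++ ⟨i, x⟩ :: v) ∈ (FF D hL hl hN).Lam (-1) := by
        intro w
        rw [hcc]
        exact Dle.sum _ fun z hz => (hterm z hz).1 w
      refine ⟨(FF D hL hl hN).Lam_mono (by omega) hm1, fun _ => ⟨hm1, ?_⟩⟩
      rw [hcc]
      refine Dle.sum _ fun z hz => ?_
      rw [map_smul, Finsupp.smul_apply, smul_eq_mul]
      exact (hterm z hz).2
    · exact PB_light D hL hl hN hr hh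

theorem PA_of_PB {u v : List (Ltr M)} (hr : Red (u ++ v)) (h : PB D hL hl hN (u ++ v)) :
    PA D hL hl hN u v := by
  classical
  rw [PA, ← TT_append]
  have h1 : pr u * pr v = 1 ↔ u ++ v = [] := by
    rw [← pr_append]
    exact pr_eq_one hr
  refine ⟨(FF D hL hl hN).Lam_mono (by omega) h.1, h.1 1, ?_⟩
  by_cases hne : u ++ v = []
  · rw [hne, TT_nil, if_pos]
    · have h2 := cc_TT_light D hL hl hN (red_nil (M := M)) (Hv_nil D)
      rw [TT_nil, pr_nil] at h2
      rw [h2, Finsupp.single_eq_same, cf_one, if_pos rfl]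
    · refine ⟨h1.2 hne, ?_⟩
      have h3 : v = [] := (List.append_eq_nil_iff.1 hne).2
      rw [h3]
      exact Hv_nil D
  · rw [if_neg (fun h2 => hne (h1.1 h2.1))]
    by_cases hh : Hv D N (u ++ v)
    · exact (h.2 hh).2 0 (by omega)
    · rw [cc_one_light D hL hl hN hr hh hne, cf_zero]

include hb in
theorem PA_step (n : ℕ)
    (hA : ∀ u v : List (Ltr M), Red u → Red v → u.length + v.length < n → PA D hL hl hN u v)
    (hB : ∀ l : List (Ltr M), Red l → l.length ≤ n → PB D hL hl hN l) :
    ∀ u v : List (Ltr M), Red u → Red v → u.length + v.length ≤ n → PA D hL hl hN u v := by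
  classical
  intro u v hu hv hlen
  by_cases hr : Red (u ++ v)
  · refine PA_of_PB D hL hl hN hr (hB _ hr ?_)
    rwa [List.length_append]
  · rw [red_append] at hr
    push Not at hr
    obtain ⟨a, ha, b, hb', hab⟩ := hr hu hv
    obtain ⟨u', rfl⟩ : ∃ u', u = u' ++ [a] := by
      rw [Option.mem_def] at ha
      exact ⟨u.dropLast, (List.dropLast_append_getLast? a ha).symm⟩
    obtain ⟨v', rfl⟩ : ∃ v', v = b :: v' := by
      rw [Option.mem_def, List.head?_eq_some_iff] at hb'
      exact hb'
    obtain ⟨i, x⟩ := a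
    obtain ⟨j, y⟩ := b
    simp only at hab
    subst hab
    rw [red_snoc] at hu
    rw [red_cons] at hv
    rw [List.length_append, List.length_cons, List.length_cons, List.length_nil] at hlen
    have hPA := hA u' v' hu.1 hv.2.1 (by omega)
    set t := (Dc D i).T x * (Dc D i).T y with ht
    set c := (fi D hL hl N i).cc t with hc'
    have hc1 : ∀ z, Dle (N - 1) (c z) := ((hl i).cc_TT (isWeight_emb i hL) (hb i) x y).1
    have hc2 := (hl i).cc_TT_one (isWeight_emb i hL) (hb i) hN x y
    have hprod : TT D (u' ++ [⟨i, x⟩]) * TT D (⟨i, y⟩ :: v') = TT D u' * (t : H) * TT D v' := by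
      rw [TT_append, TT_cons, TT_cons, TT_nil, mul_one, ht, Subalgebra.coe_mul, coe_T, coe_T]
      noncomm_ring
    have hred : ∀ z, z ≠ 1 → Red (u' ++ ⟨i, z⟩ :: v') := by
      intro z hz
      exact red_mid.2 ⟨hu.1, hu.2.1, hz, hv.2⟩
    have hexp := mid_cc D hL hl hN u' v' i t
    have hterm : ∀ z ∈ c.support, c z • (TT D u' * D.T (emb M i z) * TT D v') ∈
        (FF D hL hl hN).Lam (N - 1) ∧
        Dle 0 (c z * (FF D hL hl hN).cc (TT D u' * D.T (emb M i z) * TT D v') 1) ∧
        (z ≠ 1 → (c z * (FF D hL hl hN).cc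
          (TT D u' * D.T (emb M i z) * TT D v') 1).coeff 0 = 0) := by
      intro z hz
      by_cases hz1 : z = 1
      · subst hz1
        rw [mid_one]
        refine ⟨?_, hc2.1.mul_of_eq hPA.2.1 (by omega), fun h => absurd rfl h⟩
        have := (FF D hL hl hN).smul_Lam hc2.1 hPA.1
        exact (FF D hL hl hN).Lam_mono (by omega) this
      · rw [mid_T]
        have h1 := hB _ (hred z hz1) (by
          rw [List.length_append, List.length_cons]
          omega)
        have h2 : Dle (-1) (c z * (FF D hL hl hN).cc (TT D (u' ++ ⟨i, z⟩ :: v')) 1) := by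
          by_cases hh2 : Hv D N (u' ++ ⟨i, z⟩ :: v')
          · exact (hc1 z).mul_of_eq (h1.2 hh2).2 (by omega)
          · rw [cc_one_light D hL hl hN (hred z hz1) hh2 (by simp), mul_zero]
            exact Dle.zero _
        refine ⟨?_, h2.mono (by omega), fun _ => h2 0 (by omega)⟩
        have := (FF D hL hl hN).smul_Lam (hc1 z) h1.1
        exact (FF D hL hl hN).Lam_mono (by omega) this
    rw [PA, hprod]
    have hcc : ∀ w, (FF D hL hl hN).cc (TT D u' * (t : H) * TT D v') w =
        ∑ z ∈ c.support, (FF D hL hl hN).cc (c z • (TT D u' * D.T (emb M i z) * TT D v')) w := by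
      intro w
      rw [hexp, Finsupp.finsetSum_apply]
      refine Finset.sum_congr rfl fun z _ => ?_
      rw [map_smul]
    have hcc1 : (FF D hL hl hN).cc (TT D u' * (t : H) * TT D v') 1 =
        ∑ z ∈ c.support, c z * (FF D hL hl hN).cc (TT D u' * D.T (emb M i z) * TT D v') 1 := by
      rw [hcc]
      refine Finset.sum_congr rfl fun z _ => ?_
      rw [map_smul, Finsupp.smul_apply, smul_eq_mul]
    refine ⟨?_, ?_, ?_⟩
    · intro w
      rw [hcc]
      exact Dle.sum _ fun z hz => (hterm z hz).1 w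
    · rw [hcc1]
      exact Dle.sum _ fun z hz => (hterm z hz).2.1
    · rw [hcc1, cf_sum]
      have h3 : ∑ z ∈ c.support, (c z * (FF D hL hl hN).cc
          (TT D u' * D.T (emb M i z) * TT D v') 1).coeff 0 =
          (c 1 * (FF D hL hl hN).cc (TT D u' * TT D v') 1).coeff 0 := by
        rw [Finset.sum_eq_single 1]
        · rw [mid_one]
        · intro z hz hz1
          exact (hterm z hz).2.2 hz1
        · intro h
          rw [Finsupp.notMem_support_iff.1 h, zero_mul, cf_zero]
      rw [h3]
      have h4 := cf_mul_lead hc2.1 hPA.2.1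
      rw [add_zero] at h4
      rw [h4, hc2.2, hPA.2.2]
      have h5 : pr (u' ++ [⟨i, x⟩]) * pr (⟨i, y⟩ :: v') = pr u' * emb M i (x * y) * pr v' := by
        rw [pr_append, pr_cons, pr_cons, pr_nil, mul_one, map_mul]
        group
      rw [h5, Hv_cons]
      have hal : al1 D ⟨i, y⟩ = (Dc D i).a y := rfl
      rw [hal]
      by_cases hxy : x * y = 1
      · rw [hxy, map_one, mul_one]
        by_cases h6 : (Dc D i).a y < N
        · rw [if_pos ⟨rfl, h6⟩, one_mul]
          congr 1
          rw [eq_iff_iff]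
          constructor
          · rintro ⟨h7, h8⟩
            exact ⟨h7, fun h9 => h9.elim (fun h => by omega) h8⟩
          · rintro ⟨h7, h8⟩
            exact ⟨h7, fun h9 => h8 (Or.inr h9)⟩
        · rw [if_neg (fun h => h6 h.2), zero_mul, if_neg]
          rintro ⟨-, h8⟩
          exact h8 (Or.inl (by omega))
      · rw [if_neg (fun h => hxy h.1), zero_mul, if_neg]
        rintro ⟨h7, -⟩
        have h8 : pr (u' ++ ⟨i, x * y⟩ :: v') = 1 := by
          rw [pr_append, pr_cons, ← mul_assoc]
          exact h7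
        rw [pr_eq_one (hred _ hxy)] at h8
        simp at h8

include hb in
theorem PAB (n : ℕ) : (∀ l : List (Ltr M), Red l → l.length ≤ n → PB D hL hl hN l) ∧
    ∀ u v : List (Ltr M), Red u → Red v → u.length + v.length ≤ n → PA D hL hl hN u v := by
  induction n with
  | zero =>
    have hB := PB_step D hL hl hb hN 0 (fun u v _ _ h => absurd h (by omega))
    exact ⟨hB, PA_step D hL hl hb hN 0 (fun u v _ _ h => absurd h (by omega)) hB⟩
  | succ n ih =>
    have hA : ∀ u v : List (Ltr M), Red u → Red v → u.length + v.length < n + 1 →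
        PA D hL hl hN u v := fun u v h1 h2 h3 => ih.2 u v h1 h2 (by omega)
    have hB := PB_step D hL hl hb hN (n + 1) hA
    exact ⟨hB, PA_step D hL hl hb hN (n + 1) hA hB⟩

include hb in
theorem allB {l : List (Ltr M)} (h : Red l) : PB D hL hl hN l :=
  (PAB D hL hl hb hN _).1 l h le_rfl

include hb in
theorem allA {u v : List (Ltr M)} (hu : Red u) (hv : Red v) : PA D hL hl hN u v :=
  (PAB D hL hl hb hN _).2 u v hu hv le_rfl

include hb in
theorem FF_h0 (w : (sumM M).Group) : D.T w ∈ (FF D hL hl hN).Lam 0 := by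
  have h := (allB D hL hl hb hN (red_nf w)).1
  rwa [TT_red D (red_nf w), pr_nf] at h

include hb in
theorem FF_h1 (w : (sumM M).Group) (hw : (FF D hL hl hN).hv w) :
    D.T w ∈ (FF D hL hl hN).Lam (-1) := by
  have h := ((allB D hL hl hb hN (red_nf w)).2 hw).1
  rwa [TT_red D (red_nf w), pr_nf] at h

end ab

end Pool.Agent.Helper35.KL
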