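import Pool.Agent.Helper35.KL.AB

/-!
# The function `a` of a free product
-/

namespace Pool.Agent.Helper35.KL

section fil

variable {B : Type} {M : CoxeterMatrix B} {L : M.Group → ℤ} {H : Type} [Ring H] [Algebra LP H]
variable {D : KLD M L H} (F : Fil D)

/-- Products of elements of lattices of the basis `T`. -/
theorem Fil.mul_Lam {k : ℤ} (hT : ∀ x y, D.T x * D.T y ∈ F.Lam k) {m n : ℤ} {x y : H}
    (hx : x ∈ Lat D.T m) (hy : y ∈ Lat D.T n) : x * y ∈ F.Lam (m + n + k) := by
  rw [← D.T.linearCombination_repr x, ← D.T.linearCombination_repr y,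
    Finsupp.linearCombination_apply, Finsupp.linearCombination_apply, Finsupp.sum, Finsupp.sum,
    Finset.sum_mul]
  refine AddSubgroup.sum_mem _ fun u _ => ?_
  rw [Finset.mul_sum]
  refine AddSubgroup.sum_mem _ fun v _ => ?_
  rw [smul_mul_assoc, mul_smul_comm, smul_smul]
  exact F.smul_Lam ((hx u).mul (hy v)) (hT u v)

/-- Leading coefficients of the structure constants. -/
theorem Fil.h_lead (h0 : ∀ w, D.T w ∈ F.Lam 0) (h1 : ∀ w, F.hv w → D.T w ∈ F.Lam (-1))
    {k : ℤ} (hT : ∀ x y, D.T x * D.T y ∈ F.Lam k) (x y : M.Group) {z : M.Group}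
    (hz : ¬ F.hv z) : Dle k (D.h x y z) ∧
      (D.h x y z).coeff k = (F.cc (D.T x * D.T y) z).coeff k := by
  have e : D.C x * D.C y = D.T x * D.T y + ((D.C x - D.T x) * D.T y +
      D.C x * (D.C y - D.T y)) := by
    rw [sub_mul, mul_sub]
    abel
  have hCL : D.C x ∈ Lat D.T 0 := by
    have h2 : D.C x = D.T x + (D.C x - D.T x) := by abel
    rw [h2]
    exact AddSubgroup.add_mem _ (basis_mem_Lat _ _) (Lat_mono _ (by norm_num) (D.C_sub_T_neg x))
  have h2 := F.mul_Lam hT (D.C_sub_T_neg x) (basis_mem_Lat D.T y)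
  have h3 := F.mul_Lam hT hCL (D.C_sub_T_neg y)
  have h4 : (D.C x - D.T x) * D.T y + D.C x * (D.C y - D.T y) ∈ F.Lam (k - 1) :=
    AddSubgroup.add_mem _ (F.Lam_mono (by omega) h2) (F.Lam_mono (by omega) h3)
  have h5 : D.C x * D.C y ∈ F.Lam k := by
    rw [e]
    exact AddSubgroup.add_mem _ (hT x y) (F.Lam_mono (by omega) h4)
  have h6 := F.repr_C h0 h1 h5 hz
  refine ⟨h6.1, ?_⟩
  have h7 := h6.2
  rw [e, map_add F.cc, Finsupp.add_apply, cf_add, h4 z k (by omega), add_zero, ← e] at h7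
  exact h7

end fil

section al

variable {ι : Type} {B : ι → Type} {M : ∀ i, CoxeterMatrix (B i)} {L : (sumM M).Group → ℤ}
variable {H : Type} [Ring H] [Algebra LP H] (D : KLD (sumM M) L H)

/-- The maximum of `a` over the letters. -/
noncomputable def alL (l : List (Ltr M)) : ℕ := l.foldr (fun x n => max (al1 D x) n) 0

/-- The maximum of `a` over the letters of the normal form. -/
noncomputable def al (w : (sumM M).Group) : ℕ := alL D (nf w)

@[simp] theorem alL_nil : alL D ([] : List (Ltr M)) = 0 := rfl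

@[simp] theorem alL_cons (x : Ltr M) (l : List (Ltr M)) :
    alL D (x :: l) = max (al1 D x) (alL D l) := rfl

theorem alL_append (l l' : List (Ltr M)) : alL D (l ++ l') = max (alL D l) (alL D l') := by
  induction l with
  | nil => simp
  | cons x l ih => rw [List.cons_append, alL_cons, alL_cons, ih, max_assoc]

theorem Hv_iff {N : ℕ} (hN : 0 < N) (l : List (Ltr M)) : Hv D N l ↔ N ≤ alL D l := by
  induction l with
  | nil =>
    rw [alL_nil]
    constructor
    · intro h
      exact absurd h (Hv_nil D)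
    · intro h
      omega
  | cons x l ih => rw [Hv_cons, ih, alL_cons, le_max_iff]

theorem alL_rv (l : List (Ltr M)) : alL D (rv l) = alL D l := by
  induction l with
  | nil => rfl
  | cons x l ih =>
    rw [rv_cons, alL_append, ih, alL_cons, alL_cons, alL_nil, al1_inv, max_comm]
    simp

theorem al_inv (w : (sumM M).Group) : al D w⁻¹ = al D w := by
  rw [al, al, nf_inv, alL_rv]

theorem al_pr {l : List (Ltr M)} (h : Red l) : al D (pr l) = alL D l := by
  rw [al, nf_pr h]

theorem al_one : al D (1 : (sumM M).Group) = 0 := by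
  rw [al, nf_one, alL_nil]

theorem le_alL {l : List (Ltr M)} {x : Ltr M} (hx : x ∈ l) : al1 D x ≤ alL D l := by
  induction l with
  | nil => simp at hx
  | cons y l ih =>
    rw [alL_cons]
    rcases List.mem_cons.1 hx with rfl | h
    · exact le_max_left _ _
    · exact le_trans (ih h) (le_max_right _ _)

/-- The first letter with maximal `a`. -/
theorem exists_first {l : List (Ltr M)} (h : 0 < alL D l) :
    ∃ (u : List (Ltr M)) (i : ι) (x : (M i).Group) (v : List (Ltr M)),
      l = u ++ ⟨i, x⟩ :: v ∧ (Dc D i).a x = alL D l ∧ alL D u < alL D l := by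
  induction l with
  | nil => simp at h
  | cons y l ih =>
    by_cases h1 : alL D l ≤ al1 D y
    · refine ⟨[], y.1, y.2, l, rfl, ?_, h⟩
      rw [alL_cons, max_eq_left h1]
      rfl
    · have h2 : alL D (y :: l) = alL D l := by
        rw [alL_cons]
        omega
      obtain ⟨u, i, x, v, h3, h4, h5⟩ := ih (by omega)
      refine ⟨y :: u, i, x, v, by rw [h3]; rfl, by rw [h2]; exact h4, ?_⟩
      rw [h2, alL_cons]
      omega

/-- The last letter with maximal `a`. -/
theorem exists_last {l : List (Ltr M)} (h : 0 < alL D l) :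
    ∃ (u : List (Ltr M)) (i : ι) (x : (M i).Group) (v : List (Ltr M)),
      l = u ++ ⟨i, x⟩ :: v ∧ (Dc D i).a x = alL D l ∧ alL D v < alL D l := by
  have h1 : 0 < alL D (rv l) := by rwa [alL_rv]
  obtain ⟨u, i, x, v, h2, h3, h4⟩ := exists_first D h1
  rw [alL_rv] at h3 h4
  refine ⟨rv v, i, x⁻¹, rv u, ?_, ?_, ?_⟩
  · rw [← rv_rv l, h2, rv_append, rv_cons]
    simp
  · rw [KLD.a_inv]
    exact h3
  · rwa [alL_rv]

variable (hL : IsWeight (sumM M) L) (hl : ∀ i, (Dc D i).Lus) (hb : ∀ i, (Dc D i).Bounded)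

include hL hb in
theorem al1_pos {i : ι} {x : (M i).Group} (hx : x ≠ 1) : 0 < (Dc D i).a x :=
  KLD.a_pos (isWeight_emb i hL) (hb i) hx

include hL hb in
theorem alL_pos {l : List (Ltr M)} (h : Red l) (hne : l ≠ []) : 0 < alL D l := by
  cases l with
  | nil => exact absurd rfl hne
  | cons x l =>
    have h1 := al1_pos D hL hb (red_cons.1 h).1
    rw [alL_cons]
    exact lt_of_lt_of_le h1 (le_max_left _ _)

include hL hb in
theorem al_pos {w : (sumM M).Group} (h : w ≠ 1) : 0 < al D w := by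
  refine alL_pos D hL hb (red_nf w) ?_
  intro h1
  apply h
  rw [← pr_nf w, h1, pr_nil]

include hL hl hb in
/-- The ideal property of `al`. -/
theorem al_repr {w z : (sumM M).Group} {x : H}
    (hx : D.C.repr (x * D.C w) z ≠ 0 ∨ D.C.repr (D.C w * x) z ≠ 0) : al D w ≤ al D z := by
  rcases Nat.eq_zero_or_pos (al D w) with h0 | hN
  · omega
  · have hw : (FF D hL hl hN).hv w := (Hv_iff D hN _).2 le_rfl
    have h1 := FF_h0 D hL hl hb hN
    have h2 := FF_h1 D hL hl hb hN
    have h3 := (FF D hL hl hN).C_mem h1 h2 hw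
    have h4 : ∀ y ∈ (FF D hL hl hN).I, D.C.repr y z ≠ 0 → al D w ≤ al D z := by
      intro y hy hne
      rw [(FF D hL hl hN).I_eq_C h1 h2, Module.Basis.mem_span_image] at hy
      have h5 : (FF D hL hl hN).hv z := hy (Finsupp.mem_support_iff.2 hne)
      exact (Hv_iff D hN _).1 h5
    rcases hx with h | h
    · exact h4 _ ((FF D hL hl hN).I_mulL x h3) h
    · exact h4 _ ((FF D hL hl hN).I_mulR x h3) h

include hL hl hb in
theorem al_leLR {y w : (sumM M).Group} (h : D.leLR y w) : al D w ≤ al D y := by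
  refine Relation.ReflTransGen.head_induction_on (motive := fun y _ => al D w ≤ al D y) h
    le_rfl ?_
  intro a c h1 _ ih
  refine le_trans ih ?_
  rcases h1 with ⟨b, hb1⟩ | ⟨b, hb1⟩
  · exact al_repr D hL hl hb (Or.inl hb1)
  · exact al_repr D hL hl hb (Or.inr hb1)

include hL hl hb in
theorem al_h {x y z : (sumM M).Group} (h : D.h x y z ≠ 0) :
    al D x ≤ al D z ∧ al D y ≤ al D z :=
  ⟨al_repr D hL hl hb (Or.inr h), al_repr D hL hl hb (Or.inl h)⟩

include hb in
theorem TT_Lam {N : ℕ} (hN : 0 < N) (x y : (sumM M).Group) :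
    D.T x * D.T y ∈ (FF D hL hl hN).Lam (N - 1) := by
  have h := (allA D hL hl hb hN (red_nf x) (red_nf y)).1
  rwa [TT_red D (red_nf x), TT_red D (red_nf y), pr_nf, pr_nf] at h

include hb in
/-- The coefficient of degree `M` of the structure constants. -/
theorem h_coeff (k : ℕ) (x y : (sumM M).Group) {z : (sumM M).Group} (hz : al D z ≤ k) :
    Dle k (D.h x y z) ∧ (D.h x y z).coeff k =
      ((FF D hL hl (Nat.succ_pos k)).cc (D.T x * D.T y) z).coeff k := by
  have h1 : ¬ (FF D hL hl (Nat.succ_pos k)).hv z := by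
    rw [FF_hv, Hv_iff D (Nat.succ_pos k)]
    change ¬ (k + 1 ≤ al D z)
    omega
  have h2 := (FF D hL hl (Nat.succ_pos k)).h_lead (FF_h0 D hL hl hb _) (FF_h1 D hL hl hb _)
    (TT_Lam D hL hl hb (Nat.succ_pos k)) x y h1
  have h3 : ((k.succ : ℕ) : ℤ) - 1 = k := by
    rw [Nat.succ_eq_add_one]
    push_cast
    ring
  rw [h3] at h2
  exact h2

include hL hl hb in
theorem h_dle_al (x y z : (sumM M).Group) : Dle (al D z) (D.h x y z) :=
  (h_coeff D hL hl hb (al D z) x y le_rfl).1

include hL hl hb in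
/-- If the product is reduced there are no terms of degree `k > 0`. -/
theorem lead_red {k : ℕ} (hk : 0 < k) {u v : List (Ltr M)} (hr : Red (u ++ v))
    {z : (sumM M).Group} (hz : al D z ≤ k) : (D.h (pr u) (pr v) z).coeff k = 0 := by
  rw [(h_coeff D hL hl hb k _ _ hz).2, ← D.T_mul _ _ (len_append hr), ← pr_append]
  exact FF_h0 D hL hl hb (Nat.succ_pos k) _ _ _ (by omega)

open scoped Classical in
include hL hl hb in
/-- The recursion for the leading coefficients. -/
theorem lead_mid {k : ℕ} {u v : List (Ltr M)} {i : ι} {g r : (M i).Group}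
    (hu : Red (u ++ [⟨i, g⟩])) (hv : Red (⟨i, r⟩ :: v)) {z : (sumM M).Group}
    (hz : al D z ≤ k) :
    (D.h (pr (u ++ [⟨i, g⟩])) (pr (⟨i, r⟩ :: v)) z).coeff k =
      (∑ c ∈ ((Dc D i).C.repr ((Dc D i).C g * (Dc D i).C r)).support,
        if c ≠ 1 ∧ z = pr (u ++ ⟨i, c⟩ :: v) then ((Dc D i).h g r c).coeff k else 0) +
      if g * r = 1 ∧ (Dc D i).a r ≤ k then (D.h (pr u) (pr v) z).coeff k else 0 := by
  have hN : 0 < k + 1 := Nat.succ_pos k
  rw [red_snoc] at hu
  rw [red_cons] at hv
  have hzl : ¬ Hv D (k + 1) (nf z) := by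
    rw [Hv_iff D hN]
    change ¬ (k + 1 ≤ al D z)
    omega
  rw [(h_coeff D hL hl hb k _ _ hz).2, (h_coeff D hL hl hb k _ _ hz).2]
  rw [← TT_red D (red_snoc.2 hu), ← TT_red D (red_cons.2 hv), ← TT_red D hu.1,
    ← TT_red D hv.2.1]
  set F := FF D hL hl hN with hF
  set t := (Dc D i).T g * (Dc D i).T r with ht
  set c := (fi D hL hl (k + 1) i).cc t with hc
  have hprod : TT D (u ++ [⟨i, g⟩]) * TT D (⟨i, r⟩ :: v) = TT D u * (t : H) * TT D v := by
    rw [TT_append, TT_cons, TT_cons, TT_nil, mul_one, ht, Subalgebra.coe_mul, coe_T, coe_T]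
    noncomm_ring
  have hcomp := (hl i).cc_TT (N := k + 1) (isWeight_emb i hL) (hb i) g r
  have hk1 : ((k + 1 : ℕ) : ℤ) - 1 = k := by
    push_cast
    ring
  rw [hk1] at hcomp
  have hc1 : ∀ z, Dle k (c z) := hcomp.1
  have hc2 : ∀ z, (Dc D i).a z < k + 1 → (c z).coeff k = ((Dc D i).h g r z).coeff k := hcomp.2
  have hc3 := (hl i).cc_TT_one (N := k + 1) (isWeight_emb i hL) (hb i) hN g r
  have hc4 : ∀ z, ¬ (Dc D i).a z < k + 1 → c z = 0 := by
    intro z hz
    exact (fi D hL hl (k + 1) i).cc_hv (by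
      change k + 1 ≤ (Dc D i).a z
      omega) _
  have hred : ∀ z, z ≠ 1 → Red (u ++ ⟨i, z⟩ :: v) := by
    intro z hz
    exact red_mid.2 ⟨hu.1, hu.2.1, hz, hv.2⟩
  have hPA := (allA D hL hl hb hN hu.1 hv.2.1).1
  rw [hk1] at hPA
  have hexp := mid_cc D hL hl hN u v i t
  -- the value of each term
  have hterm : ∀ d, (c d * F.cc (TT D u * D.T (emb M i d) * TT D v) z).coeff k =
      (if d ≠ 1 ∧ z = pr (u ++ ⟨i, d⟩ :: v) then ((Dc D i).h g r d).coeff k else 0) +
      (if d = 1 ∧ g * r = 1 ∧ (Dc D i).a r ≤ k then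
        (F.cc (TT D u * TT D v) z).coeff k else 0) := by
    intro d
    by_cases hd : d = 1
    · subst hd
      rw [mid_one, if_neg (fun h => h.1 rfl), zero_add]
      have h4 := cf_mul_lead hc3.1 (hPA z)
      rw [zero_add] at h4
      rw [h4, hc3.2]
      by_cases h5 : g * r = 1 ∧ (Dc D i).a r < k + 1
      · rw [if_pos h5, if_pos ⟨rfl, h5.1, by omega⟩, one_mul]
      · rw [if_neg h5, if_neg, zero_mul]
        rintro ⟨-, h6, h7⟩
        exact h5 ⟨h6, by omega⟩
    · have e2 : (if d = 1 ∧ g * r = 1 ∧ (Dc D i).a r ≤ k then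
        (F.cc (TT D u * TT D v) z).coeff k else 0) = 0 := if_neg fun h => hd h.1
      rw [mid_T, e2, add_zero]
      by_cases hhv : Hv D (k + 1) (u ++ ⟨i, d⟩ :: v)
      · have h5 := ((allB D hL hl hb hN (hred d hd)).2 hhv).1 z
        rw [((hc1 d).mul h5) k (by omega), if_neg]
        rintro ⟨-, h6⟩
        apply hzl
        rwa [h6, nf_pr (hred d hd)]
      · rw [cc_TT_light D hL hl hN (hred d hd) hhv, Finsupp.single_apply]
        have hda : (Dc D i).a d < k + 1 := by
          by_contra h6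
          exact hhv ⟨⟨i, d⟩, by simp, by
            change k + 1 ≤ (Dc D i).a d
            omega⟩
        by_cases h6 : z = pr (u ++ ⟨i, d⟩ :: v)
        · rw [if_pos h6.symm, if_pos ⟨hd, h6⟩, mul_one, hc2 d hda]
        · rw [if_neg (fun h => h6 h.symm), if_neg (fun h => h6 h.2), mul_zero, cf_zero]
  -- sum over a big finset
  set S := c.support ∪ ((Dc D i).C.repr ((Dc D i).C g * (Dc D i).C r)).support ∪ {1} with hS
  have hsum1 : (F.cc (TT D u * (t : H) * TT D v) z).coeff k =
      ∑ d ∈ S, (c d * F.cc (TT D u * D.T (emb M i d) * TT D v) z).coeff k := by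
    rw [hexp, Finsupp.finsetSum_apply, ← cf_sum]
    refine congrArg (fun a : LP => a.coeff (k : ℤ)) ?_
    have h7 : ∀ d ∈ c.support, (c d • F.cc (TT D u * D.T (emb M i d) * TT D v)) z =
        c d * F.cc (TT D u * D.T (emb M i d) * TT D v) z := by
      intro d _
      rw [Finsupp.smul_apply, smul_eq_mul]
    rw [Finset.sum_congr rfl h7, hS]
    refine Finset.sum_subset ?_ ?_
    · intro d hd
      exact Finset.mem_union_left _ (Finset.mem_union_left _ hd)
    · intro d _ hd
      rw [Finsupp.notMem_support_iff.1 hd, zero_mul]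
  rw [hprod, hsum1, Finset.sum_congr rfl fun d _ => hterm d, Finset.sum_add_distrib]
  congr 1
  · symm
    refine Finset.sum_subset ?_ ?_
    · intro d hd
      exact Finset.mem_union_left _ (Finset.mem_union_right _ hd)
    · intro d _ hd
      have h5 : (Dc D i).h g r d = 0 := Finsupp.notMem_support_iff.1 hd
      rw [h5, cf_zero, ite_self]
  · rw [Finset.sum_eq_single 1]
    · by_cases h5 : g * r = 1 ∧ (Dc D i).a r ≤ k
      · rw [if_pos ⟨rfl, h5⟩, if_pos h5]
      · rw [if_neg (fun h => h5 h.2), if_neg h5]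
    · intro d _ hd
      rw [if_neg (fun h => hd h.1)]
    · intro h
      exact absurd (Finset.mem_union_right _ (Finset.mem_singleton_self _)) h

open scoped Classical in
include hL hl hb in
/-- The recursion at an element that arises from the middle letters. -/
theorem lead_mid_a {k : ℕ} {u v : List (Ltr M)} {i : ι} {g r c : (M i).Group}
    (hu : Red (u ++ [⟨i, g⟩])) (hv : Red (⟨i, r⟩ :: v)) (hc : c ≠ 1)
    (hz : alL D (u ++ ⟨i, c⟩ :: v) ≤ k) :
    (D.h (pr (u ++ [⟨i, g⟩])) (pr (⟨i, r⟩ :: v)) (pr (u ++ ⟨i, c⟩ :: v))).coeff k =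
      ((Dc D i).h g r c).coeff k +
      if g * r = 1 ∧ (Dc D i).a r ≤ k then
        (D.h (pr u) (pr v) (pr (u ++ ⟨i, c⟩ :: v))).coeff k else 0 := by
  have hu' := red_snoc.1 hu
  have hv' := red_cons.1 hv
  have hred : ∀ z, z ≠ 1 → Red (u ++ ⟨i, z⟩ :: v) := by
    intro z hz
    exact red_mid.2 ⟨hu'.1, hu'.2.1, hz, hv'.2⟩
  rw [lead_mid D hL hl hb hu hv (by rwa [al_pr D (hred c hc)])]
  congr 1
  rw [Finset.sum_eq_single c]
  · rw [if_pos ⟨hc, rfl⟩]
  · intro d _ hd
    rw [if_neg]
    rintro ⟨hd1, h⟩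
    have h1 := pr_inj (hred c hc) (hred d hd1) h
    rw [List.append_cancel_left_eq, List.cons.injEq] at h1
    have h2 := h1.1
    simp only [Sigma.mk.injEq, heq_eq_eq, true_and] at h2
    exact hd h2.symm
  · intro h
    have h5 : (Dc D i).h g r c = 0 := Finsupp.notMem_support_iff.1 h
    rw [h5, cf_zero, ite_self]

open scoped Classical in
include hL hl hb in
/-- The recursion at other elements. -/
theorem lead_mid_b {k : ℕ} {u v : List (Ltr M)} {i : ι} {g r : (M i).Group}
    (hu : Red (u ++ [⟨i, g⟩])) (hv : Red (⟨i, r⟩ :: v)) {z : (sumM M).Group}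
    (hz : al D z ≤ k) (hne : ∀ c, c ≠ 1 → z ≠ pr (u ++ ⟨i, c⟩ :: v)) :
    (D.h (pr (u ++ [⟨i, g⟩])) (pr (⟨i, r⟩ :: v)) z).coeff k =
      if g * r = 1 ∧ (Dc D i).a r ≤ k then (D.h (pr u) (pr v) z).coeff k else 0 := by
  rw [lead_mid D hL hl hb hu hv hz, Finset.sum_eq_zero, zero_add]
  intro c _
  rw [if_neg]
  rintro ⟨h1, h2⟩
  exact hne c h1 h2

/-- Two reduced lists whose concatenation is not reduced. -/
theorem not_red_append {u v : List (Ltr M)} (hu : Red u) (hv : Red v) (hr : ¬ Red (u ++ v)) :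
    ∃ (u' : List (Ltr M)) (i : ι) (g r : (M i).Group) (v' : List (Ltr M)),
      u = u' ++ [⟨i, g⟩] ∧ v = ⟨i, r⟩ :: v' := by
  rw [red_append] at hr
  push Not at hr
  obtain ⟨a, ha, b, hb', hab⟩ := hr hu hv
  obtain ⟨u', rfl⟩ : ∃ u', u = u' ++ [a] := by
    rw [Option.mem_def] at ha
    exact ⟨u.dropLast, (List.dropLast_append_getLast? a ha).symm⟩
  obtain ⟨v', rfl⟩ : ∃ v', v = b :: v' := by
    rw [Option.mem_def, List.head?_eq_some_iff] at hb'
    exact hb'
  obtain ⟨i, x⟩ := a
  obtain ⟨j, y⟩ := b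
  simp only at hab
  subst hab
  exact ⟨u', i, x, y, v', rfl, rfl⟩

include hl hb in
/-- A nonzero leading coefficient of degree `k` in a component. -/
theorem comp_lead {k : ℕ} {i : ι} {g r c : (M i).Group} (hc : (Dc D i).a c ≤ k)
    (h : ((Dc D i).h g r c).coeff k ≠ 0) :
    (Dc D i).a c = k ∧ (Dc D i).a g = k ∧ (Dc D i).a r = k ∧ (Dc D i).g g r c⁻¹ ≠ 0 := by
  have h1 : (Dc D i).a c = k := by
    by_contra hne
    exact h (KLD.h_dle (hb i) g r c k (by omega))
  have h2 : (Dc D i).g g r c⁻¹ ≠ 0 := by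
    rw [KLD.g, inv_inv, h1]
    exact h
  have h3 := (hl i).Q h2
  rw [KLD.a_inv] at h3
  exact ⟨h1, by omega, by omega, h2⟩

include hL hl hb in
/-- Nonzero leading coefficients only occur between elements with the same `al`. -/
theorem lead_Q {k : ℕ} (hk : 0 < k) {z : (sumM M).Group} (hz : al D z = k) :
    ∀ (n : ℕ) (u v : List (Ltr M)), u.length ≤ n → Red u → Red v →
      (D.h (pr u) (pr v) z).coeff k ≠ 0 → alL D u = k ∧ alL D v = k := by
  intro n
  induction n with
  | zero =>
    intro u v hn hu hv h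
    exfalso
    have h0 : u = [] := List.length_eq_zero_iff.1 (by omega)
    subst h0
    exact h (lead_red D hL hl hb hk (by simpa using hv) hz.le)
  | succ n ih =>
    intro u v hn hu hv h
    have hne : D.h (pr u) (pr v) z ≠ 0 := fun h0 => h (by rw [h0, cf_zero])
    have h1 := al_h D hL hl hb hne
    rw [al_pr D hu, al_pr D hv, hz] at h1
    by_cases hr : Red (u ++ v)
    · exact absurd (lead_red D hL hl hb hk hr hz.le) h
    · obtain ⟨u', i, g, r, v', rfl, rfl⟩ := not_red_append hu hv hr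
      have hu' := red_snoc.1 hu
      have hv' := red_cons.1 hv
      rw [List.length_append, List.length_singleton] at hn
      have hal1 : alL D (u' ++ [⟨i, g⟩]) = max (alL D u') ((Dc D i).a g) := by
        rw [alL_append, alL_cons, alL_nil, max_eq_left (Nat.zero_le (al1 D ⟨i, g⟩))]
        rfl
      have hal2 : alL D (⟨i, r⟩ :: v') = max ((Dc D i).a r) (alL D v') := rfl
      rw [hal1, hal2] at h1 ⊢
      by_cases hc : ∃ c, c ≠ 1 ∧ z = pr (u' ++ ⟨i, c⟩ :: v')
      · obtain ⟨c, hc1, hc2⟩ := hc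
        have hred : Red (u' ++ ⟨i, c⟩ :: v') := red_mid.2 ⟨hu'.1, hu'.2.1, hc1, hv'.2⟩
        have hz' : alL D (u' ++ ⟨i, c⟩ :: v') = k := by rw [← al_pr D hred, ← hc2, hz]
        rw [hc2, lead_mid_a D hL hl hb hu hv hc1 hz'.le] at h
        have hac : (Dc D i).a c ≤ k := by
          rw [← hz']
          exact le_alL D (x := ⟨i, c⟩) (by simp)
        by_cases h2 : ((Dc D i).h g r c).coeff k = 0
        · rw [h2, zero_add] at h
          split_ifs at h with h3
          · rw [← hc2] at h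
            have h4 := ih u' v' (by omega) hu'.1 hv'.2.1 h
            omega
          · exact absurd rfl h
        · have h3 := comp_lead D hl hb hac h2
          omega
      · push Not at hc
        rw [lead_mid_b D hL hl hb hu hv hz.le hc] at h
        split_ifs at h with h3
        · have h4 := ih u' v' (by omega) hu'.1 hv'.2.1 h
          omega
        · exact absurd rfl h

include hL hl hb in
/-- The values `al z` are attained, by elements built from given ones. -/
theorem al_attained {z : (sumM M).Group} {u v : List (Ltr M)} {i : ι} {x : (M i).Group}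
    (hz : nf z = u ++ ⟨i, x⟩ :: v) (hx : (Dc D i).a x = al D z) (hu : alL D u < al D z)
    {g r : (M i).Group} (h : ((Dc D i).h g r x).coeff (al D z) ≠ 0) :
    (D.h (pr (u ++ [⟨i, g⟩])) (pr (⟨i, r⟩ :: v)) z).coeff (al D z) ≠ 0 := by
  classical
  set k := al D z with hk
  have hk0 : 0 < k := by omega
  have hred : Red (u ++ ⟨i, x⟩ :: v) := by
    rw [← hz]
    exact red_nf z
  have hred' := red_mid.1 hred
  have hg : g ≠ 1 := by
    rintro rfl
    apply h
    rw [KLD.h_one]
    split_ifs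
    · rw [cf_one, if_neg (by omega)]
    · rw [cf_zero]
  have hr : r ≠ 1 := by
    rintro rfl
    apply h
    rw [KLD.h_inv, inv_one, KLD.h_one]
    split_ifs
    · rw [cf_one, if_neg (by omega)]
    · rw [cf_zero]
  have hz2 : z = pr (u ++ ⟨i, x⟩ :: v) := by rw [← hz, pr_nf]
  have hz3 : alL D (u ++ ⟨i, x⟩ :: v) = k := by rw [← hz]; rfl
  have hu' : Red (u ++ [⟨i, g⟩]) := red_snoc.2 ⟨hred'.1, hred'.2.1, hg⟩
  have hv' : Red (⟨i, r⟩ :: v) := red_cons.2 ⟨hr, hred'.2.2.2⟩
  rw [hz2, lead_mid_a D hL hl hb hu' hv' hred'.2.2.1 hz3.le]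
  have h1 : (D.h (pr u) (pr v) (pr (u ++ ⟨i, x⟩ :: v))).coeff k = 0 := by
    by_contra hne
    have h2 := lead_Q D hL hl hb hk0 (z := pr (u ++ ⟨i, x⟩ :: v)) (by rw [← hz2]) _ u v le_rfl
      hred'.1 hred'.2.2.2.1 hne
    omega
  rw [h1, ite_self, add_zero]
  exact h

include hL hl hb in
theorem a_eq_al (z : (sumM M).Group) : D.a z = al D z := by
  by_cases hz : z = 1
  · rw [hz, al_one, KLD.a_one hL]
  · refine KLD.a_eq (fun x y => h_dle_al D hL hl hb x y z) ?_
    have h0 : 0 < alL D (nf z) := al_pos D hL hb hz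
    obtain ⟨u, i, x, v, h1, h2, h3⟩ := exists_first D h0
    obtain ⟨g, r, h4⟩ := KLD.a_attained (hb i) x
    rw [h2] at h4
    exact ⟨_, _, al_attained D hL hl hb h1 h2 h3 h4⟩

include hL hl hb in
theorem bounded_sum [Finite ι] : D.Bounded := by
  classical
  have := Fintype.ofFinite ι
  have hb2 := hb
  choose n hn using hb2
  have h1 : ∀ l : List (Ltr M), alL D l ≤ Finset.univ.sup n := by
    intro l
    induction l with
    | nil => exact Nat.zero_le _
    | cons x l ih =>
      rw [alL_cons]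
      refine max_le ?_ ih
      refine le_trans ?_ (Finset.le_sup (Finset.mem_univ x.1))
      refine csSup_le' ?_
      rintro k ⟨y, z, h⟩
      by_contra hlt
      exact h (hn x.1 y z x.2 k (by omega))
  refine ⟨Finset.univ.sup n, fun x y z => ?_⟩
  have h2 := h1 (nf z)
  exact (h_dle_al D hL hl hb x y z).mono (by
    have : al D z ≤ Finset.univ.sup n := h2
    omega)

end al

end Pool.Agent.Helper35.KL
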