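import Pool.Agent.Helper10.AM.Fz

/-!
# Amalgams, in the form of the final statement
-/

namespace Pool.Agent.Helper35.KL.AmalgMain

open Pool.Agent.Helper35.KL Pool.Agent.Helper10.AM

theorem main {B : Type} (M : CoxeterMatrix B) (L : M.Group → ℤ) (hL : IsWeight M L)
    (J K : Set B) (hJK : J ∪ K = Set.univ) (h : ∀ s ∈ J \ K, ∀ t ∈ K \ J, M s t = 0) :
    BoundedP1P15 M L ↔
      BoundedP1P15 (subM M (Subtype.val : J → B) Subtype.val_injective) (resL L J) ∧
      BoundedP1P15 (subM M (Subtype.val : K → B) Subtype.val_injective) (resL L K) := by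
  rw [bounded_iff hL, bounded_iff (isWeight_res hL J), bounded_iff (isWeight_res hL K)]
  exact lusztig_amalgam hL J K hJK h

end Pool.Agent.Helper35.KL.AmalgMain
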