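import Pool.Agent.Helper35.KL.AmalgMain
import Pool.Agent.Helper63.LG.PubEq

/-!
# Amalgams, in the form of the final statement, with the definitions of `Pub`
-/

set_option autoImplicit false

namespace Pool.Agent.Helper35.AmalgPub

open Pool.Agent.Helper63.LG.Pub

theorem main {B : Type} (M : CoxeterMatrix B) (L : M.Group → ℤ) (hL : IsWeight M L)
    (J K : Set B) (hJK : J ∪ K = Set.univ) (h : ∀ s ∈ J \ K, ∀ t ∈ K \ J, M s t = 0) :
    Good M L ↔ Good (sub M J) (subL L J) ∧ Good (sub M K) (subL L K) := by
  rw [good_iff, good_iff, good_iff]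
  exact Pool.Agent.Helper35.KL.AmalgMain.main M L (isWeight_iff.1 hL) J K hJK h

end Pool.Agent.Helper35.AmalgPub
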