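import Pool.Agent.Helper35.KL.KLem

/-!
# Hecke algebras: basic lemmas
-/

namespace Pool.Agent.Helper35.KL

section group

variable {B : Type} {M : CoxeterMatrix B}

theorem len_sm_mul (b : B) (w : M.Group) :
    len M (sm M b * w) = len M w + 1 ∨ len M (sm M b * w) + 1 = len M w :=
  M.toCoxeterSystem.length_simple_mul w b

theorem sm_sm (b : B) : sm M b * sm M b = 1 := M.toCoxeterSystem.simple_mul_simple_self b

theorem sm_cancel (b : B) (w : M.Group) : sm M b * (sm M b * w) = w :=
  M.toCoxeterSystem.simple_mul_simple_cancel_left b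

theorem sm_inv (b : B) : (sm M b)⁻¹ = sm M b := M.toCoxeterSystem.inv_simple b

theorem len_one : len M 1 = 0 := M.toCoxeterSystem.length_one

theorem len_inv (w : M.Group) : len M w⁻¹ = len M w := M.toCoxeterSystem.length_inv w

theorem len_sm (b : B) : len M (sm M b) = 1 := M.toCoxeterSystem.length_simple b

theorem len_eq_zero {w : M.Group} : len M w = 0 ↔ w = 1 := M.toCoxeterSystem.length_eq_zero_iff

/-- Induction on the length by multiplication by simple reflections from the left. -/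
theorem len_induction {p : M.Group → Prop} (h1 : p 1)
    (hs : ∀ b w, len M (sm M b * w) = len M w + 1 → p w → p (sm M b * w)) (w : M.Group) : p w := by
  suffices h : ∀ n w, len M w = n → p w from h _ w rfl
  intro n
  induction n with
  | zero =>
    intro w hw
    rw [len_eq_zero] at hw
    rw [hw]
    exact h1
  | succ n ih =>
    intro w hw
    have hne : w ≠ 1 := by
      rintro rfl
      rw [len_one] at hw
      omega
    obtain ⟨b, hb⟩ := M.toCoxeterSystem.exists_leftDescent_of_ne_one hne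
    have h2 : len M (sm M b * w) < len M w := hb
    have h3 := len_sm_mul b w
    have h4 : len M (sm M b * w) = n := by omega
    have h5 := hs b (sm M b * w) (by
      rw [sm_cancel]
      omega) (ih _ h4)
    rwa [sm_cancel] at h5

end group

namespace KLD

variable {B : Type} {M : CoxeterMatrix B} {L : M.Group → ℤ} {H : Type} [Ring H] [Algebra LP H]
variable (D : KLD M L H)

/-- The coefficient in the quadratic relation. -/
noncomputable def xi (b : B) : LP := qq (L (sm M b)) - qq (-L (sm M b))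

theorem T_one : D.T 1 = 1 := by
  have h1 : ∀ w, D.T w * D.T 1 = D.T w := by
    intro w
    rw [← D.T_mul w 1 (by rw [mul_one, len_one, add_zero]), mul_one]
  have h2 : ∀ h : H, h * D.T 1 = h := by
    intro h
    have h3 : h ∈ Submodule.span LP (Set.range D.T) := D.T.mem_span h
    refine Submodule.span_induction (p := fun h _ => h * D.T 1 = h) ?_ ?_ ?_ ?_ h3
    · rintro _ ⟨w, rfl⟩
      exact h1 w
    · rw [zero_mul]
    · intro x y _ _ hx hy
      rw [add_mul, hx, hy]
    · intro a x _ hx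
      rw [smul_mul_assoc, hx]
  have h3 := h2 1
  rwa [one_mul] at h3

theorem T_sm_mul {b : B} {w : M.Group} (h : len M (sm M b * w) = len M w + 1) :
    D.T (sm M b) * D.T w = D.T (sm M b * w) := by
  rw [D.T_mul _ _ (by rw [h, len_sm]; ring)]

theorem T_sm_sq (b : B) : D.T (sm M b) * D.T (sm M b) = 1 + xi (L := L) b • D.T (sm M b) :=
  D.T_sq b

theorem T_sm_mul' {b : B} {w : M.Group} (h : len M (sm M b * w) + 1 = len M w) :
    D.T (sm M b) * D.T w = D.T (sm M b * w) + xi (L := L) b • D.T w := by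
  have h1 : D.T w = D.T (sm M b) * D.T (sm M b * w) := by
    rw [D.T_sm_mul (by rw [sm_cancel]; omega), sm_cancel]
  conv_lhs => rw [h1]
  rw [← mul_assoc, T_sm_sq, add_mul, one_mul, smul_mul_assoc, ← h1]

theorem len_mul_sm (b : B) (w : M.Group) : len M (w * sm M b) = len M (sm M b * w⁻¹) := by
  rw [← len_inv, mul_inv_rev, sm_inv]

theorem T_mul_sm {b : B} {w : M.Group} (h : len M (w * sm M b) = len M w + 1) :
    D.T w * D.T (sm M b) = D.T (w * sm M b) := by
  rw [D.T_mul _ _ (by rw [h, len_sm])]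

theorem T_mul_sm' {b : B} {w : M.Group} (h : len M (w * sm M b) + 1 = len M w) :
    D.T w * D.T (sm M b) = D.T (w * sm M b) + xi (L := L) b • D.T w := by
  have h0 : w * sm M b * sm M b = w := by rw [mul_assoc, sm_sm, mul_one]
  have h1 : D.T w = D.T (w * sm M b) * D.T (sm M b) := by
    rw [D.T_mul_sm (by rw [h0]; omega), h0]
  conv_lhs => rw [h1]
  rw [mul_assoc, T_sm_sq, mul_add, mul_one, mul_smul_comm, ← h1]

/-- A submodule that is stable under `T s` from the left is a left ideal. -/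
theorem left_ideal_of_T (K : Submodule LP H) (hK : ∀ b, ∀ x ∈ K, D.T (sm M b) * x ∈ K)
    (y : H) {x : H} (hx : x ∈ K) : y * x ∈ K := by
  have h1 : ∀ w, ∀ x ∈ K, D.T w * x ∈ K := by
    intro w
    induction w using len_induction with
    | h1 =>
      intro x hx
      rwa [T_one, one_mul]
    | hs b w hl ih =>
      intro x hx
      rw [← D.T_sm_mul hl, mul_assoc]
      exact hK b _ (ih x hx)
  have h3 : y ∈ Submodule.span LP (Set.range D.T) := D.T.mem_span y
  refine Submodule.span_induction (p := fun y _ => y * x ∈ K) ?_ ?_ ?_ ?_ h3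
  · rintro _ ⟨w, rfl⟩
    exact h1 w x hx
  · rw [zero_mul]
    exact K.zero_mem
  · intro a b _ _ ha hb
    rw [add_mul]
    exact K.add_mem ha hb
  · intro a b _ hb
    rw [smul_mul_assoc]
    exact K.smul_mem _ hb

/-! ### The bar involution -/

theorem invert_xi (b : B) : LaurentPolynomial.invert (xi (L := L) b) = -xi (L := L) b := by
  rw [xi, map_sub, LaurentPolynomial.invert_T, LaurentPolynomial.invert_T, neg_neg]
  ring

theorem bar_T_sm (b : B) : D.bar (D.T (sm M b)) = D.T (sm M b) - xi (L := L) b • 1 := by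
  have h1 := D.bar_T (sm M b)
  rw [sm_inv] at h1
  have h2 : D.T (sm M b) * (D.T (sm M b) - xi (L := L) b • 1) = 1 := by
    rw [mul_sub, T_sm_sq, mul_smul_comm, mul_one]
    abel
  calc D.bar (D.T (sm M b)) = D.bar (D.T (sm M b)) *
        (D.T (sm M b) * (D.T (sm M b) - xi (L := L) b • 1)) := by rw [h2, mul_one]
    _ = _ := by rw [← mul_assoc, h1, one_mul]

theorem bar_bar (h : H) : D.bar (D.bar h) = h := by
  have h1 : ∀ w, D.bar (D.bar (D.T w)) = D.T w := by
    intro w
    induction w using len_induction with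
    | h1 => rw [T_one, map_one, map_one]
    | hs b w hl ih =>
      rw [← D.T_sm_mul hl, map_mul, map_mul, ih]
      congr 1
      rw [bar_T_sm, map_sub, bar_T_sm, D.bar_smul, map_one, invert_xi, neg_smul, sub_neg_eq_add,
        sub_add_cancel]
  have h3 : h ∈ Submodule.span LP (Set.range D.T) := D.T.mem_span h
  refine Submodule.span_induction (p := fun h _ => D.bar (D.bar h) = h) ?_ ?_ ?_ ?_ h3
  · rintro _ ⟨w, rfl⟩
    exact h1 w
  · rw [map_zero, map_zero]
  · intro a b _ _ ha hb
    rw [map_add, map_add, ha, hb]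
  · intro a b _ hb
    rw [D.bar_smul, D.bar_smul, hb, invert_invert]

theorem T_mul_mem_Vl (b : B) (n : ℕ) {x : H} (hx : x ∈ Vl D.T (len M) n) :
    D.T (sm M b) * x ∈ Vl D.T (len M) (n + 1) := by
  refine Submodule.span_induction (p := fun x _ => D.T (sm M b) * x ∈ Vl D.T (len M) (n + 1))
    ?_ ?_ ?_ ?_ hx
  · rintro _ ⟨y, hy, rfl⟩
    have hy' : len M y < n := hy
    rcases len_sm_mul b y with h | h
    · rw [D.T_sm_mul h]
      exact mem_Vl _ _ (by omega)
    · rw [D.T_sm_mul' h]
      exact Submodule.add_mem _ (mem_Vl _ _ (by omega))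
        (Submodule.smul_mem _ _ (mem_Vl _ _ (by omega)))
  · rw [mul_zero]
    exact Submodule.zero_mem _
  · intro a b _ _ ha hb
    rw [mul_add]
    exact Submodule.add_mem _ ha hb
  · intro a b _ hb
    rw [mul_smul_comm]
    exact Submodule.smul_mem _ _ hb

theorem bar_T_sub (w : M.Group) : D.bar (D.T w) - D.T w ∈ Vl D.T (len M) (len M w) := by
  induction w using len_induction with
  | h1 =>
    rw [T_one, map_one, sub_self]
    exact Submodule.zero_mem _
  | hs b w hl ih =>
    rw [← D.T_sm_mul hl, map_mul, bar_T_sm, sub_mul, smul_mul_assoc, one_mul, hl]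
    have h1 : D.bar (D.T w) ∈ Vl D.T (len M) (len M w + 1) := by
      have h2 : D.bar (D.T w) = D.T w + (D.bar (D.T w) - D.T w) := by abel
      rw [h2]
      exact Submodule.add_mem _ (mem_Vl _ _ (by omega)) (Vl_mono _ _ (by omega) ih)
    have h3 : D.T (sm M b) * D.bar (D.T w) - xi (L := L) b • D.bar (D.T w) -
        D.T (sm M b) * D.T w = D.T (sm M b) * (D.bar (D.T w) - D.T w) -
          xi (L := L) b • D.bar (D.T w) := by
      rw [mul_sub]
      abel
    rw [h3]
    exact Submodule.sub_mem _ (D.T_mul_mem_Vl b _ ih) (Submodule.smul_mem _ _ h1)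

theorem bar_Vl (n : ℕ) {x : H} (hx : x ∈ Vl D.T (len M) n) : D.bar x ∈ Vl D.T (len M) n := by
  refine Submodule.span_induction (p := fun x _ => D.bar x ∈ Vl D.T (len M) n) ?_ ?_ ?_ ?_ hx
  · rintro _ ⟨y, hy, rfl⟩
    have hy' : len M y < n := hy
    have h2 : D.bar (D.T y) = D.T y + (D.bar (D.T y) - D.T y) := by abel
    rw [h2]
    exact Submodule.add_mem _ (mem_Vl _ _ hy') (Vl_mono _ _ hy'.le (D.bar_T_sub y))
  · rw [map_zero]
    exact Submodule.zero_mem _
  · intro a b _ _ ha hb
    rw [map_add]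
    exact Submodule.add_mem _ ha hb
  · intro a b _ hb
    rw [D.bar_smul]
    exact Submodule.smul_mem _ _ hb

/-- The top coordinates of `bar x`. -/
theorem bar_top {x : H} {w : M.Group} (hw : ∀ y, D.T.repr x y ≠ 0 → len M y ≤ len M w) :
    D.T.repr (D.bar x) w = LaurentPolynomial.invert (D.T.repr x w) := by
  classical
  have h1 : D.T.repr (D.bar x) w =
      ∑ y ∈ (D.T.repr x).support, D.T.repr (D.bar (D.T.repr x y • D.T y)) w := by
    conv_lhs => rw [← D.T.linearCombination_repr x]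
    rw [Finsupp.linearCombination_apply, Finsupp.sum, map_sum, map_sum, Finsupp.finsetSum_apply]
  rw [h1]
  have h2 : ∀ y ∈ (D.T.repr x).support, D.T.repr (D.bar (D.T.repr x y • D.T y)) w =
      if y = w then LaurentPolynomial.invert (D.T.repr x w) else 0 := by
    intro y hy
    have h3 : D.bar (D.T y) = D.T y + (D.bar (D.T y) - D.T y) := by abel
    have h4 : D.T.repr (D.bar (D.T y) - D.T y) w = 0 := by
      by_contra h5
      have h6 := (mem_Vl_iff D.T (len M) _ _).1 (D.bar_T_sub y) w h5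
      have h7 := hw y (Finsupp.mem_support_iff.1 hy)
      omega
    rw [D.bar_smul, h3, map_smul, map_add, Finsupp.smul_apply, Finsupp.add_apply, h4, add_zero,
      Module.Basis.repr_self, Finsupp.single_apply]
    split_ifs with h5
    · rw [h5, smul_eq_mul, mul_one]
    · rw [smul_zero]
  rw [Finset.sum_congr rfl h2, Finset.sum_ite_eq']
  split_ifs with h5
  · rfl
  · rw [Finsupp.notMem_support_iff.1 h5, map_zero]

/-- Uniqueness of bar-invariant elements. -/
theorem bar_unique {x : H} (hb : D.bar x = x) (hx : x ∈ Lat D.T (-1)) : x = 0 := by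
  by_contra hne
  have h0 : D.T.repr x ≠ 0 := fun h => hne (by
    have := congrArg D.T.repr.symm h
    simpa using this)
  have hs : (D.T.repr x).support.Nonempty := Finsupp.support_nonempty_iff.2 h0
  obtain ⟨w, hw, hmax⟩ := Finset.exists_max_image _ (len M) hs
  have h1 := D.bar_top (x := x) (w := w) (fun y hy => hmax y (Finsupp.mem_support_iff.2 hy))
  rw [hb] at h1
  exact (Finsupp.mem_support_iff.1 hw) (eq_zero_of_bar (hx w) h1.symm)

/-- Bar-invariant elements that are congruent modulo negative degrees are equal. -/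
theorem bar_unique' {x y : H} (hx : D.bar x = x) (hy : D.bar y = y) (h : x - y ∈ Lat D.T (-1)) :
    x = y := by
  rw [← sub_eq_zero]
  refine D.bar_unique ?_ h
  rw [map_sub, hx, hy]

theorem C_sub_T_neg (w : M.Group) : D.C w - D.T w ∈ Lat D.T (-1) := fun y => D.C_T w y

theorem C_sub_T (w : M.Group) : D.C w - D.T w ∈ Vl D.T (len M) (len M w) := by
  obtain ⟨k, hk1, hk2, hk3⟩ := klem D.T D.bar.toAddMonoidHom Set.univ (len M) ⊥ D.bar_smul
    D.bar_bar (by
      intro f hf
      rw [Submodule.mem_bot] at hf ⊢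
      rw [hf, map_zero]) (by
      intro f hf w _
      rw [Submodule.mem_bot] at hf
      rw [hf, map_zero, Finsupp.zero_apply]) (by
      intro w _
      have h1 := D.bar_T_sub w
      refine Submodule.mem_sup_left ?_
      simpa [Vl] using h1) w (Set.mem_univ _)
  rw [Submodule.mem_bot] at hk3
  have h1 : D.C w = k := by
    refine D.bar_unique' (D.bar_C w) (sub_eq_zero.1 hk3) ?_
    have h2 : D.C w - k = (D.C w - D.T w) - (k - D.T w) := by abel
    rw [h2]
    exact AddSubgroup.sub_mem _ (D.C_sub_T_neg w) hk2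
  rw [h1]
  simpa [Vl] using hk1

theorem C_eq_triB : D.C = triB D.T (len M) D.C D.C_sub_T :=
  Module.Basis.eq_of_apply_eq fun w => (triB_apply D.T (len M) D.C D.C_sub_T w).symm

theorem T_sub_C_neg (w : M.Group) : D.T w - D.C w ∈ Lat D.C (-1) := by
  have h := tri_neg D.T (len M) D.C D.C_sub_T D.C_sub_T_neg w
  rwa [← C_eq_triB] at h

theorem T_sub_C (w : M.Group) : D.T w - D.C w ∈ Vl D.C (len M) (len M w) :=
  triB_inv D.T (len M) D.C D.C_sub_T w

theorem C_one : D.C 1 = 1 := by
  refine D.bar_unique' (D.bar_C 1) (map_one _) ?_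
  rw [← T_one D]
  exact D.C_sub_T_neg 1

theorem C_sm (hL : IsWeight M L) (b : B) :
    D.C (sm M b) = D.T (sm M b) + qq (-L (sm M b)) • 1 := by
  refine D.bar_unique' (D.bar_C _) ?_ ?_
  · rw [map_add, bar_T_sm, D.bar_smul, map_one, xi, LaurentPolynomial.invert_T, neg_neg, sub_smul]
    abel
  · have h1 : D.C (sm M b) - (D.T (sm M b) + qq (-L (sm M b)) • 1) =
        (D.C (sm M b) - D.T (sm M b)) - qq (-L (sm M b)) • 1 := by abel
    rw [h1]
    refine AddSubgroup.sub_mem _ (D.C_sub_T_neg _) ?_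
    rw [← T_one D]
    have h2 := hL.pos b
    have h3 := smul_Lat D.T (Dle.qq (-L (sm M b))) (basis_mem_Lat D.T 1)
    exact Lat_mono _ (by omega) h3

/-- A submodule that is stable under `C s` from the left is a left ideal. -/
theorem left_ideal_of_C (hL : IsWeight M L) (K : Submodule LP H)
    (hK : ∀ b, ∀ x ∈ K, D.C (sm M b) * x ∈ K) (y : H) {x : H} (hx : x ∈ K) : y * x ∈ K := by
  refine D.left_ideal_of_T K ?_ y hx
  intro b x hx
  have h1 := hK b x hx
  rw [D.C_sm hL, add_mul, smul_mul_assoc, one_mul] at h1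
  have h2 := K.sub_mem h1 (K.smul_mem (qq (-L (sm M b))) hx)
  rwa [add_sub_cancel_right] at h2

/-! ### The anti-involution -/

/-- The anti-involution with `T w ↦ T w⁻¹`. -/
noncomputable def fl : H →ₗ[LP] H := D.T.constr LP fun w => D.T w⁻¹

theorem fl_T (w : M.Group) : D.fl (D.T w) = D.T w⁻¹ := by
  rw [fl, Module.Basis.constr_basis]

theorem fl_one : D.fl 1 = 1 := by
  rw [← T_one D, fl_T, inv_one]

theorem fl_fl (x : H) : D.fl (D.fl x) = x := by
  have h : D.fl.comp D.fl = LinearMap.id := by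
    refine D.T.ext fun w => ?_
    rw [LinearMap.comp_apply, fl_T, fl_T, inv_inv, LinearMap.id_apply]
  exact LinearMap.congr_fun h x

theorem fl_T_sm_mul (b : B) (x : H) : D.fl (D.T (sm M b) * x) = D.fl x * D.T (sm M b) := by
  have h3 : x ∈ Submodule.span LP (Set.range D.T) := D.T.mem_span x
  refine Submodule.span_induction
    (p := fun x _ => D.fl (D.T (sm M b) * x) = D.fl x * D.T (sm M b)) ?_ ?_ ?_ ?_ h3
  · rintro _ ⟨w, rfl⟩
    have h4 : (sm M b * w)⁻¹ = w⁻¹ * sm M b := by rw [mul_inv_rev, sm_inv]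
    have h5 : len M (w⁻¹ * sm M b) = len M (sm M b * w) := by rw [← h4, len_inv]
    rcases len_sm_mul b w with h | h
    · rw [D.T_sm_mul h, fl_T, fl_T, h4, D.T_mul_sm (by rw [h5, len_inv]; exact h)]
    · rw [D.T_sm_mul' h, map_add, map_smul, fl_T, fl_T, h4,
        D.T_mul_sm' (by rw [h5, len_inv]; exact h)]
  · rw [mul_zero, map_zero, zero_mul]
  · intro x y _ _ hx hy
    rw [mul_add, map_add, map_add, add_mul, hx, hy]
  · intro a x _ hx
    rw [mul_smul_comm, map_smul, map_smul, hx, smul_mul_assoc]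

theorem fl_mul (x y : H) : D.fl (x * y) = D.fl y * D.fl x := by
  have h1 : ∀ w y, D.fl (D.T w * y) = D.fl y * D.T w⁻¹ := by
    intro w
    induction w using len_induction with
    | h1 =>
      intro y
      rw [T_one, one_mul, inv_one, T_one, mul_one]
    | hs b w hl ih =>
      intro y
      have h4 : (sm M b * w)⁻¹ = w⁻¹ * sm M b := by rw [mul_inv_rev, sm_inv]
      have h5 : len M (w⁻¹ * sm M b) = len M (sm M b * w) := by rw [← h4, len_inv]
      rw [← D.T_sm_mul hl, mul_assoc, fl_T_sm_mul, ih, mul_assoc,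
        D.T_mul_sm (by rw [h5, len_inv]; exact hl), ← h4]
  have h3 : x ∈ Submodule.span LP (Set.range D.T) := D.T.mem_span x
  refine Submodule.span_induction (p := fun x _ => D.fl (x * y) = D.fl y * D.fl x) ?_ ?_ ?_ ?_ h3
  · rintro _ ⟨w, rfl⟩
    rw [h1, fl_T]
  · rw [zero_mul, map_zero, mul_zero]
  · intro a b _ _ ha hb
    rw [add_mul, map_add, map_add, ha, hb, mul_add]
  · intro a b _ hb
    rw [smul_mul_assoc, map_smul, map_smul, hb, mul_smul_comm]

theorem fl_bar (x : H) : D.fl (D.bar x) = D.bar (D.fl x) := by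
  have h1 : ∀ w, D.fl (D.bar (D.T w)) = D.bar (D.T w⁻¹) := by
    intro w
    induction w using len_induction with
    | h1 => rw [T_one, map_one, fl_one, inv_one, T_one, map_one]
    | hs b w hl ih =>
      have h4 : (sm M b * w)⁻¹ = w⁻¹ * sm M b := by rw [mul_inv_rev, sm_inv]
      have h5 : len M (w⁻¹ * sm M b) = len M (sm M b * w) := by rw [← h4, len_inv]
      rw [← D.T_sm_mul hl, map_mul, fl_mul, ih, h4,
        ← D.T_mul_sm (by rw [h5, len_inv]; exact hl), map_mul, bar_T_sm, map_sub, map_smul,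
        fl_T, fl_one, sm_inv]
  have h3 : x ∈ Submodule.span LP (Set.range D.T) := D.T.mem_span x
  refine Submodule.span_induction (p := fun x _ => D.fl (D.bar x) = D.bar (D.fl x)) ?_ ?_ ?_ ?_ h3
  · rintro _ ⟨w, rfl⟩
    rw [h1, fl_T]
  · rw [map_zero, map_zero, map_zero]
  · intro a b _ _ ha hb
    rw [map_add, map_add, map_add, map_add, ha, hb]
  · intro a b _ hb
    rw [D.bar_smul, map_smul, map_smul, D.bar_smul, hb]

theorem repr_fl (x : H) (w : M.Group) : D.T.repr (D.fl x) w = D.T.repr x w⁻¹ := by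
  classical
  have h3 : x ∈ Submodule.span LP (Set.range D.T) := D.T.mem_span x
  refine Submodule.span_induction (p := fun x _ => D.T.repr (D.fl x) w = D.T.repr x w⁻¹)
    ?_ ?_ ?_ ?_ h3
  · rintro _ ⟨y, rfl⟩
    rw [fl_T, Module.Basis.repr_self, Module.Basis.repr_self, Finsupp.single_apply,
      Finsupp.single_apply]
    by_cases h : y⁻¹ = w
    · rw [if_pos h, if_pos (by rw [← h, inv_inv])]
    · rw [if_neg h, if_neg (fun h' => h (by rw [h', inv_inv]))]
  · rw [map_zero, map_zero, Finsupp.zero_apply, Finsupp.zero_apply]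
  · intro a b _ _ ha hb
    rw [map_add, map_add, map_add, Finsupp.add_apply, Finsupp.add_apply, ha, hb]
  · intro a b _ hb
    rw [map_smul, map_smul, map_smul, Finsupp.smul_apply, Finsupp.smul_apply, hb]

theorem fl_Lat {n : ℤ} {x : H} (hx : x ∈ Lat D.T n) : D.fl x ∈ Lat D.T n := by
  intro w
  rw [repr_fl]
  exact hx _

theorem fl_C (w : M.Group) : D.fl (D.C w) = D.C w⁻¹ := by
  refine D.bar_unique' ?_ (D.bar_C _) ?_
  · rw [← fl_bar, D.bar_C]
  · have h1 : D.fl (D.C w) - D.C w⁻¹ = D.fl (D.C w - D.T w) - (D.C w⁻¹ - D.T w⁻¹) := by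
      rw [map_sub, fl_T]
      abel
    rw [h1]
    exact AddSubgroup.sub_mem _ (D.fl_Lat (D.C_sub_T_neg w)) (D.C_sub_T_neg _)

theorem repr_C_fl (x : H) (w : M.Group) : D.C.repr (D.fl x) w = D.C.repr x w⁻¹ := by
  classical
  have h3 : x ∈ Submodule.span LP (Set.range D.C) := D.C.mem_span x
  refine Submodule.span_induction (p := fun x _ => D.C.repr (D.fl x) w = D.C.repr x w⁻¹)
    ?_ ?_ ?_ ?_ h3
  · rintro _ ⟨y, rfl⟩
    rw [fl_C, Module.Basis.repr_self, Module.Basis.repr_self, Finsupp.single_apply,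
      Finsupp.single_apply]
    by_cases h : y⁻¹ = w
    · rw [if_pos h, if_pos (by rw [← h, inv_inv])]
    · rw [if_neg h, if_neg (fun h' => h (by rw [h', inv_inv]))]
  · rw [map_zero, map_zero, Finsupp.zero_apply, Finsupp.zero_apply]
  · intro a b _ _ ha hb
    rw [map_add, map_add, map_add, Finsupp.add_apply, Finsupp.add_apply, ha, hb]
  · intro a b _ hb
    rw [map_smul, map_smul, map_smul, Finsupp.smul_apply, Finsupp.smul_apply, hb]

theorem h_inv (x y z : M.Group) : D.h x y z = D.h y⁻¹ x⁻¹ z⁻¹ := by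
  rw [h, h, ← fl_C, ← fl_C, ← fl_mul, repr_C_fl, inv_inv]

theorem p_inv (y w : M.Group) : D.p y w = D.p y⁻¹ w⁻¹ := by
  rw [p, p, ← fl_C, repr_fl, inv_inv]

theorem a_inv (w : M.Group) : D.a w⁻¹ = D.a w := by
  rw [a, a]
  congr 1
  ext n
  constructor
  · rintro ⟨x, y, h⟩
    refine ⟨y⁻¹, x⁻¹, ?_⟩
    rwa [h_inv, inv_inv, inv_inv]
  · rintro ⟨x, y, h⟩
    refine ⟨y⁻¹, x⁻¹, ?_⟩
    rwa [← h_inv]

theorem g_inv (x y z : M.Group) : D.g x y z = D.g y⁻¹ x⁻¹ z⁻¹ := by
  rw [g, g, h_inv, a_inv, inv_inv]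

theorem delta_inv (z : M.Group) (d n : ℤ) (h : D.IsDelta z d n) : D.IsDelta z⁻¹ d n := by
  obtain ⟨h1, h2, h3⟩ := h
  rw [p_inv, inv_one] at h2
  refine ⟨h1, h2, fun k hk => ?_⟩
  rw [p_inv, inv_one, inv_inv]
  exact h3 k hk

theorem inD_inv {z : M.Group} (h : D.inD z) : D.inD z⁻¹ := by
  obtain ⟨n, hn⟩ := h
  refine ⟨n, ?_⟩
  rw [a_inv]
  exact D.delta_inv _ _ _ hn

/-! ### The preorders -/

theorem leL_refl (w : M.Group) : D.leL w w := Relation.ReflTransGen.refl

theorem leL_trans {x y z : M.Group} (h1 : D.leL x y) (h2 : D.leL y z) : D.leL x z :=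
  Relation.ReflTransGen.trans h1 h2

theorem leR_trans {x y z : M.Group} (h1 : D.leR x y) (h2 : D.leR y z) : D.leR x z :=
  Relation.ReflTransGen.trans h1 h2

theorem leLR_trans {x y z : M.Group} (h1 : D.leLR x y) (h2 : D.leLR y z) : D.leLR x z :=
  Relation.ReflTransGen.trans h1 h2

theorem leL_leLR {x y : M.Group} (h : D.leL x y) : D.leLR x y :=
  Relation.ReflTransGen.mono (fun _ _ h => Or.inl h) _ _ h

theorem leR_leLR {x y : M.Group} (h : D.leR x y) : D.leLR x y :=
  Relation.ReflTransGen.mono (fun _ _ h => Or.inr h) _ _ h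

theorem simL_symm {x y : M.Group} (h : D.simL x y) : D.simL y x := ⟨h.2, h.1⟩

theorem simL_trans {x y z : M.Group} (h1 : D.simL x y) (h2 : D.simL y z) : D.simL x z :=
  ⟨D.leL_trans h1.1 h2.1, D.leL_trans h2.2 h1.2⟩

theorem simL_simLR {x y : M.Group} (h : D.simL x y) : D.simLR x y :=
  ⟨D.leL_leLR h.1, D.leL_leLR h.2⟩

theorem simR_simLR {x y : M.Group} (h : D.simR x y) : D.simLR x y :=
  ⟨D.leR_leLR h.1, D.leR_leLR h.2⟩

theorem simLR_trans {x y z : M.Group} (h1 : D.simLR x y) (h2 : D.simLR y z) : D.simLR x z :=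
  ⟨D.leLR_trans h1.1 h2.1, D.leLR_trans h2.2 h1.2⟩

theorem stR_inv {y w : M.Group} : D.stR y w ↔ D.stL y⁻¹ w⁻¹ := by
  constructor
  · rintro ⟨b, hb⟩
    refine ⟨b, ?_⟩
    rwa [← repr_C_fl, fl_mul, fl_C, fl_C, inv_inv, sm_inv]
  · rintro ⟨b, hb⟩
    refine ⟨b, ?_⟩
    rwa [← repr_C_fl, fl_mul, fl_C, fl_C, inv_inv, sm_inv] at hb

theorem leR_inv {y w : M.Group} : D.leR y w ↔ D.leL y⁻¹ w⁻¹ := by
  constructor
  · intro h
    exact Relation.ReflTransGen.lift (fun x => x⁻¹) (fun a b hab => D.stR_inv.1 hab) _ _ h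
  · intro h
    have h2 := Relation.ReflTransGen.lift (p := D.stR) (fun x => x⁻¹)
      (fun a b hab => D.stR_inv.2 (by rwa [inv_inv, inv_inv])) _ _ h
    simp only [Function.onFun, inv_inv] at h2
    exact h2

theorem simR_inv {y w : M.Group} : D.simR y w ↔ D.simL y⁻¹ w⁻¹ := by
  rw [simR, simL, leR_inv, leR_inv]

theorem leL_inv {y w : M.Group} : D.leL y w ↔ D.leR y⁻¹ w⁻¹ := by
  rw [leR_inv, inv_inv, inv_inv]

/-- The elements below `w` in the left preorder span a left ideal. -/
theorem leL_ideal (hL : IsWeight M L) (w : M.Group) (y : H) {x : H}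
    (hx : x ∈ Submodule.span LP (D.C '' {z | D.leL z w})) :
    y * x ∈ Submodule.span LP (D.C '' {z | D.leL z w}) := by
  refine D.left_ideal_of_C hL _ ?_ y hx
  intro b x hx
  refine Submodule.span_induction
    (p := fun x _ => D.C (sm M b) * x ∈ Submodule.span LP (D.C '' {z | D.leL z w})) ?_ ?_ ?_ ?_ hx
  · rintro _ ⟨z, hz, rfl⟩
    rw [Module.Basis.mem_span_image]
    intro z' hz'
    exact D.leL_trans (Relation.ReflTransGen.single ⟨b, Finsupp.mem_support_iff.1 hz'⟩) hz
  · rw [mul_zero]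
    exact Submodule.zero_mem _
  · intro a b _ _ ha hb
    rw [mul_add]
    exact Submodule.add_mem _ ha hb
  · intro a b _ hb
    rw [mul_smul_comm]
    exact Submodule.smul_mem _ _ hb

theorem leL_of_repr (hL : IsWeight M L) {y : H} {w z : M.Group}
    (h : D.C.repr (y * D.C w) z ≠ 0) : D.leL z w := by
  have h1 := D.leL_ideal hL w y (x := D.C w) (Submodule.subset_span ⟨w, D.leL_refl w, rfl⟩)
  rw [Module.Basis.mem_span_image] at h1
  exact h1 (Finsupp.mem_support_iff.2 h)

theorem leR_of_repr (hL : IsWeight M L) {y : H} {w z : M.Group}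
    (h : D.C.repr (D.C w * y) z ≠ 0) : D.leR z w := by
  rw [leR_inv]
  have h1 : D.C.repr (D.fl y * D.C w⁻¹) z⁻¹ ≠ 0 := by
    rw [← fl_C, ← fl_mul, repr_C_fl, inv_inv]
    exact h
  exact D.leL_of_repr hL h1

theorem leL_of_h (hL : IsWeight M L) {x y z : M.Group} (h : D.h x y z ≠ 0) : D.leL z y :=
  D.leL_of_repr hL h

theorem leR_of_h (hL : IsWeight M L) {x y z : M.Group} (h : D.h x y z ≠ 0) : D.leR z x :=
  D.leR_of_repr hL h

/-! ### The function `a` -/

open scoped Classical in
theorem h_one (w z : M.Group) : D.h 1 w z = if w = z then 1 else 0 := by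
  rw [h, C_one, one_mul, Module.Basis.repr_self, Finsupp.single_apply]

variable {D}

theorem a_bdd (hb : D.Bounded) (w : M.Group) :
    BddAbove {n : ℕ | ∃ x y, (D.h x y w).coeff n ≠ 0} := by
  obtain ⟨N, hN⟩ := hb
  refine ⟨N, ?_⟩
  rintro n ⟨x, y, h⟩
  by_contra hlt
  exact h (hN x y w n (by omega))

theorem h_dle (hb : D.Bounded) (x y z : M.Group) : Dle (D.a z) (D.h x y z) := by
  intro k hk
  by_contra hne
  have h1 : (k.toNat : ℤ) = k := Int.toNat_of_nonneg (by omega)
  have h2 : k.toNat ≤ D.a z := le_csSup (a_bdd hb z) ⟨x, y, by rwa [h1]⟩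
  omega

theorem a_attained (hb : D.Bounded) (z : M.Group) : ∃ x y, (D.h x y z).coeff (D.a z) ≠ 0 := by
  have h0 : {n : ℕ | ∃ x y, (D.h x y z).coeff n ≠ 0}.Nonempty := by
    refine ⟨0, 1, z, ?_⟩
    rw [h_one, if_pos rfl]
    simp
  exact Nat.sSup_mem h0 (a_bdd hb z)

/-- Characterization of `a`. -/
theorem a_eq {z : M.Group} {n : ℕ} (h : ∀ x y, Dle n (D.h x y z))
    (h2 : ∃ x y, (D.h x y z).coeff n ≠ 0) : D.a z = n := by
  have h1 : IsGreatest {n : ℕ | ∃ x y, (D.h x y z).coeff n ≠ 0} n := by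
    refine ⟨h2, ?_⟩
    rintro k ⟨x, y, hk⟩
    by_contra hlt
    exact hk (h x y k (by omega))
  exact h1.csSup_eq

end KLD

end Pool.Agent.Helper35.KL
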