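import Pool.Agent.Helper35.KL.Fil

/-!
# Consequences of P1-P15 for a component
-/

namespace Pool.Agent.Helper35.KL

theorem exists_lead {a : LP} (ha : a ≠ 0) : ∃ k : ℤ, a.coeff k ≠ 0 ∧ Dle k a := by
  classical
  have hs : a.coeff.support.Nonempty := by
    rw [Finsupp.support_nonempty_iff]
    intro h
    exact ha (AddMonoidAlgebra.coeff_eq_zero.1 h)
  obtain ⟨k, hk, hmax⟩ := Finset.exists_max_image a.coeff.support id hs
  refine ⟨k, Finsupp.mem_support_iff.1 hk, fun j hj => ?_⟩
  by_contra hne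
  have := hmax j (Finsupp.mem_support_iff.2 hne)
  simp only [id] at this
  omega

namespace KLD

variable {B : Type} {M : CoxeterMatrix B} {L : M.Group → ℤ} {H : Type} [Ring H] [Algebra LP H]
variable {D : KLD M L H}

/-- The coefficient of degree `-a z` in `p 1 z`. -/
noncomputable def nn (D : KLD M L H) (z : M.Group) : ℤ := (D.p 1 z).coeff (-D.a z)

theorem Lus.P1' (hl : D.Lus) (w : M.Group) : Dle (-D.a w) (D.p 1 w) := by
  by_cases h : D.p 1 w = 0
  · rw [h]
    exact Dle.zero _
  · obtain ⟨k, hk, hk2⟩ := exists_lead h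
    have h1 := hl.P1 w (-k) ((D.p 1 w).coeff k) ⟨hk, by rw [neg_neg], by
      intro j hj
      exact hk2 j (by omega)⟩
    exact hk2.mono (by omega)

theorem inD_iff (h : ∀ w, Dle (-D.a w) (D.p 1 w)) (z : M.Group) : D.inD z ↔ D.nn z ≠ 0 := by
  constructor
  · rintro ⟨n, hn, h2, -⟩
    rw [nn, h2]
    exact hn
  · intro hn
    exact ⟨D.nn z, hn, rfl, h z⟩

theorem Lus.inD_nn (hl : D.Lus) {z : M.Group} : D.inD z ↔ D.nn z ≠ 0 := inD_iff hl.P1' z

theorem delta_nn {z : M.Group} {n : ℤ} (h : D.IsDelta z (D.a z) n) : n = D.nn z := h.2.1.symm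

theorem Lus.delta (hl : D.Lus) {z : M.Group} (h : D.inD z) : D.IsDelta z (D.a z) (D.nn z) := by
  obtain ⟨n, hn⟩ := h
  have := delta_nn hn
  rwa [this] at hn

theorem Lus.a_leL (hl : D.Lus) {z w : M.Group} (h : D.leL z w) : D.a w ≤ D.a z :=
  hl.P4 z w (D.leL_leLR h)

theorem Lus.a_leR (hl : D.Lus) {z w : M.Group} (h : D.leR z w) : D.a w ≤ D.a z :=
  hl.P4 z w (D.leR_leLR h)

theorem Lus.a_simL (hl : D.Lus) {z w : M.Group} (h : D.simL z w) : D.a z = D.a w :=
  le_antisymm (hl.a_leL h.2) (hl.a_leL h.1)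

theorem Lus.Q (hl : D.Lus) {x y z : M.Group} (h : D.g x y z ≠ 0) :
    D.a x = D.a z ∧ D.a y = D.a z := by
  obtain ⟨h1, h2, h3⟩ := hl.P8 x y z h
  have e1 := hl.a_simL h1
  have e2 := hl.a_simL h2
  rw [a_inv] at e1 e2
  exact ⟨by omega, e2⟩

theorem Lus.inv_of_inD (hl : D.Lus) {z : M.Group} (h : D.inD z) : z⁻¹ = z := by
  have h1 := hl.P6 z h
  rw [pow_two] at h1
  exact inv_eq_of_mul_eq_one_left h1

/-- The ideal spanned by the `C w` with `a w ≥ N`. -/
noncomputable def Lus.fil (hl : D.Lus) (hL : IsWeight M L) (N : ℕ) : Fil D where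
  E := D.C
  hv w := N ≤ D.a w
  E_sub := D.C_sub_T
  bar_E := D.bar_C
  mulL x w hw := by
    have h1 := D.leL_ideal hL w x (x := D.C w) (Submodule.subset_span ⟨w, D.leL_refl w, rfl⟩)
    refine Submodule.span_mono (Set.image_mono ?_) h1
    intro z hz
    exact le_trans hw (hl.a_leL hz)
  mulR x w hw := by
    rw [Module.Basis.mem_span_image]
    intro z hz
    exact le_trans hw (hl.a_leR (D.leR_of_repr hL (Finsupp.mem_support_iff.1 hz)))

section fil

variable (hl : D.Lus) (hL : IsWeight M L) (hb : D.Bounded) {N : ℕ}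

theorem Lus.fil_E (w : M.Group) : (hl.fil hL N).E w = D.C w := rfl

theorem Lus.fil_hv (w : M.Group) : (hl.fil hL N).hv w ↔ N ≤ D.a w := Iff.rfl

theorem Lus.C_mem_I {w : M.Group} (h : N ≤ D.a w) : D.C w ∈ (hl.fil hL N).I :=
  (hl.fil hL N).E_mem h

/-- `T w` is in the lattice; if `w` is in the index set of the ideal the coordinates are
negative. -/
theorem Lus.T_Lam (w : M.Group) : D.T w ∈ (hl.fil hL N).Lam 0 ∧
    (N ≤ D.a w → D.T w ∈ (hl.fil hL N).Lam (-1)) := by
  classical
  suffices h : ∀ n w, len M w < n → D.T w ∈ (hl.fil hL N).Lam 0 ∧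
    (N ≤ D.a w → D.T w ∈ (hl.fil hL N).Lam (-1)) from h _ w (Nat.lt_succ_self _)
  intro n
  induction n with
  | zero => intro w hw; omega
  | succ n ih =>
    intro w hwn
    by_cases hw : N ≤ D.a w
    · have h1 : D.T w ∈ (hl.fil hL N).Lam (-1) := by
        have h2 : D.T w - (-(D.C w - D.T w)) ∈ (hl.fil hL N).I := by
          have h3 : D.T w - (-(D.C w - D.T w)) = D.C w := by abel
          rw [h3]
          exact hl.C_mem_I hL hw
        refine (hl.fil hL N).Lam_congr h2 (AddSubgroup.neg_mem _ ?_)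
        rw [← D.T.linearCombination_repr (D.C w - D.T w), Finsupp.linearCombination_apply,
          Finsupp.sum]
        refine AddSubgroup.sum_mem _ fun y hy => ?_
        have h4 := (mem_Vl_iff D.T (len M) _ _).1 (D.C_sub_T w) y (Finsupp.mem_support_iff.1 hy)
        have h5 := (hl.fil hL N).smul_Lam (D.C_T w y) (ih y (by omega)).1
        rwa [add_zero] at h5
      exact ⟨(hl.fil hL N).Lam_mono (by omega) h1, fun _ => h1⟩
    · exact ⟨(hl.fil hL N).T_Lam hw, fun h => absurd h hw⟩

include hb in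
/-- The coordinate of `T w` at `1`. -/
theorem Lus.cc_T_one (hN : 0 < N) {w : M.Group} (hw : N ≤ D.a w) :
    Dle (-N) ((hl.fil hL N).cc (D.T w) 1) ∧
      ((hl.fil hL N).cc (D.T w) 1).coeff (-N) = -(D.p 1 w).coeff (-N) := by
  classical
  suffices h : ∀ n w, len M w < n → N ≤ D.a w → Dle (-N) ((hl.fil hL N).cc (D.T w) 1) ∧
      ((hl.fil hL N).cc (D.T w) 1).coeff (-N) = -(D.p 1 w).coeff (-N) from
    h _ w (Nat.lt_succ_self _) hw
  intro n
  induction n with
  | zero => intro w hw; omega
  | succ n ih =>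
    intro w hwn hw
    have ha1 : D.a 1 = 0 := a_one hL
    have hw1 : w ≠ 1 := by
      rintro rfl
      omega
    have hT1 : (hl.fil hL N).cc (D.T 1) = Finsupp.single 1 1 := (hl.fil hL N).cc_T (by
      rw [hl.fil_hv hL, ha1]
      omega)
    have h2 : (hl.fil hL N).cc (D.T w) = -(hl.fil hL N).cc (D.C w - D.T w) := by
      rw [map_sub, (hl.fil hL N).cc_I (hl.C_mem_I hL hw), zero_sub, neg_neg]
    have h3 : (hl.fil hL N).cc (D.C w - D.T w) 1 =
        ∑ y ∈ (D.T.repr (D.C w - D.T w)).support,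
          D.T.repr (D.C w - D.T w) y * (hl.fil hL N).cc (D.T y) 1 := by
      conv_lhs => rw [← D.T.linearCombination_repr (D.C w - D.T w)]
      rw [Finsupp.linearCombination_apply, Finsupp.sum, map_sum, Finsupp.finsetSum_apply]
      refine Finset.sum_congr rfl fun y _ => ?_
      rw [map_smul, Finsupp.smul_apply, smul_eq_mul]
    have h4 : ∀ y ∈ (D.T.repr (D.C w - D.T w)).support, y ≠ 1 →
        Dle (-N - 1) (D.T.repr (D.C w - D.T w) y * (hl.fil hL N).cc (D.T y) 1) := by
      intro y hy hy1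
      by_cases hyN : N ≤ D.a y
      · have h5 := (mem_Vl_iff D.T (len M) _ _).1 (D.C_sub_T w) y (Finsupp.mem_support_iff.1 hy)
        exact (D.C_T w y).mul_of_eq (ih y (by omega) hyN).1 (by omega)
      · rw [(hl.fil hL N).cc_T hyN, Finsupp.single_apply, if_neg hy1, mul_zero]
        exact Dle.zero _
    have hp1 : D.T.repr (D.C w - D.T w) 1 = D.p 1 w := by
      rw [map_sub, Finsupp.sub_apply, Module.Basis.repr_self, Finsupp.single_apply, if_neg hw1,
        sub_zero]
      rfl
    have h5 : Dle (-N - 1) ((hl.fil hL N).cc (D.C w - D.T w) 1 - D.p 1 w) := by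
      rw [h3]
      by_cases h1s : (1 : M.Group) ∈ (D.T.repr (D.C w - D.T w)).support
      · rw [← Finset.sum_erase_add _ _ h1s, hT1, Finsupp.single_eq_same, mul_one, hp1,
          add_sub_cancel_right]
        refine Dle.sum _ fun y hy => ?_
        rw [Finset.mem_erase] at hy
        exact h4 y hy.2 hy.1
      · have h6 : D.p 1 w = 0 := by
          rw [← hp1]
          exact Finsupp.notMem_support_iff.1 h1s
        rw [h6, sub_zero]
        refine Dle.sum _ fun y hy => h4 y hy ?_
        rintro rfl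
        exact h1s hy
    have h6 := (hl.P1' w).mono (show -(D.a w : ℤ) ≤ -N by omega)
    have h7 : (hl.fil hL N).cc (D.C w - D.T w) 1 =
        ((hl.fil hL N).cc (D.C w - D.T w) 1 - D.p 1 w) + D.p 1 w := by ring
    rw [h2, Finsupp.neg_apply]
    refine ⟨?_, ?_⟩
    · rw [h7]
      exact ((h5.mono (by omega)).add h6).neg
    · rw [h7, cf_neg, cf_add, h5 _ (by omega), zero_add]

include hb in
/-- The coordinate of `C z` at `1`. -/
theorem Lus.cc_C_one (hN : 0 < N) {z : M.Group} (hz : D.a z < N) :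
    Dle (-D.a z) ((hl.fil hL N).cc (D.C z) 1) ∧
      ((hl.fil hL N).cc (D.C z) 1).coeff (-D.a z) = D.nn z := by
  classical
  have ha1 : D.a 1 = 0 := a_one hL
  have hT1 : (hl.fil hL N).cc (D.T 1) = Finsupp.single 1 1 := (hl.fil hL N).cc_T (by
    rw [hl.fil_hv hL, ha1]
    omega)
  have h3 : (hl.fil hL N).cc (D.C z) 1 =
      ∑ y ∈ (D.T.repr (D.C z)).support, D.T.repr (D.C z) y * (hl.fil hL N).cc (D.T y) 1 := by
    conv_lhs => rw [← D.T.linearCombination_repr (D.C z)]
    rw [Finsupp.linearCombination_apply, Finsupp.sum, map_sum, Finsupp.finsetSum_apply]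
    refine Finset.sum_congr rfl fun y _ => ?_
    rw [map_smul, Finsupp.smul_apply, smul_eq_mul]
  have h4 : ∀ y ∈ (D.T.repr (D.C z)).support, y ≠ 1 →
      Dle (-N - 1) (D.T.repr (D.C z) y * (hl.fil hL N).cc (D.T y) 1) := by
    intro y hy hy1
    by_cases hyN : N ≤ D.a y
    · have hyz : y ≠ z := by
        rintro rfl
        omega
      have h5 : Dle (-1) (D.T.repr (D.C z) y) := by
        have h6 := D.C_T z y
        rwa [map_sub, Finsupp.sub_apply, Module.Basis.repr_self, Finsupp.single_apply,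
          if_neg (Ne.symm hyz), sub_zero] at h6
      exact h5.mul_of_eq (hl.cc_T_one hL hb hN hyN).1 (by omega)
    · rw [(hl.fil hL N).cc_T hyN, Finsupp.single_apply, if_neg hy1, mul_zero]
      exact Dle.zero _
  have h5 : Dle (-N - 1) ((hl.fil hL N).cc (D.C z) 1 - D.p 1 z) := by
    rw [h3]
    by_cases h1s : (1 : M.Group) ∈ (D.T.repr (D.C z)).support
    · rw [← Finset.sum_erase_add _ _ h1s, hT1, Finsupp.single_eq_same, mul_one, p,
        add_sub_cancel_right]
      refine Dle.sum _ fun y hy => ?_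
      rw [Finset.mem_erase] at hy
      exact h4 y hy.2 hy.1
    · have h6 : D.p 1 z = 0 := Finsupp.notMem_support_iff.1 h1s
      rw [h6, sub_zero]
      refine Dle.sum _ fun y hy => h4 y hy ?_
      rintro rfl
      exact h1s hy
  have h7 : (hl.fil hL N).cc (D.C z) 1 =
      ((hl.fil hL N).cc (D.C z) 1 - D.p 1 z) + D.p 1 z := by ring
  refine ⟨?_, ?_⟩
  · rw [h7]
    exact (h5.mono (by omega)).add (hl.P1' z)
  · rw [h7, cf_add, h5 _ (by omega), zero_add]
    rfl

include hb in
/-- Products of elements of the lattice of the basis `C`. -/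
theorem repr_mul_dle {m n : ℤ} {x y : H} (hx : x ∈ Lat D.C m) (hy : y ∈ Lat D.C n)
    (z : M.Group) : Dle (m + n + D.a z) (D.C.repr (x * y) z) := by
  classical
  have h1 : D.C.repr (x * y) z = ∑ u ∈ (D.C.repr x).support, ∑ v ∈ (D.C.repr y).support,
      D.C.repr x u * D.C.repr y v * D.h u v z := by
    conv_lhs => rw [← D.C.linearCombination_repr x, ← D.C.linearCombination_repr y]
    rw [Finsupp.linearCombination_apply, Finsupp.linearCombination_apply, Finsupp.sum, Finsupp.sum,
      Finset.sum_mul, map_sum, Finsupp.finsetSum_apply]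
    refine Finset.sum_congr rfl fun u _ => ?_
    rw [Finset.mul_sum, map_sum, Finsupp.finsetSum_apply]
    refine Finset.sum_congr rfl fun v _ => ?_
    rw [smul_mul_assoc, mul_smul_comm, smul_smul, map_smul, Finsupp.smul_apply, smul_eq_mul]
    rfl
  rw [h1]
  refine Dle.sum _ fun u _ => Dle.sum _ fun v _ => ?_
  exact ((hx u).mul (hy v)).mul (h_dle hb u v z)

theorem T_mem_Lat_C (w : M.Group) : D.T w ∈ Lat D.C 0 := by
  have h1 : D.T w = D.C w + (D.T w - D.C w) := by abel
  rw [h1]
  exact AddSubgroup.add_mem _ (basis_mem_Lat D.C w) (Lat_mono _ (by norm_num) (D.T_sub_C_neg w))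

include hb in
/-- The coordinates of `T x * T y` in the basis `C`. -/
theorem repr_TT (x y z : M.Group) : Dle (D.a z) (D.C.repr (D.T x * D.T y) z) ∧
    (D.C.repr (D.T x * D.T y) z).coeff (D.a z) = (D.h x y z).coeff (D.a z) := by
  have h1 : D.T x * D.T y = D.C x * D.C y + ((D.T x - D.C x) * D.T y +
      D.C x * (D.T y - D.C y)) := by
    rw [sub_mul, mul_sub]
    abel
  have h2 := repr_mul_dle hb (D.T_sub_C_neg x) (T_mem_Lat_C y) z
  have h3 := repr_mul_dle hb (basis_mem_Lat D.C x) (D.T_sub_C_neg y) z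
  have h4 : D.C.repr (D.T x * D.T y) z = D.h x y z +
      (D.C.repr ((D.T x - D.C x) * D.T y) z + D.C.repr (D.C x * (D.T y - D.C y)) z) := by
    rw [h1, map_add, map_add, Finsupp.add_apply, Finsupp.add_apply]
    rfl
  refine ⟨?_, ?_⟩
  · rw [h4]
    exact (h_dle hb x y z).add ((h2.mono (by omega)).add (h3.mono (by omega)))
  · rw [h4, cf_add, cf_add, h2 _ (by omega), h3 _ (by omega)]
    ring

/-- From coordinates in the basis `C` to coordinates modulo the ideal. -/
theorem Lus.cc_of_C {n : ℤ} {v : H} (hv : ∀ z, D.a z < N → Dle n (D.C.repr v z)) :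
    v ∈ (hl.fil hL N).Lam n ∧ ∀ z, D.a z < N →
      ((hl.fil hL N).cc v z).coeff n = (D.C.repr v z).coeff n := by
  classical
  have h1 : ∀ w, (hl.fil hL N).cc v w = ∑ z ∈ (D.C.repr v).support.filter fun z => D.a z < N,
      D.C.repr v z * (hl.fil hL N).cc (D.C z) w := by
    intro w
    conv_lhs => rw [← D.C.linearCombination_repr v]
    rw [Finsupp.linearCombination_apply, Finsupp.sum, map_sum, Finsupp.finsetSum_apply,
      Finset.sum_filter]
    refine Finset.sum_congr rfl fun z _ => ?_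
    rw [map_smul, Finsupp.smul_apply, smul_eq_mul]
    split_ifs with h
    · rfl
    · rw [(hl.fil hL N).cc_I (hl.C_mem_I hL (by omega)), Finsupp.zero_apply, mul_zero]
  have h2 : ∀ z w, D.a z < N → (hl.fil hL N).cc (D.C z) w = (if z = w then 1 else 0) +
      (hl.fil hL N).cc (D.C z - D.T z) w := by
    intro z w hz
    have h3 : D.C z = D.T z + (D.C z - D.T z) := by abel
    conv_lhs => rw [h3]
    rw [map_add, Finsupp.add_apply, (hl.fil hL N).cc_T (by
      rw [hl.fil_hv hL]
      omega), Finsupp.single_apply]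
  have h3 : ∀ z, (D.C z - D.T z) ∈ (hl.fil hL N).Lam (-1) :=
    (hl.fil hL N).C_sub_Lam fun w => (hl.T_Lam hL w).1
  have h4 : ∀ w, ∃ r : LP, Dle (n - 1) r ∧ (hl.fil hL N).cc v w =
      (if D.a w < N then D.C.repr v w else 0) + r := by
    intro w
    refine ⟨∑ z ∈ (D.C.repr v).support.filter fun z => D.a z < N,
      D.C.repr v z * (hl.fil hL N).cc (D.C z - D.T z) w, ?_, ?_⟩
    · refine Dle.sum _ fun z hz => ?_
      rw [Finset.mem_filter] at hz
      exact (hv z hz.2).mul_of_eq (h3 z w) (by omega)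
    · rw [h1]
      have h5 : ∀ z ∈ (D.C.repr v).support.filter fun z => D.a z < N,
          D.C.repr v z * (hl.fil hL N).cc (D.C z) w = (if z = w then D.C.repr v w else 0) +
            D.C.repr v z * (hl.fil hL N).cc (D.C z - D.T z) w := by
        intro z hz
        rw [Finset.mem_filter] at hz
        rw [h2 z w hz.2, mul_add]
        congr 1
        split_ifs with h
        · rw [mul_one, h]
        · rw [mul_zero]
      rw [Finset.sum_congr rfl h5, Finset.sum_add_distrib, Finset.sum_ite_eq']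
      congr 1
      by_cases hw : D.a w < N
      · rw [if_pos hw]
        split_ifs with h6
        · rfl
        · rw [Finset.mem_filter, not_and] at h6
          by_contra hne
          exact h6 (Finsupp.mem_support_iff.2 (Ne.symm hne)) hw
      · rw [if_neg hw, if_neg]
        intro h6
        rw [Finset.mem_filter] at h6
        exact hw h6.2
  constructor
  · intro w
    obtain ⟨r, hr, hr2⟩ := h4 w
    rw [hr2]
    refine Dle.add ?_ (hr.mono (by omega))
    split_ifs with hw
    · exact hv w hw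
    · exact Dle.zero _
  · intro w hw
    obtain ⟨r, hr, hr2⟩ := h4 w
    rw [hr2, if_pos hw, cf_add, hr n (by omega), add_zero]

include hb in
/-- The coordinates of `T x * T y`. -/
theorem Lus.cc_TT (x y : M.Group) : D.T x * D.T y ∈ (hl.fil hL N).Lam (N - 1) ∧
    ∀ z, D.a z < N →
      ((hl.fil hL N).cc (D.T x * D.T y) z).coeff (N - 1) = (D.h x y z).coeff (N - 1) := by
  have h1 : ∀ z, D.a z < N → Dle (N - 1) (D.C.repr (D.T x * D.T y) z) := by
    intro z hz
    exact (repr_TT hb x y z).1.mono (by omega)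
  obtain ⟨h2, h3⟩ := hl.cc_of_C hL h1
  refine ⟨h2, fun z hz => ?_⟩
  rw [h3 z hz]
  rcases Nat.lt_or_ge (D.a z + 1) N with h | h
  · rw [(repr_TT hb x y z).1 _ (by omega), h_dle hb x y z _ (by omega)]
  · have h4 : (N : ℤ) - 1 = D.a z := by omega
    rw [h4, (repr_TT hb x y z).2]

include hb in
open scoped Classical in
/-- The coordinate of `T x * T y` at `1`. -/
theorem Lus.cc_TT_one (hN : 0 < N) (x y : M.Group) :
    Dle 0 ((hl.fil hL N).cc (D.T x * D.T y) 1) ∧
      ((hl.fil hL N).cc (D.T x * D.T y) 1).coeff 0 =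
        if x * y = 1 ∧ D.a y < N then 1 else 0 := by
  classical
  have h1 : (hl.fil hL N).cc (D.T x * D.T y) 1 =
      ∑ z ∈ (D.C.repr (D.T x * D.T y)).support.filter fun z => D.a z < N,
        D.C.repr (D.T x * D.T y) z * (hl.fil hL N).cc (D.C z) 1 := by
    conv_lhs => rw [← D.C.linearCombination_repr (D.T x * D.T y)]
    rw [Finsupp.linearCombination_apply, Finsupp.sum, map_sum, Finsupp.finsetSum_apply,
      Finset.sum_filter]
    refine Finset.sum_congr rfl fun z _ => ?_
    rw [map_smul, Finsupp.smul_apply, smul_eq_mul]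
    split_ifs with h
    · rfl
    · rw [(hl.fil hL N).cc_I (hl.C_mem_I hL (by omega)), Finsupp.zero_apply, mul_zero]
  have h2 : ∀ z, D.a z < N → Dle 0 (D.C.repr (D.T x * D.T y) z * (hl.fil hL N).cc (D.C z) 1) ∧
      (D.C.repr (D.T x * D.T y) z * (hl.fil hL N).cc (D.C z) 1).coeff 0 =
        (D.h x y z).coeff (D.a z) * D.nn z := by
    intro z hz
    have h3 := repr_TT hb x y z
    have h4 := hl.cc_C_one hL hb hN hz
    refine ⟨h3.1.mul_of_eq h4.1 (by omega), ?_⟩
    have h5 := cf_mul_lead h3.1 h4.1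
    rw [add_neg_cancel] at h5
    rw [h5, h3.2, h4.2]
  refine ⟨?_, ?_⟩
  · rw [h1]
    refine Dle.sum _ fun z hz => ?_
    rw [Finset.mem_filter] at hz
    exact (h2 z hz.2).1
  · rw [h1, cf_sum]
    have h3 : ∀ z ∈ (D.C.repr (D.T x * D.T y)).support.filter fun z => D.a z < N,
        (D.C.repr (D.T x * D.T y) z * (hl.fil hL N).cc (D.C z) 1).coeff 0 =
          (D.h x y z).coeff (D.a z) * D.nn z := by
      intro z hz
      rw [Finset.mem_filter] at hz
      exact (h2 z hz.2).2
    rw [Finset.sum_congr rfl h3]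
    have h4 : ∀ z, D.nn z ≠ 0 → (D.h x y z).coeff (D.a z) ≠ 0 →
        D.inD z ∧ D.g x y z ≠ 0 ∧ D.g x y z = (D.h x y z).coeff (D.a z) := by
      intro z hz1 hz2
      have h5 : D.inD z := hl.inD_nn.2 hz1
      have h6 : D.g x y z = (D.h x y z).coeff (D.a z) := by
        rw [g, hl.inv_of_inD h5]
      exact ⟨h5, by rwa [h6], h6⟩
    by_cases hxy : x * y = 1
    · have hx : x = y⁻¹ := eq_inv_of_mul_eq_one_left hxy
      obtain ⟨z0, ⟨hz1, hz2⟩, huniq⟩ := hl.P3 y
      have hz3 : (D.h x y z0).coeff (D.a z0) = D.g y⁻¹ y z0 := by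
        rw [g, hl.inv_of_inD hz1, hx]
      have hz4 := hl.P5 y z0 (D.nn z0) (hl.delta hz1) hz2
      have hz5 : D.a y = D.a z0 := (hl.Q hz2).2
      have h5 : ∀ z, z ≠ z0 → (D.h x y z).coeff (D.a z) * D.nn z = 0 := by
        intro z hz
        by_contra hne
        obtain ⟨h6, h7⟩ := mul_ne_zero_iff.1 hne
        obtain ⟨h8, h9, -⟩ := h4 z h7 h6
        rw [hx] at h9
        exact hz (huniq z ⟨h8, h9⟩)
      have h6 : (D.h x y z0).coeff (D.a z0) * D.nn z0 = 1 := by
        rw [hz3, hz4.1]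
        rcases hz4.2 with h | h
        · rw [h]
          ring
        · rw [h]
          ring
      by_cases hyN : D.a y < N
      · rw [if_pos ⟨hxy, hyN⟩, Finset.sum_eq_single z0]
        · exact h6
        · intro z _ hz
          exact h5 z hz
        · intro h7
          exfalso
          apply h7
          rw [Finset.mem_filter]
          refine ⟨Finsupp.mem_support_iff.2 ?_, by omega⟩
          intro h8
          have h9 := (repr_TT hb x y z0).2
          rw [h8, cf_zero] at h9
          rw [← h9, zero_mul] at h6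
          exact absurd h6 (by norm_num)
      · rw [if_neg (fun h => hyN h.2)]
        refine Finset.sum_eq_zero fun z hz => h5 z ?_
        rintro rfl
        rw [Finset.mem_filter] at hz
        omega
    · rw [if_neg (fun h => hxy h.1)]
      refine Finset.sum_eq_zero fun z _ => ?_
      by_contra hne
      obtain ⟨h6, h7⟩ := mul_ne_zero_iff.1 hne
      obtain ⟨h8, h9, -⟩ := h4 z h7 h6
      apply hxy
      rw [hl.P2 x y z h8 h9, inv_mul_cancel]

end fil

end KLD

end Pool.Agent.Helper35.KL
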