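import Pool.Agent.Helper35.KL.Basic

/-!
# Descents
-/

namespace Pool.Agent.Helper35.KL

namespace KLD

variable {B : Type} {M : CoxeterMatrix B} {L : M.Group → ℤ} {H : Type} [Ring H] [Algebra LP H]
variable (D : KLD M L H)

theorem C_sm_T_sm (hL : IsWeight M L) (b : B) :
    D.C (sm M b) * D.T (sm M b) = qq (L (sm M b)) • D.C (sm M b) := by
  have h1 : qq (L (sm M b)) * qq (-L (sm M b)) = 1 := by
    rw [← LaurentPolynomial.T_add, add_neg_cancel, LaurentPolynomial.T_zero]
  rw [D.C_sm hL, add_mul, T_sm_sq, smul_mul_assoc, one_mul, smul_add, smul_smul, h1, one_smul, xi,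
    sub_smul]
  abel

theorem T_sm_C_sm (hL : IsWeight M L) (b : B) :
    D.T (sm M b) * D.C (sm M b) = qq (L (sm M b)) • D.C (sm M b) := by
  rw [← D.C_sm_T_sm hL, D.C_sm hL, add_mul, mul_add, smul_mul_assoc, mul_smul_comm, one_mul,
    mul_one]

open scoped Classical in
/-- The basis adapted to the right ideal generated by `C s`. -/
noncomputable def dsc (b : B) (y : M.Group) : H :=
  if len M (sm M b * y) + 1 = len M y then D.C (sm M b) * D.T (sm M b * y) else D.T y

theorem dsc_of {b : B} {y : M.Group} (h : len M (sm M b * y) + 1 = len M y) :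
    D.dsc b y = D.C (sm M b) * D.T (sm M b * y) := by
  rw [dsc, if_pos h]

theorem dsc_sub (hL : IsWeight M L) (b : B) (y : M.Group) :
    D.dsc b y - D.T y ∈ Vl D.T (len M) (len M y) ∧ D.dsc b y - D.T y ∈ Lat D.T (-1) := by
  by_cases h : len M (sm M b * y) + 1 = len M y
  · have h1 : D.dsc b y - D.T y = qq (-L (sm M b)) • D.T (sm M b * y) := by
      rw [D.dsc_of h, D.C_sm hL, add_mul, smul_mul_assoc, one_mul,
        D.T_sm_mul (by rw [sm_cancel]; omega), sm_cancel]
      abel
    rw [h1]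
    refine ⟨Submodule.smul_mem _ _ (mem_Vl _ _ (by omega)), ?_⟩
    have h2 := hL.pos b
    exact Lat_mono _ (by omega) (smul_Lat D.T (Dle.qq (-L (sm M b))) (basis_mem_Lat D.T _))
  · rw [dsc, if_neg h, sub_self]
    exact ⟨Submodule.zero_mem _, AddSubgroup.zero_mem _⟩

/-- `C s * T z` is a multiple of an element of the adapted basis. -/
theorem C_sm_T (hL : IsWeight M L) (b : B) {n : ℕ} {x : H} (hx : x ∈ Vl D.T (len M) n) :
    D.C (sm M b) * x ∈ Submodule.span LP
      (D.dsc b '' {y | len M (sm M b * y) + 1 = len M y ∧ len M y < n + 1}) := by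
  refine Submodule.span_induction (p := fun x _ => D.C (sm M b) * x ∈ Submodule.span LP
      (D.dsc b '' {y | len M (sm M b * y) + 1 = len M y ∧ len M y < n + 1})) ?_ ?_ ?_ ?_ hx
  · rintro _ ⟨z, hz, rfl⟩
    have hz' : len M z < n := hz
    rcases len_sm_mul b z with h | h
    · refine Submodule.subset_span ⟨sm M b * z, ⟨?_, ?_⟩, ?_⟩
      · rw [sm_cancel]
        omega
      · omega
      · rw [D.dsc_of (by rw [sm_cancel]; omega), sm_cancel]
    · have h1 : D.C (sm M b) * D.T z = qq (L (sm M b)) • D.dsc b z := by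
        rw [D.dsc_of h]
        have h2 : D.T z = D.T (sm M b) * D.T (sm M b * z) := by
          rw [D.T_sm_mul (by rw [sm_cancel]; omega), sm_cancel]
        conv_lhs => rw [h2]
        rw [← mul_assoc, D.C_sm_T_sm hL, smul_mul_assoc]
      rw [h1]
      exact Submodule.smul_mem _ _ (Submodule.subset_span ⟨z, ⟨h, by omega⟩, rfl⟩)
  · rw [mul_zero]
    exact Submodule.zero_mem _
  · intro a b _ _ ha hb
    rw [mul_add]
    exact Submodule.add_mem _ ha hb
  · intro a b _ hb
    rw [mul_smul_comm]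
    exact Submodule.smul_mem _ _ hb

theorem C_sub_dsc (hL : IsWeight M L) {b : B} {w : M.Group}
    (hw : len M (sm M b * w) + 1 = len M w) : D.C w - D.dsc b w ∈ Submodule.span LP
      (D.dsc b '' {y | len M (sm M b * y) + 1 = len M y ∧ len M y < len M w}) := by
  set d := triB D.T (len M) (D.dsc b) (fun w => (D.dsc_sub hL b w).1) with hd
  have hda : ∀ y, d y = D.dsc b y := fun y => triB_apply D.T (len M) (D.dsc b) _ y
  have hdf : (d : M.Group → H) = D.dsc b := funext hda
  obtain ⟨k, hk1, hk2, hk3⟩ := klem d D.bar.toAddMonoidHom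
    {y | len M (sm M b * y) + 1 = len M y} (len M) ⊥ D.bar_smul D.bar_bar (by
      intro f hf
      rw [Submodule.mem_bot] at hf ⊢
      rw [hf, map_zero]) (by
      intro f hf w _
      rw [Submodule.mem_bot] at hf
      rw [hf, map_zero, Finsupp.zero_apply]) (by
      intro y hy
      have hy' : len M (sm M b * y) + 1 = len M y := hy
      refine Submodule.mem_sup_left ?_
      rw [hdf]
      change D.bar (D.dsc b y) - D.dsc b y ∈ _
      rw [D.dsc_of hy', map_mul, D.bar_C, ← mul_sub]
      have h1 := D.C_sm_T hL b (D.bar_T_sub (sm M b * y))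
      rw [hy'] at h1
      exact h1) w hw
  rw [Submodule.mem_bot] at hk3
  rw [hdf] at hk1
  rw [hda] at hk2
  have h2 : k - D.dsc b w ∈ Lat D.T (-1) := by
    refine (lat_cmp d D.T ?_ hk2).1
    intro y
    rw [hda]
    exact (D.dsc_sub hL b y).2
  have h1 : D.C w = k := by
    refine D.bar_unique' (D.bar_C w) (sub_eq_zero.1 hk3) ?_
    have h3 : D.C w - k = (D.C w - D.T w) - (k - D.dsc b w) - (D.dsc b w - D.T w) := by abel
    rw [h3]
    exact AddSubgroup.sub_mem _ (AddSubgroup.sub_mem _ (D.C_sub_T_neg w) h2) (D.dsc_sub hL b w).2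
  rw [h1]
  exact hk1

theorem T_mul_dsc (hL : IsWeight M L) {b : B} {x : H} (hx : x ∈ Submodule.span LP
      (D.dsc b '' {y | len M (sm M b * y) + 1 = len M y})) :
    D.T (sm M b) * x = qq (L (sm M b)) • x := by
  refine Submodule.span_induction
    (p := fun x _ => D.T (sm M b) * x = qq (L (sm M b)) • x) ?_ ?_ ?_ ?_ hx
  · rintro _ ⟨y, hy, rfl⟩
    rw [D.dsc_of hy, ← mul_assoc, D.T_sm_C_sm hL, smul_mul_assoc]
  · rw [mul_zero, smul_zero]
  · intro a b _ _ ha hb
    rw [mul_add, ha, hb, smul_add]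
  · intro a b _ hb
    rw [mul_smul_comm, hb, smul_comm]

/-- `T s * C w = q ^ L(s) C w` if `s w < w`. -/
theorem T_mul_C (hL : IsWeight M L) {b : B} {w : M.Group}
    (hw : len M (sm M b * w) + 1 = len M w) :
    D.T (sm M b) * D.C w = qq (L (sm M b)) • D.C w := by
  refine D.T_mul_dsc hL ?_
  have h1 : D.C w = D.dsc b w + (D.C w - D.dsc b w) := by abel
  rw [h1]
  refine Submodule.add_mem _ (Submodule.subset_span ⟨w, hw, rfl⟩)
    (Submodule.span_mono (Set.image_mono ?_) (D.C_sub_dsc hL hw))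
  exact fun y hy => hy.1

theorem C_mul_C (hL : IsWeight M L) {b : B} {w : M.Group}
    (hw : len M (sm M b * w) + 1 = len M w) :
    D.C (sm M b) * D.C w = (qq (L (sm M b)) + qq (-L (sm M b))) • D.C w := by
  rw [D.C_sm hL, add_mul, D.T_mul_C hL hw, smul_mul_assoc, one_mul, add_smul]

theorem dsc_mem (hL : IsWeight M L) (b : B) (w : M.Group)
    (hw : len M (sm M b * w) + 1 = len M w) :
    D.dsc b w ∈ Submodule.span LP (D.C '' {y | len M (sm M b * y) + 1 = len M y}) := by
  suffices h : ∀ n w, len M w < n → len M (sm M b * w) + 1 = len M w →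
      D.dsc b w ∈ Submodule.span LP (D.C '' {y | len M (sm M b * y) + 1 = len M y}) from
    h _ w (Nat.lt_succ_self _) hw
  intro n
  induction n with
  | zero => intro w hw; omega
  | succ n ih =>
    intro w hwn hw
    have h1 : D.dsc b w = D.C w - (D.C w - D.dsc b w) := by abel
    rw [h1]
    refine Submodule.sub_mem _ (Submodule.subset_span ⟨w, hw, rfl⟩) ?_
    refine Submodule.span_le.2 ?_ (D.C_sub_dsc hL hw)
    rintro _ ⟨y, ⟨hy1, hy2⟩, rfl⟩
    exact ih y (by omega) hy1

theorem C_sm_mul_mem (hL : IsWeight M L) (b : B) (x : H) : D.C (sm M b) * x ∈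
    Submodule.span LP (D.C '' {y | len M (sm M b * y) + 1 = len M y}) := by
  have h3 : x ∈ Submodule.span LP (Set.range D.T) := D.T.mem_span x
  refine Submodule.span_induction (p := fun x _ => D.C (sm M b) * x ∈
    Submodule.span LP (D.C '' {y | len M (sm M b * y) + 1 = len M y})) ?_ ?_ ?_ ?_ h3
  · rintro _ ⟨w, rfl⟩
    have h1 := D.C_sm_T hL b (mem_Vl D.T (len M) (Nat.lt_succ_self (len M w)))
    refine Submodule.span_le.2 ?_ h1
    rintro _ ⟨y, ⟨hy1, hy2⟩, rfl⟩
    exact D.dsc_mem hL b y hy1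
  · rw [mul_zero]
    exact Submodule.zero_mem _
  · intro a b _ _ ha hb
    rw [mul_add]
    exact Submodule.add_mem _ ha hb
  · intro a b _ hb
    rw [mul_smul_comm]
    exact Submodule.smul_mem _ _ hb

theorem desc_of_repr (hL : IsWeight M L) {b : B} {x : H} {z : M.Group}
    (h : D.C.repr (D.C (sm M b) * x) z ≠ 0) : len M (sm M b * z) + 1 = len M z := by
  have h1 := D.C_sm_mul_mem hL b x
  rw [Module.Basis.mem_span_image] at h1
  exact h1 (Finsupp.mem_support_iff.2 h)

theorem qq_add_ne (n : ℤ) (hn : 0 < n) : (qq n + qq (-n) : LP) ≠ 0 := by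
  intro h
  have h1 : (qq n + qq (-n) : LP).coeff n = 0 := by rw [h, cf_zero]
  rw [cf_add, cf_qq, cf_qq, if_pos rfl, if_neg (by omega)] at h1
  omega

/-- The left descents are constant below in the right preorder. -/
theorem desc_of_leR (hL : IsWeight M L) {b : B} {x y : M.Group} (h : D.leR y x)
    (hx : len M (sm M b * x) + 1 = len M x) : len M (sm M b * y) + 1 = len M y := by
  induction h using Relation.ReflTransGen.head_induction_on with
  | refl => exact hx
  | @head u v h1 _ ih =>
    obtain ⟨c, hc⟩ := h1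
    refine D.desc_of_repr (x := D.C v * D.C (sm M c)) hL ?_
    rw [← mul_assoc, D.C_mul_C hL ih, smul_mul_assoc, map_smul, Finsupp.smul_apply, smul_eq_mul]
    exact mul_ne_zero (qq_add_ne _ (hL.pos b)) hc

theorem leR_one (hL : IsWeight M L) {x : M.Group} (h : D.leR 1 x) : x = 1 := by
  by_contra hne
  obtain ⟨b, hb⟩ := M.toCoxeterSystem.exists_leftDescent_of_ne_one hne
  have h2 : len M (sm M b * x) < len M x := hb
  have h3 := len_sm_mul b x
  have h4 := D.desc_of_leR hL (b := b) h (by omega)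
  rw [len_one] at h4
  omega

theorem leL_one (hL : IsWeight M L) {x : M.Group} (h : D.leL 1 x) : x = 1 := by
  rw [leL_inv, inv_one] at h
  have h1 := D.leR_one hL h
  rwa [inv_eq_one] at h1

theorem h_ne_one (hL : IsWeight M L) {x y : M.Group} (h : D.h x y 1 ≠ 0) : x = 1 ∧ y = 1 :=
  ⟨D.leR_one hL (D.leR_of_h hL h), D.leL_one hL (D.leL_of_h hL h)⟩

variable {D}

theorem a_pos (hL : IsWeight M L) (hb : D.Bounded) {x : M.Group} (hx : x ≠ 1) : 0 < D.a x := by
  obtain ⟨b, hb'⟩ := M.toCoxeterSystem.exists_leftDescent_of_ne_one hx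
  have h2 : len M (sm M b * x) < len M x := hb'
  have h3 := len_sm_mul b x
  have h4 : D.h (sm M b) x x = qq (L (sm M b)) + qq (-L (sm M b)) := by
    rw [h, D.C_mul_C hL (by omega), map_smul, Finsupp.smul_apply, Module.Basis.repr_self,
      Finsupp.single_eq_same, smul_eq_mul, mul_one]
  have h5 := h_dle hb (sm M b) x x
  have h6 := hL.pos b
  by_contra h7
  have h8 : D.a x = 0 := by omega
  rw [h8, h4] at h5
  have h9 := h5 (L (sm M b)) (by simpa using h6)
  rw [cf_add, cf_qq, cf_qq, if_pos rfl, if_neg (by omega)] at h9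
  omega

theorem a_one (hL : IsWeight M L) : D.a 1 = 0 := by
  classical
  refine a_eq ?_ ?_
  · intro x y
    by_cases h : D.h x y 1 = 0
    · rw [h]
      exact Dle.zero _
    · obtain ⟨rfl, rfl⟩ := D.h_ne_one hL h
      rw [h_one, if_pos rfl]
      exact Dle.one le_rfl
  · refine ⟨1, 1, ?_⟩
    rw [h_one, if_pos rfl]
    simp

end KLD

end Pool.Agent.Helper35.KL
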