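import Pool.Agent.Helper35.KL.Comp

/-!
# Formal consequences: from the core properties to P1-P15
-/

namespace Pool.Agent.Helper35.KL

open scoped TensorProduct

/-- Elements of the tensor square are determined by their coefficients. -/
theorem tensor_ext {s t : LP ⊗[ℤ] LP}
    (h : ∀ m n, TensorProduct.map (cfH m) (cfH n) s = TensorProduct.map (cfH m) (cfH n) t) :
    s = t := by
  classical
  let e : LP ≃ₗ[ℤ] (ℤ →₀ ℤ) :=
    { toFun := fun a => a.coeff
      map_add' := fun _ _ => rfl
      map_smul' := fun _ _ => rfl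
      invFun := fun a => AddMonoidAlgebra.ofCoeff a
      left_inv := fun _ => rfl
      right_inv := fun _ => rfl }
  let φ := (TensorProduct.congr e e).trans (finsuppTensorFinsupp' ℤ ℤ ℤ)
  apply φ.injective
  have key : ∀ u : LP ⊗[ℤ] LP, ∀ m n, φ u (m, n) =
      TensorProduct.lid ℤ ℤ (TensorProduct.map (cfH m) (cfH n) u) := by
    intro u m n
    induction u with
    | zero => simp
    | tmul a b =>
      simp only [φ, LinearEquiv.trans_apply, TensorProduct.congr_tmul,
        finsuppTensorFinsupp'_apply_apply, TensorProduct.map_tmul, TensorProduct.lid_tmul,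
        smul_eq_mul]
      rfl
    | add a b ha hb =>
      rw [map_add, Finsupp.add_apply, ha, hb, map_add, map_add]
  ext ⟨m, n⟩
  rw [key, key, h]

namespace KLD

variable {B : Type} {M : CoxeterMatrix B} {L : M.Group → ℤ} {H : Type} [Ring H] [Algebra LP H]
variable (D : KLD M L H)

/-- The abelian group of the asymptotic ring. -/
abbrev JJ (_ : KLD M L H) := M.Group →₀ ℤ

open scoped Classical in
/-- The coefficients of degree `m` of an element of the Hecke algebra in the basis `C`,
restricted to the elements with `a z = k`. -/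
noncomputable def tk (k : ℕ) (m : ℤ) (x : H) : M.Group →₀ ℤ :=
  Finsupp.onFinset (D.C.repr x).support
    (fun z => if D.a z = k then (D.C.repr x z).coeff m else 0) (by
      intro z hz
      rw [Finsupp.mem_support_iff]
      intro h
      apply hz
      rw [h, cf_zero, ite_self])

open scoped Classical in
theorem tk_apply (k : ℕ) (m : ℤ) (x : H) (z : M.Group) :
    D.tk k m x z = if D.a z = k then (D.C.repr x z).coeff m else 0 := rfl

theorem tk_add (k : ℕ) (m : ℤ) (x y : H) : D.tk k m (x + y) = D.tk k m x + D.tk k m y := by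
  ext z
  rw [Finsupp.add_apply, tk_apply, tk_apply, tk_apply, map_add, Finsupp.add_apply, cf_add]
  split_ifs <;> simp

/-- Left multiplication by `C w`, coefficient of degree `m`. -/
noncomputable def Lk (k : ℕ) (m : ℤ) (w : M.Group) : D.JJ →ₗ[ℤ] D.JJ :=
  Finsupp.linearCombination ℤ fun x => D.tk k m (D.C w * D.C x)

/-- Right multiplication by `C w`, coefficient of degree `m`. -/
noncomputable def Rk (k : ℕ) (m : ℤ) (w : M.Group) : D.JJ →ₗ[ℤ] D.JJ :=
  Finsupp.linearCombination ℤ fun x => D.tk k m (D.C x * D.C w)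

/-- The product of the asymptotic ring. -/
noncomputable def bul (k : ℕ) : D.JJ →ₗ[ℤ] D.JJ →ₗ[ℤ] D.JJ :=
  Finsupp.linearCombination ℤ fun x =>
    (Finsupp.linearCombination ℤ fun y => D.tk k k (D.C x * D.C y) : D.JJ →ₗ[ℤ] D.JJ)

theorem Lk_single (k : ℕ) (m : ℤ) (w x : M.Group) :
    D.Lk k m w (Finsupp.single x 1) = D.tk k m (D.C w * D.C x) := by
  rw [Lk, Finsupp.linearCombination_single, one_smul]

theorem Rk_single (k : ℕ) (m : ℤ) (w x : M.Group) :
    D.Rk k m w (Finsupp.single x 1) = D.tk k m (D.C x * D.C w) := by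
  rw [Rk, Finsupp.linearCombination_single, one_smul]

theorem bul_single (k : ℕ) (x y : M.Group) :
    D.bul k (Finsupp.single x 1) (Finsupp.single y 1) = D.tk k k (D.C x * D.C y) := by
  rw [bul, Finsupp.linearCombination_single, one_smul, Finsupp.linearCombination_single, one_smul]

/-- The core properties. -/
structure Core : Prop where
  bdd : D.Bounded
  P1' : ∀ z, Dle (-D.a z) (D.p 1 z)
  P2' : ∀ {x y z}, D.nn z ≠ 0 → D.g x y z ≠ 0 → x = y⁻¹
  P3' : ∀ y, ∃ z, D.nn z ≠ 0 ∧ D.g y⁻¹ y z = D.nn z ∧ (D.nn z = 1 ∨ D.nn z = -1) ∧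
    ∀ z', D.nn z' ≠ 0 → D.g y⁻¹ y z' ≠ 0 → z' = z
  P4' : ∀ {y w}, D.leLR y w → D.a w ≤ D.a y
  P6' : ∀ {z}, D.nn z ≠ 0 → z⁻¹ = z
  Q' : ∀ {x y z}, D.g x y z ≠ 0 → D.a x = D.a z ∧ D.a y = D.a z
  P12' : ∀ (I : Set B), ∀ w ∈ par M I, D.aPar I w = D.a w
  LL : ∀ (k : ℕ) (m : ℤ) (w x y : M.Group), D.a x = k →
    D.Lk k m w (D.bul k (Finsupp.single x 1) (Finsupp.single y 1)) =
      D.bul k (D.Lk k m w (Finsupp.single x 1)) (Finsupp.single y 1)

/-- Associativity. -/
theorem assoc_h (x y z d : M.Group) :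
    ∑ u ∈ (D.C.repr (D.C x * D.C y)).support, D.h x y u * D.h u z d =
      ∑ u ∈ (D.C.repr (D.C y * D.C z)).support, D.h y z u * D.h x u d := by
  have h1 : D.C.repr (D.C x * D.C y * D.C z) d =
      ∑ u ∈ (D.C.repr (D.C x * D.C y)).support, D.h x y u * D.h u z d := by
    conv_lhs => rw [← D.C.linearCombination_repr (D.C x * D.C y)]
    rw [Finsupp.linearCombination_apply, Finsupp.sum, Finset.sum_mul, map_sum,
      Finsupp.finsetSum_apply]
    refine Finset.sum_congr rfl fun u _ => ?_
    rw [smul_mul_assoc, map_smul, Finsupp.smul_apply, smul_eq_mul]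
    rfl
  have h2 : D.C.repr (D.C x * (D.C y * D.C z)) d =
      ∑ u ∈ (D.C.repr (D.C y * D.C z)).support, D.h y z u * D.h x u d := by
    conv_lhs => rw [← D.C.linearCombination_repr (D.C y * D.C z)]
    rw [Finsupp.linearCombination_apply, Finsupp.sum, Finset.mul_sum, map_sum,
      Finsupp.finsetSum_apply]
    refine Finset.sum_congr rfl fun u _ => ?_
    rw [mul_smul_comm, map_smul, Finsupp.smul_apply, smul_eq_mul]
    rfl
  rw [← h1, ← h2, mul_assoc]

namespace Core

variable {D} (hc : D.Core) (hL : IsWeight M L)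

include hc in
theorem a_leL {y w : M.Group} (h : D.leL y w) : D.a w ≤ D.a y := hc.P4' (D.leL_leLR h)

include hc in
theorem a_leR {y w : M.Group} (h : D.leR y w) : D.a w ≤ D.a y := hc.P4' (D.leR_leLR h)

theorem g_eq {x y z : M.Group} {k : ℕ} (hz : D.a z = k) :
    D.g x y z⁻¹ = (D.h x y z).coeff k := by
  rw [g, inv_inv, hz]

include hc hL in
theorem P7_aux {x y z : M.Group} (h : D.g x y z ≠ 0) : D.g x y z = D.g y z x := by
  classical
  obtain ⟨d, hd1, hd2, hd3, -⟩ := hc.P3' z
  have hn0 : D.nn d ≠ 0 := hd1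
  have hdi := hc.P6' hd1
  have hgz : D.g z⁻¹ z d ≠ 0 := by rwa [hd2]
  obtain ⟨ha1, ha2⟩ := hc.Q' h
  have hb2 := (hc.Q' hgz).2
  set n := D.a d with hn
  -- the two sides of associativity in degree `2 n`
  have key : ∀ x y z : M.Group, D.a z = n →
      ((∑ u ∈ (D.C.repr (D.C x * D.C y)).support, D.h x y u * D.h u z d).coeff (n + n) =
        D.g x y z * D.g z⁻¹ z d) := by
    intro x y z haz
    rw [cf_sum]
    have h1 : ∀ u, (D.h x y u * D.h u z d).coeff (n + n) =
        if u = z⁻¹ then D.g x y z * D.g z⁻¹ z d else 0 := by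
      intro u
      by_cases hu : D.h u z d = 0
      · rw [hu, mul_zero, cf_zero]
        split_ifs with h2
        · subst h2
          rw [g, g, hdi, hu, cf_zero, mul_zero]
        · rfl
      · have h2 := hc.a_leR (D.leR_of_h hL hu)
        have h3 := (h_dle hc.bdd x y u).mono (show (D.a u : ℤ) ≤ n by omega)
        rw [cf_mul_lead h3 (h_dle hc.bdd u z d)]
        have h4 : (D.h u z d).coeff n = D.g u z d := by rw [g, hdi]
        rw [← hn, h4]
        split_ifs with h5
        · subst h5
          have h8 : D.g x y z = (D.h x y z⁻¹).coeff n := by rw [g, a_inv, haz]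
          rw [h8]
        · by_cases h6 : D.g u z d = 0
          · rw [h6, mul_zero]
          · exact absurd (hc.P2' hd1 h6) h5
    rw [Finset.sum_congr rfl fun u _ => h1 u, Finset.sum_ite_eq']
    split_ifs with h2
    · rfl
    · have h3 : D.h x y z⁻¹ = 0 := Finsupp.notMem_support_iff.1 h2
      rw [g, h3, cf_zero, zero_mul]
  have key2 : ((∑ u ∈ (D.C.repr (D.C y * D.C z)).support, D.h y z u * D.h x u d).coeff (n + n) =
        D.g x x⁻¹ d * D.g y z x) := by
    rw [cf_sum]
    have h1 : ∀ u, (D.h y z u * D.h x u d).coeff (n + n) =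
        if u = x⁻¹ then D.g x x⁻¹ d * D.g y z x else 0 := by
      intro u
      by_cases hu : D.h x u d = 0
      · rw [hu, mul_zero, cf_zero]
        split_ifs with h2
        · subst h2
          rw [g, g, hdi, hu, cf_zero, zero_mul]
        · rfl
      · have h2 := hc.a_leL (D.leL_of_h hL hu)
        have h3 := (h_dle hc.bdd y z u).mono (show (D.a u : ℤ) ≤ n by omega)
        rw [cf_mul_lead h3 (h_dle hc.bdd x u d)]
        have h4 : (D.h x u d).coeff n = D.g x u d := by rw [g, hdi]
        rw [← hn, h4]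
        split_ifs with h5
        · subst h5
          rw [mul_comm]
          congr 1
          rw [g, a_inv, show D.a x = n by omega]
        · by_cases h6 : D.g x u d = 0
          · rw [h6, mul_zero]
          · have h7 := hc.P2' hd1 h6
            exact absurd (by rw [h7, inv_inv]) h5
    rw [Finset.sum_congr rfl fun u _ => h1 u, Finset.sum_ite_eq']
    split_ifs with h2
    · rfl
    · have h3 : D.h y z x⁻¹ = 0 := Finsupp.notMem_support_iff.1 h2
      have h4 : D.g y z x = 0 := by rw [g, h3, cf_zero]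
      rw [h4, mul_zero]
  have h1 := key x y z (by omega)
  rw [D.assoc_h, key2, hd2] at h1
  have h2 : D.g x x⁻¹ d ≠ 0 := by
    intro h0
    rw [h0, zero_mul] at h1
    exact mul_ne_zero h hn0 h1.symm
  have h3 : D.g x x⁻¹ d = D.nn d := by
    obtain ⟨d', h4, h5, h6, h7⟩ := hc.P3' x⁻¹
    rw [inv_inv] at h5 h7
    have h8 := h7 d hd1 h2
    rw [h8, h5]
  rw [h3] at h1
  rw [mul_comm] at h1
  exact (mul_right_cancel₀ hn0 h1).symm

include hc hL in
theorem P7' (x y z : M.Group) : D.g x y z = D.g y z x := by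
  by_cases h : D.g x y z = 0
  · by_contra hne
    rw [h] at hne
    have h1 : D.g y z x ≠ 0 := fun h0 => hne h0.symm
    have h2 := hc.P7_aux hL h1
    have h3 : D.g z x y ≠ 0 := by rwa [← h2]
    have h4 := hc.P7_aux hL h3
    rw [h] at h4
    exact h3 h4
  · exact hc.P7_aux hL h

include hc hL in
theorem P8' {x y z : M.Group} (h : D.g x y z ≠ 0) :
    D.simL x y⁻¹ ∧ D.simL y z⁻¹ ∧ D.simL z x⁻¹ := by
  have key : ∀ {x y z : M.Group}, D.g x y z ≠ 0 → D.leL z⁻¹ y := by
    intro x y z h
    refine D.leL_of_h hL (x := x) (y := y) fun h0 => h ?_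
    rw [g, h0, cf_zero]
  have h1 : D.g y z x ≠ 0 := by rwa [← hc.P7' hL x y z]
  have h2 : D.g z x y ≠ 0 := by rwa [← hc.P7' hL y z x]
  have key2 : ∀ {x y z : M.Group}, D.g x y z ≠ 0 → D.leL z x⁻¹ := by
    intro x y z h
    rw [g_inv] at h
    have := key h
    rwa [inv_inv] at this
  exact ⟨⟨key2 h1, key h2⟩, ⟨key2 h2, key h⟩, ⟨key2 h, key h1⟩⟩

include hc hL in
theorem a_simL {z w : M.Group} (h : D.simL z w) : D.a z = D.a w :=
  le_antisymm (hc.a_leL h.2) (hc.a_leL h.1)

include hc hL in
theorem bul_unit {y z : M.Group} {k : ℕ} (hy : D.a y = k) (hz : D.nn z ≠ 0)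
    (h : D.g y⁻¹ y z ≠ 0) : D.bul k (Finsupp.single y 1) (Finsupp.single z 1) =
      D.g y⁻¹ y z • (Finsupp.single y 1 : D.JJ) := by
  classical
  rw [bul_single]
  ext c
  rw [tk_apply, Finsupp.smul_apply, Finsupp.single_apply]
  by_cases hac : D.a c = k
  · rw [if_pos hac]
    have h1 : (D.C.repr (D.C y * D.C z) c).coeff k = D.g y z c⁻¹ := (g_eq hac).symm
    rw [h1, ← hc.P7' hL c⁻¹ y z]
    split_ifs with h2
    · subst h2
      rw [smul_eq_mul, mul_one]
    · by_contra hne
      rw [smul_zero] at hne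
      have h3 := hc.P2' hz hne
      exact h2 (inv_injective h3).symm
  · rw [if_neg hac, if_neg, smul_zero]
    rintro rfl
    exact hac hy

include hc hL in
/-- The unit is preserved by left multiplication. -/
theorem unit_step {w y y' z : M.Group} (hz : D.nn z ≠ 0) (h : D.g y⁻¹ y z ≠ 0)
    (hw : D.h w y y' ≠ 0) (ha : D.a y' = D.a y) : D.g y'⁻¹ y' z = D.g y⁻¹ y z := by
  classical
  obtain ⟨m, hm⟩ : ∃ m, (D.h w y y').coeff m ≠ 0 := by
    by_contra hne
    push Not at hne
    exact hw (lp_ext fun k => by rw [hne k, cf_zero])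
  have h1 := hc.LL (D.a y) m w y z rfl
  rw [hc.bul_unit hL rfl hz h, map_smul, Lk_single] at h1
  have h2 := DFunLike.congr_fun h1 y'
  rw [Finsupp.smul_apply, tk_apply, if_pos ha] at h2
  -- the right side
  have h3 : D.bul (D.a y) (D.tk (D.a y) m (D.C w * D.C y)) (Finsupp.single z 1) y' =
      (D.h w y y').coeff m * D.g y'⁻¹ y' z := by
    have h4 : D.tk (D.a y) m (D.C w * D.C y) = ∑ c ∈ (D.tk (D.a y) m (D.C w * D.C y)).support,
        D.tk (D.a y) m (D.C w * D.C y) c • (Finsupp.single c 1 : D.JJ) := by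
      conv_lhs => rw [← Finsupp.sum_single (D.tk (D.a y) m (D.C w * D.C y))]
      rw [Finsupp.sum]
      refine Finset.sum_congr rfl fun c _ => ?_
      rw [Finsupp.smul_single, smul_eq_mul, mul_one]
    rw [h4, map_sum, LinearMap.sum_apply, Finsupp.finsetSum_apply]
    have h5 : ∀ c, (D.bul (D.a y) (D.tk (D.a y) m (D.C w * D.C y) c •
        (Finsupp.single c 1 : D.JJ)) (Finsupp.single z 1)) y' =
        if c = y' then (D.h w y y').coeff m * D.g y'⁻¹ y' z else 0 := by
      intro c
      rw [map_smul, LinearMap.smul_apply, Finsupp.smul_apply, bul_single, tk_apply, tk_apply,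
        if_pos ha]
      have h6 : (D.C.repr (D.C c * D.C z) y').coeff (D.a y) = D.g c z y'⁻¹ :=
        (g_eq ha).symm
      rw [h6, ← hc.P7' hL y'⁻¹ c z]
      split_ifs with h7 h8 h8
      · subst h8
        rfl
      · rw [smul_eq_mul]
        by_cases h9 : D.g y'⁻¹ c z = 0
        · rw [h9, mul_zero]
        · exact absurd (inv_injective (hc.P2' hz h9)).symm h8
      · subst h8
        exact absurd ha h7
      · rw [zero_smul]
    rw [Finset.sum_congr rfl fun c _ => h5 c, Finset.sum_ite_eq']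
    split_ifs with h6
    · rfl
    · rw [Finsupp.notMem_support_iff, tk_apply, if_pos ha] at h6
      exact absurd h6 hm
  have h7 : D.g y⁻¹ y z • ((D.C.repr (D.C w * D.C y)) y').coeff m =
      D.g y⁻¹ y z * (D.h w y y').coeff m := rfl
  rw [h3, h7, mul_comm] at h2
  exact (mul_left_cancel₀ hm h2).symm

include hc hL in
theorem unit_leL {y y' z : M.Group} (hz : D.nn z ≠ 0) (h : D.g y⁻¹ y z ≠ 0)
    (hle : D.leL y' y) (ha : D.a y' = D.a y) : D.g y'⁻¹ y' z = D.g y⁻¹ y z := by
  induction hle using Relation.ReflTransGen.head_induction_on with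
  | refl => rfl
  | @head u v h1 h2 ih =>
    have h3 : D.leL u v := Relation.ReflTransGen.single h1
    have h4 := hc.a_leL h3
    have h5 := hc.a_leL (y := v) (w := y) h2
    have h6 := ih (by omega)
    obtain ⟨b, hb⟩ := h1
    rw [← h6]
    exact hc.unit_step hL hz (by rwa [h6]) hb (by omega)

include hc hL in
theorem P9' {y' y : M.Group} (h : D.leL y' y) (ha : D.a y' = D.a y) : D.simL y' y := by
  obtain ⟨z, hz1, hz2, -, -⟩ := hc.P3' y
  have h1 : D.g y⁻¹ y z ≠ 0 := by rwa [hz2]
  have h2 : D.g y'⁻¹ y' z ≠ 0 := by rwa [hc.unit_leL hL hz1 h1 h ha]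
  have h3 := (hc.P8' hL h1).2.1
  have h4 := (hc.P8' hL h2).2.1
  exact D.simL_trans h4 (D.simL_symm h3)

include hc hL in
/-- An element of `𝒟` is its own unit. -/
theorem unit_self {z d : M.Group} (hz : D.nn z ≠ 0) (hd : D.nn d ≠ 0)
    (h : D.g z⁻¹ z d ≠ 0) : d = z := by
  rw [hc.P7' hL, hc.P7' hL] at h
  have := hc.P2' hz h
  rwa [inv_inv] at this

/-- The anti-involution of the asymptotic ring. -/
noncomputable def fj (D : KLD M L H) : D.JJ →ₗ[ℤ] D.JJ :=
  Finsupp.linearCombination ℤ fun x => Finsupp.single x⁻¹ 1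

theorem fj_single (x : M.Group) : fj D (Finsupp.single x 1) = Finsupp.single x⁻¹ 1 := by
  rw [fj, Finsupp.linearCombination_single, one_smul]

theorem fj_tk (k : ℕ) (m : ℤ) (x : H) : fj D (D.tk k m x) = D.tk k m (D.fl x) := by
  classical
  have h1 : ∀ (t : D.JJ) (z : M.Group), fj D t z = t z⁻¹ := by
    intro t z
    induction t using Finsupp.induction_linear with
    | zero => simp
    | add a b ha hb => rw [map_add, Finsupp.add_apply, ha, hb, Finsupp.add_apply]
    | single c n =>
      have h2 : (Finsupp.single c n : D.JJ) = n • (Finsupp.single c 1 : D.JJ) := by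
        rw [Finsupp.smul_single, smul_eq_mul, mul_one]
      rw [h2, map_smul, fj_single, Finsupp.smul_apply, Finsupp.smul_apply, Finsupp.single_apply,
        Finsupp.single_apply]
      by_cases h3 : c⁻¹ = z
      · rw [if_pos h3, if_pos (by rw [← h3, inv_inv])]
      · rw [if_neg h3, if_neg (fun h => h3 (by rw [h, inv_inv]))]
  ext z
  rw [h1, tk_apply, tk_apply, a_inv, repr_C_fl]

theorem fj_bul (k : ℕ) (s t : D.JJ) : fj D (D.bul k s t) = D.bul k (fj D t) (fj D s) := by
  have h : ∀ x y, fj D (D.bul k (Finsupp.single x 1) (Finsupp.single y 1)) =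
      D.bul k (fj D (Finsupp.single y 1)) (fj D (Finsupp.single x 1)) := by
    intro x y
    rw [bul_single, fj_tk, D.fl_mul, D.fl_C, D.fl_C, fj_single, fj_single, bul_single]
  have e : ∀ (c : M.Group) (n : ℤ), (Finsupp.single c n : D.JJ) =
      n • (Finsupp.single c 1 : D.JJ) := by
    intro c n
    rw [Finsupp.smul_single, smul_eq_mul, mul_one]
  induction s using Finsupp.induction_linear with
  | zero => simp
  | add a b ha hb =>
    rw [map_add, LinearMap.add_apply, map_add, ha, hb, map_add, map_add]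
  | single x n =>
    rw [e x n, map_smul, LinearMap.smul_apply, map_smul, map_smul, map_smul]
    congr 1
    induction t using Finsupp.induction_linear with
    | zero => simp
    | add a b ha hb =>
      rw [map_add, map_add, ha, hb, map_add, map_add, LinearMap.add_apply]
    | single y n' =>
      rw [e y n', map_smul, map_smul, map_smul, map_smul, LinearMap.smul_apply, h]

theorem fj_fj (t : D.JJ) : fj D (fj D t) = t := by
  induction t using Finsupp.induction_linear with
  | zero => simp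
  | add a b ha hb => rw [map_add, map_add, ha, hb]
  | single c n =>
    have h2 : (Finsupp.single c n : D.JJ) = n • (Finsupp.single c 1 : D.JJ) := by
      rw [Finsupp.smul_single, smul_eq_mul, mul_one]
    rw [h2, map_smul, map_smul, fj_single, fj_single, inv_inv]

theorem fj_Lk (k : ℕ) (m : ℤ) (w : M.Group) (t : D.JJ) :
    fj D (D.Lk k m w t) = D.Rk k m w⁻¹ (fj D t) := by
  induction t using Finsupp.induction_linear with
  | zero => simp
  | add a b ha hb => rw [map_add, map_add, ha, hb, map_add, map_add]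
  | single c n =>
    have h2 : (Finsupp.single c n : D.JJ) = n • (Finsupp.single c 1 : D.JJ) := by
      rw [Finsupp.smul_single, smul_eq_mul, mul_one]
    rw [h2, map_smul, map_smul, map_smul, map_smul, Lk_single, fj_tk, fj_single, Rk_single,
      D.fl_mul, D.fl_C, D.fl_C]

include hc in
theorem RR (k : ℕ) (m : ℤ) (w x y : M.Group) (hy : D.a y = k) :
    D.Rk k m w (D.bul k (Finsupp.single x 1) (Finsupp.single y 1)) =
      D.bul k (Finsupp.single x 1) (D.Rk k m w (Finsupp.single y 1)) := by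
  have h := hc.LL k m w⁻¹ y⁻¹ x⁻¹ (by rw [a_inv, hy])
  have h1 := congrArg (fj D) h
  rw [fj_Lk, fj_bul, fj_bul, fj_Lk, fj_single, fj_single, inv_inv, inv_inv, inv_inv] at h1
  exact h1

/-- Elements of the asymptotic ring supported on `a = k`. -/
def Spt (D : KLD M L H) (k : ℕ) (t : D.JJ) : Prop := ∀ z, t z ≠ 0 → D.a z = k

theorem spt_tk (k : ℕ) (m : ℤ) (x : H) : Spt D k (D.tk k m x) := by
  classical
  intro z hz
  rw [tk_apply] at hz
  by_contra h
  rw [if_neg h] at hz
  exact hz rfl

theorem sum_single' (t : D.JJ) : t = ∑ c ∈ t.support, t c • (Finsupp.single c 1 : D.JJ) := by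
  conv_lhs => rw [← Finsupp.sum_single t]
  rw [Finsupp.sum]
  refine Finset.sum_congr rfl fun c _ => ?_
  rw [Finsupp.smul_single, smul_eq_mul, mul_one]

include hc in
theorem LL_spt (k : ℕ) (m : ℤ) (w : M.Group) {s : D.JJ} (hs : Spt D k s) (t : D.JJ) :
    D.Lk k m w (D.bul k s t) = D.bul k (D.Lk k m w s) t := by
  rw [sum_single' s, sum_single' t]
  simp only [map_sum, LinearMap.sum_apply, map_smul, LinearMap.smul_apply]
  refine Finset.sum_congr rfl fun x _ => ?_
  congr 1
  refine Finset.sum_congr rfl fun y hy => ?_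
  congr 1
  exact hc.LL k m w y x (hs y (Finsupp.mem_support_iff.1 hy))

include hc in
theorem RR_spt (k : ℕ) (m : ℤ) (w : M.Group) (s : D.JJ) {t : D.JJ} (ht : Spt D k t) :
    D.Rk k m w (D.bul k s t) = D.bul k s (D.Rk k m w t) := by
  rw [sum_single' s, sum_single' t]
  simp only [map_sum, LinearMap.sum_apply, map_smul, LinearMap.smul_apply]
  refine Finset.sum_congr rfl fun x hx => ?_
  congr 1
  refine Finset.sum_congr rfl fun y _ => ?_
  congr 1
  exact hc.RR k m w y x (ht x (Finsupp.mem_support_iff.1 hx))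

theorem spt_single {x : M.Group} {k : ℕ} (h : D.a x = k) :
    Spt D k (Finsupp.single x 1 : D.JJ) := by
  classical
  intro z hz
  rw [Finsupp.single_apply] at hz
  split_ifs at hz with h1
  · rw [← h1, h]
  · exact absurd rfl hz

theorem spt_lin {k : ℕ} (f : D.JJ →ₗ[ℤ] D.JJ)
    (hf : ∀ x, Spt D k (f (Finsupp.single x 1))) (t : D.JJ) : Spt D k (f t) := by
  intro z hz
  rw [sum_single' t, map_sum, Finsupp.finsetSum_apply] at hz
  obtain ⟨c, -, hc⟩ := Finset.exists_ne_zero_of_sum_ne_zero hz
  rw [map_smul, Finsupp.smul_apply] at hc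
  exact hf c z (right_ne_zero_of_smul hc)

include hc hL in
/-- The left and the right operators commute. -/
theorem comm_LR (k : ℕ) (m n : ℤ) (w w' x : M.Group) (hx : D.a x = k) :
    D.Rk k n w' (D.Lk k m w (Finsupp.single x 1)) =
      D.Lk k m w (D.Rk k n w' (Finsupp.single x 1)) := by
  obtain ⟨z, hz1, hz2, hz3, -⟩ := hc.P3' x
  have h1 : D.g x⁻¹ x z ≠ 0 := by rwa [hz2]
  have haz : D.a z = k := by
    have := (hc.Q' h1).2
    omega
  have h2 := hc.bul_unit hL hx hz1 h1
  have h3 : (Finsupp.single x 1 : D.JJ) =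
      D.nn z • D.bul k (Finsupp.single x 1) (Finsupp.single z 1) := by
    rw [h2, hz2, smul_smul]
    rcases hz3 with h | h
    · rw [h]
      simp
    · rw [h]
      simp
  have hsx := spt_single (D := D) hx
  have hsz := spt_single (D := D) haz
  rw [h3, map_smul, map_smul, map_smul, map_smul, hc.LL_spt k m w hsx, hc.RR_spt k n w' _ hsz,
    hc.RR_spt k n w' _ hsz, hc.LL_spt k m w hsx]

theorem Rk_apply (k : ℕ) (n : ℤ) (w' : M.Group) (t : D.JJ) {y : M.Group} (hy : D.a y = k) :
    D.Rk k n w' t y = ∑ z ∈ t.support, t z * (D.h z w' y).coeff n := by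
  classical
  conv_lhs => rw [sum_single' t]
  rw [map_sum, Finsupp.finsetSum_apply]
  refine Finset.sum_congr rfl fun z _ => ?_
  rw [map_smul, Finsupp.smul_apply, Rk_single, tk_apply, if_pos hy]
  rfl

theorem Lk_apply (k : ℕ) (m : ℤ) (w : M.Group) (t : D.JJ) {y : M.Group} (hy : D.a y = k) :
    D.Lk k m w t y = ∑ z ∈ t.support, t z * (D.h w z y).coeff m := by
  classical
  conv_lhs => rw [sum_single' t]
  rw [map_sum, Finsupp.finsetSum_apply]
  refine Finset.sum_congr rfl fun z _ => ?_
  rw [map_smul, Finsupp.smul_apply, Lk_single, tk_apply, if_pos hy]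
  rfl

include hc hL in
theorem P15' (w w' x y : M.Group) (hxy : D.a x = D.a y) :
    ((D.C.repr (D.C w * D.C x)).sum fun z c => c ⊗ₜ[ℤ] D.h z w' y) =
      ((D.C.repr (D.C x * D.C w')).sum fun z c => D.h w z y ⊗ₜ[ℤ] c) := by
  classical
  refine tensor_ext fun m n => ?_
  apply (TensorProduct.lid ℤ ℤ).injective
  rw [Finsupp.sum, Finsupp.sum, map_sum, map_sum, map_sum, map_sum]
  simp only [TensorProduct.map_tmul, TensorProduct.lid_tmul, smul_eq_mul, cfH_apply]
  have h1 := DFunLike.congr_fun (hc.comm_LR hL (D.a y) m n w w' x hxy) y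
  rw [Rk_apply _ _ _ _ rfl, Lk_apply _ _ _ _ rfl, Lk_single, Rk_single] at h1
  have h2 : ∑ z ∈ (D.tk (D.a y) m (D.C w * D.C x)).support,
      D.tk (D.a y) m (D.C w * D.C x) z * (D.h z w' y).coeff n =
      ∑ z ∈ (D.C.repr (D.C w * D.C x)).support,
        (D.C.repr (D.C w * D.C x) z).coeff m * (D.h z w' y).coeff n := by
    have h3 : (D.tk (D.a y) m (D.C w * D.C x)).support ⊆
        (D.C.repr (D.C w * D.C x)).support := Finsupp.support_onFinset_subset
    rw [Finset.sum_subset h3]
    · refine Finset.sum_congr rfl fun z hz => ?_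
      rw [tk_apply]
      split_ifs with h4
      · rfl
      · have h5 : D.h z w' y = 0 := by
          by_contra hne
          have h6 := hc.a_leL (D.leL_of_repr hL (Finsupp.mem_support_iff.1 hz))
          have h7 := hc.a_leR (D.leR_of_h hL hne)
          omega
        rw [h5, cf_zero, mul_zero, mul_zero]
    · intro z _ hz
      rw [Finsupp.notMem_support_iff.1 hz, zero_mul]
  have h4 : ∑ z ∈ (D.tk (D.a y) n (D.C x * D.C w')).support,
      D.tk (D.a y) n (D.C x * D.C w') z * (D.h w z y).coeff m =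
      ∑ z ∈ (D.C.repr (D.C x * D.C w')).support,
        (D.h w z y).coeff m * (D.C.repr (D.C x * D.C w') z).coeff n := by
    have h3 : (D.tk (D.a y) n (D.C x * D.C w')).support ⊆
        (D.C.repr (D.C x * D.C w')).support := Finsupp.support_onFinset_subset
    rw [Finset.sum_subset h3]
    · refine Finset.sum_congr rfl fun z hz => ?_
      rw [tk_apply]
      split_ifs with h4
      · rw [mul_comm]
      · have h5 : D.h w z y = 0 := by
          by_contra hne
          have h6 := hc.a_leR (D.leR_of_repr hL (Finsupp.mem_support_iff.1 hz))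
          have h7 := hc.a_leL (D.leL_of_h hL hne)
          omega
        rw [h5, cf_zero, zero_mul, zero_mul]
    · intro z _ hz
      rw [Finsupp.notMem_support_iff.1 hz, zero_mul]
  rw [h2, h4] at h1
  exact h1

include hc hL in
/-- P1-P15 follow from the core properties. -/
theorem lus : D.Lus where
  P1 w d n h := by
    have h1 := hc.P1' w
    by_contra hlt
    apply h.1
    rw [← h.2.1]
    exact h1 _ (by omega)
  P2 x y z hz h := hc.P2' ((inD_iff hc.P1' z).1 hz) h
  P3 y := by
    obtain ⟨z, h1, h2, h3, h4⟩ := hc.P3' y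
    refine ⟨z, ⟨(inD_iff hc.P1' z).2 h1, by rwa [h2]⟩, ?_⟩
    rintro z' ⟨h5, h6⟩
    exact h4 z' ((inD_iff hc.P1' z').1 h5) h6
  P4 w' w h := hc.P4' h
  P5 y z n hn h := by
    have h0 := delta_nn hn
    have hz : D.nn z ≠ 0 := (inD_iff hc.P1' z).1 ⟨n, hn⟩
    obtain ⟨z', h1, h2, h3, h4⟩ := hc.P3' y
    have h5 := h4 z hz h
    rw [h0, h5]
    exact ⟨h2, h3⟩
  P6 z hz := by
    have h1 := hc.P6' ((inD_iff hc.P1' z).1 hz)
    rw [pow_two]
    nth_rewrite 1 [← h1]
    rw [inv_mul_cancel]
  P7 x y z := ⟨hc.P7' hL x y z, hc.P7' hL y z x⟩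
  P8 x y z h := hc.P8' hL h
  P9 w' w h ha := hc.P9' hL h ha
  P10 w' w h ha := by
    rw [simR_inv]
    refine hc.P9' hL (D.leR_inv.1 h) ?_
    rw [a_inv, a_inv, ha]
  P11 w' w h ha := by
    induction h using Relation.ReflTransGen.head_induction_on with
    | refl => exact ⟨Relation.ReflTransGen.refl, Relation.ReflTransGen.refl⟩
    | @head u v h1 h2 ih =>
      have h3 : D.leLR u v := Relation.ReflTransGen.single h1
      have h4 := hc.P4' h3
      have h5 := hc.P4' (y := v) (w := w) h2
      refine D.simLR_trans ?_ (ih (by omega))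
      rcases h1 with h1 | h1
      · exact D.simL_simLR (hc.P9' hL (Relation.ReflTransGen.single h1) (by omega))
      · refine D.simR_simLR ?_
        rw [simR_inv]
        refine hc.P9' hL (D.leR_inv.1 (Relation.ReflTransGen.single h1)) ?_
        rw [a_inv, a_inv]
        omega
  P12 I w hw := hc.P12' I w hw
  P13 y := by
    obtain ⟨z, h1, h2, h3, h4⟩ := hc.P3' y
    have h5 : D.g y⁻¹ y z ≠ 0 := by rwa [h2]
    have h6 := (hc.P8' hL h5).2.1
    rw [hc.P6' h1] at h6
    have key : ∀ z', D.simL z' y → D.nn z' ≠ 0 → z' = z := by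
      intro z' h7 h8
      have h9 := hc.unit_leL hL h1 h5 h7.1 (hc.a_simL hL h7)
      exact (hc.unit_self hL h8 h1 (by rwa [h9])).symm
    refine ⟨⟨z, ⟨D.simL_symm h6, (inD_iff hc.P1' z).2 h1⟩, ?_⟩, ?_⟩
    · rintro z' ⟨h7, h8⟩
      exact key z' h7 ((inD_iff hc.P1' z').1 h8)
    · intro z' h7 h8
      rwa [key z' h7 ((inD_iff hc.P1' z').1 h8)]
  P14 w := by
    obtain ⟨z, h1, h2, h3, h4⟩ := hc.P3' w
    have h5 : D.g w⁻¹ w z ≠ 0 := by rwa [h2]
    have h6 := (hc.P8' hL h5).2.1
    rw [hc.P6' h1] at h6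
    have h7 : D.simR z w⁻¹ := by
      rw [simR_inv, inv_inv, hc.P6' h1]
      exact D.simL_symm h6
    exact D.simLR_trans (D.simL_simLR h6) (D.simR_simLR h7)
  P15 w w' x y h := hc.P15' hL w w' x y h

end Core

end KLD

end Pool.Agent.Helper35.KL
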