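import Pool.Agent.Helper35.KL.Gr
import Pool.Agent.Helper35.KL.Formal

/-!
# The elements `TT u * C (c :: v)`
-/

namespace Pool.Agent.Helper35.KL

namespace KLD

variable {B : Type} {M : CoxeterMatrix B} {L : M.Group → ℤ} {H : Type} [Ring H] [Algebra LP H]
variable (D : KLD M L H)

/-- The linear combination of Kazhdan-Lusztig elements. -/
noncomputable def up : D.JJ →ₗ[ℤ] H := Finsupp.linearCombination ℤ (D.C : M.Group → H)

theorem up_single (x : M.Group) : D.up (Finsupp.single x 1) = D.C x := by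
  rw [up, Finsupp.linearCombination_single, one_smul]

theorem up_eq (t : D.JJ) : D.up t = ∑ z ∈ t.support, t z • D.C z := by
  rw [up, Finsupp.linearCombination_apply, Finsupp.sum]

theorem repr_up (t : D.JJ) (z : M.Group) : D.C.repr (D.up t) z = t z • (1 : LP) := by
  classical
  rw [up_eq, map_sum, Finsupp.finsetSum_apply]
  have h1 : ∀ c, D.C.repr (t c • D.C c) z = if c = z then t z • (1 : LP) else 0 := by
    intro c
    rw [map_zsmul, Finsupp.smul_apply, Module.Basis.repr_self, Finsupp.single_apply]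
    split_ifs with h2
    · rw [h2]
    · rw [smul_zero]
  rw [Finset.sum_congr rfl fun c _ => h1 c, Finset.sum_ite_eq']
  split_ifs with h2
  · rfl
  · rw [Finsupp.notMem_support_iff.1 h2, zero_smul]

theorem bar_up (t : D.JJ) : D.bar (D.up t) = D.up t := by
  rw [up_eq, map_sum]
  refine Finset.sum_congr rfl fun c _ => ?_
  rw [map_zsmul, D.bar_C]

/-- The part of the product with `a = k`, coefficients of degree `k`. -/
noncomputable def BB (k : ℕ) (x y : M.Group) : H := D.up (D.tk k k (D.C x * D.C y))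

theorem BB_eq (k : ℕ) (x y : M.Group) : D.BB k x y =
    D.up (D.bul k (Finsupp.single x 1) (Finsupp.single y 1)) := by
  rw [bul_single, BB]

theorem repr_BB (k : ℕ) (x y z : M.Group) :
    D.C.repr (D.BB k x y) z = D.tk k k (D.C x * D.C y) z • (1 : LP) := D.repr_up _ _

theorem BB_ext (k : ℕ) {x y : M.Group} {b : H}
    (h : ∀ z, D.C.repr b z = D.tk k k (D.C x * D.C y) z • (1 : LP)) : D.BB k x y = b := by
  apply D.C.repr.injective
  ext1 z
  rw [repr_BB, h]

theorem BB_zero (k : ℕ) {x y : M.Group} (h : ∀ z, D.a z = k → (D.h x y z).coeff k = 0) :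
    D.BB k x y = 0 := by
  refine D.BB_ext k fun z => ?_
  rw [map_zero, Finsupp.zero_apply, tk_apply]
  split_ifs with h1
  · have h2 := h z h1
    rw [KLD.h] at h2
    rw [h2, zero_smul]
  · rw [zero_smul]

theorem BB_congr (k : ℕ) {x y x' y' : M.Group}
    (h : ∀ z, D.a z = k → (D.h x y z).coeff k = (D.h x' y' z).coeff k) :
    D.BB k x y = D.BB k x' y' := by
  refine D.BB_ext k fun z => ?_
  rw [repr_BB, tk_apply, tk_apply]
  split_ifs with h1
  · have h2 := h z h1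
    rw [KLD.h, KLD.h] at h2
    rw [h2]
  · rfl

end KLD

theorem Fil.Lam_lead {B : Type} {M : CoxeterMatrix B} {L : M.Group → ℤ} {H : Type} [Ring H]
    [Algebra LP H] {D : KLD M L H} (F : Fil D) {x : H} (hx : x ∈ F.Lam 0)
    (h : ∀ w, ¬ F.hv w → (F.cc x w).coeff 0 = 0) : x ∈ F.Lam (-1) := by
  intro w
  by_cases hw : F.hv w
  · rw [F.cc_hv hw]
    exact Dle.zero _
  · exact (hx w).of_lead (h w hw)

section tf

variable {ι : Type} {B : ι → Type} {M : ∀ i, CoxeterMatrix (B i)} {L : (sumM M).Group → ℤ}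
variable {H : Type} [Ring H] [Algebra LP H] (D : KLD (sumM M) L H)
variable (hL : IsWeight (sumM M) L) (hl : ∀ i, (Dc D i).Lus) (hb : ∀ i, (Dc D i).Bounded)
variable {k : ℕ} {i : ι}

include hb in
theorem up_Lam (t : D.JJ) : D.up t ∈ (Fk D hL hl k).Lam 0 := by
  rw [KLD.up_eq]
  refine AddSubgroup.sum_mem _ fun c _ => AddSubgroup.zsmul_mem _ (C_Lam D hL hl hb c) _

include hb in
theorem up_lead (t : D.JJ) {w : (sumM M).Group} (hw : ¬ (Fk D hL hl k).hv w) :
    ((Fk D hL hl k).cc (D.up t) w).coeff 0 = t w := by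
  rw [← ((Fk D hL hl k).repr_C (FF_h0 D hL hl hb _) (FF_h1 D hL hl hb _)
    (up_Lam D hL hl hb t) hw).2, KLD.repr_up, cf_zsmul, cf_one, if_pos rfl, mul_one]

include hL hl hb in
theorem tk_prod (x y w : (sumM M).Group) (hw : al D w ≤ k) :
    D.tk k k (D.C x * D.C y) w = (D.h x y w).coeff k := by
  classical
  rw [KLD.tk_apply]
  split_ifs with h1
  · rfl
  · rw [a_eq_al D hL hl hb] at h1
    exact (h_dle_al D hL hl hb x y w k (by omega)).symm

include hb in
/-- The product of `TT u`, an element of the component without constant term, and `TT v`. -/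
theorem mid_Lam {u v : List (Ltr M)} (hu : Red u) (hu2 : NE i u) (hv : Red v) (hv2 : NS i v)
    {n : ℤ} {t : sA D i} (ht : t ∈ Lat (Dc D i).T n) (ht1 : (Dc D i).T.repr t 1 = 0) :
    TT D u * (t : H) * TT D v ∈ (Fk D hL hl k).Lam n := by
  rw [expand_T D i t, Finsupp.sum, Finset.mul_sum, Finset.sum_mul]
  refine AddSubgroup.sum_mem _ fun z _ => ?_
  rw [mul_smul_comm, smul_mul_assoc]
  by_cases hz : z = 1
  · rw [hz, ht1, zero_smul]
    exact AddSubgroup.zero_mem _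
  · have h1 : TT D u * D.T (emb M i z) * TT D v ∈ (Fk D hL hl k).Lam 0 := by
      rw [mid_T, TT_red D (red_mid.2 ⟨hu, hu2, hz, hv, hv2⟩)]
      exact FF_h0 D hL hl hb _ _
    have h3 := (Fk D hL hl k).smul_Lam (ht z) h1
    rwa [add_zero] at h3

include hb in
theorem TTk_Lam {u v : List (Ltr M)} (hu : Red u) (hv : Red v) :
    TT D u * TT D v ∈ (Fk D hL hl k).Lam k := by
  have h := TT_Lam D hL hl hb (Nat.succ_pos k) (pr u) (pr v)
  rw [TT_red D hu, TT_red D hv]
  have e : (((k + 1 : ℕ) : ℤ) - 1) = k := by push_cast; ring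
  rwa [e] at h

include hb in
/-- The main term. -/
theorem mid_C {u v : List (Ltr M)} (hu : Red u) (hu2 : NE i u) (hv : Red v) (hv2 : NS i v)
    {c : (M i).Group} (hc : (Dc D i).a c = k) (hc1 : c ≠ 1) :
    TT D u * D.C (emb M i c) * TT D v - D.T (pr (u ++ ⟨i, c⟩ :: v)) -
      (Dc D i).nn c • D.BB k (pr u) (pr v) ∈ (Fk D hL hl k).Lam (-1) := by
  classical
  set F := Fk D hL hl k with hF
  set p := (Dc D i).p 1 c with hp
  have hp1 : Dle (-k) p := by
    have := (hl i).P1' c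
    rwa [hc] at this
  have hp2 : p.coeff (-k) = (Dc D i).nn c := by rw [KLD.nn, hc]
  -- the rest
  set r := (Dc D i).C c - (Dc D i).T c - p • (Dc D i).T 1 with hr
  have hr1 : (Dc D i).T.repr r 1 = 0 := by
    rw [hr, map_sub, map_sub, map_smul, Finsupp.sub_apply, Finsupp.sub_apply, Finsupp.smul_apply,
      Module.Basis.repr_self, Module.Basis.repr_self, Finsupp.single_eq_same,
      Finsupp.single_eq_of_ne (Ne.symm hc1), sub_zero, smul_eq_mul, mul_one, hp, KLD.p, sub_self]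
  have hr2 : r ∈ Lat (Dc D i).T (-1) := by
    intro z
    by_cases hz : z = 1
    · rw [hz, hr1]
      exact Dle.zero _
    · have h1 : (Dc D i).T.repr r z = (Dc D i).T.repr ((Dc D i).C c - (Dc D i).T c) z := by
        rw [hr, map_sub _ ((Dc D i).C c - (Dc D i).T c), map_smul, Finsupp.sub_apply,
          Finsupp.smul_apply, Module.Basis.repr_self, Finsupp.single_eq_of_ne hz, smul_zero,
          sub_zero]
      rw [h1]
      exact (Dc D i).C_T c z
  have h1 : TT D u * (r : H) * TT D v ∈ F.Lam (-1) := mid_Lam D hL hl hb hu hu2 hv hv2 hr2 hr1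
  have h2 : (r : H) = D.C (emb M i c) - D.T (emb M i c) - p • 1 := by
    rw [hr, Subalgebra.coe_sub, Subalgebra.coe_sub, Subalgebra.coe_smul, coe_C, coe_T, coe_T,
      map_one, D.T_one]
  have h3 : TT D u * (r : H) * TT D v = TT D u * D.C (emb M i c) * TT D v -
      D.T (pr (u ++ ⟨i, c⟩ :: v)) - p • (TT D u * TT D v) := by
    rw [h2, mul_sub, mul_sub, sub_mul, sub_mul, mul_smul_comm, smul_mul_assoc, mul_one, mid_T,
      TT_red D (red_mid.2 ⟨hu, hu2, hc1, hv, hv2⟩)]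
  have h4 : p • (TT D u * TT D v) - (Dc D i).nn c • D.BB k (pr u) (pr v) ∈ F.Lam (-1) := by
    have h5 : p • (TT D u * TT D v) ∈ F.Lam 0 := by
      have h6 := F.smul_Lam hp1 (TTk_Lam D hL hl hb hu hv)
      rwa [neg_add_cancel] at h6
    refine F.Lam_lead ?_ ?_
    · exact AddSubgroup.sub_mem _ h5 (AddSubgroup.zsmul_mem _ (up_Lam D hL hl hb _) _)
    · intro w hw
      have hw2 : al D w ≤ k := by
        rw [Fk_hv] at hw
        omega
      have h6 := F.smul_Lam_lead hp1 (TTk_Lam D hL hl hb hu hv) w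
      rw [neg_add_cancel] at h6
      rw [map_sub, Finsupp.sub_apply, cf_sub, h6, map_zsmul, Finsupp.smul_apply, cf_zsmul, hp2]
      rw [KLD.BB, up_lead D hL hl hb _ hw, tk_prod D hL hl hb _ _ _ hw2,
        (h_coeff D hL hl hb k _ _ hw2).2, TT_red D hu, TT_red D hv, sub_self]
  rw [h3] at h1
  have h5 := AddSubgroup.add_mem _ h1 h4
  rwa [sub_add_sub_cancel] at h5

include hb in
theorem mid_C_Lam {u v : List (Ltr M)} (hu : Red u) (hu2 : NE i u) (hv : Red v) (hv2 : NS i v)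
    {c : (M i).Group} (hc : (Dc D i).a c = k) (hc1 : c ≠ 1) :
    TT D u * D.C (emb M i c) * TT D v ∈ (Fk D hL hl k).Lam 0 := by
  have h1 := (Fk D hL hl k).Lam_mono (show (-1 : ℤ) ≤ 0 by norm_num)
    (mid_C D hL hl hb hu hu2 hv hv2 hc hc1)
  have h2 := AddSubgroup.add_mem _ (AddSubgroup.add_mem _ h1
    (AddSubgroup.zsmul_mem _ (up_Lam D hL hl hb (D.tk k k (D.C (pr u) * D.C (pr v))))
      ((Dc D i).nn c))) (FF_h0 D hL hl hb (Nat.succ_pos k) (pr (u ++ ⟨i, c⟩ :: v)))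
  have e : TT D u * D.C (emb M i c) * TT D v =
      TT D u * D.C (emb M i c) * TT D v - D.T (pr (u ++ ⟨i, c⟩ :: v)) -
      (Dc D i).nn c • D.BB k (pr u) (pr v) + (Dc D i).nn c • D.BB k (pr u) (pr v) +
        D.T (pr (u ++ ⟨i, c⟩ :: v)) := by abel
  rw [e]
  exact h2

include hb in
/-- Expansion of `C (c :: v)`. -/
theorem C_left (hk : 0 < k) {v : List (Ltr M)} {c : (M i).Group} (hr : Red (⟨i, c⟩ :: v))
    (hv : alL D v ≤ k) (hc : (Dc D i).a c = k) :
    ∃ x, x ∈ AddSubgroup.closure {x | ∃ (a : LP) (v : List (Ltr M)) (g : (M i).Group),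
      Dle (-1) a ∧ Red v ∧ NS i v ∧ g ≠ 1 ∧ alL D v ≤ k ∧ (Dc D i).a g = k ∧
        x = a • (D.C (emb M i g) * TT D v)} ∧
      D.C (pr (⟨i, c⟩ :: v)) - (D.C (emb M i c) * TT D v + x) ∈ (Fk D hL hl k).I := by
  have hr' : Red (rv v ++ [⟨i, c⁻¹⟩]) := by
    have := hr.rv
    rwa [rv_cons] at this
  have hc' : (Dc D i).a c⁻¹ = k := by rw [KLD.a_inv, hc]
  have hw := KI_pr hr' (by rwa [alL_rv]) hc'
  obtain ⟨x, h1, h2, -⟩ := C_sub_dd D hL hl hb i hk hw
  rw [dd_pr D hL hl hr' (by rwa [alL_rv]) hc'] at h2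
  refine ⟨D.fl x, ?_, ?_⟩
  · have h3 : Neg D k i ≤ AddSubgroup.comap D.fl.toAddMonoidHom
        (AddSubgroup.closure {x | ∃ (a : LP) (v : List (Ltr M)) (g : (M i).Group),
          Dle (-1) a ∧ Red v ∧ NS i v ∧ g ≠ 1 ∧ alL D v ≤ k ∧ (Dc D i).a g = k ∧
            x = a • (D.C (emb M i g) * TT D v)}) := by
      rw [Neg, AddSubgroup.closure_le]
      rintro _ ⟨a, u, g, ha, e2, e3, e4, e5, e6, rfl⟩
      refine AddSubgroup.subset_closure ⟨a, rv u, g⁻¹, ha, e2.rv, NS_rv.2 e3, ?_, ?_, ?_, ?_⟩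
      · rwa [ne_eq, inv_eq_one]
      · rwa [alL_rv]
      · rw [KLD.a_inv, e6]
      · change D.fl (a • (TT D u * D.C (emb M i g))) = _
        rw [map_smul, D.fl_mul, D.fl_C, fl_TT, map_inv (emb M i)]
    exact h3 h1
  · have h3 := I_fl D hL hl h2
    rw [map_sub, map_add, D.fl_mul, D.fl_C, D.fl_C, fl_TT, rv_rv, ← pr_rv, rv_append, rv_rv,
      rv_cons, rv_nil, List.nil_append, List.singleton_append, ← map_inv, inv_inv] at h3
    exact h3

include hb in
/-- The product of `TT u` and `C (c :: v)`. -/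
theorem t_formula (hk : 0 < k) {u v : List (Ltr M)} (hu : Red u) (hu2 : NE i u)
    {c : (M i).Group} (hr : Red (⟨i, c⟩ :: v)) (hv : alL D v ≤ k) (hc : (Dc D i).a c = k) :
    TT D u * D.C (pr (⟨i, c⟩ :: v)) - D.C (pr (u ++ ⟨i, c⟩ :: v)) -
      (Dc D i).nn c • D.BB k (pr u) (pr v) ∈ (Fk D hL hl k).Lam (-1) := by
  obtain ⟨x, h1, h2⟩ := C_left D hL hl hb hk hr hv hc
  have hr' := red_cons.1 hr
  have h3 := mid_C D hL hl hb hu hu2 hr'.2.1 hr'.2.2 hc hr'.1
  have h4 := (Fk D hL hl k).C_sub_Lam (FF_h0 D hL hl hb _) (pr (u ++ ⟨i, c⟩ :: v))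
  have h5 := (Fk D hL hl k).I_Lam ((Fk D hL hl k).I_mulL (TT D u) h2) (-1)
  have h6 : TT D u * x ∈ (Fk D hL hl k).Lam (-1) := by
    have h7 : AddSubgroup.closure {x | ∃ (a : LP) (v : List (Ltr M)) (g : (M i).Group),
      Dle (-1) a ∧ Red v ∧ NS i v ∧ g ≠ 1 ∧ alL D v ≤ k ∧ (Dc D i).a g = k ∧
        x = a • (D.C (emb M i g) * TT D v)} ≤
        AddSubgroup.comap (AddMonoidHom.mulLeft (TT D u)) ((Fk D hL hl k).Lam (-1)) := by
      rw [AddSubgroup.closure_le]
      rintro _ ⟨a, v', g, ha, e2, e3, e4, e5, e6, rfl⟩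
      change TT D u * (a • (D.C (emb M i g) * TT D v')) ∈ (Fk D hL hl k).Lam (-1)
      rw [mul_smul_comm, ← mul_assoc]
      have h8 := (Fk D hL hl k).smul_Lam ha (mid_C_Lam D hL hl hb hu hu2 e2 e3 e6 e4)
      rwa [add_zero] at h8
    exact h7 h1
  have e : TT D u * D.C (pr (⟨i, c⟩ :: v)) - D.C (pr (u ++ ⟨i, c⟩ :: v)) -
      (Dc D i).nn c • D.BB k (pr u) (pr v) =
      TT D u * (D.C (pr (⟨i, c⟩ :: v)) - (D.C (emb M i c) * TT D v + x)) + TT D u * x +
      (TT D u * D.C (emb M i c) * TT D v - D.T (pr (u ++ ⟨i, c⟩ :: v)) -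
        (Dc D i).nn c • D.BB k (pr u) (pr v)) -
      (D.C (pr (u ++ ⟨i, c⟩ :: v)) - D.T (pr (u ++ ⟨i, c⟩ :: v))) := by
    rw [mul_sub, mul_add, ← mul_assoc]
    abel
  rw [e]
  exact AddSubgroup.sub_mem _ (AddSubgroup.add_mem _ (AddSubgroup.add_mem _ h5 h6) h3) h4

end tf

end Pool.Agent.Helper35.KL
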