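import Pool.Agent.Helper35.KL.SubKLD
import Pool.Agent.Helper35.KL.Comp

/-!
# The ideals of the Hecke algebra of a free product
-/

namespace Pool.Agent.Helper35.KL

namespace KLD

variable {B : Type} {M : CoxeterMatrix B} {L : M.Group → ℤ} {H : Type} [Ring H] [Algebra LP H]
variable (D : KLD M L H)

theorem T_mul_Vl (w : M.Group) {n : ℕ} {x : H} (hx : x ∈ Vl D.T (len M) n) :
    D.T w * x ∈ Vl D.T (len M) (len M w + n) := by
  induction w using len_induction generalizing n x with
  | h1 =>
    rw [T_one, one_mul, len_one, zero_add]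
    exact hx
  | hs b w hl ih =>
    rw [← D.T_sm_mul hl, mul_assoc, hl]
    have := D.T_mul_mem_Vl b _ (ih hx)
    rwa [show len M w + 1 + n = len M w + n + 1 by ring]

theorem mul_Vl {m n : ℕ} {x y : H} (hx : x ∈ Vl D.T (len M) m)
    (hy : y ∈ Vl D.T (len M) (n + 1)) : x * y ∈ Vl D.T (len M) (m + n) := by
  refine Submodule.span_induction (p := fun x _ => x * y ∈ Vl D.T (len M) (m + n))
    ?_ ?_ ?_ ?_ hx
  · rintro _ ⟨w, hw, rfl⟩
    have hw' : len M w < m := hw
    exact Vl_mono _ _ (by omega) (D.T_mul_Vl w hy)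
  · rw [zero_mul]
    exact Submodule.zero_mem _
  · intro a b _ _ ha hb
    rw [add_mul]
    exact Submodule.add_mem _ ha hb
  · intro a b _ hb
    rw [smul_mul_assoc]
    exact Submodule.smul_mem _ _ hb

end KLD

section fp

variable {ι : Type} {B : ι → Type} {M : ∀ i, CoxeterMatrix (B i)} {L : (sumM M).Group → ℤ}
variable {H : Type} [Ring H] [Algebra LP H] (D : KLD (sumM M) L H)

/-- The value of `a` at a letter. -/
noncomputable def al1 (x : Ltr M) : ℕ := (Dc D x.1).a x.2

/-- The product of the standard basis elements of the letters. -/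
noncomputable def TT (l : List (Ltr M)) : H := (l.map fun x => D.T (emb M x.1 x.2)).prod

/-- The product of the Kazhdan-Lusztig basis elements of the letters. -/
noncomputable def EE (l : List (Ltr M)) : H := (l.map fun x => D.C (emb M x.1 x.2)).prod

@[simp] theorem TT_nil : TT D ([] : List (Ltr M)) = 1 := rfl

@[simp] theorem TT_cons (x : Ltr M) (l : List (Ltr M)) :
    TT D (x :: l) = D.T (emb M x.1 x.2) * TT D l := by simp [TT]

@[simp] theorem TT_append (l l' : List (Ltr M)) : TT D (l ++ l') = TT D l * TT D l' := by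
  simp [TT]

@[simp] theorem EE_nil : EE D ([] : List (Ltr M)) = 1 := rfl

@[simp] theorem EE_cons (x : Ltr M) (l : List (Ltr M)) :
    EE D (x :: l) = D.C (emb M x.1 x.2) * EE D l := by simp [EE]

@[simp] theorem EE_append (l l' : List (Ltr M)) : EE D (l ++ l') = EE D l * EE D l' := by
  simp [EE]

theorem TT_red {l : List (Ltr M)} (h : Red l) : TT D l = D.T (pr l) := by
  induction l with
  | nil => rw [TT_nil, pr_nil, D.T_one]
  | cons x l ih =>
    have h1 := red_cons.1 h
    have h2 : Red ([x] ++ l) := h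
    have h3 := len_append h2
    rw [pr_cons, pr_nil, mul_one] at h3
    rw [TT_cons, pr_cons, D.T_mul _ _ h3, ih h1.2.1]

theorem bar_EE (l : List (Ltr M)) : D.bar (EE D l) = EE D l := by
  induction l with
  | nil => rw [EE_nil, map_one]
  | cons x l ih => rw [EE_cons, map_mul, D.bar_C, ih]

theorem EE_sub {l : List (Ltr M)} (h : Red l) :
    EE D l - D.T (pr l) ∈ Vl D.T (len (sumM M)) (len (sumM M) (pr l)) := by
  induction l with
  | nil =>
    rw [EE_nil, pr_nil, D.T_one, sub_self]
    exact Submodule.zero_mem _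
  | cons x l ih =>
    have h1 := red_cons.1 h
    have h2 : Red ([x] ++ l) := h
    have h3 := len_append h2
    rw [pr_cons, pr_nil, mul_one] at h3
    have ih' := ih h1.2.1
    rw [EE_cons, pr_cons, D.T_mul _ _ h3, h3]
    have h4 : D.C (emb M x.1 x.2) * EE D l - D.T (emb M x.1 x.2) * D.T (pr l) =
        (D.C (emb M x.1 x.2) - D.T (emb M x.1 x.2)) * EE D l +
          D.T (emb M x.1 x.2) * (EE D l - D.T (pr l)) := by
      rw [sub_mul, mul_sub]
      abel
    rw [h4]
    refine Submodule.add_mem _ (D.mul_Vl (D.C_sub_T _) ?_) (D.T_mul_Vl _ ih')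
    have h5 : EE D l = D.T (pr l) + (EE D l - D.T (pr l)) := by abel
    rw [h5]
    exact Submodule.add_mem _ (mem_Vl _ _ (Nat.lt_succ_self _))
      (Vl_mono _ _ (Nat.le_succ _) ih')

theorem fl_EE (l : List (Ltr M)) : D.fl (EE D l) = EE D (rv l) := by
  induction l with
  | nil => rw [EE_nil, D.fl_one, rv_nil, EE_nil]
  | cons x l ih =>
    rw [EE_cons, D.fl_mul, ih, D.fl_C, rv_cons, EE_append, EE_cons, EE_nil, mul_one,
      map_inv (emb M x.1)]

theorem fl_TT (l : List (Ltr M)) : D.fl (TT D l) = TT D (rv l) := by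
  induction l with
  | nil => rw [TT_nil, D.fl_one, rv_nil, TT_nil]
  | cons x l ih =>
    rw [TT_cons, D.fl_mul, ih, D.fl_T, rv_cons, TT_append, TT_cons, TT_nil, mul_one,
      map_inv (emb M x.1)]

/-- Expansion of an element of a component in the basis `C`. -/
theorem expand_C (i : ι) (t : sA D i) :
    (t : H) = ((Dc D i).C.repr t).sum fun z c => c • D.C (emb M i z) := by
  have h := (Dc D i).C.linearCombination_repr t
  rw [Finsupp.linearCombination_apply, Finsupp.sum] at h
  have h2 := congrArg (sA D i).val h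
  rw [map_sum] at h2
  rw [Finsupp.sum]
  refine h2.symm.trans (Finset.sum_congr rfl fun z _ => ?_)
  rw [map_smul]
  congr 1
  exact coe_C D i z

theorem expand_T (i : ι) (t : sA D i) :
    (t : H) = ((Dc D i).T.repr t).sum fun z c => c • D.T (emb M i z) := by
  have h := (Dc D i).T.linearCombination_repr t
  rw [Finsupp.linearCombination_apply, Finsupp.sum] at h
  have h2 := congrArg (sA D i).val h
  rw [map_sum] at h2
  rw [Finsupp.sum]
  refine h2.symm.trans (Finset.sum_congr rfl fun z _ => ?_)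
  rw [map_smul]
  congr 1
  exact coe_T D i z

theorem C_mul_C_emb (i : ι) (x y : (M i).Group) : D.C (emb M i x) * D.C (emb M i y) =
    ((Dc D i).C.repr ((Dc D i).C x * (Dc D i).C y)).sum fun z c => c • D.C (emb M i z) := by
  rw [← expand_C, Subalgebra.coe_mul, coe_C, coe_C]

theorem al1_inv (i : ι) (x : (M i).Group) : al1 D ⟨i, x⁻¹⟩ = al1 D ⟨i, x⟩ :=
  (Dc D i).a_inv x

/-- An element has a letter `x` with `a x ≥ N`. -/
def Hv (N : ℕ) (l : List (Ltr M)) : Prop := ∃ x ∈ l, N ≤ al1 D x

theorem Hv_rv {N : ℕ} {l : List (Ltr M)} : Hv D N (rv l) ↔ Hv D N l := by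
  constructor
  · rintro ⟨y, hy, h⟩
    obtain ⟨x, hx, rfl⟩ := mem_rv.1 hy
    refine ⟨x, hx, ?_⟩
    rwa [al1_inv] at h
  · rintro ⟨x, hx, h⟩
    refine ⟨⟨x.1, x.2⁻¹⟩, mem_rv.2 ⟨x, hx, rfl⟩, ?_⟩
    rwa [al1_inv]

theorem Hv_append {N : ℕ} {u v : List (Ltr M)} : Hv D N (u ++ v) ↔ Hv D N u ∨ Hv D N v := by
  simp only [Hv, List.mem_append]
  constructor
  · rintro ⟨x, hx | hx, h⟩
    · exact Or.inl ⟨x, hx, h⟩
    · exact Or.inr ⟨x, hx, h⟩
  · rintro (⟨x, hx, h⟩ | ⟨x, hx, h⟩)
    · exact ⟨x, Or.inl hx, h⟩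
    · exact ⟨x, Or.inr hx, h⟩

theorem Hv_cons {N : ℕ} {x : Ltr M} {v : List (Ltr M)} :
    Hv D N (x :: v) ↔ N ≤ al1 D x ∨ Hv D N v := by
  simp only [Hv, List.mem_cons]
  constructor
  · rintro ⟨y, rfl | hy, h⟩
    · exact Or.inl h
    · exact Or.inr ⟨y, hy, h⟩
  · rintro (h | ⟨y, hy, h⟩)
    · exact ⟨x, Or.inl rfl, h⟩
    · exact ⟨y, Or.inr hy, h⟩

theorem Hv_nil {N : ℕ} : ¬ Hv D N ([] : List (Ltr M)) := by
  rintro ⟨x, hx, -⟩
  simp at hx

variable (hL : IsWeight (sumM M) L) (hl : ∀ i, (Dc D i).Lus)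

/-- The span of the `E w` with a letter `x` with `a x ≥ N`. -/
noncomputable def KK (N : ℕ) : Submodule LP H :=
  Submodule.span LP ((fun w => EE D (nf w)) '' {w | Hv D N (nf w)})

theorem EE_mem_KK {N : ℕ} {l : List (Ltr M)} (h : Red l) (h2 : Hv D N l) : EE D l ∈ KK D N := by
  refine Submodule.subset_span ⟨pr l, ?_, ?_⟩
  · change Hv D N (nf (pr l))
    rwa [nf_pr h]
  · simp only
    rw [nf_pr h]

include hL in
theorem a_one_c (i : ι) : (Dc D i).a 1 = 0 := KLD.a_one (isWeight_emb i hL)

include hL hl in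
theorem KK_C {N : ℕ} (hN : 0 < N) (s : Σ i, B i) {x : H} (hx : x ∈ KK D N) :
    D.C (sm (sumM M) s) * x ∈ KK D N := by
  refine Submodule.span_induction (p := fun x _ => D.C (sm (sumM M) s) * x ∈ KK D N)
    ?_ ?_ ?_ ?_ hx
  · rintro _ ⟨w, hw, rfl⟩
    have hw' : Hv D N (nf w) := hw
    have hr := red_nf w
    simp only
    obtain ⟨i, b⟩ := s
    rw [← emb_sm]
    generalize nf w = l at hw' hr
    by_cases hs : NS i l
    · have h1 : EE D (⟨i, sm (M i) b⟩ :: l) ∈ KK D N := by
        refine EE_mem_KK D (red_cons.2 ⟨?_, hr, hs⟩) ((Hv_cons D).2 (Or.inr hw'))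
        intro h
        have h2 := len_sm (M := M i) b
        rw [h, len_one] at h2
        omega
      rwa [EE_cons] at h1
    · rw [NS] at hs
      push Not at hs
      obtain ⟨y, hy, hyi⟩ := hs
      obtain ⟨j, y⟩ := y
      simp only at hyi
      subst hyi
      cases l with
      | nil => simp at hy
      | cons z l =>
        simp only [List.head?_cons, Option.mem_some_iff] at hy
        subst hy
        rw [red_cons] at hr
        obtain ⟨h1, h2, h3⟩ := hr
        rw [EE_cons, ← mul_assoc]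
        simp only
        rw [C_mul_C_emb, Finsupp.sum, Finset.sum_mul]
        refine Submodule.sum_mem _ fun z hz => ?_
        rw [smul_mul_assoc]
        refine Submodule.smul_mem _ _ ?_
        have h4 : (Dc D j).leL z y := (Dc D j).leL_of_repr (isWeight_emb j hL)
          (Finsupp.mem_support_iff.1 hz)
        have h5 := (hl j).a_leL h4
        by_cases hz1 : z = 1
        · subst hz1
          rw [map_one, D.C_one, one_mul]
          refine EE_mem_KK D h2 ?_
          rcases (Hv_cons D).1 hw' with h | h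
          · exfalso
            rw [a_one_c D hL] at h5
            have h6 : al1 D ⟨j, y⟩ = (Dc D j).a y := rfl
            omega
          · exact h
        · have h6 : EE D (⟨j, z⟩ :: l) ∈ KK D N := by
            refine EE_mem_KK D (red_cons.2 ⟨hz1, h2, h3⟩) ?_
            rcases (Hv_cons D).1 hw' with h | h
            · exact (Hv_cons D).2 (Or.inl (le_trans h h5))
            · exact (Hv_cons D).2 (Or.inr h)
          rwa [EE_cons] at h6
  · rw [mul_zero]
    exact Submodule.zero_mem _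
  · intro a b _ _ ha hb
    rw [mul_add]
    exact Submodule.add_mem _ ha hb
  · intro a b _ hb
    rw [mul_smul_comm]
    exact Submodule.smul_mem _ _ hb

include hL hl in
theorem KK_mulL {N : ℕ} (hN : 0 < N) (y : H) {x : H} (hx : x ∈ KK D N) : y * x ∈ KK D N :=
  D.left_ideal_of_C hL _ (fun s _ hx => KK_C D hL hl hN s hx) y hx

theorem KK_fl {N : ℕ} {x : H} (hx : x ∈ KK D N) : D.fl x ∈ KK D N := by
  refine Submodule.span_induction (p := fun x _ => D.fl x ∈ KK D N) ?_ ?_ ?_ ?_ hx
  · rintro _ ⟨w, hw, rfl⟩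
    simp only
    rw [fl_EE]
    exact EE_mem_KK D (red_nf w).rv ((Hv_rv D).2 hw)
  · rw [map_zero]
    exact Submodule.zero_mem _
  · intro a b _ _ ha hb
    rw [map_add]
    exact Submodule.add_mem _ ha hb
  · intro a b _ hb
    rw [map_smul]
    exact Submodule.smul_mem _ _ hb

include hL hl in
theorem KK_mulR {N : ℕ} (hN : 0 < N) (y : H) {x : H} (hx : x ∈ KK D N) : x * y ∈ KK D N := by
  have h1 : x * y = D.fl (D.fl y * D.fl x) := by rw [D.fl_mul, D.fl_fl, D.fl_fl]
  rw [h1]
  exact KK_fl D (KK_mulL D hL hl hN _ (KK_fl D hx))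

/-- The ideal of level `N` of the free product. -/
noncomputable def FF {N : ℕ} (hN : 0 < N) : Fil D where
  E w := EE D (nf w)
  hv w := Hv D N (nf w)
  E_sub w := by
    have h := EE_sub D (red_nf w)
    rwa [pr_nf] at h
  bar_E w := bar_EE D _
  mulL x w hw := KK_mulL D hL hl hN x (Submodule.subset_span ⟨w, hw, rfl⟩)
  mulR x w hw := KK_mulR D hL hl hN x (Submodule.subset_span ⟨w, hw, rfl⟩)

variable {N : ℕ} (hN : 0 < N)

theorem FF_hv (w : (sumM M).Group) : (FF D hL hl hN).hv w ↔ Hv D N (nf w) := Iff.rfl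

theorem FF_I : (FF D hL hl hN).I = KK D N := rfl

theorem FF_hv_pr {l : List (Ltr M)} (h : Red l) : (FF D hL hl hN).hv (pr l) ↔ Hv D N l := by
  rw [FF_hv, nf_pr h]

theorem EE_mem_I {l : List (Ltr M)} (h : Red l) (h2 : Hv D N l) :
    EE D l ∈ (FF D hL hl hN).I := EE_mem_KK D h h2

/-- The ideal of a component is mapped to the ideal of the free product. -/
theorem comp_mem_I (i : ι) {t : sA D i}
    (ht : t ∈ ((hl i).fil (isWeight_emb i hL) N).I) : (t : H) ∈ (FF D hL hl hN).I := by
  refine Submodule.span_induction (p := fun (t : sA D i) _ => (t : H) ∈ (FF D hL hl hN).I)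
    ?_ ?_ ?_ ?_ ht
  · rintro _ ⟨x, hx, rfl⟩
    have hx' : N ≤ (Dc D i).a x := hx
    have h0 : ((((hl i).fil (isWeight_emb i hL) N).E x : sA D i) : H) = D.C (emb M i x) :=
      coe_C D i x
    rw [h0]
    have hx1 : x ≠ 1 := by
      rintro rfl
      rw [a_one_c D hL] at hx'
      omega
    have h1 := EE_mem_I D hL hl hN (red_single hx1) ((Hv_cons D).2 (Or.inl hx'))
    rwa [EE_cons, EE_nil, mul_one] at h1
  · exact Submodule.zero_mem _
  · intro a b _ _ ha hb
    rw [Subalgebra.coe_add]
    exact Submodule.add_mem _ ha hb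
  · intro a b _ hb
    rw [Subalgebra.coe_smul]
    exact Submodule.smul_mem _ _ hb

/-- Elements of a component modulo the ideal. -/
theorem comp_sub (i : ι) (t : sA D i) :
    (t : H) - (((hl i).fil (isWeight_emb i hL) N).cc t).sum (fun z c => c • D.T (emb M i z)) ∈
      (FF D hL hl hN).I := by
  have h1 := comp_mem_I D hL hl hN i (((hl i).fil (isWeight_emb i hL) N).cc_sub t)
  rw [Subalgebra.coe_sub] at h1
  have h2 : ((Finsupp.linearCombination LP (Dc D i).T
      (((hl i).fil (isWeight_emb i hL) N).cc t) : sA D i) : H) =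
      (((hl i).fil (isWeight_emb i hL) N).cc t).sum fun z c => c • D.T (emb M i z) := by
    rw [Finsupp.linearCombination_apply, Finsupp.sum, Finsupp.sum]
    have h3 : ∀ s : Finset (M i).Group, ∀ f : (M i).Group → sA D i,
        ((∑ z ∈ s, f z : sA D i) : H) = ∑ z ∈ s, (f z : H) := by
      intro s f
      exact map_sum (sA D i).val f s
    rw [h3]
    refine Finset.sum_congr rfl fun z _ => ?_
    rw [Subalgebra.coe_smul, coe_T]
  rwa [h2] at h1

end fp

end Pool.Agent.Helper35.KL
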