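import Pool.Agent.Helper35.KL.Descent

/-!
# Bar-stable ideals and the coordinates modulo such an ideal
-/

namespace Pool.Agent.Helper35.KL

section fil

variable {B : Type} {M : CoxeterMatrix B} {L : M.Group → ℤ} {H : Type} [Ring H] [Algebra LP H]

/-- A bar-stable ideal that is spanned by a part of a bar-invariant unitriangular basis `E`. -/
structure Fil (D : KLD M L H) where
  /-- the basis -/
  E : M.Group → H
  /-- the indices of the elements of the ideal -/
  hv : M.Group → Prop
  E_sub : ∀ w, E w - D.T w ∈ Vl D.T (len M) (len M w)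
  bar_E : ∀ w, D.bar (E w) = E w
  mulL : ∀ (x : H) w, hv w → x * E w ∈ Submodule.span LP (E '' {w | hv w})
  mulR : ∀ (x : H) w, hv w → E w * x ∈ Submodule.span LP (E '' {w | hv w})

namespace Fil

variable {D : KLD M L H} (F : Fil D)

/-- The ideal. -/
noncomputable def I : Submodule LP H := Submodule.span LP (F.E '' {w | F.hv w})

theorem E_mem {w : M.Group} (h : F.hv w) : F.E w ∈ F.I := Submodule.subset_span ⟨w, h, rfl⟩

theorem I_mulL (y : H) {x : H} (hx : x ∈ F.I) : y * x ∈ F.I := by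
  refine Submodule.span_induction (p := fun x _ => y * x ∈ F.I) ?_ ?_ ?_ ?_ hx
  · rintro _ ⟨w, hw, rfl⟩
    exact F.mulL y w hw
  · rw [mul_zero]
    exact Submodule.zero_mem _
  · intro a b _ _ ha hb
    rw [mul_add]
    exact Submodule.add_mem _ ha hb
  · intro a b _ hb
    rw [mul_smul_comm]
    exact Submodule.smul_mem _ _ hb

theorem I_mulR (y : H) {x : H} (hx : x ∈ F.I) : x * y ∈ F.I := by
  refine Submodule.span_induction (p := fun x _ => x * y ∈ F.I) ?_ ?_ ?_ ?_ hx
  · rintro _ ⟨w, hw, rfl⟩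
    exact F.mulR y w hw
  · rw [zero_mul]
    exact Submodule.zero_mem _
  · intro a b _ _ ha hb
    rw [add_mul]
    exact Submodule.add_mem _ ha hb
  · intro a b _ hb
    rw [smul_mul_assoc]
    exact Submodule.smul_mem _ _ hb

theorem I_bar {x : H} (hx : x ∈ F.I) : D.bar x ∈ F.I := by
  refine Submodule.span_induction (p := fun x _ => D.bar x ∈ F.I) ?_ ?_ ?_ ?_ hx
  · rintro _ ⟨w, hw, rfl⟩
    rw [F.bar_E]
    exact F.E_mem hw
  · rw [map_zero]
    exact Submodule.zero_mem _
  · intro a b _ _ ha hb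
    rw [map_add]
    exact Submodule.add_mem _ ha hb
  · intro a b _ hb
    rw [D.bar_smul]
    exact Submodule.smul_mem _ _ hb

open scoped Classical in
/-- The family with `E w` for the indices of the ideal and `T w` for the others. -/
noncomputable def bf (w : M.Group) : H := if F.hv w then F.E w else D.T w

theorem bf_sub (w : M.Group) : F.bf w - D.T w ∈ Vl D.T (len M) (len M w) := by
  rw [bf]
  split_ifs
  · exact F.E_sub w
  · rw [sub_self]
    exact Submodule.zero_mem _

/-- The basis adapted to the ideal. -/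
noncomputable def b : Module.Basis M.Group LP H := triB D.T (len M) F.bf F.bf_sub

theorem b_hv {w : M.Group} (h : F.hv w) : F.b w = F.E w := by
  rw [b, triB_apply, bf, if_pos h]

theorem b_lt {w : M.Group} (h : ¬ F.hv w) : F.b w = D.T w := by
  rw [b, triB_apply, bf, if_neg h]

theorem I_eq : F.I = Submodule.span LP (F.b '' {w | F.hv w}) := by
  rw [I]
  congr 1
  ext x
  constructor
  · rintro ⟨w, hw, rfl⟩
    exact ⟨w, hw, F.b_hv hw⟩
  · rintro ⟨w, hw, rfl⟩
    exact ⟨w, hw, (F.b_hv hw).symm⟩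

open scoped Classical in
/-- The coordinates modulo the ideal. -/
noncomputable def cc : H →ₗ[LP] (M.Group →₀ LP) where
  toFun h := (F.b.repr h).filter fun w => ¬ F.hv w
  map_add' x y := by rw [map_add, Finsupp.filter_add]
  map_smul' a x := by rw [map_smul, Finsupp.filter_smul, RingHom.id_apply]

theorem cc_hv {w : M.Group} (h : F.hv w) (x : H) : F.cc x w = 0 := by
  classical
  change ((F.b.repr x).filter fun w => ¬ F.hv w) w = 0
  rw [Finsupp.filter_apply, if_neg (not_not.2 h)]

theorem cc_lt {w : M.Group} (h : ¬ F.hv w) (x : H) : F.cc x w = F.b.repr x w := by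
  classical
  change ((F.b.repr x).filter fun w => ¬ F.hv w) w = _
  rw [Finsupp.filter_apply, if_pos h]

theorem cc_T {w : M.Group} (h : ¬ F.hv w) : F.cc (D.T w) = Finsupp.single w 1 := by
  classical
  ext1 y
  by_cases hy : F.hv y
  · rw [F.cc_hv hy, Finsupp.single_apply, if_neg]
    rintro rfl
    exact h hy
  · rw [F.cc_lt hy, ← F.b_lt h, Module.Basis.repr_self]

theorem mem_I {x : H} : x ∈ F.I ↔ F.cc x = 0 := by
  rw [F.I_eq, Module.Basis.mem_span_image]
  constructor
  · intro h
    ext1 w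
    by_cases hw : F.hv w
    · exact F.cc_hv hw x
    · rw [F.cc_lt hw, Finsupp.zero_apply]
      by_contra hne
      exact hw (h (Finsupp.mem_support_iff.2 hne))
  · intro h w hw
    by_contra hne
    have h1 := F.cc_lt (w := w) hne x
    rw [h, Finsupp.zero_apply] at h1
    exact (Finsupp.mem_support_iff.1 hw) h1.symm

theorem cc_I {x : H} (h : x ∈ F.I) : F.cc x = 0 := F.mem_I.1 h

theorem cc_congr {x y : H} (h : x - y ∈ F.I) : F.cc x = F.cc y := by
  have := F.cc_I h
  rwa [map_sub, sub_eq_zero] at this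

theorem cc_sub (x : H) : x - Finsupp.linearCombination LP D.T (F.cc x) ∈ F.I := by
  classical
  rw [F.mem_I]
  ext1 w
  rw [map_sub, Finsupp.sub_apply, Finsupp.zero_apply, sub_eq_zero,
    Finsupp.linearCombination_apply, Finsupp.sum, map_sum, Finsupp.finsetSum_apply]
  have h2 : ∀ y ∈ (F.cc x).support, F.cc (F.cc x y • D.T y) w =
      if y = w then F.cc x w else 0 := by
    intro y hy
    have hy' : ¬ F.hv y := fun h => (Finsupp.mem_support_iff.1 hy) (F.cc_hv h x)
    rw [map_smul, F.cc_T hy', Finsupp.smul_apply, Finsupp.single_apply]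
    split_ifs with h
    · rw [smul_eq_mul, mul_one, h]
    · rw [smul_zero]
  rw [Finset.sum_congr rfl h2, Finset.sum_ite_eq']
  split_ifs with h5
  · rfl
  · rw [Finsupp.notMem_support_iff.1 h5]

theorem cc_len {n : ℕ} {x : H} (hx : x ∈ Vl D.T (len M) n) {w : M.Group} (h : F.cc x w ≠ 0) :
    len M w < n := by
  have h1 : ¬ F.hv w := fun h' => h (F.cc_hv h' x)
  rw [F.cc_lt h1] at h
  have h2 := Vl_le D.T (len M) F.bf F.bf_sub n hx
  have h3 : (F.b : M.Group → H) = F.bf := funext fun w => triB_apply D.T (len M) F.bf F.bf_sub w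
  rw [← h3, mem_Vl_iff] at h2
  exact h2 w h

/-- The lattices. -/
noncomputable def Lam (n : ℤ) : AddSubgroup H where
  carrier := {h | ∀ w, Dle n (F.cc h w)}
  add_mem' := by
    intro x y hx hy w
    rw [map_add, Finsupp.add_apply]
    exact (hx w).add (hy w)
  zero_mem' := by
    intro w
    rw [map_zero]
    exact Dle.zero n
  neg_mem' := by
    intro x hx w
    rw [map_neg, Finsupp.neg_apply]
    exact (hx w).neg

theorem mem_Lam {n : ℤ} {h : H} : h ∈ F.Lam n ↔ ∀ w, Dle n (F.cc h w) := Iff.rfl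

theorem Lam_mono {m n : ℤ} (hmn : m ≤ n) : F.Lam m ≤ F.Lam n :=
  fun _ hx w => (hx w).mono hmn

theorem I_Lam {x : H} (h : x ∈ F.I) (n : ℤ) : x ∈ F.Lam n := by
  intro w
  rw [F.cc_I h]
  exact Dle.zero n

theorem Lam_congr {n : ℤ} {x y : H} (h : x - y ∈ F.I) (hy : y ∈ F.Lam n) : x ∈ F.Lam n := by
  intro w
  rw [F.cc_congr h]
  exact hy w

theorem smul_Lam {m n : ℤ} {a : LP} {h : H} (ha : Dle m a) (hh : h ∈ F.Lam n) :
    a • h ∈ F.Lam (m + n) := by
  intro w
  rw [map_smul, Finsupp.smul_apply, smul_eq_mul]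
  exact ha.mul (hh w)

theorem smul_Lam_lead {m n : ℤ} {a : LP} {h : H} (ha : Dle m a) (hh : h ∈ F.Lam n)
    (w : M.Group) : (F.cc (a • h) w).coeff (m + n) = a.coeff m * (F.cc h w).coeff n := by
  rw [map_smul, Finsupp.smul_apply, smul_eq_mul]
  exact cf_mul_lead ha (hh w)

theorem T_Lam {w : M.Group} (h : ¬ F.hv w) : D.T w ∈ F.Lam 0 := by
  classical
  intro y
  rw [F.cc_T h, Finsupp.single_apply]
  split_ifs
  · exact Dle.one le_rfl
  · exact Dle.zero 0

theorem cc_bar_top {x : H} {w : M.Group} (hl : ¬ F.hv w)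
    (hw : ∀ y, F.cc x y ≠ 0 → len M y ≤ len M w) :
    F.cc (D.bar x) w = LaurentPolynomial.invert (F.cc x w) := by
  classical
  have h1 : F.cc (D.bar x) w =
      ∑ y ∈ (F.cc x).support, F.cc (D.bar (F.cc x y • D.T y)) w := by
    have h2 : D.bar x - D.bar (Finsupp.linearCombination LP D.T (F.cc x)) ∈ F.I := by
      rw [← map_sub]
      exact F.I_bar (F.cc_sub x)
    rw [F.cc_congr h2, Finsupp.linearCombination_apply, Finsupp.sum, map_sum, map_sum,
      Finsupp.finsetSum_apply]
  rw [h1]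
  have h2 : ∀ y ∈ (F.cc x).support, F.cc (D.bar (F.cc x y • D.T y)) w =
      if y = w then LaurentPolynomial.invert (F.cc x w) else 0 := by
    intro y hy
    have hy' : ¬ F.hv y := fun h => (Finsupp.mem_support_iff.1 hy) (F.cc_hv h x)
    have h3 : D.bar (D.T y) = D.T y + (D.bar (D.T y) - D.T y) := by abel
    have h4 : F.cc (D.bar (D.T y) - D.T y) w = 0 := by
      by_contra h5
      have h6 := F.cc_len (D.bar_T_sub y) h5
      have h7 := hw y (Finsupp.mem_support_iff.1 hy)
      omega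
    rw [D.bar_smul, h3, map_smul, map_add, Finsupp.smul_apply, Finsupp.add_apply, h4, add_zero,
      F.cc_T hy', Finsupp.single_apply]
    split_ifs with h5
    · rw [h5, smul_eq_mul, mul_one]
    · rw [smul_zero]
  rw [Finset.sum_congr rfl h2, Finset.sum_ite_eq']
  split_ifs with h5
  · rfl
  · rw [Finsupp.notMem_support_iff.1 h5, map_zero]

/-- The lattice argument. -/
theorem mem_I_of_bar {x : H} (hx : x ∈ F.Lam (-1)) (hb : D.bar x - x ∈ F.I) : x ∈ F.I := by
  rw [F.mem_I]
  by_contra hne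
  have hs : (F.cc x).support.Nonempty := Finsupp.support_nonempty_iff.2 hne
  obtain ⟨w, hw, hmax⟩ := Finset.exists_max_image _ (len M) hs
  have hl : ¬ F.hv w := fun h => (Finsupp.mem_support_iff.1 hw) (F.cc_hv h x)
  have h1 := F.cc_bar_top (x := x) hl (fun y hy => hmax y (Finsupp.mem_support_iff.2 hy))
  rw [F.cc_congr hb] at h1
  exact (Finsupp.mem_support_iff.1 hw) (eq_zero_of_bar (hx w) h1.symm)

/-- Congruences of bar-invariant elements. -/
theorem congr_of_bar {x y : H} (hx : D.bar x - x ∈ F.I) (hy : D.bar y - y ∈ F.I)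
    (h : x - y ∈ F.Lam (-1)) : x - y ∈ F.I := by
  refine F.mem_I_of_bar h ?_
  have h1 : D.bar (x - y) - (x - y) = (D.bar x - x) - (D.bar y - y) := by
    rw [map_sub]
    abel
  rw [h1]
  exact Submodule.sub_mem _ hx hy

/-- An element whose coordinates in the basis `T` are of degree at most `n`. -/
theorem Lat_Lam (h0 : ∀ w, D.T w ∈ F.Lam 0) {n : ℤ} {x : H} (hx : x ∈ Lat D.T n) :
    x ∈ F.Lam n := by
  rw [← D.T.linearCombination_repr x, Finsupp.linearCombination_apply, Finsupp.sum]
  refine AddSubgroup.sum_mem _ fun y _ => ?_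
  have := F.smul_Lam (hx y) (h0 y)
  rwa [add_zero] at this

theorem C_sub_Lam (h0 : ∀ w, D.T w ∈ F.Lam 0) (w : M.Group) : D.C w - D.T w ∈ F.Lam (-1) :=
  F.Lat_Lam h0 (D.C_sub_T_neg w)

theorem C_mem (h0 : ∀ w, D.T w ∈ F.Lam 0) (h1 : ∀ w, F.hv w → D.T w ∈ F.Lam (-1))
    {w : M.Group} (hw : F.hv w) : D.C w ∈ F.I := by
  refine F.mem_I_of_bar ?_ ?_
  · have h2 : D.C w = (D.C w - D.T w) + D.T w := by abel
    rw [h2]
    exact AddSubgroup.add_mem _ (F.C_sub_Lam h0 w) (h1 w hw)
  · rw [D.bar_C, sub_self]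
    exact Submodule.zero_mem _

theorem E_mem_span (h0 : ∀ w, D.T w ∈ F.Lam 0) (h1 : ∀ w, F.hv w → D.T w ∈ F.Lam (-1))
    {w : M.Group} (hw : F.hv w) : F.E w ∈ Submodule.span LP (D.C '' {w | F.hv w}) := by
  suffices h : ∀ n w, len M w < n → F.hv w →
      F.E w ∈ Submodule.span LP (D.C '' {w | F.hv w}) from h _ w (Nat.lt_succ_self _) hw
  intro n
  induction n with
  | zero => intro w hw; omega
  | succ n ih =>
    intro w hwn hw
    have h2 : F.E w = D.C w - (D.C w - F.E w) := by abel
    rw [h2]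
    refine Submodule.sub_mem _ (Submodule.subset_span ⟨w, hw, rfl⟩) ?_
    have h3 : D.C w - F.E w ∈ F.I := Submodule.sub_mem _ (F.C_mem h0 h1 hw) (F.E_mem hw)
    have h4 : D.C w - F.E w ∈ Vl D.T (len M) (len M w) := by
      have h5 : D.C w - F.E w = (D.C w - D.T w) - (F.E w - D.T w) := by abel
      rw [h5]
      exact Submodule.sub_mem _ (D.C_sub_T w) (F.E_sub w)
    have h5 := Vl_le D.T (len M) F.bf F.bf_sub (len M w) h4
    have h6 : (F.b : M.Group → H) = F.bf := funext fun w => triB_apply D.T (len M) F.bf F.bf_sub w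
    rw [← h6, mem_Vl_iff] at h5
    rw [F.I_eq, Module.Basis.mem_span_image] at h3
    rw [← F.b.linearCombination_repr (D.C w - F.E w), Finsupp.linearCombination_apply, Finsupp.sum]
    refine Submodule.sum_mem _ fun y hy => Submodule.smul_mem _ _ ?_
    have hy' : F.hv y := h3 hy
    rw [F.b_hv hy']
    exact ih y (by
      have := h5 y (Finsupp.mem_support_iff.1 hy)
      omega) hy'

theorem I_eq_C (h0 : ∀ w, D.T w ∈ F.Lam 0) (h1 : ∀ w, F.hv w → D.T w ∈ F.Lam (-1)) :
    F.I = Submodule.span LP (D.C '' {w | F.hv w}) := by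
  refine le_antisymm ?_ ?_
  · rw [I, Submodule.span_le]
    rintro _ ⟨w, hw, rfl⟩
    exact F.E_mem_span h0 h1 hw
  · rw [Submodule.span_le]
    rintro _ ⟨w, hw, rfl⟩
    exact F.C_mem h0 h1 hw

/-- The coordinates in the basis `C`. -/
theorem repr_C (h0 : ∀ w, D.T w ∈ F.Lam 0) (h1 : ∀ w, F.hv w → D.T w ∈ F.Lam (-1))
    {n : ℤ} {x : H} (hx : x ∈ F.Lam n) {z : M.Group} (hz : ¬ F.hv z) :
    Dle n (D.C.repr x z) ∧ (D.C.repr x z).coeff n = (F.cc x z).coeff n := by
  classical
  have h2 : D.C.repr x z = D.C.repr (Finsupp.linearCombination LP D.T (F.cc x)) z := by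
    have h3 := F.cc_sub x
    rw [F.I_eq_C h0 h1, Module.Basis.mem_span_image] at h3
    have h4 : D.C.repr (x - Finsupp.linearCombination LP D.T (F.cc x)) z = 0 := by
      by_contra hne
      exact hz (h3 (Finsupp.mem_support_iff.2 hne))
    rw [map_sub, Finsupp.sub_apply, sub_eq_zero] at h4
    exact h4
  have h3 : D.C.repr (Finsupp.linearCombination LP D.T (F.cc x)) z = F.cc x z +
      ∑ y ∈ (F.cc x).support, F.cc x y * D.C.repr (D.T y - D.C y) z := by
    rw [Finsupp.linearCombination_apply, Finsupp.sum, map_sum, Finsupp.finsetSum_apply]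
    have h4 : ∀ y ∈ (F.cc x).support, D.C.repr (F.cc x y • D.T y) z =
        (if y = z then F.cc x z else 0) + F.cc x y * D.C.repr (D.T y - D.C y) z := by
      intro y _
      have h5 : D.T y = D.C y + (D.T y - D.C y) := by abel
      rw [h5, map_smul, map_add, Finsupp.smul_apply, Finsupp.add_apply, smul_eq_mul, mul_add,
        Module.Basis.repr_self, Finsupp.single_apply, add_sub_cancel_left]
      congr 1
      split_ifs with h
      · rw [mul_one, h]
      · rw [mul_zero]
    rw [Finset.sum_congr rfl h4, Finset.sum_add_distrib, Finset.sum_ite_eq']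
    congr 1
    split_ifs with h5
    · rfl
    · rw [Finsupp.notMem_support_iff.1 h5]
  have h4 : Dle (n - 1) (∑ y ∈ (F.cc x).support, F.cc x y * D.C.repr (D.T y - D.C y) z) := by
    refine Dle.sum _ fun y _ => ?_
    exact (hx y).mul_of_eq (D.T_sub_C_neg y z) (by omega)
  rw [h2, h3]
  refine ⟨(hx z).add (h4.mono (by omega)), ?_⟩
  rw [cf_add, h4 n (by omega), add_zero]

end Fil

end fil

end Pool.Agent.Helper35.KL
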