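import Pool.Agent.Helper35.KL.Basic

/-!
# The Coxeter group of a free product: normal forms
-/

namespace Pool.Agent.Helper35.KL

open List

section free

variable {ι : Type} {B : ι → Type} (M : ∀ i, CoxeterMatrix (B i))

/-- Letters: elements of the components. -/
abbrev Ltr := Σ i, (M i).Group

variable {M}

/-- Reduced lists of letters. -/
def Red (l : List (Ltr M)) : Prop := (∀ x ∈ l, x.2 ≠ 1) ∧ l.IsChain fun a b => a.1 ≠ b.1

/-- The product of a list of letters. -/
noncomputable def pr (l : List (Ltr M)) : (sumM M).Group := (l.map fun x => emb M x.1 x.2).prod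

/-- The list does not end with a letter of the component `i`. -/
def NE (i : ι) (u : List (Ltr M)) : Prop := ∀ x ∈ u.getLast?, x.1 ≠ i

/-- The list does not begin with a letter of the component `i`. -/
def NS (i : ι) (v : List (Ltr M)) : Prop := ∀ x ∈ v.head?, x.1 ≠ i

@[simp] theorem pr_nil : pr ([] : List (Ltr M)) = 1 := rfl

@[simp] theorem pr_cons (x : Ltr M) (l : List (Ltr M)) : pr (x :: l) = emb M x.1 x.2 * pr l := by
  simp [pr]

@[simp] theorem pr_append (l l' : List (Ltr M)) : pr (l ++ l') = pr l * pr l' := by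
  simp [pr]

theorem red_nil : Red ([] : List (Ltr M)) := ⟨by simp, .nil⟩

theorem NE_nil (i : ι) : NE i ([] : List (Ltr M)) := by simp [NE]

theorem NS_nil (i : ι) : NS i ([] : List (Ltr M)) := by simp [NS]

theorem red_append {u v : List (Ltr M)} : Red (u ++ v) ↔
    Red u ∧ Red v ∧ ∀ x ∈ u.getLast?, ∀ y ∈ v.head?, x.1 ≠ y.1 := by
  rw [Red, Red, Red, List.isChain_append]
  simp only [List.mem_append]
  constructor
  · rintro ⟨h1, h2, h3, h4⟩
    exact ⟨⟨fun x hx => h1 x (Or.inl hx), h2⟩, ⟨fun x hx => h1 x (Or.inr hx), h3⟩, h4⟩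
  · rintro ⟨⟨h1, h2⟩, ⟨h3, h4⟩, h5⟩
    exact ⟨fun x hx => hx.elim (h1 x) (h3 x), h2, h4, h5⟩

theorem red_cons {i : ι} {x : (M i).Group} {v : List (Ltr M)} :
    Red (⟨i, x⟩ :: v) ↔ x ≠ 1 ∧ Red v ∧ NS i v := by
  have h := red_append (u := [(⟨i, x⟩ : Ltr M)]) (v := v)
  rw [List.singleton_append] at h
  rw [h]
  simp only [Red, NS, List.mem_singleton, List.isChain_singleton, and_true,
    List.getLast?_singleton, Option.mem_some_iff]
  constructor
  · rintro ⟨h1, h2, h3⟩
    refine ⟨h1 _ rfl, h2, fun y hy => ?_⟩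
    exact fun h => h3 _ rfl y hy h.symm
  · rintro ⟨h1, h2, h3⟩
    refine ⟨?_, h2, ?_⟩
    · rintro y rfl
      exact h1
    · rintro y rfl z hz h
      exact h3 z hz h.symm

theorem red_mid {i : ι} {x : (M i).Group} {u v : List (Ltr M)} :
    Red (u ++ ⟨i, x⟩ :: v) ↔ Red u ∧ NE i u ∧ x ≠ 1 ∧ Red v ∧ NS i v := by
  rw [red_append, red_cons]
  simp only [List.head?_cons, Option.mem_some_iff, NE]
  constructor
  · rintro ⟨h1, ⟨h2, h3, h4⟩, h5⟩
    exact ⟨h1, fun y hy => h5 y hy _ rfl, h2, h3, h4⟩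
  · rintro ⟨h1, h2, h3, h4, h5⟩
    refine ⟨h1, ⟨h3, h4, h5⟩, ?_⟩
    rintro y hy z rfl
    exact h2 y hy

theorem red_snoc {i : ι} {x : (M i).Group} {u : List (Ltr M)} :
    Red (u ++ [⟨i, x⟩]) ↔ Red u ∧ NE i u ∧ x ≠ 1 := by
  rw [red_mid]
  constructor
  · rintro ⟨h1, h2, h3, -, -⟩
    exact ⟨h1, h2, h3⟩
  · rintro ⟨h1, h2, h3⟩
    exact ⟨h1, h2, h3, red_nil, NS_nil i⟩

theorem Red.replace {i : ι} {x y : (M i).Group} {u v : List (Ltr M)}
    (h : Red (u ++ ⟨i, x⟩ :: v)) (hy : y ≠ 1) : Red (u ++ ⟨i, y⟩ :: v) := by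
  rw [red_mid] at h ⊢
  exact ⟨h.1, h.2.1, hy, h.2.2.2⟩

/-- The homomorphism to the free product. -/
noncomputable def toF (M : ∀ i, CoxeterMatrix (B i)) :
    (sumM M).Group →* Monoid.CoprodI fun i => (M i).Group :=
  (sumM M).toCoxeterSystem.lift
    ⟨fun x => Monoid.CoprodI.of (sm (M x.1) x.2), by
      rintro ⟨i, a⟩ ⟨j, b⟩
      by_cases hij : i = j
      · subst hij
        have h := (M i).toCoxeterSystem.simple_mul_simple_pow a b
        have e : (sumM M) ⟨i, a⟩ ⟨i, b⟩ = M i a b := by simp [sumM]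
        rw [e]
        simp only
        rw [← map_mul, ← map_pow, h, map_one]
      · have e : (sumM M) ⟨i, a⟩ ⟨j, b⟩ = 0 := by simp [sumM, hij]
        rw [e, pow_zero]⟩

theorem emb_sm (i : ι) (b : B i) : emb M i (sm (M i) b) = sm (sumM M) ⟨i, b⟩ :=
  (M i).toCoxeterSystem.lift_apply_simple _ b

theorem toF_emb (i : ι) (x : (M i).Group) :
    toF M (emb M i x) = Monoid.CoprodI.of (M := fun i => (M i).Group) x := by
  have h : (toF M).comp (emb M i) = Monoid.CoprodI.of (M := fun i => (M i).Group) := by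
    refine (M i).toCoxeterSystem.ext_simple fun b => ?_
    change toF M (emb M i (sm (M i) b)) = _
    rw [emb_sm]
    exact (sumM M).toCoxeterSystem.lift_apply_simple _ _
  exact DFunLike.congr_fun h x

/-- A reduced list as a word of the free product. -/
def toW {l : List (Ltr M)} (h : Red l) : Monoid.CoprodI.Word fun i => (M i).Group :=
  ⟨l, h.1, h.2⟩

theorem toF_pr {l : List (Ltr M)} (h : Red l) : toF M (pr l) = (toW h).prod := by
  rw [Monoid.CoprodI.Word.prod, pr, map_list_prod, List.map_map]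
  congr 1
  refine List.map_congr_left fun x _ => ?_
  exact toF_emb x.1 x.2

theorem pr_inj {l l' : List (Ltr M)} (h : Red l) (h' : Red l') (he : pr l = pr l') : l = l' := by
  classical
  have h1 : (toW h).prod = (toW h').prod := by rw [← toF_pr, ← toF_pr, he]
  have h2 : toW h = toW h' := Monoid.CoprodI.Word.equiv.symm.injective h1
  exact congrArg Monoid.CoprodI.Word.toList h2

/-- The sum of the lengths of the letters. -/
noncomputable def tl (l : List (Ltr M)) : ℕ := (l.map fun x => len (M x.1) x.2).sum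

@[simp] theorem tl_nil : tl ([] : List (Ltr M)) = 0 := rfl

@[simp] theorem tl_cons (x : Ltr M) (l : List (Ltr M)) : tl (x :: l) = len (M x.1) x.2 + tl l := by
  simp [tl]

@[simp] theorem tl_append (l l' : List (Ltr M)) : tl (l ++ l') = tl l + tl l' := by
  simp [tl]

/-- Multiplication by an element of a component from the left. -/
theorem exists_mul (i : ι) (x : (M i).Group) (l : List (Ltr M)) (hl : Red l) :
    ∃ l', Red l' ∧ pr l' = emb M i x * pr l ∧ tl l' ≤ len (M i) x + tl l ∧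
      ∀ K : ∀ i, Subgroup (M i).Group, x ∈ K i → (∀ y ∈ l, y.2 ∈ K y.1) → ∀ y ∈ l', y.2 ∈ K y.1 := by
  by_cases hs : NS i l
  · by_cases hx : x = 1
    · refine ⟨l, hl, by rw [hx, map_one, one_mul], by omega, fun K _ h => h⟩
    · refine ⟨⟨i, x⟩ :: l, red_cons.2 ⟨hx, hl, hs⟩, pr_cons _ _, by simp, ?_⟩
      intro K hx h y hy
      rcases List.mem_cons.1 hy with rfl | hy
      · exact hx
      · exact h y hy
  · rw [NS] at hs
    push Not at hs
    obtain ⟨y, hy, hyi⟩ := hs
    obtain ⟨j, y⟩ := y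
    simp only at hyi
    subst hyi
    cases l with
    | nil => simp at hy
    | cons z l =>
      simp only [List.head?_cons, Option.mem_some_iff] at hy
      subst hy
      rw [red_cons] at hl
      obtain ⟨h1, h2, h3⟩ := hl
      have hlen : len (M j) (x * y) ≤ len (M j) x + len (M j) y :=
        (M j).toCoxeterSystem.length_mul_le x y
      by_cases hxy : x * y = 1
      · refine ⟨l, h2, ?_, by simp; omega, fun K _ h z hz => h z (List.mem_cons_of_mem _ hz)⟩
        rw [pr_cons, ← mul_assoc, ← map_mul, hxy, map_one, one_mul]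
      · refine ⟨⟨j, x * y⟩ :: l, red_cons.2 ⟨hxy, h2, h3⟩, ?_, ?_, ?_⟩
        · rw [pr_cons, pr_cons, map_mul, mul_assoc]
        · simp only [tl_cons]
          omega
        · intro K hx h z hz
          rcases List.mem_cons.1 hz with rfl | hz
          · exact (K j).mul_mem hx (h ⟨j, y⟩ List.mem_cons_self)
          · exact h z (List.mem_cons_of_mem _ hz)

theorem exists_red (w : (sumM M).Group) : ∃ l, Red l ∧ pr l = w ∧ tl l ≤ len (sumM M) w := by
  induction w using len_induction with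
  | h1 => exact ⟨[], red_nil, rfl, by simp⟩
  | hs b w hl ih =>
    obtain ⟨l, h1, h2, h3⟩ := ih
    obtain ⟨i, b⟩ := b
    obtain ⟨l', h4, h5, h6, -⟩ := exists_mul i (sm (M i) b) l h1
    refine ⟨l', h4, ?_, ?_⟩
    · rw [h5, emb_sm, h2]
    · rw [len_sm] at h6
      omega

theorem len_emb_le (i : ι) (x : (M i).Group) : len (sumM M) (emb M i x) ≤ len (M i) x := by
  induction x using len_induction with
  | h1 => rw [map_one, len_one, len_one]
  | hs b w hl ih =>
    rw [hl, map_mul, emb_sm]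
    have h1 := (sumM M).toCoxeterSystem.length_mul_le (sm (sumM M) ⟨i, b⟩) (emb M i w)
    have h2 := len_sm (M := sumM M) ⟨i, b⟩
    change len (sumM M) _ ≤ _ at h1
    change _ ≤ len (sumM M) _ + len (sumM M) _ at h1
    omega

theorem len_pr_le (l : List (Ltr M)) : len (sumM M) (pr l) ≤ tl l := by
  induction l with
  | nil => rw [pr_nil, len_one, tl_nil]
  | cons x l ih =>
    rw [pr_cons, tl_cons]
    have h1 := (sumM M).toCoxeterSystem.length_mul_le (emb M x.1 x.2) (pr l)
    have h2 := len_emb_le x.1 x.2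
    change len (sumM M) _ ≤ len (sumM M) _ + len (sumM M) _ at h1
    omega

/-- The length of an element in terms of its normal form. -/
theorem len_pr {l : List (Ltr M)} (h : Red l) : len (sumM M) (pr l) = tl l := by
  obtain ⟨l', h1, h2, h3⟩ := exists_red (pr l)
  have h4 := pr_inj h1 h h2
  subst h4
  exact le_antisymm (len_pr_le _) h3

/-- The normal form. -/
noncomputable def nf (w : (sumM M).Group) : List (Ltr M) := (exists_red w).choose

theorem red_nf (w : (sumM M).Group) : Red (nf w) := (exists_red w).choose_spec.1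

theorem pr_nf (w : (sumM M).Group) : pr (nf w) = w := (exists_red w).choose_spec.2.1

theorem nf_pr {l : List (Ltr M)} (h : Red l) : nf (pr l) = l :=
  pr_inj (red_nf _) h (pr_nf _)

theorem nf_one : nf (1 : (sumM M).Group) = [] := by
  rw [← pr_nil, nf_pr red_nil]

theorem pr_eq_one {l : List (Ltr M)} (h : Red l) : pr l = 1 ↔ l = [] := by
  constructor
  · intro h1
    exact pr_inj h red_nil h1
  · rintro rfl
    rfl

theorem red_single {i : ι} {x : (M i).Group} (hx : x ≠ 1) : Red [(⟨i, x⟩ : Ltr M)] :=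
  red_cons.2 ⟨hx, red_nil, NS_nil i⟩

theorem len_emb (i : ι) (x : (M i).Group) : len (sumM M) (emb M i x) = len (M i) x := by
  by_cases hx : x = 1
  · rw [hx, map_one, len_one, len_one]
  · have h1 := len_pr (red_single hx)
    rwa [pr_cons, pr_nil, mul_one, tl_cons, tl_nil, add_zero] at h1

theorem emb_inj (i : ι) : Function.Injective (emb M i) := by
  intro x y h
  have h1 : emb M i (x * y⁻¹) = 1 := by rw [map_mul, map_inv, h, mul_inv_cancel]
  have h2 := len_emb (M := M) i (x * y⁻¹)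
  rw [h1, len_one] at h2
  exact mul_inv_eq_one.1 (len_eq_zero.1 h2.symm)

theorem len_append {u v : List (Ltr M)} (h : Red (u ++ v)) :
    len (sumM M) (pr u * pr v) = len (sumM M) (pr u) + len (sumM M) (pr v) := by
  have h1 := red_append.1 h
  rw [← pr_append, len_pr h, len_pr h1.1, len_pr h1.2.1, tl_append]

/-- The inverse list. -/
noncomputable def rv (l : List (Ltr M)) : List (Ltr M) :=
  (l.map fun x => (⟨x.1, x.2⁻¹⟩ : Ltr M)).reverse

@[simp] theorem rv_nil : rv ([] : List (Ltr M)) = [] := rfl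

@[simp] theorem rv_cons (x : Ltr M) (l : List (Ltr M)) :
    rv (x :: l) = rv l ++ [⟨x.1, x.2⁻¹⟩] := by
  simp [rv]

@[simp] theorem rv_append (l l' : List (Ltr M)) : rv (l ++ l') = rv l' ++ rv l := by
  simp [rv]

theorem rv_rv (l : List (Ltr M)) : rv (rv l) = l := by
  induction l with
  | nil => rfl
  | cons x l ih =>
    rw [rv_cons, rv_append, ih, rv_cons, rv_nil, inv_inv]
    rfl

theorem pr_rv (l : List (Ltr M)) : pr (rv l) = (pr l)⁻¹ := by
  induction l with
  | nil => simp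
  | cons x l ih =>
    rw [rv_cons, pr_append, ih, pr_cons, pr_cons, pr_nil, mul_one, mul_inv_rev, map_inv]

theorem mem_rv {l : List (Ltr M)} {y : Ltr M} : y ∈ rv l ↔ ∃ x ∈ l, y = ⟨x.1, x.2⁻¹⟩ := by
  rw [rv, List.mem_reverse, List.mem_map]
  constructor
  · rintro ⟨x, hx, rfl⟩
    exact ⟨x, hx, rfl⟩
  · rintro ⟨x, hx, rfl⟩
    exact ⟨x, hx, rfl⟩

theorem NS_rv {i : ι} {l : List (Ltr M)} : NS i (rv l) ↔ NE i l := by
  rw [NS, NE, rv, List.head?_reverse, List.getLast?_map]
  constructor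
  · intro h x hx
    exact h ⟨x.1, x.2⁻¹⟩ (by
      rw [Option.mem_def] at hx ⊢
      rw [hx]
      rfl)
  · intro h x hx
    rw [Option.mem_def, Option.map_eq_some_iff] at hx
    obtain ⟨y, hy, rfl⟩ := hx
    exact h y hy

theorem NE_rv {i : ι} {l : List (Ltr M)} : NE i (rv l) ↔ NS i l := by
  rw [← NS_rv, rv_rv]

theorem Red.rv {l : List (Ltr M)} (h : Red l) : Red (rv l) := by
  induction l with
  | nil => exact red_nil
  | cons x l ih =>
    obtain ⟨i, x⟩ := x
    rw [red_cons] at h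
    rw [rv_cons, red_snoc]
    exact ⟨ih h.2.1, NE_rv.2 h.2.2, inv_ne_one.2 h.1⟩

theorem nf_inv (w : (sumM M).Group) : nf w⁻¹ = rv (nf w) := by
  have h := nf_pr (red_nf w).rv
  rwa [pr_rv, pr_nf] at h

/-! ### Parabolic subgroups -/

/-- The trace of a set of simple reflections on a component. -/
def tr (I : Set (Σ i, B i)) (i : ι) : Set (B i) := {b | ⟨i, b⟩ ∈ I}

theorem emb_par (I : Set (Σ i, B i)) (i : ι) {x : (M i).Group} (hx : x ∈ par (M i) (tr I i)) :
    emb M i x ∈ par (sumM M) I := by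
  have h1 : (par (M i) (tr I i)).map (emb M i) ≤ par (sumM M) I := by
    rw [par, MonoidHom.map_closure, Subgroup.closure_le]
    rintro _ ⟨_, ⟨b, hb, rfl⟩, rfl⟩
    rw [emb_sm]
    exact Subgroup.subset_closure ⟨⟨i, b⟩, hb, rfl⟩
  exact h1 (Subgroup.mem_map_of_mem _ hx)

theorem pr_par (I : Set (Σ i, B i)) {l : List (Ltr M)}
    (h : ∀ x ∈ l, x.2 ∈ par (M x.1) (tr I x.1)) : pr l ∈ par (sumM M) I := by
  induction l with
  | nil => exact Subgroup.one_mem _
  | cons x l ih =>
    rw [pr_cons]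
    exact Subgroup.mul_mem _ (emb_par I x.1 (h x List.mem_cons_self))
      (ih fun y hy => h y (List.mem_cons_of_mem _ hy))

theorem par_nf (I : Set (Σ i, B i)) {w : (sumM M).Group} (hw : w ∈ par (sumM M) I) :
    ∀ x ∈ nf w, x.2 ∈ par (M x.1) (tr I x.1) := by
  suffices h : ∃ l, Red l ∧ pr l = w ∧ ∀ x ∈ l, x.2 ∈ par (M x.1) (tr I x.1) by
    obtain ⟨l, h1, rfl, h3⟩ := h
    rwa [nf_pr h1]
  have key : ∀ y ∈ sm (sumM M) '' I, ∀ w, (∃ l, Red l ∧ pr l = w ∧
      ∀ x ∈ l, x.2 ∈ par (M x.1) (tr I x.1)) → ∃ l, Red l ∧ pr l = y * w ∧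
      ∀ x ∈ l, x.2 ∈ par (M x.1) (tr I x.1) := by
    rintro _ ⟨⟨i, b⟩, hb, rfl⟩ w ⟨l, h1, h2, h3⟩
    obtain ⟨l', h4, h5, -, h6⟩ := exists_mul i (sm (M i) b) l h1
    refine ⟨l', h4, by rw [h5, emb_sm, h2], ?_⟩
    exact h6 (fun i => par (M i) (tr I i)) (Subgroup.subset_closure ⟨b, hb, rfl⟩) h3
  refine Subgroup.closure_induction_left (p := fun w _ => ∃ l, Red l ∧ pr l = w ∧
      ∀ x ∈ l, x.2 ∈ par (M x.1) (tr I x.1)) ?_ ?_ ?_ hw
  · exact ⟨[], red_nil, rfl, by simp⟩
  · intro x hx y _ h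
    exact key x hx y h
  · intro x hx y _ h
    have h1 : x⁻¹ = x := by
      obtain ⟨b, -, rfl⟩ := hx
      exact sm_inv b
    rw [h1]
    exact key x hx y h

end free

end Pool.Agent.Helper35.KL
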