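import Pool.Agent.Helper35.KL.Th

/-!
# Multiplication by elements of a component
-/

namespace Pool.Agent.Helper35.KL

open scoped TensorProduct

theorem sum_coeff (a : LP) (S : Finset ℤ) (h : a.coeff.support ⊆ S) :
    ∑ n ∈ S, a.coeff n • qq n = a := by
  classical
  refine lp_ext fun m => ?_
  rw [cf_sum]
  have h1 : ∀ n, (a.coeff n • qq n).coeff m = if n = m then a.coeff m else 0 := by
    intro n
    rw [cf_zsmul, cf_qq]
    split_ifs with h2
    · rw [h2, mul_one]
    · rw [mul_zero]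
  rw [Finset.sum_congr rfl fun n _ => h1 n, Finset.sum_ite_eq']
  split_ifs with h2
  · rfl
  · exact (Finsupp.notMem_support_iff.1 fun h3 => h2 (h h3)).symm

namespace KLD

variable {B : Type} {M : CoxeterMatrix B} {L : M.Group → ℤ} {H : Type} [Ring H] [Algebra LP H]
variable (D : KLD M L H)

/-- Right multiplication by `C b`, coefficients of degree `n`. -/
noncomputable def phi (n : ℤ) (b : M.Group) : H →ₗ[LP] H :=
  D.C.constr LP fun g => ∑ c ∈ (D.C.repr (D.C g * D.C b)).support,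
    (D.h g b c).coeff n • D.C c

theorem phi_C (n : ℤ) (b g : M.Group) : D.phi n b (D.C g) =
    ∑ c ∈ (D.C.repr (D.C g * D.C b)).support, (D.h g b c).coeff n • D.C c := by
  rw [phi, Module.Basis.constr_basis]

theorem repr_phi_C (n : ℤ) (b g y : M.Group) :
    D.C.repr (D.phi n b (D.C g)) y = (D.h g b y).coeff n • (1 : LP) := by
  classical
  rw [phi_C, map_sum, Finsupp.finsetSum_apply]
  have h1 : ∀ c, D.C.repr ((D.h g b c).coeff n • D.C c) y =
      if c = y then (D.h g b y).coeff n • (1 : LP) else 0 := by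
    intro c
    rw [map_zsmul, Finsupp.smul_apply, Module.Basis.repr_self, Finsupp.single_apply]
    split_ifs with h2
    · rw [h2]
    · rw [smul_zero]
  rw [Finset.sum_congr rfl fun c _ => h1 c, Finset.sum_ite_eq']
  split_ifs with h2
  · rfl
  · have h3 : D.h g b y = 0 := Finsupp.notMem_support_iff.1 h2
    rw [h3, cf_zero, zero_smul]

theorem C_mul_eq (x y : M.Group) : D.C x * D.C y =
    ∑ z ∈ (D.C.repr (D.C x * D.C y)).support, D.h x y z • D.C z := by
  conv_lhs => rw [← D.C.linearCombination_repr (D.C x * D.C y)]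
  rw [Finsupp.linearCombination_apply, Finsupp.sum]
  rfl

theorem sum_phi (b g : M.Group) : ∃ S₀ : Finset ℤ, ∀ S : Finset ℤ, S₀ ⊆ S →
    ∑ n ∈ S, qq n • D.phi n b (D.C g) = D.C g * D.C b := by
  classical
  refine ⟨(D.C.repr (D.C g * D.C b)).support.biUnion fun c => (D.h g b c).coeff.support,
    fun S hS => ?_⟩
  have h1 : ∀ n ∈ S, qq n • D.phi n b (D.C g) =
      ∑ c ∈ (D.C.repr (D.C g * D.C b)).support, ((D.h g b c).coeff n • qq n) • D.C c := by
    intro n _
    rw [phi_C, Finset.smul_sum]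
    refine Finset.sum_congr rfl fun c _ => ?_
    rw [smul_comm, smul_assoc]
  rw [Finset.sum_congr rfl h1, Finset.sum_comm]
  conv_rhs => rw [D.C_mul_eq]
  refine Finset.sum_congr rfl fun c hc => ?_
  rw [← Finset.sum_smul, sum_coeff]
  refine Finset.Subset.trans ?_ hS
  exact Finset.subset_biUnion_of_mem (fun c => (D.h g b c).coeff.support) hc

/-- P15, coefficients of degree `n` of the second factor. -/
theorem P15n {D : KLD M L H} (hl : D.Lus) (n : ℤ) (w w' x y : M.Group) (hxy : D.a x = D.a y) :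
    D.C.repr (D.C w * D.phi n w' (D.C x)) y = D.C.repr (D.phi n w' (D.C w * D.C x)) y := by
  have h1 := hl.P15 w w' x y hxy
  have h2 := congrArg (fun t => TensorProduct.rid ℤ LP
    (TensorProduct.map LinearMap.id (cfH n) t)) h1
  simp only [Finsupp.sum, map_sum, TensorProduct.map_tmul, TensorProduct.rid_tmul,
    LinearMap.id_apply, cfH_apply] at h2
  have h3 : D.C.repr (D.C w * D.phi n w' (D.C x)) y =
      ∑ z ∈ (D.C.repr (D.C x * D.C w')).support, (D.h x w' z).coeff n • D.h w z y := by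
    rw [phi_C, Finset.mul_sum, map_sum, Finsupp.finsetSum_apply]
    refine Finset.sum_congr rfl fun z _ => ?_
    rw [mul_smul_comm, map_zsmul, Finsupp.smul_apply]
    rfl
  have h4 : D.C.repr (D.phi n w' (D.C w * D.C x)) y =
      ∑ z ∈ (D.C.repr (D.C w * D.C x)).support, (D.h z w' y).coeff n • D.h w x z := by
    rw [D.C_mul_eq w x, map_sum, map_sum, Finsupp.finsetSum_apply, ← D.C_mul_eq w x]
    refine Finset.sum_congr rfl fun z _ => ?_
    rw [map_smul, map_smul, Finsupp.smul_apply, repr_phi_C, smul_eq_mul, mul_smul_comm, mul_one]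
  rw [h3, h4]
  exact h2.symm

end KLD

section gr

variable {ι : Type} {B : ι → Type} {M : ∀ i, CoxeterMatrix (B i)} {L : (sumM M).Group → ℤ}
variable {H : Type} [Ring H] [Algebra LP H] (D : KLD (sumM M) L H)
variable (hL : IsWeight (sumM M) L) (hl : ∀ i, (Dc D i).Lus) (hb : ∀ i, (Dc D i).Bounded)

/-- The span of the `C c` with `a c ≥ k`. -/
noncomputable def Ge (k : ℕ) (i : ι) : Submodule LP (sA D i) :=
  Submodule.span LP ((Dc D i).C '' {c | k ≤ (Dc D i).a c})

theorem Ge_mono {k m : ℕ} (i : ι) (h : k ≤ m) : Ge D m i ≤ Ge D k i :=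
  Submodule.span_mono (Set.image_mono fun c hc => le_trans h (show m ≤ (Dc D i).a c from hc))

variable {k : ℕ} {i : ι}

theorem C_Ge {g : (M i).Group} (hg : k ≤ (Dc D i).a g) : (Dc D i).C g ∈ Ge D k i :=
  Submodule.subset_span ⟨g, hg, rfl⟩

theorem mem_Ge {x : sA D i} : x ∈ Ge D k i ↔ ∀ c, (Dc D i).C.repr x c ≠ 0 → k ≤ (Dc D i).a c := by
  rw [Ge, Module.Basis.mem_span_image]
  constructor
  · intro h c hc
    exact h (Finsupp.mem_support_iff.2 hc)
  · intro h c hc
    exact h c (Finsupp.mem_support_iff.1 hc)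

include hL hl in
theorem mul_C_Ge (t : sA D i) {g : (M i).Group} (hg : k ≤ (Dc D i).a g) :
    t * (Dc D i).C g ∈ Ge D k i := by
  rw [mem_Ge]
  intro c hc
  exact le_trans hg (a_le_of_repr D hl hL hc)

include hL hl in
theorem C_mul_Ge (t : sA D i) {g : (M i).Group} (hg : k ≤ (Dc D i).a g) :
    (Dc D i).C g * t ∈ Ge D k i := by
  rw [mem_Ge]
  intro c hc
  exact le_trans hg ((hl i).a_leR ((Dc D i).leR_of_repr (isWeight_emb i hL) hc))

include hL hl in
theorem phi_Ge (n : ℤ) (b : (M i).Group) {g : (M i).Group} (hg : k ≤ (Dc D i).a g) :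
    (Dc D i).phi n b ((Dc D i).C g) ∈ Ge D k i := by
  rw [KLD.phi_C]
  refine Submodule.sum_mem _ fun c hc => ?_
  refine (Ge D k i).toAddSubgroup.zsmul_mem ?_ _
  exact C_Ge D (le_trans hg ((hl i).a_leR ((Dc D i).leR_of_repr (isWeight_emb i hL)
    (Finsupp.mem_support_iff.1 hc))))

theorem Le_zero (η : (M i).Group → H) {x : sA D i}
    (h : ∀ g, (Dc D i).a g = k → (Dc D i).C.repr x g = 0) : Le D k i η x = 0 := by
  have h1 : x ∈ Submodule.span LP ((Dc D i).C '' {c | (Dc D i).a c ≠ k}) := by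
    rw [Module.Basis.mem_span_image]
    intro c hc h2
    exact Finsupp.mem_support_iff.1 hc (h c h2)
  have h2 : Submodule.span LP ((Dc D i).C '' {c | (Dc D i).a c ≠ k}) ≤
      LinearMap.ker (Le D k i η) := by
    rw [Submodule.span_le]
    rintro _ ⟨w, hw, rfl⟩
    rw [SetLike.mem_coe, LinearMap.mem_ker, Le_C_ne D k i η hw]
  exact h2 h1

theorem Le_congr (η : (M i).Group → H) {x y : sA D i}
    (h : ∀ g, (Dc D i).a g = k → (Dc D i).C.repr x g = (Dc D i).C.repr y g) :
    Le D k i η x = Le D k i η y := by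
  rw [← sub_eq_zero, ← map_sub]
  refine Le_zero D η fun g hg => ?_
  rw [map_sub, Finsupp.sub_apply, h g hg, sub_self]

theorem Le_Ge (η : (M i).Group → H) {x : sA D i} (h : x ∈ Ge D (k + 1) i) :
    Le D k i η x = 0 := by
  refine Le_zero D η fun g hg => ?_
  by_contra hne
  have := (mem_Ge D).1 h g hne
  omega

variable {D hL hl} in
theorem Adm.mulG {η : (M i).Group → H} (h : Adm D hL hl k i η) (t : sA D i) {x : sA D i}
    (hx : x ∈ Ge D k i) : (t : H) * Le D k i η x - Le D k i η (t * x) ∈ (Fk D hL hl k).I := by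
  refine Submodule.span_induction (p := fun (x : sA D i) _ =>
    (t : H) * Le D k i η x - Le D k i η (t * x) ∈ (Fk D hL hl k).I) ?_ ?_ ?_ ?_ hx
  · rintro _ ⟨c, hc, rfl⟩
    have hc' : k ≤ (Dc D i).a c := hc
    by_cases h1 : (Dc D i).a c = k
    · rw [Le_C D k i η h1]
      exact h.mulT h1 t
    · rw [Le_C_ne D k i η h1, mul_zero, Le_Ge D η (mul_C_Ge D hL hl t (by omega)), sub_zero]
      exact Submodule.zero_mem _
  · rw [map_zero, mul_zero, mul_zero, map_zero, sub_zero]
    exact Submodule.zero_mem _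
  · intro a b _ _ ha hb
    rw [map_add, mul_add, mul_add, map_add, add_sub_add_comm]
    exact Submodule.add_mem _ ha hb
  · intro a b _ hb
    rw [map_smul, mul_smul_comm, mul_smul_comm, map_smul, ← smul_sub]
    exact Submodule.smul_mem _ _ hb

/-- The images of the coefficients of degree `n` of `C g * C b`. -/
noncomputable def et (k : ℕ) (i : ι) (n : ℤ) (b : (M i).Group) (η : (M i).Group → H)
    (g : (M i).Group) : H := Le D k i η ((Dc D i).phi n b ((Dc D i).C g))

theorem et_eq (n : ℤ) (b : (M i).Group) (η : (M i).Group → H) (g : (M i).Group) :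
    et D k i n b η g = ∑ c ∈ ((Dc D i).C.repr ((Dc D i).C g * (Dc D i).C b)).support,
      ((Dc D i).h g b c).coeff n • Le D k i η ((Dc D i).C c) := by
  rw [et, KLD.phi_C, map_sum]
  exact Finset.sum_congr rfl fun c _ => map_zsmul _ _ _

include hL hl in
theorem Le_et (n : ℤ) (b : (M i).Group) (η : (M i).Group → H) {x : sA D i}
    (hx : x ∈ Ge D k i) : Le D k i (et D k i n b η) x = Le D k i η ((Dc D i).phi n b x) := by
  refine Submodule.span_induction (p := fun (x : sA D i) _ =>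
    Le D k i (et D k i n b η) x = Le D k i η ((Dc D i).phi n b x)) ?_ ?_ ?_ ?_ hx
  · rintro _ ⟨c, hc, rfl⟩
    have hc' : k ≤ (Dc D i).a c := hc
    by_cases h1 : (Dc D i).a c = k
    · rw [Le_C D k i _ h1, et]
    · rw [Le_C_ne D k i _ h1, Le_Ge D η (phi_Ge D hL hl n b (by omega))]
  · simp only [map_zero]
  · intro a b _ _ ha hb
    simp only [map_add]
    rw [ha, hb]
  · intro a b _ hb
    simp only [map_smul]
    rw [hb]

variable {D hL hl} in
theorem Adm.et {η : (M i).Group → H} (h : Adm D hL hl k i η) (n : ℤ) (b : (M i).Group) :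
    Adm D hL hl k i (et D k i n b η) where
  mul c g hg := by
    rw [Le_et D hL hl n b η (mul_C_Ge D hL hl _ hg.ge)]
    have h1 : Le D k i η ((Dc D i).phi n b ((Dc D i).C c * (Dc D i).C g)) =
        Le D k i η ((Dc D i).C c * (Dc D i).phi n b ((Dc D i).C g)) := by
      refine Le_congr D η fun y hy => ?_
      rw [KLD.P15n (hl i) n c b g y (by rw [hg, hy])]
    rw [h1]
    have h2 := h.mulG ((Dc D i).C c) (phi_Ge D hL hl n b hg.ge)
    rwa [coe_C] at h2
  bar g hg := by
    rw [et_eq, map_sum, ← Finset.sum_sub_distrib]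
    refine Submodule.sum_mem _ fun c _ => ?_
    rw [map_zsmul, ← smul_sub]
    refine ((Fk D hL hl k).I).toAddSubgroup.zsmul_mem ?_ _
    by_cases h1 : (Dc D i).a c = k
    · rw [Le_C D k i η h1]
      exact h.bar c h1
    · rw [Le_C_ne D k i η h1, map_zero, sub_zero]
      exact Submodule.zero_mem _

theorem Le_self {x : sA D i} (hx : x ∈ Ge D k i) :
    (x : H) - Le D k i (fun g => D.C (emb M i g)) x ∈ (Fk D hL hl k).I := by
  refine Submodule.span_induction (p := fun (x : sA D i) _ =>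
    (x : H) - Le D k i (fun g => D.C (emb M i g)) x ∈ (Fk D hL hl k).I) ?_ ?_ ?_ ?_ hx
  · rintro _ ⟨c, hc, rfl⟩
    have hc' : k ≤ (Dc D i).a c := hc
    by_cases h1 : (Dc D i).a c = k
    · rw [Le_C D k i _ h1, coe_C, sub_self]
      exact Submodule.zero_mem _
    · rw [Le_C_ne D k i _ h1, sub_zero, coe_C]
      exact C_emb_mem D hL hl (by omega)
  · rw [map_zero, sub_zero, ZeroMemClass.coe_zero]
    exact Submodule.zero_mem _
  · intro a b _ _ ha hb
    rw [map_add, Subalgebra.coe_add, add_sub_add_comm]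
    exact Submodule.add_mem _ ha hb
  · intro a b _ hb
    rw [map_smul, Subalgebra.coe_smul, ← smul_sub]
    exact Submodule.smul_mem _ _ hb

theorem adm_C : Adm D hL hl k i (fun g => D.C (emb M i g)) where
  mul b g hg := by
    have h1 := Le_self D hL hl (mul_C_Ge D hL hl ((Dc D i).C b) hg.ge)
    rwa [Subalgebra.coe_mul, coe_C, coe_C] at h1
  bar g _ := by
    rw [D.bar_C, sub_self]
    exact Submodule.zero_mem _

include hb in
theorem C_Lam (w : (sumM M).Group) : D.C w ∈ (Fk D hL hl k).Lam 0 := by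
  have h1 : D.C w = (D.C w - D.T w) + D.T w := by abel
  rw [h1]
  exact AddSubgroup.add_mem _ ((Fk D hL hl k).Lam_mono (by norm_num)
    ((Fk D hL hl k).C_sub_Lam (FF_h0 D hL hl hb _) w)) (FF_h0 D hL hl hb _ _)

include hb in
theorem main_neg {u : List (Ltr M)} {g : (M i).Group} (hr : Red (u ++ [⟨i, g⟩]))
    (hu : alL D u ≤ k) (hg : (Dc D i).a g = k) :
    TT D u * D.C (emb M i g) - D.C (pr (u ++ [⟨i, g⟩])) ∈ (Fk D hL hl k).Lam (-1) := by
  have h1 := dd_sub_Lam D hL hl hb i _ (KI_pr hr hu hg)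
  rw [dd_pr D hL hl hr hu hg] at h1
  have h2 := (Fk D hL hl k).C_sub_Lam (FF_h0 D hL hl hb _) (pr (u ++ [⟨i, g⟩]))
  have h3 := AddSubgroup.sub_mem _ h1 h2
  rwa [sub_sub_sub_cancel_right] at h3

open scoped Classical in
/-- A function of the first letters and the last letter. -/
noncomputable def Xf (i : ι) (f : List (Ltr M) → (M i).Group → H) (w : (sumM M).Group) : H :=
  match (nf w).getLast? with
  | some x => if h : x.1 = i then f (nf w).dropLast (h ▸ x.2) else 0
  | none => 0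

theorem Xf_pr (f : List (Ltr M) → (M i).Group → H) {u : List (Ltr M)} {g : (M i).Group}
    (hr : Red (u ++ [⟨i, g⟩])) : Xf i f (pr (u ++ [⟨i, g⟩])) = f u g := by
  rw [Xf, nf_pr hr]
  simp

include hb in
theorem cor_n (n : ℤ) (b : (M i).Group) :
    Cor D hL hl k i (et D k i n b fun g => D.C (emb M i g))
      (Xf i fun u g => et D k i n b (fun c => D.C (pr (u ++ [⟨i, c⟩]))) g) where
  toAdm := (adm_C D hL hl).et n b
  barX w hw := by
    obtain ⟨u, g, e1, e2, e3, e4, e5, e6⟩ := KI_snoc hw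
    have hr := red_snoc.2 ⟨e2, e3, e4⟩
    rw [← pr_nf w, e1, Xf_pr _ hr, et_eq, map_sum, ← Finset.sum_sub_distrib]
    refine Submodule.sum_mem _ fun c _ => ?_
    rw [map_zsmul, ← smul_sub]
    refine ((Fk D hL hl k).I).toAddSubgroup.zsmul_mem ?_ _
    by_cases h1 : (Dc D i).a c = k
    · rw [Le_C D k i _ h1, D.bar_C, sub_self]
      exact Submodule.zero_mem _
    · rw [Le_C_ne D k i _ h1, map_zero, sub_zero]
      exact Submodule.zero_mem _
  lamX w hw := by
    obtain ⟨u, g, e1, e2, e3, e4, e5, e6⟩ := KI_snoc hw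
    have hr := red_snoc.2 ⟨e2, e3, e4⟩
    rw [← pr_nf w, e1, Xf_pr _ hr, et_eq]
    refine AddSubgroup.sum_mem _ fun c _ => ?_
    refine AddSubgroup.zsmul_mem _ ?_ _
    by_cases h1 : (Dc D i).a c = k
    · rw [Le_C D k i _ h1]
      exact C_Lam D hL hl hb _
    · rw [Le_C_ne D k i _ h1]
      exact AddSubgroup.zero_mem _
  neg u g hr hu hg := by
    rw [Xf_pr _ hr, et_eq, et_eq, Finset.mul_sum, ← Finset.sum_sub_distrib]
    refine AddSubgroup.sum_mem _ fun c hc => ?_
    rw [mul_smul_comm, ← smul_sub]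
    refine AddSubgroup.zsmul_mem _ ?_ _
    by_cases h1 : (Dc D i).a c = k
    · rw [Le_C D k i _ h1, Le_C D k i _ h1]
      by_cases hc1 : c = 1
      · exfalso
        have hc2 := (hl i).a_leR ((Dc D i).leR_of_repr (isWeight_emb i hL)
          (Finsupp.mem_support_iff.1 hc))
        rw [red_snoc] at hr
        have h2 := KLD.a_pos (isWeight_emb i hL) (hb i) hr.2.2
        rw [hc1, a_one_c D hL] at hc2
        omega
      · exact main_neg D hL hl hb (red_snoc.2 ⟨(red_snoc.1 hr).1, (red_snoc.1 hr).2.1, hc1⟩) hu h1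
    · rw [Le_C_ne D k i _ h1, Le_C_ne D k i _ h1, mul_zero, sub_zero]
      exact AddSubgroup.zero_mem _

theorem sum_Tht (b : (M i).Group) {x : H} (hx : x ∈ KT D hL hl k i) :
    ∃ S₀ : Finset ℤ, ∀ S : Finset ℤ, S₀ ⊆ S → x * D.C (emb M i b) -
      ∑ n ∈ S, qq n • Tht D hL hl k i (et D k i n b fun g => D.C (emb M i g)) x ∈
        (Fk D hL hl k).I := by
  classical
  refine KT_induction D hL hl (p := fun x => ∃ S₀ : Finset ℤ, ∀ S : Finset ℤ, S₀ ⊆ S →
    x * D.C (emb M i b) -
      ∑ n ∈ S, qq n • Tht D hL hl k i (et D k i n b fun g => D.C (emb M i g)) x ∈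
        (Fk D hL hl k).I) ?_ ?_ ?_ ?_ hx
  · intro u g h1 h2 h3 h4 h5
    obtain ⟨S₀, hS⟩ := (Dc D i).sum_phi b g
    refine ⟨S₀, fun S hS' => ?_⟩
    have h6 : ∀ n ∈ S, qq n • Tht D hL hl k i (et D k i n b fun g => D.C (emb M i g))
        (TT D u * D.C (emb M i g)) = TT D u * Le D k i (fun g => D.C (emb M i g))
          (qq n • (Dc D i).phi n b ((Dc D i).C g)) := by
      intro n _
      rw [Tht_dd D hL hl _ (red_snoc.2 ⟨h1, h2, h3⟩) h4 h5, et, map_smul, mul_smul_comm]
    rw [Finset.sum_congr rfl h6, ← Finset.mul_sum, ← map_sum, hS S hS', mul_assoc, ← mul_sub]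
    refine (Fk D hL hl k).I_mulL _ ?_
    have h7 := Le_self D hL hl (C_mul_Ge D hL hl ((Dc D i).C b) h5.ge)
    rwa [Subalgebra.coe_mul, coe_C, coe_C] at h7
  · intro x hx
    refine ⟨∅, fun S _ => ?_⟩
    rw [Finset.sum_eq_zero fun n _ => by rw [Tht_I D hL hl _ hx, smul_zero], sub_zero]
    exact (Fk D hL hl k).I_mulR _ hx
  · rintro x y ⟨S1, h1⟩ ⟨S2, h2⟩
    refine ⟨S1 ∪ S2, fun S hS => ?_⟩
    have h3 := Submodule.add_mem _ (h1 S (Finset.union_subset_iff.1 hS).1)
      (h2 S (Finset.union_subset_iff.1 hS).2)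
    simp only [map_add, smul_add, Finset.sum_add_distrib, add_mul]
    rwa [add_sub_add_comm]
  · rintro a x ⟨S1, h1⟩
    refine ⟨S1, fun S hS => ?_⟩
    have h3 := Submodule.smul_mem _ a (h1 S hS)
    rw [smul_sub, Finset.smul_sum] at h3
    simp only [map_smul, smul_mul_assoc]
    have h4 : ∀ n ∈ S, qq n • a • Tht D hL hl k i (et D k i n b fun g => D.C (emb M i g)) x =
        a • qq n • Tht D hL hl k i (et D k i n b fun g => D.C (emb M i g)) x :=
      fun n _ => smul_comm _ _ _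
    rw [Finset.sum_congr rfl h4]
    exact h3

include hb in
/-- Right multiplication by elements of the component. -/
theorem GRf (hk : 0 < k) {u : List (Ltr M)} {g : (M i).Group} (hr : Red (u ++ [⟨i, g⟩]))
    (hu : alL D u ≤ k) (hg : (Dc D i).a g = k) (b : (M i).Group) :
    D.C (pr (u ++ [⟨i, g⟩])) * D.C (emb M i b) -
      Le D k i (fun c => D.C (pr (u ++ [⟨i, c⟩]))) ((Dc D i).C g * (Dc D i).C b) ∈
        (Fk D hL hl k).I := by
  classical
  have hw := KI_pr hr hu hg
  obtain ⟨S1, h1⟩ := sum_Tht D hL hl b (C_mem_KT D hL hl hb i hk hw)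
  obtain ⟨S2, h2⟩ := (Dc D i).sum_phi b g
  have h3 := h1 (S1 ∪ S2) Finset.subset_union_left
  have h4 := h2 (S1 ∪ S2) Finset.subset_union_right
  have h5 : ∑ n ∈ S1 ∪ S2, (qq n • Tht D hL hl k i (et D k i n b fun g => D.C (emb M i g))
      (D.C (pr (u ++ [⟨i, g⟩]))) - qq n • et D k i n b (fun c => D.C (pr (u ++ [⟨i, c⟩]))) g) ∈
        (Fk D hL hl k).I := by
    refine Submodule.sum_mem _ fun n _ => ?_
    rw [← smul_sub]
    refine Submodule.smul_mem _ _ ?_
    have h6 := (cor_n D hL hl hb n b).Tht_eq hb hk hw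
    rwa [Xf_pr _ hr] at h6
  have h6 : Le D k i (fun c => D.C (pr (u ++ [⟨i, c⟩]))) ((Dc D i).C g * (Dc D i).C b) =
      ∑ n ∈ S1 ∪ S2, qq n • et D k i n b (fun c => D.C (pr (u ++ [⟨i, c⟩]))) g := by
    rw [← h4, map_sum]
    refine Finset.sum_congr rfl fun n _ => ?_
    rw [map_smul, et]
  rw [Finset.sum_sub_distrib, ← h6] at h5
  have h7 := Submodule.add_mem _ h3 h5
  rwa [sub_add_sub_cancel] at h7

theorem I_fl {x : H} (hx : x ∈ (Fk D hL hl k).I) : D.fl x ∈ (Fk D hL hl k).I := by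
  rw [FF_I] at hx ⊢
  exact KK_fl D hx

include hb in
/-- Left multiplication by elements of the component. -/
theorem GLf (hk : 0 < k) {v : List (Ltr M)} {g : (M i).Group} (hr : Red (⟨i, g⟩ :: v))
    (hv : alL D v ≤ k) (hg : (Dc D i).a g = k) (b : (M i).Group) :
    D.C (emb M i b) * D.C (pr (⟨i, g⟩ :: v)) -
      Le D k i (fun c => D.C (pr (⟨i, c⟩ :: v))) ((Dc D i).C b * (Dc D i).C g) ∈
        (Fk D hL hl k).I := by
  have hr' : Red (rv v ++ [⟨i, g⁻¹⟩]) := by
    have := hr.rv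
    rwa [rv_cons] at this
  have h1 := I_fl D hL hl (GRf D hL hl hb hk hr' (by rwa [alL_rv])
    (by rw [KLD.a_inv, hg]) b⁻¹)
  have h2 : ∀ x : sA D i, D.fl (Le D k i (fun c => D.C (pr (rv v ++ [⟨i, c⟩]))) x) =
      Le D k i (fun c => D.C (pr (⟨i, c⟩ :: v))) ((Dc D i).fl x) := by
    intro x
    have h3 : D.fl.comp (Le D k i (fun c => D.C (pr (rv v ++ [⟨i, c⟩])))) =
        (Le D k i (fun c => D.C (pr (⟨i, c⟩ :: v)))).comp (Dc D i).fl := by
      refine (Dc D i).C.ext fun c => ?_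
      rw [LinearMap.comp_apply, LinearMap.comp_apply, KLD.fl_C]
      by_cases h4 : (Dc D i).a c = k
      · rw [Le_C D k i _ h4, Le_C D k i _ (by rw [KLD.a_inv, h4]), D.fl_C]
        congr 1
        rw [← pr_rv, rv_append, rv_rv, rv_cons, rv_nil]
        rfl
      · rw [Le_C_ne D k i _ h4, Le_C_ne D k i _ (by rwa [KLD.a_inv]), map_zero]
    exact LinearMap.congr_fun h3 x
  rw [map_sub, D.fl_mul, D.fl_C, D.fl_C, h2, KLD.fl_mul, KLD.fl_C, KLD.fl_C, inv_inv,
    inv_inv, ← pr_rv, rv_append, rv_rv, rv_cons, rv_nil, List.nil_append, List.singleton_append,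
    inv_inv, ← map_inv, inv_inv] at h1
  exact h1

end gr

end Pool.Agent.Helper35.KL
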