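import Pool.Agent.Helper35.KL.Tri

/-!
# The lemma of Kazhdan and Lusztig on bar-invariant elements
-/

namespace Pool.Agent.Helper35.KL

section klem

variable {W H : Type} [AddCommGroup H] [Module LP H]
variable (d : Module.Basis W LP H) (bar : H →+ H)
variable (J : Set W) (l : W → ℕ) (F : Submodule LP H)

theorem klem_top (hs : ∀ (a : LP) h, bar (a • h) = LaurentPolynomial.invert a • bar h)
    (hF : ∀ f ∈ F, bar f ∈ F) (hFJ : ∀ f ∈ F, ∀ w ∈ J, d.repr f w = 0)
    (hJ : ∀ w ∈ J, bar (d w) - d w ∈ Submodule.span LP (d '' {y | y ∈ J ∧ l y < l w}) ⊔ F)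
    {n : ℕ} {s : H} (h : s ∈ Submodule.span LP (d '' {y | y ∈ J ∧ l y < n + 1}) ⊔ F) {y : W}
    (hy : y ∈ J) (hn : l y = n) :
    d.repr (bar s) y = LaurentPolynomial.invert (d.repr s y) := by
  classical
  obtain ⟨s1, hs1, f, hf, rfl⟩ := Submodule.mem_sup.1 h
  have h2 : ∀ m ≤ n, ∀ t ∈ Submodule.span LP (d '' {y | y ∈ J ∧ l y < m}) ⊔ F,
      d.repr t y = 0 := by
    intro m hm t ht
    obtain ⟨t1, ht1, t2, ht2, rfl⟩ := Submodule.mem_sup.1 ht
    rw [map_add, Finsupp.add_apply, hFJ t2 ht2 y hy, add_zero]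
    by_contra hne
    have h3 := (Module.Basis.mem_span_image d).1 ht1 (Finsupp.mem_support_iff.2 hne)
    have h4 : l y < m := h3.2
    omega
  have h3 : d.repr (bar s1) y = LaurentPolynomial.invert (d.repr s1 y) := by
    refine Submodule.span_induction (p := fun s _ => d.repr (bar s) y =
      LaurentPolynomial.invert (d.repr s y)) ?_ ?_ ?_ ?_ hs1
    · rintro _ ⟨z, ⟨hz, hzn⟩, rfl⟩
      have h4 : bar (d z) = d z + (bar (d z) - d z) := by abel
      rw [h4, map_add, Finsupp.add_apply, h2 (l z) (by omega) _ (hJ z hz), add_zero,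
        Module.Basis.repr_self, Finsupp.single_apply]
      split_ifs
      · rw [map_one]
      · rw [map_zero]
    · rw [map_zero, map_zero, Finsupp.zero_apply, map_zero]
    · intro a b _ _ ha hb
      rw [map_add, map_add, map_add, Finsupp.add_apply, Finsupp.add_apply, ha, hb, map_add]
    · intro a x _ hx
      rw [hs, map_smul, map_smul, Finsupp.smul_apply, Finsupp.smul_apply, hx, smul_eq_mul,
        smul_eq_mul, map_mul]
  rw [map_add, map_add, map_add, Finsupp.add_apply, Finsupp.add_apply, h3, hFJ _ (hF f hf) y hy,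
    hFJ f hf y hy, add_zero, add_zero]

theorem klem_aux (hs : ∀ (a : LP) h, bar (a • h) = LaurentPolynomial.invert a • bar h)
    (hb : ∀ h, bar (bar h) = h)
    (hF : ∀ f ∈ F, bar f ∈ F) (hFJ : ∀ f ∈ F, ∀ w ∈ J, d.repr f w = 0)
    (hJ : ∀ w ∈ J, bar (d w) - d w ∈ Submodule.span LP (d '' {y | y ∈ J ∧ l y < l w}) ⊔ F)
    (n : ℕ) : ∀ x ∈ Submodule.span LP (d '' {y | y ∈ J ∧ l y < n}) ⊔ F, bar x + x ∈ F →
      ∃ p ∈ Submodule.span LP (d '' {y | y ∈ J ∧ l y < n}), p ∈ Lat d (-1) ∧
        bar p - p - x ∈ F := by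
  classical
  induction n with
  | zero =>
    intro x hx _
    have h0 : {y | y ∈ J ∧ l y < 0} = ∅ := by
      ext y
      simp
    rw [h0, Set.image_empty, Submodule.span_empty, bot_sup_eq] at hx
    refine ⟨0, Submodule.zero_mem _, AddSubgroup.zero_mem _, ?_⟩
    rw [map_zero, sub_zero, zero_sub]
    exact Submodule.neg_mem _ hx
  | succ n ih =>
    intro x hx hxF
    have htop : ∀ y ∈ J, l y = n → LaurentPolynomial.invert (d.repr x y) = -d.repr x y := by
      intro y hy hyn
      have h1 := hFJ _ hxF y hy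
      rw [map_add, Finsupp.add_apply, klem_top d bar J l F hs hF hFJ hJ hx hy hyn] at h1
      exact eq_neg_of_add_eq_zero_left h1
    obtain ⟨s, hsp, f, hf, rfl⟩ := Submodule.mem_sup.1 hx
    have hxs : ∀ y ∈ J, d.repr (s + f) y = d.repr s y := by
      intro y hy
      rw [map_add, Finsupp.add_apply, hFJ f hf y hy, add_zero]
    have hsup : ∀ y ∈ (d.repr s).support, y ∈ J ∧ l y < n + 1 := fun y hy =>
      (Module.Basis.mem_span_image d).1 hsp hy
    have hbex : ∀ y, ∃ b : LP, Dle (-1) b ∧ (y ∈ J → l y = n →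
        LaurentPolynomial.invert b - b = d.repr s y) := by
      intro y
      by_cases hy : y ∈ J ∧ l y = n
      · obtain ⟨b, hb1, hb2⟩ := exists_neg (htop y hy.1 hy.2)
        refine ⟨b, hb1, fun _ _ => ?_⟩
        rw [hb2, hxs y hy.1]
      · exact ⟨0, Dle.zero _, fun h1 h2 => absurd ⟨h1, h2⟩ hy⟩
    choose b hb1 hb2 using hbex
    set S := (d.repr s).support.filter fun y => l y = n with hS
    set P := ∑ y ∈ S, b y • d y with hP
    have hSJ : ∀ y ∈ S, y ∈ J ∧ l y = n := by
      intro y hy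
      rw [hS, Finset.mem_filter] at hy
      exact ⟨(hsup y hy.1).1, hy.2⟩
    have hPsp : P ∈ Submodule.span LP (d '' {y | y ∈ J ∧ l y < n + 1}) := by
      refine Submodule.sum_mem _ fun y hy => Submodule.smul_mem _ _ (Submodule.subset_span ?_)
      have := hSJ y hy
      exact ⟨y, ⟨this.1, by omega⟩, rfl⟩
    have hPL : P ∈ Lat d (-1) := by
      refine AddSubgroup.sum_mem _ fun y _ => ?_
      have := smul_Lat d (hb1 y) (basis_mem_Lat d y)
      simpa using this
    have hsdec : s = ∑ y ∈ S, d.repr s y • d y +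
        ∑ y ∈ (d.repr s).support.filter fun y => ¬ l y = n, d.repr s y • d y := by
      rw [hS, Finset.sum_filter_add_sum_filter_not]
      conv_lhs => rw [← d.linearCombination_repr s]
      rw [Finsupp.linearCombination_apply, Finsupp.sum]
    have hlow : ∑ y ∈ (d.repr s).support.filter fun y => ¬ l y = n, d.repr s y • d y ∈
        Submodule.span LP (d '' {y | y ∈ J ∧ l y < n}) := by
      refine Submodule.sum_mem _ fun y hy => Submodule.smul_mem _ _ (Submodule.subset_span ?_)
      rw [Finset.mem_filter] at hy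
      have := hsup y hy.1
      exact ⟨y, ⟨this.1, by omega⟩, rfl⟩
    have hbarP : bar P - P - ∑ y ∈ S, d.repr s y • d y ∈
        Submodule.span LP (d '' {y | y ∈ J ∧ l y < n}) ⊔ F := by
      rw [hP, map_sum, ← Finset.sum_sub_distrib, ← Finset.sum_sub_distrib]
      refine Submodule.sum_mem _ fun y hy => ?_
      obtain ⟨hyJ, hyn⟩ := hSJ y hy
      have h1 : bar (b y • d y) - b y • d y - d.repr s y • d y =
          LaurentPolynomial.invert (b y) • (bar (d y) - d y) := by
        rw [hs, ← hb2 y hyJ hyn, sub_smul, smul_sub]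
        abel
      rw [h1]
      have h2 := hJ y hyJ
      rw [hyn] at h2
      exact Submodule.smul_mem _ _ h2
    set x' := s + f - (bar P - P) with hx'
    have hx'1 : x' ∈ Submodule.span LP (d '' {y | y ∈ J ∧ l y < n}) ⊔ F := by
      have h1 : x' = (∑ y ∈ (d.repr s).support.filter fun y => ¬ l y = n, d.repr s y • d y) +
          f - (bar P - P - ∑ y ∈ S, d.repr s y • d y) := by
        rw [hx']
        conv_lhs => rw [hsdec]
        abel
      rw [h1]
      refine Submodule.sub_mem _ (Submodule.add_mem _ ?_ ?_) hbarP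
      · exact Submodule.mem_sup_left hlow
      · exact Submodule.mem_sup_right hf
    have hx'2 : bar x' + x' ∈ F := by
      have h1 : bar x' + x' = bar (s + f) + (s + f) := by
        rw [hx', map_sub, map_sub, hb]
        abel
      rw [h1]
      exact hxF
    obtain ⟨p, hp1, hp2, hp3⟩ := ih x' hx'1 hx'2
    refine ⟨P + p, ?_, AddSubgroup.add_mem _ hPL hp2, ?_⟩
    · refine Submodule.add_mem _ hPsp (Submodule.span_mono (Set.image_mono ?_) hp1)
      rintro y ⟨h1, h2⟩
      exact ⟨h1, by omega⟩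
    · have h1 : bar (P + p) - (P + p) - (s + f) = bar p - p - x' := by
        rw [hx', map_add]
        abel
      rw [h1]
      exact hp3

/-- The lemma of Kazhdan and Lusztig, modulo a submodule `F`. -/
theorem klem (hs : ∀ (a : LP) h, bar (a • h) = LaurentPolynomial.invert a • bar h)
    (hb : ∀ h, bar (bar h) = h)
    (hF : ∀ f ∈ F, bar f ∈ F) (hFJ : ∀ f ∈ F, ∀ w ∈ J, d.repr f w = 0)
    (hJ : ∀ w ∈ J, bar (d w) - d w ∈ Submodule.span LP (d '' {y | y ∈ J ∧ l y < l w}) ⊔ F)
    (w : W) (hw : w ∈ J) :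
    ∃ k : H, k - d w ∈ Submodule.span LP (d '' {y | y ∈ J ∧ l y < l w}) ∧
      k - d w ∈ Lat d (-1) ∧ bar k - k ∈ F := by
  have h1 : bar (d w - bar (d w)) + (d w - bar (d w)) ∈ F := by
    rw [map_sub, hb]
    have : bar (d w) - d w + (d w - bar (d w)) = 0 := by abel
    rw [this]
    exact Submodule.zero_mem _
  have h2 : d w - bar (d w) ∈ Submodule.span LP (d '' {y | y ∈ J ∧ l y < l w}) ⊔ F := by
    have h3 := Submodule.neg_mem _ (hJ w hw)
    rwa [neg_sub] at h3
  obtain ⟨p, hp1, hp2, hp3⟩ := klem_aux d bar J l F hs hb hF hFJ hJ (l w) _ h2 h1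
  refine ⟨d w + p, ?_, ?_, ?_⟩
  · rwa [add_sub_cancel_left]
  · rwa [add_sub_cancel_left]
  · have h4 : bar (d w + p) - (d w + p) = bar p - p - (d w - bar (d w)) := by
      rw [map_add]
      abel
    rw [h4]
    exact hp3

end klem

end Pool.Agent.Helper35.KL
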