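import Pool.Agent.Helper35.KL.PF

/-!
# The left ideals generated by the `C g` of a component
-/

namespace Pool.Agent.Helper35.KL

section kc

variable {ι : Type} {B : ι → Type} {M : ∀ i, CoxeterMatrix (B i)} {L : (sumM M).Group → ℤ}
variable {H : Type} [Ring H] [Algebra LP H] (D : KLD (sumM M) L H)
variable (hL : IsWeight (sumM M) L) (hl : ∀ i, (Dc D i).Lus) (hb : ∀ i, (Dc D i).Bounded)

/-- The ideal of the elements with `al > k`. -/
noncomputable abbrev Fk (k : ℕ) : Fil D := FF D hL hl (Nat.succ_pos k)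

theorem Fk_hv {k : ℕ} {w : (sumM M).Group} : (Fk D hL hl k).hv w ↔ k < al D w := by
  rw [FF_hv, Hv_iff D (Nat.succ_pos k)]
  exact Iff.rfl

theorem Fk_hv_pr {k : ℕ} {l : List (Ltr M)} (h : Red l) :
    (Fk D hL hl k).hv (pr l) ↔ k < alL D l := by
  rw [Fk_hv, al_pr D h]

/-- Elements whose last letter is in the component `i` and has the value `a = k`. -/
def KI (k : ℕ) (i : ι) (w : (sumM M).Group) : Prop :=
  al D w ≤ k ∧ ∃ x ∈ (nf w).getLast?, x.1 = i ∧ al1 D x = k

/-- The product of `TT` of the first letters and `f` of the last letter. -/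
noncomputable def kf (f : Ltr M → H) (l : List (Ltr M)) : H :=
  TT D l.dropLast * (match l.getLast? with
    | some x => f x
    | none => 1)

theorem kf_snoc (f : Ltr M → H) (u : List (Ltr M)) (x : Ltr M) :
    kf D f (u ++ [x]) = TT D u * f x := by
  rw [kf]
  simp

variable {D} in
theorem KI_snoc {k : ℕ} {i : ι} {w : (sumM M).Group} (h : KI D k i w) :
    ∃ (u : List (Ltr M)) (g : (M i).Group), nf w = u ++ [⟨i, g⟩] ∧ Red u ∧ NE i u ∧ g ≠ 1 ∧
      alL D u ≤ k ∧ (Dc D i).a g = k := by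
  obtain ⟨h1, x, hx, rfl, hx2⟩ := h
  obtain ⟨j, x⟩ := x
  have h2 : nf w = (nf w).dropLast ++ [⟨j, x⟩] := (List.dropLast_append_getLast? _ hx).symm
  have h3 := red_nf w
  rw [h2, red_snoc] at h3
  refine ⟨(nf w).dropLast, x, h2, h3.1, h3.2.1, h3.2.2, ?_, hx2⟩
  have h4 : al D w = alL D (nf w) := rfl
  rw [h4, h2, alL_append] at h1
  omega

variable {D} in
theorem KI_pr {k : ℕ} {i : ι} {u : List (Ltr M)} {g : (M i).Group} (hr : Red (u ++ [⟨i, g⟩]))
    (hu : alL D u ≤ k) (hg : (Dc D i).a g = k) : KI D k i (pr (u ++ [⟨i, g⟩])) := by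
  refine ⟨?_, ?_⟩
  · rw [al_pr D hr, alL_append, alL_cons, alL_nil]
    have : al1 D ⟨i, g⟩ = k := hg
    omega
  · rw [nf_pr hr]
    exact ⟨⟨i, g⟩, by simp, rfl, hg⟩

theorem KI_light {k : ℕ} {i : ι} {w : (sumM M).Group} (h : KI D k i w) :
    ¬ (Fk D hL hl k).hv w := by
  rw [Fk_hv]
  have := h.1
  omega

open scoped Classical in
/-- The basis adapted to the left ideal. -/
noncomputable def dd (k : ℕ) (i : ι) (w : (sumM M).Group) : H :=
  if KI D k i w then kf D (fun x => D.C (emb M x.1 x.2)) (nf w) else (Fk D hL hl k).bf w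

theorem dd_of {k : ℕ} {i : ι} {w : (sumM M).Group} (h : KI D k i w) {u : List (Ltr M)}
    {g : (M i).Group} (hw : nf w = u ++ [⟨i, g⟩]) :
    dd D hL hl k i w = TT D u * D.C (emb M i g) := by
  rw [dd, if_pos h, hw, kf_snoc]

theorem dd_pr {k : ℕ} {i : ι} {u : List (Ltr M)} {g : (M i).Group}
    (hr : Red (u ++ [⟨i, g⟩])) (hu : alL D u ≤ k) (hg : (Dc D i).a g = k) :
    dd D hL hl k i (pr (u ++ [⟨i, g⟩])) = TT D u * D.C (emb M i g) :=
  dd_of D hL hl (KI_pr hr hu hg) (nf_pr hr)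

theorem dd_sub (k : ℕ) (i : ι) (w : (sumM M).Group) :
    dd D hL hl k i w - D.T w ∈ Vl D.T (len (sumM M)) (len (sumM M) w) := by
  by_cases h : KI D k i w
  · obtain ⟨u, g, h1, h2, h3, h4, -, -⟩ := KI_snoc h
    have hr : Red (u ++ [⟨i, g⟩]) := red_snoc.2 ⟨h2, h3, h4⟩
    have hw : w = pr (u ++ [⟨i, g⟩]) := by rw [← h1, pr_nf]
    have h5 := len_append hr
    rw [pr_cons, pr_nil, mul_one] at h5
    rw [dd_of D hL hl h h1, hw, pr_append, pr_cons, pr_nil, mul_one, D.T_mul _ _ h5, h5,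
      TT_red D h2, ← mul_sub]
    exact D.T_mul_Vl _ (D.C_sub_T _)
  · rw [dd, if_neg h]
    exact (Fk D hL hl k).bf_sub w

/-- The adapted basis. -/
noncomputable def dB (k : ℕ) (i : ι) : Module.Basis (sumM M).Group LP H :=
  triB D.T (len (sumM M)) (dd D hL hl k i) (dd_sub D hL hl k i)

theorem dB_apply (k : ℕ) (i : ι) (w : (sumM M).Group) :
    dB D hL hl k i w = dd D hL hl k i w :=
  triB_apply _ _ _ (dd_sub D hL hl k i) w

theorem dB_hv {k : ℕ} {i : ι} {w : (sumM M).Group} (h : (Fk D hL hl k).hv w) :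
    dB D hL hl k i w = EE D (nf w) := by
  rw [dB_apply, dd, if_neg (fun h' => KI_light D hL hl h' h), Fil.bf, if_pos h]
  rfl

theorem I_eq_dB (k : ℕ) (i : ι) : (Fk D hL hl k).I =
    Submodule.span LP (dB D hL hl k i '' {w | (Fk D hL hl k).hv w}) := by
  rw [Fil.I]
  congr 1
  ext x
  constructor
  · rintro ⟨w, hw, rfl⟩
    exact ⟨w, hw, dB_hv D hL hl hw⟩
  · rintro ⟨w, hw, rfl⟩
    exact ⟨w, hw, (dB_hv D hL hl hw).symm⟩

theorem repr_I {k : ℕ} {i : ι} {x : H} (hx : x ∈ (Fk D hL hl k).I) {w : (sumM M).Group}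
    (hw : KI D k i w) : (dB D hL hl k i).repr x w = 0 := by
  rw [I_eq_dB D hL hl k i, Module.Basis.mem_span_image] at hx
  by_contra hne
  exact KI_light D hL hl hw (hx (Finsupp.mem_support_iff.2 hne))

/-- The level of an element: the length without the last letter. -/
noncomputable def lv (w : (sumM M).Group) : ℕ := tl (nf w).dropLast

theorem lv_pr {i : ι} {u : List (Ltr M)} {g : (M i).Group} (hr : Red (u ++ [⟨i, g⟩])) :
    lv (pr (u ++ [⟨i, g⟩])) = tl u := by
  rw [lv, nf_pr hr]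
  simp

/-- The left ideal of the component, with a bound for the level. -/
noncomputable def KS (k : ℕ) (i : ι) (n : ℕ) : Submodule LP H :=
  Submodule.span LP (dd D hL hl k i '' {y | KI D k i y ∧ lv y < n}) ⊔ (Fk D hL hl k).I

theorem KS_mono (k : ℕ) (i : ι) {m n : ℕ} (h : m ≤ n) : KS D hL hl k i m ≤ KS D hL hl k i n := by
  refine sup_le_sup ?_ le_rfl
  refine Submodule.span_mono (Set.image_mono ?_)
  rintro y ⟨h1, h2⟩
  exact ⟨h1, by omega⟩

theorem dd_mem_KS {k : ℕ} {i : ι} {n : ℕ} {u : List (Ltr M)} {g : (M i).Group}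
    (hr : Red (u ++ [⟨i, g⟩])) (hu : alL D u ≤ k) (hg : (Dc D i).a g = k) (hn : tl u < n) :
    TT D u * D.C (emb M i g) ∈ KS D hL hl k i n := by
  refine Submodule.mem_sup_left (Submodule.subset_span ⟨pr (u ++ [⟨i, g⟩]), ⟨?_, ?_⟩, ?_⟩)
  · exact KI_pr hr hu hg
  · rwa [lv_pr hr]
  · exact dd_pr D hL hl hr hu hg

/-- Elements `C g` with `a g > k` are in the ideal. -/
theorem C_emb_mem {k : ℕ} {i : ι} {g : (M i).Group} (hg : k < (Dc D i).a g) :
    D.C (emb M i g) ∈ (Fk D hL hl k).I := by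
  have h1 : (Dc D i).C g ∈ ((hl i).fil (isWeight_emb i hL) (k + 1)).I :=
    (hl i).C_mem_I (isWeight_emb i hL) hg
  have h2 := comp_mem_I D hL hl (Nat.succ_pos k) i h1
  rwa [coe_C] at h2

/-- Products of an element of the component and `C g`. -/
theorem T_mul_C_emb (i : ι) (t : sA D i) (g : (M i).Group) : (t : H) * D.C (emb M i g) =
    ∑ c ∈ ((Dc D i).C.repr (t * (Dc D i).C g)).support,
      (Dc D i).C.repr (t * (Dc D i).C g) c • D.C (emb M i c) := by
  have h := expand_C D i (t * (Dc D i).C g)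
  rw [Subalgebra.coe_mul, coe_C, Finsupp.sum] at h
  exact h

include hl in
theorem a_le_of_repr {i : ι} {t : sA D i} {g c : (M i).Group}
    (hL : IsWeight (sumM M) L)
    (h : (Dc D i).C.repr (t * (Dc D i).C g) c ≠ 0) : (Dc D i).a g ≤ (Dc D i).a c :=
  (hl i).a_leL ((Dc D i).leL_of_repr (isWeight_emb i hL) h)

theorem TT_comp_mem {k : ℕ} (hk : 0 < k) {i : ι} {n : ℕ} {u : List (Ltr M)} (hu : Red u)
    (hu2 : NE i u) (hu3 : alL D u ≤ k) (hn : tl u < n) {g : (M i).Group}
    (hg : (Dc D i).a g = k) (t : sA D i) :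
    TT D u * ((t : H) * D.C (emb M i g)) ∈ KS D hL hl k i n := by
  rw [T_mul_C_emb, Finset.mul_sum]
  refine Submodule.sum_mem _ fun c hc => ?_
  rw [mul_smul_comm]
  refine Submodule.smul_mem _ _ ?_
  have h1 := a_le_of_repr D hl hL (Finsupp.mem_support_iff.1 hc)
  rcases Nat.lt_or_ge k ((Dc D i).a c) with h2 | h2
  · exact Submodule.mem_sup_right ((Fk D hL hl k).I_mulL _ (C_emb_mem D hL hl h2))
  · have hc1 : c ≠ 1 := by
      rintro rfl
      rw [a_one_c D hL] at h1
      omega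
    exact dd_mem_KS D hL hl (red_snoc.2 ⟨hu, hu2, hc1⟩) hu3 (by omega) hn

/-- A reduced list ends in the component `i` or not. -/
theorem snoc_or (i : ι) {l : List (Ltr M)} (hl : Red l) : NE i l ∨
    ∃ (u : List (Ltr M)) (x : (M i).Group), l = u ++ [⟨i, x⟩] ∧ Red u ∧ NE i u ∧ x ≠ 1 := by
  by_cases h : NE i l
  · exact Or.inl h
  · right
    rw [NE] at h
    push Not at h
    obtain ⟨x, hx, rfl⟩ := h
    obtain ⟨j, x⟩ := x
    have h2 : l = l.dropLast ++ [⟨j, x⟩] := (List.dropLast_append_getLast? _ hx).symm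
    rw [h2, red_snoc] at hl
    exact ⟨l.dropLast, x, h2, hl⟩

theorem T_light_mul {k : ℕ} (hk : 0 < k) {i : ι} {n : ℕ} {z : (sumM M).Group}
    (hz : al D z ≤ k) (hn : len (sumM M) z < n) {g : (M i).Group} (hg : (Dc D i).a g = k) :
    D.T z * D.C (emb M i g) ∈ KS D hL hl k i n := by
  have hr := red_nf z
  have hz2 : D.T z = TT D (nf z) := by rw [TT_red D hr, pr_nf]
  have hlen : len (sumM M) z = tl (nf z) := by rw [← len_pr hr, pr_nf]
  have hg1 : g ≠ 1 := by
    rintro rfl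
    rw [a_one_c D hL] at hg
    omega
  have hz3 : alL D (nf z) ≤ k := hz
  rcases snoc_or i hr with h | ⟨u, x, h1, h2, h3, h4⟩
  · rw [hz2]
    exact dd_mem_KS D hL hl (red_snoc.2 ⟨hr, h, hg1⟩) hz hg (by omega)
  · rw [hz2, h1, TT_append, TT_cons, TT_nil, mul_one, mul_assoc, ← coe_T D i]
    rw [h1] at hlen hz3
    rw [tl_append] at hlen
    rw [alL_append] at hz3
    exact TT_comp_mem D hL hl hk h2 h3 (by omega) (by omega) hg _

/-- Every element of the Hecke algebra is a combination of the `T z` with `al z ≤ k`, modulo the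
ideal. -/
theorem KS_mul {k : ℕ} (hk : 0 < k) {i : ι} {n : ℕ} {t : H}
    (ht : t ∈ Vl D.T (len (sumM M)) n) {g : (M i).Group} (hg : (Dc D i).a g = k) :
    t * D.C (emb M i g) ∈ KS D hL hl k i n := by
  have h1 := (Fk D hL hl k).cc_sub t
  have h2 : t * D.C (emb M i g) =
      (t - Finsupp.linearCombination LP D.T ((Fk D hL hl k).cc t)) * D.C (emb M i g) +
      Finsupp.linearCombination LP D.T ((Fk D hL hl k).cc t) * D.C (emb M i g) := by
    rw [sub_mul]
    abel
  rw [h2]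
  refine Submodule.add_mem _ (Submodule.mem_sup_right ((Fk D hL hl k).I_mulR _ h1)) ?_
  rw [Finsupp.linearCombination_apply, Finsupp.sum, Finset.sum_mul]
  refine Submodule.sum_mem _ fun z hz => ?_
  rw [smul_mul_assoc]
  refine Submodule.smul_mem _ _ ?_
  have hz' := Finsupp.mem_support_iff.1 hz
  have h3 : ¬ (Fk D hL hl k).hv z := fun h => hz' ((Fk D hL hl k).cc_hv h t)
  rw [Fk_hv] at h3
  exact T_light_mul D hL hl hk (by omega) ((Fk D hL hl k).cc_len ht hz') hg

/-- The left ideal of the component. -/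
noncomputable def KT (k : ℕ) (i : ι) : Submodule LP H :=
  Submodule.span LP (dd D hL hl k i '' {y | KI D k i y}) ⊔ (Fk D hL hl k).I

theorem KS_le_KT (k : ℕ) (i : ι) (n : ℕ) : KS D hL hl k i n ≤ KT D hL hl k i := by
  refine sup_le_sup ?_ le_rfl
  exact Submodule.span_mono (Set.image_mono fun y hy => hy.1)

theorem exists_Vl (t : H) : ∃ n, t ∈ Vl D.T (len (sumM M)) n := by
  refine ⟨(D.T.repr t).support.sup (len (sumM M)) + 1, ?_⟩
  rw [mem_Vl_iff]
  intro w hw
  exact Nat.lt_succ_of_le (Finset.le_sup (f := len (sumM M)) (Finsupp.mem_support_iff.2 hw))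

theorem KT_mul_C {k : ℕ} (hk : 0 < k) {i : ι} (t : H) {g : (M i).Group}
    (hg : (Dc D i).a g = k) : t * D.C (emb M i g) ∈ KT D hL hl k i := by
  obtain ⟨n, hn⟩ := exists_Vl D t
  exact KS_le_KT D hL hl k i n (KS_mul D hL hl hk hn hg)

theorem KT_induction {k : ℕ} {i : ι} {p : H → Prop}
    (h1 : ∀ (u : List (Ltr M)) (g : (M i).Group), Red u → NE i u → g ≠ 1 → alL D u ≤ k →
      (Dc D i).a g = k → p (TT D u * D.C (emb M i g)))
    (h2 : ∀ x ∈ (Fk D hL hl k).I, p x) (h3 : ∀ x y, p x → p y → p (x + y))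
    (h4 : ∀ (a : LP) x, p x → p (a • x)) {x : H} (hx : x ∈ KT D hL hl k i) : p x := by
  obtain ⟨y, hy, z, hz, rfl⟩ := Submodule.mem_sup.1 hx
  refine h3 _ _ ?_ (h2 z hz)
  refine Submodule.span_induction (p := fun y _ => p y) ?_ ?_ ?_ ?_ hy
  · rintro _ ⟨w, hw, rfl⟩
    obtain ⟨u, g, e1, e2, e3, e4, e5, e6⟩ := KI_snoc hw
    rw [dd_of D hL hl hw e1]
    exact h1 u g e2 e3 e4 e5 e6
  · exact h2 0 (Submodule.zero_mem _)
  · intro a b _ _ ha hb
    exact h3 a b ha hb
  · intro a b _ hb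
    exact h4 a b hb

theorem KT_mulL {k : ℕ} (hk : 0 < k) {i : ι} (t : H) {x : H} (hx : x ∈ KT D hL hl k i) :
    t * x ∈ KT D hL hl k i := by
  refine KT_induction D hL hl (p := fun x => t * x ∈ KT D hL hl k i) ?_ ?_ ?_ ?_ hx
  · intro u g _ _ _ _ hg
    rw [← mul_assoc]
    exact KT_mul_C D hL hl hk _ hg
  · intro x hx
    exact Submodule.mem_sup_right ((Fk D hL hl k).I_mulL _ hx)
  · intro x y hx hy
    rw [mul_add]
    exact Submodule.add_mem _ hx hy
  · intro a x hx
    rw [mul_smul_comm]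
    exact Submodule.smul_mem _ _ hx

/-- The bar-invariant elements of the left ideal. -/
theorem exists_kap {k : ℕ} (hk : 0 < k) {i : ι} {w : (sumM M).Group} (hw : KI D k i w) :
    ∃ x : H, x - dd D hL hl k i w ∈
        Submodule.span LP (dd D hL hl k i '' {y | KI D k i y ∧ lv y < lv w}) ∧
      x - dd D hL hl k i w ∈ Lat (dB D hL hl k i) (-1) ∧ D.bar x - x ∈ (Fk D hL hl k).I := by
  have hdf : (dB D hL hl k i : (sumM M).Group → H) = dd D hL hl k i :=
    funext fun w => dB_apply D hL hl k i w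
  have h := klem (dB D hL hl k i) D.bar.toAddMonoidHom {y | KI D k i y} lv (Fk D hL hl k).I
    D.bar_smul D.bar_bar (fun f hf => (Fk D hL hl k).I_bar hf)
    (fun f hf y hy => repr_I D hL hl hf hy) (by
      intro y hy
      have hy' : KI D k i y := hy
      obtain ⟨u, g, e1, e2, e3, e4, e5, e6⟩ := KI_snoc hy'
      rw [hdf]
      change D.bar (dd D hL hl k i y) - dd D hL hl k i y ∈ KS D hL hl k i (lv y)
      rw [dd_of D hL hl hy' e1, map_mul, D.bar_C, ← sub_mul]
      refine KS_mul D hL hl hk ?_ e6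
      have h1 := D.bar_T_sub (pr u)
      have h2 : lv y = len (sumM M) (pr u) := by
        rw [lv, e1, len_pr e2]
        simp
      rw [h2, TT_red D e2]
      exact h1) w hw
  rw [hdf] at h
  exact h

variable {k : ℕ} (hk : 0 < k) (i : ι)

include hb in
/-- Products of `TT u` and elements of the component. -/
theorem TT_comp_Lam {u : List (Ltr M)} (hu : Red u) (hu2 : NE i u) {n : ℤ} {t : sA D i}
    (ht : t ∈ Lat (Dc D i).T n) : TT D u * (t : H) ∈ (Fk D hL hl k).Lam n := by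
  rw [expand_T D i t, Finsupp.sum, Finset.mul_sum]
  refine AddSubgroup.sum_mem _ fun z _ => ?_
  rw [mul_smul_comm]
  have h1 : TT D u * D.T (emb M i z) ∈ (Fk D hL hl k).Lam 0 := by
    by_cases hz : z = 1
    · rw [hz, map_one, D.T_one, mul_one, TT_red D hu]
      exact FF_h0 D hL hl hb _ _
    · have h2 : TT D u * D.T (emb M i z) = TT D (u ++ [⟨i, z⟩]) := by
        rw [TT_append, TT_cons, TT_nil, mul_one]
      rw [h2, TT_red D (red_snoc.2 ⟨hu, hu2, hz⟩)]
      exact FF_h0 D hL hl hb _ _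
  have h3 := (Fk D hL hl k).smul_Lam (ht z) h1
  rwa [add_zero] at h3

include hb in
theorem dd_sub_Lam (w : (sumM M).Group) (hw : KI D k i w) :
    dd D hL hl k i w - D.T w ∈ (Fk D hL hl k).Lam (-1) := by
  obtain ⟨u, g, e1, e2, e3, e4, e5, e6⟩ := KI_snoc hw
  have hw2 : w = pr (u ++ [⟨i, g⟩]) := by rw [← e1, pr_nf]
  have h1 : D.T w = TT D u * ((Dc D i).T g : H) := by
    rw [hw2, ← TT_red D (red_snoc.2 ⟨e2, e3, e4⟩), TT_append, TT_cons, TT_nil, mul_one, coe_T]
  have h2 : dd D hL hl k i w - D.T w = TT D u * (((Dc D i).C g - (Dc D i).T g : sA D i) : H) := by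
    rw [dd_of D hL hl hw e1, h1, Subalgebra.coe_sub, coe_C, mul_sub]
  rw [h2]
  exact TT_comp_Lam D hL hl hb i e2 e3 ((Dc D i).C_sub_T_neg g)

include hb in
theorem dd_Lam (w : (sumM M).Group) (hw : KI D k i w) :
    dd D hL hl k i w ∈ (Fk D hL hl k).Lam 0 := by
  have h1 : dd D hL hl k i w = (dd D hL hl k i w - D.T w) + D.T w := by abel
  rw [h1]
  exact AddSubgroup.add_mem _ ((Fk D hL hl k).Lam_mono (by norm_num)
    (dd_sub_Lam D hL hl hb i w hw)) (FF_h0 D hL hl hb _ _)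

/-- Combinations of the `dd y` with negative coefficients. -/
noncomputable def Neg (k : ℕ) (i : ι) : AddSubgroup H :=
  AddSubgroup.closure {x | ∃ (a : LP) (u : List (Ltr M)) (g : (M i).Group), Dle (-1) a ∧
    Red u ∧ NE i u ∧ g ≠ 1 ∧ alL D u ≤ k ∧ (Dc D i).a g = k ∧
    x = a • (TT D u * D.C (emb M i g))}

theorem mem_Neg {x : H} (h1 : x ∈ Submodule.span LP (dd D hL hl k i '' {y | KI D k i y}))
    (h2 : x ∈ Lat (dB D hL hl k i) (-1)) : x ∈ Neg D k i := by
  have hdf : (dB D hL hl k i : (sumM M).Group → H) = dd D hL hl k i :=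
    funext fun w => dB_apply D hL hl k i w
  rw [← hdf, Module.Basis.mem_span_image] at h1
  rw [← (dB D hL hl k i).linearCombination_repr x, Finsupp.linearCombination_apply, Finsupp.sum]
  refine AddSubgroup.sum_mem _ fun y hy => ?_
  have hy' : KI D k i y := h1 hy
  obtain ⟨u, g, e1, e2, e3, e4, e5, e6⟩ := KI_snoc hy'
  rw [dB_apply, dd_of D hL hl hy' e1]
  exact AddSubgroup.subset_closure ⟨_, u, g, h2 y, e2, e3, e4, e5, e6, rfl⟩

include hb in
theorem Neg_Lam {x : H} (hx : x ∈ Neg D k i) : x ∈ (Fk D hL hl k).Lam (-1) := by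
  have h : Neg D k i ≤ (Fk D hL hl k).Lam (-1) := by
    rw [Neg, AddSubgroup.closure_le]
    rintro _ ⟨a, u, g, ha, e2, e3, e4, e5, e6, rfl⟩
    have hr := red_snoc.2 ⟨e2, e3, e4⟩
    have h1 := dd_Lam D hL hl hb i (pr (u ++ [⟨i, g⟩])) (KI_pr hr e5 e6)
    rw [dd_pr D hL hl hr e5 e6] at h1
    have h2 := (Fk D hL hl k).smul_Lam ha h1
    rwa [add_zero] at h2
  exact h hx

include hb in
/-- The Kazhdan-Lusztig elements in terms of the elements `TT u * C g`. -/
theorem C_sub_dd (hk : 0 < k) {w : (sumM M).Group} (hw : KI D k i w) :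
    ∃ x, x ∈ Neg D k i ∧ D.C w - (dd D hL hl k i w + x) ∈ (Fk D hL hl k).I ∧
      x ∈ Submodule.span LP (dd D hL hl k i '' {y | KI D k i y ∧ lv y < lv w}) := by
  obtain ⟨κ, h1, h2, h3⟩ := exists_kap D hL hl hk hw
  refine ⟨κ - dd D hL hl k i w, ?_, ?_, h1⟩
  · refine mem_Neg D hL hl i ?_ h2
    exact Submodule.span_mono (Set.image_mono fun y hy => hy.1) h1
  · have h4 : dd D hL hl k i w + (κ - dd D hL hl k i w) = κ := by abel
    rw [h4]
    refine (Fk D hL hl k).congr_of_bar ?_ h3 ?_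
    · rw [D.bar_C, sub_self]
      exact Submodule.zero_mem _
    · have h5 : D.C w - κ = (D.C w - D.T w) - (dd D hL hl k i w - D.T w) -
          (κ - dd D hL hl k i w) := by abel
      rw [h5]
      refine AddSubgroup.sub_mem _ (AddSubgroup.sub_mem _ ?_ (dd_sub_Lam D hL hl hb i w hw)) ?_
      · exact (Fk D hL hl k).C_sub_Lam (FF_h0 D hL hl hb _) w
      · refine Neg_Lam D hL hl hb i (mem_Neg D hL hl i ?_ h2)
        exact Submodule.span_mono (Set.image_mono fun y hy => hy.1) h1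

include hb in
theorem C_mem_KT (hk : 0 < k) {w : (sumM M).Group} (hw : KI D k i w) :
    D.C w ∈ KT D hL hl k i := by
  obtain ⟨x, h1, h2, h3⟩ := C_sub_dd D hL hl hb i hk hw
  have h4 : D.C w = dd D hL hl k i w + x + (D.C w - (dd D hL hl k i w + x)) := by abel
  rw [h4]
  refine Submodule.add_mem _ (Submodule.mem_sup_left (Submodule.add_mem _ ?_ ?_))
    (Submodule.mem_sup_right h2)
  · exact Submodule.subset_span ⟨w, hw, rfl⟩
  · exact Submodule.span_mono (Set.image_mono fun y hy => hy.1) h3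

include hb in
/-- The left ideal is spanned by Kazhdan-Lusztig elements, modulo the ideal. -/
theorem KT_le (hk : 0 < k) : KT D hL hl k i ≤
    Submodule.span LP (D.C '' {y | KI D k i y}) ⊔ (Fk D hL hl k).I := by
  refine sup_le ?_ le_sup_right
  rw [Submodule.span_le]
  rintro _ ⟨w, hw, rfl⟩
  suffices h : ∀ n w, lv w < n → KI D k i w → dd D hL hl k i w ∈
      Submodule.span LP (D.C '' {y | KI D k i y}) ⊔ (Fk D hL hl k).I from
    h _ w (Nat.lt_succ_self _) hw
  intro n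
  induction n with
  | zero => intro w hw; omega
  | succ n ih =>
    intro w hwn hw
    obtain ⟨x, h1, h2, h3⟩ := C_sub_dd D hL hl hb i hk hw
    have h4 : dd D hL hl k i w = D.C w - x - (D.C w - (dd D hL hl k i w + x)) := by abel
    rw [h4]
    refine Submodule.sub_mem _ (Submodule.sub_mem _ ?_ ?_) (Submodule.mem_sup_right h2)
    · exact Submodule.mem_sup_left (Submodule.subset_span ⟨w, hw, rfl⟩)
    · refine Submodule.span_le.2 ?_ h3
      rintro _ ⟨y, ⟨hy1, hy2⟩, rfl⟩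
      exact ih y (by omega) hy1

include hL hl hb in
/-- Left multiplication only leads to elements with the same last component, modulo the ideal. -/
theorem KI_of_h (hk : 0 < k) {w z y : (sumM M).Group} (hw : KI D k i w) (h : D.h z w y ≠ 0)
    (hy : al D y ≤ k) : KI D k i y := by
  have h1 := KT_le D hL hl hb i hk (KT_mulL D hL hl hk (D.C z) (C_mem_KT D hL hl hb i hk hw))
  rw [(Fk D hL hl k).I_eq_C (FF_h0 D hL hl hb _) (FF_h1 D hL hl hb _), ← Submodule.span_union,
    ← Set.image_union, Module.Basis.mem_span_image] at h1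
  rcases h1 (Finsupp.mem_support_iff.2 h) with h2 | h2
  · exact h2
  · have h3 := (Fk_hv D hL hl).1 h2
    omega

end kc

end Pool.Agent.Helper35.KL
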