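import Pool.Agent.Helper35.KL.Defs

/-!
# Degrees of Laurent polynomials
-/

namespace Pool.Agent.Helper35.KL

open LaurentPolynomial in
theorem cf_qq (m n : ℤ) : (qq n).coeff m = if n = m then 1 else 0 := T_apply m n

theorem cf_add (a b : LP) (k : ℤ) : (a + b).coeff k = a.coeff k + b.coeff k := rfl

theorem cf_sub (a b : LP) (k : ℤ) : (a - b).coeff k = a.coeff k - b.coeff k := rfl

theorem cf_neg (a : LP) (k : ℤ) : (-a).coeff k = -a.coeff k := rfl

theorem cf_zero (k : ℤ) : (0 : LP).coeff k = 0 := rfl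

theorem cf_one (k : ℤ) : (1 : LP).coeff k = if k = 0 then 1 else 0 := by
  rw [← LaurentPolynomial.T_zero]
  rw [cf_qq]
  simp [eq_comm]

theorem cf_sum {ι : Type*} (s : Finset ι) (f : ι → LP) (k : ℤ) :
    (∑ i ∈ s, f i).coeff k = ∑ i ∈ s, (f i).coeff k := by
  rw [AddMonoidAlgebra.coeff_sum, Finsupp.finsetSum_apply]

theorem cf_invert (a : LP) (k : ℤ) : (LaurentPolynomial.invert a).coeff k = a.coeff (-k) :=
  LaurentPolynomial.invert_apply a k

theorem lp_ext {a b : LP} (h : ∀ k, a.coeff k = b.coeff k) : a = b :=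
  LaurentPolynomial.ext h

theorem cf_qq_mul (n : ℤ) (a : LP) (k : ℤ) : (qq n * a).coeff k = a.coeff (k - n) := by
  have h := AddMonoidAlgebra.coeff_single_mul_apply a (1 : ℤ) n k
  rw [one_mul] at h
  rw [show k - n = -n + k by ring]
  exact h

theorem cf_zsmul (n : ℤ) (a : LP) (k : ℤ) : (n • a).coeff k = n * a.coeff k := by
  rw [AddMonoidAlgebra.coeff_smul_apply, smul_eq_mul]

/-- The coefficient as an additive map. -/
noncomputable def cfH (k : ℤ) : LP →ₗ[ℤ] ℤ where
  toFun a := a.coeff k
  map_add' a b := cf_add a b k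
  map_smul' n a := cf_zsmul n a k

theorem cfH_apply (k : ℤ) (a : LP) : cfH k a = a.coeff k := rfl

theorem Dle.add {n : ℤ} {a b : LP} (ha : Dle n a) (hb : Dle n b) : Dle n (a + b) := by
  intro k hk
  rw [cf_add, ha k hk, hb k hk, add_zero]

theorem Dle.sub {n : ℤ} {a b : LP} (ha : Dle n a) (hb : Dle n b) : Dle n (a - b) := by
  intro k hk
  rw [cf_sub, ha k hk, hb k hk, sub_zero]

theorem Dle.neg {n : ℤ} {a : LP} (ha : Dle n a) : Dle n (-a) := by
  intro k hk
  rw [cf_neg, ha k hk, neg_zero]

theorem Dle.zero (n : ℤ) : Dle n 0 := fun _ _ => rfl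

theorem Dle.sum {ι : Type*} {n : ℤ} (s : Finset ι) {f : ι → LP} (h : ∀ i ∈ s, Dle n (f i)) :
    Dle n (∑ i ∈ s, f i) := by
  intro k hk
  rw [cf_sum]
  exact Finset.sum_eq_zero fun i hi => h i hi k hk

theorem Dle.mono {m n : ℤ} {a : LP} (h : Dle m a) (hmn : m ≤ n) : Dle n a :=
  fun k hk => h k (by omega)

theorem Dle.qq (n : ℤ) : Dle n (qq n) := by
  intro k hk
  rw [cf_qq, if_neg (by omega)]

theorem Dle.one {n : ℤ} (hn : 0 ≤ n) : Dle n 1 := by
  intro k hk
  rw [cf_one, if_neg (by omega)]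

theorem Dle.zsmul {n : ℤ} {a : LP} (h : Dle n a) (z : ℤ) : Dle n (z • a) := by
  intro k hk
  rw [cf_zsmul, h k hk, mul_zero]

/-- The coefficients of a product. -/
theorem cf_mul (a b : LP) (k : ℤ) :
    (a * b).coeff k = ∑ i ∈ a.coeff.support, a.coeff i * b.coeff (k - i) := by
  rw [AddMonoidAlgebra.coeff_mul_apply_left, Finsupp.sum]
  refine Finset.sum_congr rfl fun i _ => ?_
  rw [show -i + k = k - i by ring]

theorem Dle.mul {m n : ℤ} {a b : LP} (ha : Dle m a) (hb : Dle n b) : Dle (m + n) (a * b) := by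
  intro k hk
  rw [cf_mul]
  refine Finset.sum_eq_zero fun i _ => ?_
  rcases lt_or_ge m i with h | h
  · rw [ha i h, zero_mul]
  · rw [hb (k - i) (by omega), mul_zero]

/-- The leading coefficients are multiplicative. -/
theorem cf_mul_lead {m n : ℤ} {a b : LP} (ha : Dle m a) (hb : Dle n b) :
    (a * b).coeff (m + n) = a.coeff m * b.coeff n := by
  rw [cf_mul, Finset.sum_eq_single m]
  · rw [show m + n - m = n by ring]
  · intro i _ hi
    rcases lt_or_gt_of_ne hi with h | h
    · rw [hb (m + n - i) (by omega), mul_zero]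
    · rw [ha i h, zero_mul]
  · intro h
    rw [Finsupp.notMem_support_iff.1 h, zero_mul]

theorem Dle.mul_of_eq {m n k : ℤ} {a b : LP} (ha : Dle m a) (hb : Dle n b) (h : m + n ≤ k) :
    Dle k (a * b) := (ha.mul hb).mono h

/-- A Laurent polynomial that is fixed by the bar involution and has only negative degrees is
zero. -/
theorem eq_zero_of_bar {a : LP} (h : Dle (-1) a) (hb : LaurentPolynomial.invert a = a) :
    a = 0 := by
  refine lp_ext fun k => ?_
  rw [cf_zero]
  rcases lt_or_ge (-1) k with hk | hk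
  · exact h k hk
  · rw [← hb, cf_invert]
    exact h _ (by omega)

theorem invert_invert (a : LP) : LaurentPolynomial.invert (LaurentPolynomial.invert a) = a := by
  refine lp_ext fun k => ?_
  rw [cf_invert, cf_invert, neg_neg]

/-- An antisymmetric Laurent polynomial is `bar b - b` with `b` of negative degree. -/
theorem exists_neg {a : LP} (h : LaurentPolynomial.invert a = -a) :
    ∃ b : LP, Dle (-1) b ∧ LaurentPolynomial.invert b - b = a := by
  classical
  have h1 : ∀ k, a.coeff (-k) = -a.coeff k := by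
    intro k
    rw [← cf_invert, h, cf_neg]
  refine ⟨-AddMonoidAlgebra.ofCoeff (a.coeff.filter fun k => k < 0), ?_, ?_⟩
  · intro k hk
    rw [cf_neg, AddMonoidAlgebra.coeff_ofCoeff, Finsupp.filter_apply, if_neg (by omega), neg_zero]
  · refine lp_ext fun k => ?_
    rw [cf_sub, cf_invert, cf_neg, cf_neg, AddMonoidAlgebra.coeff_ofCoeff, Finsupp.filter_apply,
      Finsupp.filter_apply]
    rcases lt_trichotomy k 0 with hk | hk | hk
    · rw [if_neg (by omega), if_pos hk]
      ring
    · subst hk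
      have := h1 0
      simp at this ⊢
      omega
    · rw [if_pos (by omega), if_neg (by omega), h1]
      ring

theorem dle_all {a : LP} (h : ∀ n : ℤ, Dle n a) : a = 0 := by
  refine lp_ext fun k => ?_
  rw [cf_zero]
  exact h (k - 1) k (by omega)

/-- Every Laurent polynomial has bounded degree. -/
theorem exists_dle (a : LP) : ∃ n : ℕ, Dle n a := by
  classical
  refine ⟨a.coeff.support.sup Int.toNat, fun k hk => ?_⟩
  by_contra hne
  have h1 : k ∈ a.coeff.support := Finsupp.mem_support_iff.2 hne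
  have h2 := Finset.le_sup (f := Int.toNat) h1
  have h3 := Int.self_le_toNat k
  omega

theorem Dle.of_lead {n : ℤ} {a : LP} (h : Dle n a) (h0 : a.coeff n = 0) : Dle (n - 1) a := by
  intro k hk
  rcases eq_or_ne k n with rfl | hne
  · exact h0
  · exact h k (by omega)

end Pool.Agent.Helper35.KL
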