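import Pool.Agent.Helper35.KL.Tf

/-!
# The structure constants of the left ideals act on the asymptotic products
-/

namespace Pool.Agent.Helper35.KL

section ll

variable {ι : Type} {B : ι → Type} {M : ∀ i, CoxeterMatrix (B i)} {L : (sumM M).Group → ℤ}
variable {H : Type} [Ring H] [Algebra LP H] (D : KLD (sumM M) L H)
variable (hL : IsWeight (sumM M) L) (hl : ∀ i, (Dc D i).Lus) (hb : ∀ i, (Dc D i).Bounded)
variable {k : ℕ} {i : ι}

include hb in
theorem adm_v (hk : 0 < k) {v : List (Ltr M)} (hv1 : Red v) (hv2 : NS i v)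
    (hv3 : alL D v ≤ k) : Adm D hL hl k i (fun g => D.C (pr (⟨i, g⟩ :: v))) where
  mul b g hg := by
    have hg1 : g ≠ 1 := by
      rintro rfl
      rw [a_one_c D hL] at hg
      omega
    exact GLf D hL hl hb hk (red_cons.2 ⟨hg1, hv1, hv2⟩) hv3 hg b
  bar g _ := by
    rw [D.bar_C, sub_self]
    exact Submodule.zero_mem _

include hL hl hb in
theorem BB_zero_of (hk : 0 < k) {x y : (sumM M).Group} (h : al D x ≠ k ∨ al D y ≠ k) :
    D.BB k x y = 0 := by
  refine D.BB_zero k fun z hz => ?_
  rw [a_eq_al D hL hl hb] at hz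
  by_contra hne
  have h1 := lead_Q D hL hl hb hk hz _ (nf x) (nf y) le_rfl (red_nf x) (red_nf y)
    (by rwa [pr_nf, pr_nf])
  rcases h with h | h
  · exact h h1.1
  · exact h h1.2

include hb in
theorem cor_v (hk : 0 < k) {v : List (Ltr M)} (hv1 : Red v) (hv2 : NS i v)
    (hv3 : alL D v < k) : Cor D hL hl k i (fun g => D.C (pr (⟨i, g⟩ :: v)))
      (fun w => D.C (w * pr v)) where
  toAdm := adm_v D hL hl hb hk hv1 hv2 hv3.le
  barX w _ := by
    rw [D.bar_C, sub_self]
    exact Submodule.zero_mem _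
  lamX w _ := C_Lam D hL hl hb _
  neg u g hr hu hg := by
    have hr' := red_snoc.1 hr
    have h1 := t_formula D hL hl hb hk hr'.1 hr'.2.1 (red_cons.2 ⟨hr'.2.2, hv1, hv2⟩) hv3.le hg
    have h2 : D.BB k (pr u) (pr v) = 0 := by
      refine BB_zero_of D hL hl hb hk (Or.inr ?_)
      rw [al_pr D hv1]
      omega
    have h3 : pr (u ++ [⟨i, g⟩]) * pr v = pr (u ++ ⟨i, g⟩ :: v) := by
      rw [← pr_append, List.append_assoc, List.singleton_append]
    rw [h2, smul_zero, sub_zero] at h1
    rw [h3]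
    exact h1

open scoped Classical in
include hL hl hb in
/-- The sum over the distinguished elements. -/
theorem sum_nn {g r : (M i).Group} (hg : (Dc D i).a g = k) (hr : (Dc D i).a r = k) :
    ∑ c ∈ ((Dc D i).C.repr ((Dc D i).C g * (Dc D i).C r)).support,
      ((Dc D i).h g r c).coeff k * (if (Dc D i).a c = k then (Dc D i).nn c else 0) =
      if g * r = 1 then 1 else 0 := by
  have key : ∀ c, (Dc D i).a c = k → (Dc D i).nn c ≠ 0 →
      ((Dc D i).h g r c).coeff k = (Dc D i).g g r c := by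
    intro c hc hn
    have h1 := (hl i).inv_of_inD ((hl i).inD_nn.2 hn)
    rw [KLD.g, h1, hc]
  by_cases hgr : g * r = 1
  · rw [if_pos hgr]
    have hg' : g = r⁻¹ := eq_inv_of_mul_eq_one_left hgr
    obtain ⟨z, ⟨hz1, hz2⟩, hz3⟩ := (hl i).P3 r
    rw [← hg'] at hz2
    have hzk : (Dc D i).a z = k := by
      have := ((hl i).Q hz2).2
      omega
    have hzn := (hl i).inD_nn.1 hz1
    have h5 := (hl i).P5 r z ((Dc D i).nn z) ((hl i).delta hz1) (by rwa [← hg'])
    rw [← hg'] at h5
    rw [Finset.sum_eq_single z]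
    · rw [if_pos hzk, key z hzk hzn, h5.1]
      rcases h5.2 with h | h
      · rw [h]
        norm_num
      · rw [h]
        norm_num
    · intro c _ hcz
      split_ifs with hc
      · by_cases hn : (Dc D i).nn c = 0
        · rw [hn, mul_zero]
        · by_cases h6 : ((Dc D i).h g r c).coeff k = 0
          · rw [h6, zero_mul]
          · rw [key c hc hn] at h6
            rw [hg'] at h6
            exact absurd (hz3 c ⟨(hl i).inD_nn.2 hn, h6⟩) hcz
      · rw [mul_zero]
    · intro h6
      have h7 : (Dc D i).h g r z = 0 := Finsupp.notMem_support_iff.1 h6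
      rw [h7, cf_zero, zero_mul]
  · rw [if_neg hgr]
    refine Finset.sum_eq_zero fun c _ => ?_
    split_ifs with hc
    · by_cases hn : (Dc D i).nn c = 0
      · rw [hn, mul_zero]
      · by_cases h6 : ((Dc D i).h g r c).coeff k = 0
        · rw [h6, zero_mul]
        · rw [key c hc hn] at h6
          have h7 := (hl i).P2 g r c ((hl i).inD_nn.2 hn) h6
          exact absurd (by rw [h7, inv_mul_cancel]) hgr
    · rw [mul_zero]

open scoped Classical in
include hL hl hb in
/-- The recursion for the asymptotic products. -/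
theorem BB_rec (hk : 0 < k) {u v : List (Ltr M)} {g r : (M i).Group}
    (hu : Red (u ++ [⟨i, g⟩])) (hv : Red (⟨i, r⟩ :: v)) (huk : alL D u ≤ k)
    (hvk : alL D v ≤ k) (hr : (Dc D i).a r = k) :
    D.BB k (pr (u ++ [⟨i, g⟩])) (pr (⟨i, r⟩ :: v)) =
      et D k i k r (fun c => D.C (pr (u ++ ⟨i, c⟩ :: v))) g +
        if g * r = 1 then D.BB k (pr u) (pr v) else 0 := by
  have hu' := red_snoc.1 hu
  have hv' := red_cons.1 hv
  refine D.BB_ext k fun z => ?_
  have h1 : ∀ c, (Dc D i).a c = k → c ≠ 1 := by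
    rintro c hc rfl
    rw [a_one_c D hL] at hc
    omega
  have h2 : ∀ c, (Dc D i).a c = k → al D (pr (u ++ ⟨i, c⟩ :: v)) = k := by
    intro c hc
    rw [al_pr D (red_mid.2 ⟨hu'.1, hu'.2.1, h1 c hc, hv'.2⟩), alL_append, alL_cons]
    have : al1 D ⟨i, c⟩ = k := hc
    omega
  have h3 : ∀ c, D.C.repr (Le D k i (fun c => D.C (pr (u ++ ⟨i, c⟩ :: v))) ((Dc D i).C c)) z =
      if (Dc D i).a c = k ∧ z = pr (u ++ ⟨i, c⟩ :: v) then 1 else 0 := by
    intro c
    by_cases hc : (Dc D i).a c = k
    · rw [Le_C D k i _ hc, Module.Basis.repr_self, Finsupp.single_apply]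
      by_cases hz : z = pr (u ++ ⟨i, c⟩ :: v)
      · rw [if_pos hz.symm, if_pos ⟨hc, hz⟩]
      · rw [if_neg (Ne.symm hz), if_neg (fun h => hz h.2)]
    · rw [Le_C_ne D k i _ hc, map_zero, Finsupp.zero_apply, if_neg (fun h => hc h.1)]
  rw [map_add, Finsupp.add_apply, et_eq, map_sum, Finsupp.finsetSum_apply]
  have h4 : ∀ c, D.C.repr (((Dc D i).h g r c).coeff k •
      Le D k i (fun c => D.C (pr (u ++ ⟨i, c⟩ :: v))) ((Dc D i).C c)) z =
      (if (Dc D i).a c = k ∧ z = pr (u ++ ⟨i, c⟩ :: v) then ((Dc D i).h g r c).coeff k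
        else 0) • (1 : LP) := by
    intro c
    rw [map_zsmul, Finsupp.smul_apply, h3]
    split_ifs
    · rfl
    · rw [smul_zero, zero_smul]
  rw [Finset.sum_congr rfl fun c _ => h4 c, ← Finset.sum_smul]
  by_cases hz : al D z = k
  · have haz : D.a z = k := by rw [a_eq_al D hL hl hb, hz]
    rw [KLD.tk_apply, if_pos haz]
    have h5 := lead_mid D hL hl hb hu hv hz.le
    rw [KLD.h] at h5
    rw [h5, add_smul]
    congr 1
    · congr 1
      refine Finset.sum_congr rfl fun c _ => ?_
      by_cases hc : z = pr (u ++ ⟨i, c⟩ :: v)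
      · by_cases hc1 : (Dc D i).a c = k
        · rw [if_pos ⟨hc1, hc⟩, if_pos ⟨h1 c hc1, hc⟩]
        · rw [if_neg (fun h => hc1 h.1)]
          split_ifs with h6
          · have hred : Red (u ++ ⟨i, c⟩ :: v) := red_mid.2 ⟨hu'.1, hu'.2.1, h6.1, hv'.2⟩
            rw [hc, al_pr D hred] at hz
            have h7 : al1 D ⟨i, c⟩ ≤ alL D (u ++ ⟨i, c⟩ :: v) := le_alL D (by simp)
            have h8 : al1 D ⟨i, c⟩ = (Dc D i).a c := rfl
            exact (KLD.h_dle (hb i) g r c k (by omega)).symm
          · rfl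
      · rw [if_neg (fun h => hc h.2), if_neg (fun h => hc h.2)]
    · by_cases h6 : g * r = 1
      · have h7 : g * r = 1 ∧ (Dc D i).a r ≤ k := ⟨h6, hr.le⟩
        rw [if_pos h6, if_pos h7, KLD.repr_BB, KLD.tk_apply, if_pos haz]
        rfl
      · have h7 : ¬ (g * r = 1 ∧ (Dc D i).a r ≤ k) := fun h => h6 h.1
        rw [if_neg h6, if_neg h7, map_zero, Finsupp.zero_apply, zero_smul]
  · have h5 : D.a z ≠ k := by rwa [a_eq_al D hL hl hb]
    rw [KLD.tk_apply, if_neg h5, Finset.sum_eq_zero, zero_smul, zero_add]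
    · split_ifs
      · rw [KLD.repr_BB, KLD.tk_apply, if_neg h5, zero_smul]
      · rw [map_zero, Finsupp.zero_apply]
    · intro c _
      rw [if_neg]
      rintro ⟨h6, h7⟩
      exact hz (by rw [h7, h2 c h6])

include hb in
theorem cor_B (hk : 0 < k) {v : List (Ltr M)} {r : (M i).Group} (hr : Red (⟨i, r⟩ :: v))
    (hrk : (Dc D i).a r = k) (hvk : alL D v ≤ k) :
    Cor D hL hl k i (et D k i k r fun c => D.C (pr (⟨i, c⟩ :: v)))
      (fun w => D.BB k w (pr (⟨i, r⟩ :: v))) where
  toAdm := (adm_v D hL hl hb hk (red_cons.1 hr).2.1 (red_cons.1 hr).2.2 hvk).et k r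
  barX w _ := by
    rw [KLD.BB, D.bar_up, sub_self]
    exact Submodule.zero_mem _
  lamX w _ := up_Lam D hL hl hb _
  neg u g hu huk hg := by
    classical
    have hu' := red_snoc.1 hu
    have hr' := red_cons.1 hr
    have h1 := BB_rec D hL hl hb hk hu hr huk hvk hrk
    have h2 := sum_nn D hL hl hb hg hrk
    have h3 : (if g * r = 1 then D.BB k (pr u) (pr v) else 0) =
        ∑ c ∈ ((Dc D i).C.repr ((Dc D i).C g * (Dc D i).C r)).support,
          (((Dc D i).h g r c).coeff k * (if (Dc D i).a c = k then (Dc D i).nn c else 0)) •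
            D.BB k (pr u) (pr v) := by
      rw [← Finset.sum_smul, h2]
      split_ifs
      · rw [one_smul]
      · rw [zero_smul]
    rw [h1, h3, et_eq, et_eq, ← Finset.sum_add_distrib, Finset.mul_sum,
      ← Finset.sum_sub_distrib]
    refine AddSubgroup.sum_mem _ fun c _ => ?_
    rw [mul_smul_comm, mul_smul, ← smul_add, ← smul_sub]
    refine AddSubgroup.zsmul_mem _ ?_ _
    by_cases hc : (Dc D i).a c = k
    · have hc1 : c ≠ 1 := by
        rintro rfl
        rw [a_one_c D hL] at hc
        omega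
      rw [Le_C D k i _ hc, Le_C D k i _ hc, if_pos hc, ← sub_sub]
      exact t_formula D hL hl hb hk hu'.1 hu'.2.1 (red_cons.2 ⟨hc1, hr'.2⟩) hvk hc
    · rw [Le_C_ne D k i _ hc, Le_C_ne D k i _ hc, if_neg hc, mul_zero, zero_smul, add_zero,
        sub_zero]
      exact AddSubgroup.zero_mem _

theorem Xi_congr {X X' : (sumM M).Group → H} (h : ∀ w, KI D k i w → X w = X' w) (x : H) :
    Xi D k i X x = Xi D k i X' x := by
  have h1 : Xi D k i X = Xi D k i X' := by
    refine D.C.ext fun w => ?_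
    by_cases hw : KI D k i w
    · rw [Xi_C D X hw, Xi_C D X' hw, h w hw]
    · rw [Xi_C_ne D X hw, Xi_C_ne D X' hw]
  rw [h1]

theorem Xi_zero {X : (sumM M).Group → H} (h : ∀ w, KI D k i w → X w = 0) (x : H) :
    Xi D k i X x = 0 := by
  have h1 : Xi D k i X = 0 := by
    refine D.C.ext fun w => ?_
    by_cases hw : KI D k i w
    · rw [Xi_C D X hw, h w hw, LinearMap.zero_apply]
    · rw [Xi_C_ne D X hw, LinearMap.zero_apply]
  rw [h1, LinearMap.zero_apply]

include hb in
theorem LL_zero {X : (sumM M).Group → H} (h : ∀ w, KI D k i w → X w = 0)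
    {w : (sumM M).Group} (hw : KI D k i w) (t : H) :
    t * X w - Xi D k i X (t * D.C w) ∈ (Fk D hL hl k).I := by
  rw [h w hw, Xi_zero D h, mul_zero, sub_zero]
  exact Submodule.zero_mem _

include hb in
/-- Asymptotic products of elements of the left ideal. -/
theorem LL_KI (hk : 0 < k) (y : (sumM M).Group) {w : (sumM M).Group} (hw : KI D k i w) (t : H) :
    t * D.BB k w y - Xi D k i (fun w => D.BB k w y) (t * D.C w) ∈ (Fk D hL hl k).I := by
  classical
  by_cases hy : al D y = k
  · have hr := red_nf y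
    have hpy := pr_nf y
    have hal : alL D (nf y) = k := hy
    generalize nf y = l at hr hpy hal
    subst hpy
    -- the case where the products vanish
    have hzero : (∀ w, KI D k i w → ∀ z, al D z = k → (D.h w (pr l) z).coeff k = 0) →
        t * D.BB k w (pr l) - Xi D k i (fun w => D.BB k w (pr l)) (t * D.C w) ∈
          (Fk D hL hl k).I := by
      intro h
      refine LL_zero D hL hl hb (X := fun w => D.BB k w (pr l)) (fun w hw => ?_) hw t
      refine D.BB_zero k fun z hz => h w hw z ?_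
      rwa [a_eq_al D hL hl hb] at hz
    by_cases hl' : ∃ (r : (M i).Group) (v : List (Ltr M)), l = ⟨i, r⟩ :: v
    · obtain ⟨r, v, rfl⟩ := hl'
      have hvk : alL D v ≤ k := by
        rw [← hal, alL_cons]
        exact le_max_right _ _
      by_cases hrk : (Dc D i).a r = k
      · exact (cor_B D hL hl hb hk hr hrk hvk).mul_X hb hk hw t
      · refine hzero fun w hw z hz => ?_
        obtain ⟨u, g, e1, e2, e3, e4, e5, e6⟩ := KI_snoc hw
        have hu : Red (u ++ [⟨i, g⟩]) := red_snoc.2 ⟨e2, e3, e4⟩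
        rw [← pr_nf w, e1, lead_mid D hL hl hb hu hr hz.le, Finset.sum_eq_zero, zero_add, if_neg]
        · rintro ⟨h1, -⟩
          have h2 : r = g⁻¹ := eq_inv_of_mul_eq_one_right h1
          rw [h2, KLD.a_inv] at hrk
          exact hrk e6
        · intro c _
          split_ifs with h1
          · by_contra hne
            have hred : Red (u ++ ⟨i, c⟩ :: v) := red_mid.2 ⟨e2, e3, h1.1, (red_cons.1 hr).2⟩
            have h2 : (Dc D i).a c ≤ k := by
              rw [← hz, h1.2, al_pr D hred]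
              exact le_alL D (x := ⟨i, c⟩) (by simp)
            exact hrk (comp_lead D hl hb h2 hne).2.2.1
          · rfl
    · refine hzero fun w hw z hz => ?_
      obtain ⟨u, g, e1, e2, e3, e4, e5, e6⟩ := KI_snoc hw
      have hu : Red (u ++ [⟨i, g⟩]) := red_snoc.2 ⟨e2, e3, e4⟩
      rw [← pr_nf w, e1]
      refine lead_red D hL hl hb hk ?_ hz.le
      by_contra hne
      obtain ⟨u', j, g', r, v', h1, h2⟩ := not_red_append hu hr hne
      obtain ⟨-, h3⟩ := List.append_inj' h1 rfl
      rw [List.cons.injEq] at h3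
      have h4 := h3.1
      rw [Sigma.mk.injEq] at h4
      obtain ⟨h5, -⟩ := h4
      subst h5
      exact hl' ⟨r, v', h2⟩
  · refine LL_zero D hL hl hb (X := fun w => D.BB k w y) (fun w hw => ?_) hw t
    exact BB_zero_of D hL hl hb hk (Or.inr hy)

include hL hl hb in
/-- Cancelling the letters after the last letter with `a = k`. -/
theorem peel (hk : 0 < k) (v : List (Ltr M)) : Red v → NS i v → alL D v < k →
    ∀ l : List (Ltr M), Red l →
      (∀ w, KI D k i w → ∀ z, al D z = k → (D.h (w * pr v) (pr l) z).coeff k = 0) ∨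
      ∃ y, ∀ w, KI D k i w → ∀ z, al D z = k →
        (D.h (w * pr v) (pr l) z).coeff k = (D.h w y z).coeff k := by
  classical
  induction v using List.reverseRecOn with
  | nil =>
    intro _ _ _ l _
    exact Or.inr ⟨pr l, fun w _ z _ => by rw [pr_nil, mul_one]⟩
  | append_singleton v x ih =>
    intro hv1 hv2 hv3 l hl1
    obtain ⟨j, x⟩ := x
    have hv1' := red_snoc.1 hv1
    rw [alL_append, alL_cons, alL_nil] at hv3
    have hx : (Dc D j).a x < k := by
      have : al1 D ⟨j, x⟩ = (Dc D j).a x := rfl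
      omega
    have hv2' : NS i v := by
      intro y hy
      refine hv2 y ?_
      cases v with
      | nil => simp at hy
      | cons a v => simpa using hy
    -- the words
    have hword : ∀ w, KI D k i w → ∃ u : List (Ltr M), Red (u ++ v ++ [⟨j, x⟩]) ∧
        w * pr v = pr (u ++ v) ∧ w * pr (v ++ [⟨j, x⟩]) = pr (u ++ v ++ [⟨j, x⟩]) := by
      intro w hw
      obtain ⟨u, g, e1, e2, e3, e4, e5, e6⟩ := KI_snoc hw
      refine ⟨u ++ [⟨i, g⟩], ?_, ?_, ?_⟩
      · have h1 : u ++ [⟨i, g⟩] ++ v ++ [⟨j, x⟩] = u ++ ⟨i, g⟩ :: (v ++ [⟨j, x⟩]) := by simp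
        rw [h1]
        exact red_mid.2 ⟨e2, e3, e4, hv1, hv2⟩
      · rw [pr_append, ← e1, pr_nf]
      · rw [List.append_assoc, pr_append (u ++ [(⟨i, g⟩ : Ltr M)]) (v ++ [(⟨j, x⟩ : Ltr M)]),
          ← e1, pr_nf]
    by_cases hl2 : ∃ (r : (M j).Group) (l' : List (Ltr M)), l = ⟨j, r⟩ :: l'
    · obtain ⟨r, l', rfl⟩ := hl2
      have hl1' := red_cons.1 hl1
      -- the recursion
      have hrec : ∀ w, KI D k i w → ∀ z, al D z = k →
          (D.h (w * pr (v ++ [⟨j, x⟩])) (pr (⟨j, r⟩ :: l')) z).coeff k =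
            if x * r = 1 ∧ (Dc D j).a r ≤ k then (D.h (w * pr v) (pr l') z).coeff k else 0 := by
        intro w hw z hz
        obtain ⟨u, h1, h2, h3⟩ := hword w hw
        rw [h3, h2, lead_mid D hL hl hb h1 hl1 hz.le, Finset.sum_eq_zero, zero_add]
        intro c _
        split_ifs with h4
        · by_contra hne
          have h1' := red_snoc.1 h1
          have hred : Red (u ++ v ++ ⟨j, c⟩ :: l') :=
            red_mid.2 ⟨h1'.1, h1'.2.1, h4.1, hl1'.2⟩
          have h5 : (Dc D j).a c ≤ k := by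
            rw [← hz, h4.2, al_pr D hred]
            exact le_alL D (x := ⟨j, c⟩) (by simp)
          have h6 := (comp_lead D hl hb h5 hne).2.1
          omega
        · rfl
      by_cases hxr : x * r = 1 ∧ (Dc D j).a r ≤ k
      · rcases ih hv1'.1 hv2' (by omega) l' hl1'.2.1 with h | ⟨y, h⟩
        · left
          intro w hw z hz
          rw [hrec w hw z hz, if_pos hxr]
          exact h w hw z hz
        · right
          refine ⟨y, fun w hw z hz => ?_⟩
          rw [hrec w hw z hz, if_pos hxr]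
          exact h w hw z hz
      · left
        intro w hw z hz
        rw [hrec w hw z hz, if_neg hxr]
    · left
      intro w hw z hz
      obtain ⟨u, h1, h2, h3⟩ := hword w hw
      rw [h3]
      refine lead_red D hL hl hb hk ?_ hz.le
      by_contra hne
      obtain ⟨u', j', g', r, v', h4, h5⟩ := not_red_append h1 hl1 hne
      obtain ⟨-, h6⟩ := List.append_inj' h4 rfl
      rw [List.cons.injEq] at h6
      have h7 := h6.1
      rw [Sigma.mk.injEq] at h7
      obtain ⟨h8, -⟩ := h7
      subst h8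
      exact hl2 ⟨r, v', h5⟩

include hb in
theorem LL_v (hk : 0 < k) {v : List (Ltr M)} (hv1 : Red v) (hv2 : NS i v) (hv3 : alL D v < k)
    (y : (sumM M).Group) {w : (sumM M).Group} (hw : KI D k i w) (t : H) :
    t * D.BB k (w * pr v) y - Xi D k i (fun w => D.BB k (w * pr v) y) (t * D.C w) ∈
      (Fk D hL hl k).I := by
  rcases peel D hL hl hb hk v hv1 hv2 hv3 (nf y) (red_nf y) with h | ⟨y', h⟩
  · refine LL_zero D hL hl hb (X := fun w => D.BB k (w * pr v) y) (fun w hw => ?_) hw t
    refine D.BB_zero k fun z hz => ?_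
    rw [a_eq_al D hL hl hb] at hz
    have h1 := h w hw z hz
    rwa [pr_nf] at h1
  · have h1 : ∀ w, KI D k i w → D.BB k (w * pr v) y = D.BB k w y' := by
      intro w hw
      refine D.BB_congr k fun z hz => ?_
      rw [a_eq_al D hL hl hb] at hz
      have h2 := h w hw z hz
      rwa [pr_nf] at h2
    rw [h1 w hw, Xi_congr D (X' := fun w => D.BB k w y') h1]
    exact LL_KI D hL hl hb hk y' hw t

open scoped Classical in
/-- The linear map of right multiplication in the asymptotic ring. -/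
noncomputable def bet (k : ℕ) (y : (sumM M).Group) : H →ₗ[LP] H :=
  D.C.constr LP fun w => if D.a w = k then D.BB k w y else 0

theorem bet_C {y w : (sumM M).Group} (h : D.a w = k) : bet D k y (D.C w) = D.BB k w y := by
  rw [bet, Module.Basis.constr_basis, if_pos h]

theorem bet_C_ne {y w : (sumM M).Group} (h : D.a w ≠ k) : bet D k y (D.C w) = 0 := by
  rw [bet, Module.Basis.constr_basis, if_neg h]

include hb in
theorem bet_I {x : H} {y : (sumM M).Group} (hx : x ∈ (Fk D hL hl k).I) : bet D k y x = 0 := by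
  rw [I_eq_al D hL hl hb] at hx
  have h : Submodule.span LP (D.C '' {w | k < al D w}) ≤ LinearMap.ker (bet D k y) := by
    rw [Submodule.span_le]
    rintro _ ⟨w, hw, rfl⟩
    rw [SetLike.mem_coe, LinearMap.mem_ker, bet_C_ne]
    rw [a_eq_al D hL hl hb]
    have h3 : k < al D w := hw
    omega
  exact h hx

include hb in
theorem LL_main (hk : 0 < k) {x : (sumM M).Group} (hx : al D x = k) (y : (sumM M).Group)
    (t : H) : t * D.BB k x y - bet D k y (t * D.C x) ∈ (Fk D hL hl k).I := by
  have h0 : 0 < alL D (nf x) := by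
    have : alL D (nf x) = al D x := rfl
    omega
  obtain ⟨u, i, g, v, h1, h2, h3⟩ := exists_last D h0
  have hal : alL D (nf x) = k := hx
  rw [hal] at h2 h3
  have hr : Red (u ++ ⟨i, g⟩ :: v) := by
    rw [← h1]
    exact red_nf x
  have hr' := red_mid.1 hr
  have huk : alL D u ≤ k := by
    rw [← hal, h1, alL_append]
    exact le_max_left _ _
  have hru : Red (u ++ [⟨i, g⟩]) := red_snoc.2 ⟨hr'.1, hr'.2.1, hr'.2.2.1⟩
  have hw := KI_pr hru huk h2
  have hxw : x = pr (u ++ [⟨i, g⟩]) * pr v := by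
    rw [← pr_append, List.append_assoc, List.singleton_append, ← h1, pr_nf]
  have h4 := (cor_v D hL hl hb hk hr'.2.2.2.1 hr'.2.2.2.2 h3).mul_X hb hk hw t
  have h5 := bet_I D hL hl hb (y := y) h4
  rw [map_sub, sub_eq_zero] at h5
  have h6 : ∀ s, bet D k y (Xi D k i (fun w => D.C (w * pr v)) s) =
      Xi D k i (fun w => D.BB k (w * pr v) y) s := by
    intro s
    have h7 : (bet D k y).comp (Xi D k i fun w => D.C (w * pr v)) =
        Xi D k i (fun w => D.BB k (w * pr v) y) := by
      refine D.C.ext fun w => ?_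
      rw [LinearMap.comp_apply]
      by_cases hw : KI D k i w
      · rw [Xi_C D _ hw, Xi_C D _ hw, bet_C]
        obtain ⟨u', g', e1, e2, e3, e4, e5, e6⟩ := KI_snoc hw
        have hr2 : Red (u' ++ ⟨i, g'⟩ :: v) :=
          red_mid.2 ⟨e2, e3, e4, hr'.2.2.2.1, hr'.2.2.2.2⟩
        have h8 : w * pr v = pr (u' ++ ⟨i, g'⟩ :: v) := by
          have h9 : w = pr (u' ++ [⟨i, g'⟩]) := by rw [← e1, pr_nf]
          rw [h9, ← pr_append, List.append_assoc, List.singleton_append]
        rw [a_eq_al D hL hl hb, h8, al_pr D hr2, alL_append, alL_cons]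
        have : al1 D ⟨i, g'⟩ = k := e6
        omega
      · rw [Xi_C_ne D _ hw, Xi_C_ne D _ hw, map_zero]
    exact LinearMap.congr_fun h7 s
  rw [hxw, h5, h6]
  exact LL_v D hL hl hb hk hr'.2.2.2.1 hr'.2.2.2.2 h3 y hw t

end ll

end Pool.Agent.Helper35.KL
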