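import Pool.Agent.Helper35.KL.Al

/-!
# P1-P6 and P12 for a free product
-/

namespace Pool.Agent.Helper35.KL

section pf

variable {ι : Type} {B : ι → Type} {M : ∀ i, CoxeterMatrix (B i)} {L : (sumM M).Group → ℤ}
variable {H : Type} [Ring H] [Algebra LP H] (D : KLD (sumM M) L H)
variable (hL : IsWeight (sumM M) L) (hl : ∀ i, (Dc D i).Lus) (hb : ∀ i, (Dc D i).Bounded)

open scoped Classical in
include hb in
/-- The coordinate of `TT l` at `1`. -/
theorem cc_TT_one_mid {N : ℕ} (hN : 0 < N) {u v : List (Ltr M)} {i : ι} {x : (M i).Group}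
    (hr : Red (u ++ ⟨i, x⟩ :: v)) (hx : N ≤ (Dc D i).a x) :
    ((FF D hL hl hN).cc (TT D (u ++ ⟨i, x⟩ :: v)) 1).coeff (-N) =
      -((Dc D i).p 1 x).coeff (-N) * if pr u * pr v = 1 ∧ ¬ Hv D N v then 1 else 0 := by
  have hmid := red_mid.1 hr
  have hPA := allA D hL hl hb hN hmid.1 hmid.2.2.2.1
  set c := (fi D hL hl N i).cc ((Dc D i).T x) with hc'
  have hc1 : ∀ z, Dle (-1) (c z) := ((hl i).T_Lam (isWeight_emb i hL) x).2 hx
  have hc2 := (hl i).cc_T_one (isWeight_emb i hL) (hb i) hN hx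
  have hexp := mid_cc D hL hl hN u v i ((Dc D i).T x)
  rw [coe_T, mid_T] at hexp
  have hterm : ∀ z, z ≠ 1 →
      (c z * (FF D hL hl hN).cc (TT D u * D.T (emb M i z) * TT D v) 1).coeff (-N) = 0 := by
    intro z hz1
    rw [mid_T]
    by_cases hh2 : Hv D N (u ++ ⟨i, z⟩ :: v)
    · have h1 := ((allB D hL hl hb hN (hr.replace hz1)).2 hh2).2
      exact ((hc1 z).mul h1) _ (by omega)
    · rw [cc_one_light D hL hl hN (hr.replace hz1) hh2 (by simp), mul_zero, cf_zero]
  rw [hexp, Finsupp.finsetSum_apply, cf_sum, Finset.sum_eq_single 1]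
  · rw [Finsupp.smul_apply, smul_eq_mul, mid_one]
    have h4 := cf_mul_lead hc2.1 hPA.2.1
    rw [add_zero] at h4
    rw [h4, hc2.2, hPA.2.2]
  · intro z _ hz1
    rw [Finsupp.smul_apply, smul_eq_mul]
    exact hterm z hz1
  · intro h
    rw [Finsupp.notMem_support_iff.1 h, zero_smul, Finsupp.zero_apply, cf_zero]

include hL hl hb in
/-- The coefficient of `T 1` in `C z`. -/
theorem p_one {z : (sumM M).Group} (hz : 0 < al D z) :
    Dle (-al D z) (D.p 1 z) ∧ (D.p 1 z).coeff (-al D z) =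
      -((FF D hL hl hz).cc (D.T z) 1).coeff (-al D z) := by
  classical
  set N := al D z with hN
  set F := FF D hL hl hz with hF
  have hzh : F.hv z := (Hv_iff D hz _).2 le_rfl
  have hI : D.C z ∈ F.I := F.C_mem (FF_h0 D hL hl hb hz) (FF_h1 D hL hl hb hz) hzh
  have hz1 : z ≠ 1 := by
    rintro rfl
    rw [al_one] at hN
    omega
  have hT1 : F.cc (D.T 1) = Finsupp.single 1 1 := F.cc_T (by
    rw [hF, FF_hv, nf_one]
    exact Hv_nil D)
  have h2 : F.cc (D.T z) = -F.cc (D.C z - D.T z) := by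
    rw [map_sub, F.cc_I hI, zero_sub, neg_neg]
  have h3 : F.cc (D.C z - D.T z) 1 = ∑ y ∈ (D.T.repr (D.C z - D.T z)).support,
      D.T.repr (D.C z - D.T z) y * F.cc (D.T y) 1 := by
    conv_lhs => rw [← D.T.linearCombination_repr (D.C z - D.T z)]
    rw [Finsupp.linearCombination_apply, Finsupp.sum, map_sum, Finsupp.finsetSum_apply]
    refine Finset.sum_congr rfl fun y _ => ?_
    rw [map_smul, Finsupp.smul_apply, smul_eq_mul]
  have h4 : ∀ y, y ≠ 1 → Dle (-N - 1) (D.T.repr (D.C z - D.T z) y * F.cc (D.T y) 1) := by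
    intro y hy1
    by_cases hyN : F.hv y
    · have h5 := ((allB D hL hl hb hz (red_nf y)).2 hyN).2
      rw [TT_red D (red_nf y), pr_nf] at h5
      exact (D.C_T z y).mul_of_eq h5 (by omega)
    · rw [F.cc_T hyN, Finsupp.single_apply, if_neg hy1, mul_zero]
      exact Dle.zero _
  have hp1 : D.T.repr (D.C z - D.T z) 1 = D.p 1 z := by
    rw [map_sub, Finsupp.sub_apply, Module.Basis.repr_self, Finsupp.single_apply, if_neg hz1,
      sub_zero]
    rfl
  have h5 : Dle (-N - 1) (F.cc (D.C z - D.T z) 1 - D.p 1 z) := by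
    rw [h3]
    by_cases h1s : (1 : (sumM M).Group) ∈ (D.T.repr (D.C z - D.T z)).support
    · rw [← Finset.sum_erase_add _ _ h1s, hT1, Finsupp.single_eq_same, mul_one, hp1,
        add_sub_cancel_right]
      refine Dle.sum _ fun y hy => ?_
      rw [Finset.mem_erase] at hy
      exact h4 y hy.1
    · have h6 : D.p 1 z = 0 := by
        rw [← hp1]
        exact Finsupp.notMem_support_iff.1 h1s
      rw [h6, sub_zero]
      refine Dle.sum _ fun y hy => h4 y ?_
      rintro rfl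
      exact h1s hy
  have h6 : Dle (-N) (F.cc (D.T z) 1) := by
    have h7 := ((allB D hL hl hb hz (red_nf z)).2 hzh).2
    rwa [TT_red D (red_nf z), pr_nf] at h7
  have h7 : D.p 1 z = -(F.cc (D.T z) 1) - (F.cc (D.C z - D.T z) 1 - D.p 1 z) := by
    rw [h2, Finsupp.neg_apply]
    ring
  constructor
  · rw [h7]
    exact h6.neg.sub (h5.mono (by omega))
  · conv_lhs => rw [h7]
    rw [cf_sub, h5 _ (by omega), sub_zero, cf_neg]

include hL hl hb in
theorem P1_sum (z : (sumM M).Group) : Dle (-D.a z) (D.p 1 z) := by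
  classical
  rw [a_eq_al D hL hl hb]
  by_cases hz : z = 1
  · rw [hz, al_one, KLD.p, D.C_one, ← D.T_one, Module.Basis.repr_self, Finsupp.single_eq_same]
    exact Dle.one (by simp)
  · exact (p_one D hL hl hb (al_pos D hL hb hz)).1

theorem nn_one : D.nn 1 = (D.p 1 1).coeff (-D.a 1) := rfl

include hL in
theorem nn_one' : D.nn 1 = 1 := by
  rw [KLD.nn, KLD.a_one hL, KLD.p, D.C_one, ← D.T_one, Module.Basis.repr_self,
    Finsupp.single_eq_same, cf_one]
  simp

open scoped Classical in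
include hL hl hb in
/-- The numbers `n z`. -/
theorem nn_mid {z : (sumM M).Group} {u v : List (Ltr M)} {i : ι} {x : (M i).Group}
    (hz : nf z = u ++ ⟨i, x⟩ :: v) (hx : (Dc D i).a x = al D z) :
    D.nn z = (Dc D i).nn x *
      if pr u * pr v = 1 ∧ ¬ Hv D (al D z) v then 1 else 0 := by
  have hr : Red (u ++ ⟨i, x⟩ :: v) := by
    rw [← hz]
    exact red_nf z
  have hz2 : z = pr (u ++ ⟨i, x⟩ :: v) := by rw [← hz, pr_nf]
  have hN : 0 < al D z := by
    rw [← hx]
    exact al1_pos D hL hb (red_mid.1 hr).2.2.1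
  have h1 := (p_one D hL hl hb hN).2
  have h2 := cc_TT_one_mid D hL hl hb hN hr hx.ge
  have h3 : D.T z = TT D (u ++ ⟨i, x⟩ :: v) := by rw [TT_red D hr, ← hz2]
  rw [KLD.nn, a_eq_al D hL hl hb, h1, h3, h2, KLD.nn, hx]
  ring

theorem pr_mul_eq_one {u v : List (Ltr M)} (hu : Red u) (hv : Red v) (h : pr u * pr v = 1) :
    u = rv v := by
  refine pr_inj hu hv.rv ?_
  rw [pr_rv]
  exact eq_inv_of_mul_eq_one_left h

include hL hl hb in
theorem P6_sum {z : (sumM M).Group} (hz : D.nn z ≠ 0) : z⁻¹ = z := by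
  classical
  by_cases h1 : z = 1
  · rw [h1, inv_one]
  · have h0 : 0 < alL D (nf z) := al_pos D hL hb h1
    obtain ⟨u, i, x, v, h2, h3, h4⟩ := exists_first D h0
    have h5 := nn_mid D hL hl hb h2 h3
    rw [h5] at hz
    obtain ⟨h6, h7⟩ := mul_ne_zero_iff.1 hz
    split_ifs at h7 with h8
    · have hr : Red (u ++ ⟨i, x⟩ :: v) := by
        rw [← h2]
        exact red_nf z
      have hr' := red_mid.1 hr
      have h9 := pr_mul_eq_one hr'.1 hr'.2.2.2.1 h8.1
      have h10 := (hl i).inv_of_inD ((hl i).inD_nn.2 h6)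
      rw [← pr_nf z, ← pr_rv, h2, h9, rv_append, rv_rv, rv_cons]
      simp only [h10, List.append_assoc, List.singleton_append]
    · exact absurd rfl h7

include hL hl hb in
/-- P2 in terms of lists. -/
theorem P2_list {z : (sumM M).Group} {k : ℕ} (hk : 0 < k) (hzk : al D z = k)
    (hz : D.nn z ≠ 0) : ∀ (n : ℕ) (u v : List (Ltr M)), u.length ≤ n → Red u → Red v →
      (D.h (pr u) (pr v) z).coeff k ≠ 0 → pr u * pr v = 1 := by
  classical
  intro n
  induction n with
  | zero =>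
    intro u v hn hu hv h
    exfalso
    have h0 : u = [] := List.length_eq_zero_iff.1 (by omega)
    subst h0
    exact h (lead_red D hL hl hb hk (by simpa using hv) hzk.le)
  | succ n ih =>
    intro u v hn hu hv h
    by_cases hr : Red (u ++ v)
    · exact absurd (lead_red D hL hl hb hk hr hzk.le) h
    · obtain ⟨u', i, g, r, v', rfl, rfl⟩ := not_red_append hu hv hr
      have hu' := red_snoc.1 hu
      have hv' := red_cons.1 hv
      rw [List.length_append, List.length_singleton] at hn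
      have hprod : pr (u' ++ [⟨i, g⟩]) * pr (⟨i, r⟩ :: v') = pr u' * emb M i (g * r) * pr v' := by
        rw [pr_append, pr_cons, pr_cons, pr_nil, mul_one, map_mul]
        group
      by_cases hc : ∃ c, c ≠ 1 ∧ z = pr (u' ++ ⟨i, c⟩ :: v')
      · obtain ⟨c, hc1, hc2⟩ := hc
        have hred : Red (u' ++ ⟨i, c⟩ :: v') := red_mid.2 ⟨hu'.1, hu'.2.1, hc1, hv'.2⟩
        have hz' : alL D (u' ++ ⟨i, c⟩ :: v') = k := by rw [← al_pr D hred, ← hc2, hzk]
        rw [hc2, lead_mid_a D hL hl hb hu hv hc1 hz'.le] at h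
        have hac : (Dc D i).a c ≤ k := by
          rw [← hz']
          exact le_alL D (x := ⟨i, c⟩) (by simp)
        by_cases h2 : ((Dc D i).h g r c).coeff k = 0
        · rw [h2, zero_add] at h
          split_ifs at h with h3
          · rw [← hc2] at h
            have h4 := ih u' v' (by omega) hu'.1 hv'.2.1 h
            rw [hprod, h3.1, map_one, mul_one, h4]
          · exact absurd rfl h
        · have h3 := comp_lead D hl hb hac h2
          have h4 := nn_mid D hL hl hb (z := z) (by rw [hc2, nf_pr hred]) (by rw [h3.1, hzk])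
          rw [h4] at hz
          obtain ⟨h5, h6⟩ := mul_ne_zero_iff.1 hz
          split_ifs at h6 with h7
          · have h8 : (Dc D i).inD c := (hl i).inD_nn.2 h5
            have h9 := h3.2.2.2
            rw [(hl i).inv_of_inD h8] at h9
            have h10 := (hl i).P2 g r c h8 h9
            rw [hprod, h10, inv_mul_cancel, map_one, mul_one, h7.1]
          · exact absurd rfl h6
      · push Not at hc
        rw [lead_mid_b D hL hl hb hu hv hzk.le hc] at h
        split_ifs at h with h3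
        · have h4 := ih u' v' (by omega) hu'.1 hv'.2.1 h
          rw [hprod, h3.1, map_one, mul_one, h4]
        · exact absurd rfl h

include hL hl hb in
theorem Q_sum {x y z : (sumM M).Group} (h : D.g x y z ≠ 0) : al D x = al D z ∧ al D y = al D z := by
  rw [KLD.g, a_eq_al D hL hl hb] at h
  rw [← al_inv D z]
  by_cases hz : z⁻¹ = 1
  · rw [hz] at h ⊢
    have hne : D.h x y 1 ≠ 0 := fun h0 => h (by rw [h0, cf_zero])
    obtain ⟨rfl, rfl⟩ := D.h_ne_one hL hne
    exact ⟨rfl, rfl⟩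
  · have h1 := lead_Q D hL hl hb (al_pos D hL hb hz) rfl _ (nf x) (nf y) le_rfl (red_nf x)
      (red_nf y) (by rw [pr_nf, pr_nf]; exact h)
    exact h1

include hL hl hb in
theorem P2_sum {x y z : (sumM M).Group} (hz : D.nn z ≠ 0) (h : D.g x y z ≠ 0) : x = y⁻¹ := by
  rw [KLD.g, P6_sum D hL hl hb hz, a_eq_al D hL hl hb] at h
  by_cases hz1 : z = 1
  · rw [hz1] at h
    have hne : D.h x y 1 ≠ 0 := fun h0 => h (by rw [h0, cf_zero])
    obtain ⟨rfl, rfl⟩ := D.h_ne_one hL hne
    rw [inv_one]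
  · have h1 := P2_list D hL hl hb (al_pos D hL hb hz1) rfl hz _ (nf x) (nf y) le_rfl (red_nf x)
      (red_nf y) (by rw [pr_nf, pr_nf]; exact h)
    rw [pr_nf, pr_nf] at h1
    exact eq_inv_of_mul_eq_one_left h1

include hL hl hb in
/-- Cancelling letters in front of a letter with maximal `a`. -/
theorem lead_peel {k : ℕ} (hk : 0 < k) {z : (sumM M).Group} (hzk : al D z = k)
    (hz : D.nn z ≠ 0) (w : List (Ltr M)) (hw : Hv D k w) (hwk : alL D w ≤ k) :
    ∀ v1 : List (Ltr M), Red (v1 ++ w) → alL D (v1 ++ w) ≤ k →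
      (D.h (pr (rv (v1 ++ w))) (pr (v1 ++ w)) z).coeff k = (D.h (pr (rv w)) (pr w) z).coeff k := by
  classical
  intro v1
  induction v1 with
  | nil => intro _ _; rfl
  | cons y v1 ih =>
    intro hr hak
    rw [List.cons_append] at hr hak ⊢
    obtain ⟨j, y⟩ := y
    have hr' := red_cons.1 hr
    rw [alL_cons] at hak
    have ih' := ih hr'.2.1 (by omega)
    rw [← ih', rv_cons]
    have hu : Red (rv (v1 ++ w) ++ [⟨j, y⁻¹⟩]) := by
      have := hr.rv
      rwa [rv_cons] at this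
    have hay : (Dc D j).a y ≤ k := by
      have : al1 D ⟨j, y⟩ = (Dc D j).a y := rfl
      omega
    have hHw : Hv D k (v1 ++ w) := (Hv_append D).2 (Or.inr hw)
    by_cases hc : ∃ c, c ≠ 1 ∧ z = pr (rv (v1 ++ w) ++ ⟨j, c⟩ :: (v1 ++ w))
    · obtain ⟨c, hc1, hc2⟩ := hc
      have hred : Red (rv (v1 ++ w) ++ ⟨j, c⟩ :: (v1 ++ w)) := by
        rw [red_snoc] at hu
        exact red_mid.2 ⟨hu.1, hu.2.1, hc1, hr'.2⟩
      have hz' : alL D (rv (v1 ++ w) ++ ⟨j, c⟩ :: (v1 ++ w)) = k := by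
        rw [← al_pr D hred, ← hc2, hzk]
      have hac : (Dc D j).a c ≤ k := by
        rw [← hz']
        exact le_alL D (x := ⟨j, c⟩) (by simp)
      have h1 : ((Dc D j).h y⁻¹ y c).coeff k = 0 := by
        by_contra hne
        have h3 := comp_lead D hl hb hac hne
        have h4 := nn_mid D hL hl hb (z := z) (by rw [hc2, nf_pr hred]) (by rw [h3.1, hzk])
        rw [h4, if_neg, mul_zero] at hz
        · exact hz rfl
        · rintro ⟨-, h5⟩
          rw [hzk] at h5
          exact h5 hHw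
      have h2 := lead_mid_a D hL hl hb hu hr hc1 hz'.le
      rw [h1, zero_add, if_pos ⟨inv_mul_cancel y, hay⟩] at h2
      rw [← hc2] at h2
      exact h2
    · push Not at hc
      rw [lead_mid_b D hL hl hb hu hr hzk.le hc, if_pos ⟨inv_mul_cancel y, hay⟩]

include hL hl hb in
/-- P3 and P5. -/
theorem P3_sum (y : (sumM M).Group) : ∃ z, D.nn z ≠ 0 ∧ D.g y⁻¹ y z = D.nn z ∧
    (D.nn z = 1 ∨ D.nn z = -1) ∧ ∀ z', D.nn z' ≠ 0 → D.g y⁻¹ y z' ≠ 0 → z' = z := by
  classical
  by_cases hy : y = 1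
  · subst hy
    refine ⟨1, by rw [nn_one' D hL]; norm_num, ?_, by rw [nn_one' D hL]; simp, ?_⟩
    · rw [nn_one' D hL, KLD.g, inv_one, KLD.a_one hL, KLD.h_one, if_pos rfl, cf_one]
      simp
    · intro z _ h
      rw [KLD.g, inv_one, KLD.h_one] at h
      split_ifs at h with h1
      · exact inv_eq_one.1 h1.symm
      · exact absurd (cf_zero _) h
  · set k := al D y with hk
    have hk0 : 0 < k := al_pos D hL hb hy
    obtain ⟨v1, i, x, v2, h1, h2, h3⟩ := exists_last D (l := nf y) hk0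
    have hr : Red (v1 ++ ⟨i, x⟩ :: v2) := by
      rw [← h1]
      exact red_nf y
    have hr' := red_mid.1 hr
    have hy2 : y = pr (v1 ++ ⟨i, x⟩ :: v2) := by rw [← h1, pr_nf]
    have hak : alL D (v1 ++ ⟨i, x⟩ :: v2) = k := by rw [← h1]; rfl
    have hxk : (Dc D i).a x = k := h2
    have h3' : alL D v2 < k := h3
    have hw : Red (⟨i, x⟩ :: v2) := red_cons.2 hr'.2.2
    have hu : Red (rv v2 ++ [⟨i, x⁻¹⟩]) := by
      have := hw.rv
      rwa [rv_cons] at this
    have hu' := red_snoc.1 hu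
    obtain ⟨d, ⟨hd1, hd2⟩, hd3⟩ := (hl i).P3 x
    have hd4 : (Dc D i).a d = k := by
      have := ((hl i).Q hd2).2
      omega
    have hd5 : d ≠ 1 := by
      rintro rfl
      rw [a_one_c D hL] at hd4
      omega
    have hd6 := (hl i).P5 x d _ ((hl i).delta hd1) hd2
    have hd7 : d⁻¹ = d := (hl i).inv_of_inD hd1
    have hred : Red (rv v2 ++ ⟨i, d⟩ :: v2) := red_mid.2 ⟨hu'.1, hu'.2.1, hd5, hr'.2.2.2⟩
    have hd8 : ((Dc D i).h x⁻¹ x d).coeff k = (Dc D i).g x⁻¹ x d := by
      rw [KLD.g, hd7, hd4]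
    -- the formula for the leading coefficients at elements of `𝒟`
    have hF : ∀ z, al D z = k → D.nn z ≠ 0 → (D.h y⁻¹ y z).coeff k =
        (D.h (pr (rv v2 ++ [⟨i, x⁻¹⟩])) (pr (⟨i, x⟩ :: v2)) z).coeff k := by
      intro z hzk hz
      have h4 := lead_peel D hL hl hb hk0 hzk hz (⟨i, x⟩ :: v2)
        ((Hv_cons D).2 (Or.inl hxk.ge)) (by
          have h5 : alL D (v1 ++ ⟨i, x⟩ :: v2) = _ := alL_append D v1 _
          omega) v1 hr hak.le
      rw [rv_cons] at h4
      rw [← h4, pr_rv, hy2]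
    have hlast : ∀ z, al D z = k → (D.h (pr (rv v2)) (pr v2) z).coeff k = 0 := by
      intro z hzk
      by_contra hne
      have h4 := lead_Q D hL hl hb hk0 hzk _ (rv v2) v2 le_rfl hu'.1 hr'.2.2.2.1 hne
      omega
    have hz0k : al D (pr (rv v2 ++ ⟨i, d⟩ :: v2)) = k := by
      rw [al_pr D hred, alL_append, alL_cons, alL_rv]
      have : al1 D ⟨i, d⟩ = k := hd4
      omega
    have hnn : D.nn (pr (rv v2 ++ ⟨i, d⟩ :: v2)) = (Dc D i).nn d := by
      rw [nn_mid D hL hl hb (nf_pr hred) (by rw [hd4, hz0k]), if_pos, mul_one]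
      refine ⟨by rw [pr_rv, inv_mul_cancel], ?_⟩
      rw [hz0k, Hv_iff D hk0]
      omega
    have hd9 : (Dc D i).nn d ≠ 0 := (hl i).inD_nn.1 hd1
    refine ⟨pr (rv v2 ++ ⟨i, d⟩ :: v2), by rwa [hnn], ?_, by rw [hnn]; exact hd6.2, ?_⟩
    · have hnn0 : D.nn (pr (rv v2 ++ ⟨i, d⟩ :: v2)) ≠ 0 := by rwa [hnn]
      rw [KLD.g, P6_sum D hL hl hb hnn0, a_eq_al D hL hl hb, hz0k, hF _ hz0k hnn0]
      have h4 := lead_mid_a D hL hl hb hu hw hd5 (by rw [← al_pr D hred, hz0k])
      rw [h4, hlast _ hz0k, ite_self, add_zero, hd8, hd6.1, hnn]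
    · intro z hz h
      have hzk : al D z = k := (Q_sum D hL hl hb h).2.symm
      rw [KLD.g, P6_sum D hL hl hb hz, a_eq_al D hL hl hb, hzk, hF z hzk hz] at h
      by_cases hc : ∃ c, c ≠ 1 ∧ z = pr (rv v2 ++ ⟨i, c⟩ :: v2)
      · obtain ⟨c, hc1, hc2⟩ := hc
        have hred2 : Red (rv v2 ++ ⟨i, c⟩ :: v2) := red_mid.2 ⟨hu'.1, hu'.2.1, hc1, hr'.2.2.2⟩
        have hz' : alL D (rv v2 ++ ⟨i, c⟩ :: v2) = k := by rw [← al_pr D hred2, ← hc2, hzk]
        have hac : (Dc D i).a c ≤ k := by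
          rw [← hz']
          exact le_alL D (x := ⟨i, c⟩) (by simp)
        rw [hc2, lead_mid_a D hL hl hb hu hw hc1 hz'.le, ← hc2, hlast z hzk, ite_self,
          add_zero] at h
        have h5 := comp_lead D hl hb hac h
        have h6 := nn_mid D hL hl hb (z := z) (by rw [hc2, nf_pr hred2]) (by rw [h5.1, hzk])
        rw [h6] at hz
        have h7 : (Dc D i).inD c := (hl i).inD_nn.2 (mul_ne_zero_iff.1 hz).1
        have h8 := h5.2.2.2
        rw [(hl i).inv_of_inD h7] at h8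
        rw [hc2, hd3 c ⟨h7, h8⟩]
      · push Not at hc
        rw [lead_mid_b D hL hl hb hu hw hzk.le hc, hlast z hzk, ite_self] at h
        exact absurd rfl h

include hL hl hb in
/-- P12. -/
theorem P12_sum (I : Set (Σ i, B i)) {z : (sumM M).Group} (hz : z ∈ par (sumM M) I) :
    D.aPar I z = D.a z := by
  classical
  have hsub : {n : ℕ | ∃ x ∈ par (sumM M) I, ∃ y ∈ par (sumM M) I, (D.h x y z).coeff n ≠ 0} ⊆
      {n : ℕ | ∃ x y, (D.h x y z).coeff n ≠ 0} := by
    rintro n ⟨x, -, y, -, h⟩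
    exact ⟨x, y, h⟩
  have hbdd : BddAbove {n : ℕ | ∃ x y, (D.h x y z).coeff n ≠ 0} := by
    refine ⟨al D z, ?_⟩
    rintro n ⟨x, y, h⟩
    by_contra hlt
    exact h (h_dle_al D hL hl hb x y z n (by omega))
  refine le_antisymm (csSup_le_csSup' hbdd hsub) ?_
  rw [a_eq_al D hL hl hb]
  refine le_csSup (hbdd.mono hsub) ?_
  by_cases h1 : z = 1
  · subst h1
    refine ⟨1, Subgroup.one_mem _, 1, Subgroup.one_mem _, ?_⟩
    rw [al_one, KLD.h_one, if_pos rfl, cf_one]
    simp
  · have h0 : 0 < alL D (nf z) := al_pos D hL hb h1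
    obtain ⟨u, i, x, v, h2, h3, h4⟩ := exists_first D h0
    have hpar := par_nf I hz
    rw [h2] at hpar
    have hx : x ∈ par (M i) (tr I i) := hpar ⟨i, x⟩ (by simp)
    have h5 := (hl i).P12 (tr I i) x hx
    have hne : {n : ℕ | ∃ g ∈ par (M i) (tr I i), ∃ r ∈ par (M i) (tr I i),
        ((Dc D i).h g r x).coeff n ≠ 0}.Nonempty := by
      refine ⟨0, 1, Subgroup.one_mem _, x, hx, ?_⟩
      rw [KLD.h_one, if_pos rfl, Nat.cast_zero, cf_one]
      simp
    have hbdd2 : BddAbove {n : ℕ | ∃ g ∈ par (M i) (tr I i), ∃ r ∈ par (M i) (tr I i),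
        ((Dc D i).h g r x).coeff n ≠ 0} := by
      refine (KLD.a_bdd (hb i) x).mono ?_
      rintro n ⟨g, -, r, -, h⟩
      exact ⟨g, r, h⟩
    obtain ⟨g, hg, r, hr, h6⟩ := Nat.sSup_mem hne hbdd2
    have h7 : sSup {n : ℕ | ∃ g ∈ par (M i) (tr I i), ∃ r ∈ par (M i) (tr I i),
        ((Dc D i).h g r x).coeff n ≠ 0} = al D z := by
      have h8 : (Dc D i).aPar (tr I i) x = al D z := by
        rw [h5]
        exact h3
      exact h8
    rw [h7] at h6
    refine ⟨_, ?_, _, ?_, al_attained D hL hl hb h2 h3 h4 h6⟩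
    · refine pr_par I ?_
      intro y hy
      rcases List.mem_append.1 hy with hy | hy
      · exact hpar y (List.mem_append_left _ hy)
      · rw [List.mem_singleton] at hy
        subst hy
        exact hg
    · refine pr_par I ?_
      intro y hy
      rcases List.mem_cons.1 hy with rfl | hy
      · exact hr
      · exact hpar y (List.mem_append_right _ (List.mem_cons_of_mem _ hy))

end pf

end Pool.Agent.Helper35.KL
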