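import Pool.Agent.Helper35.KL.SubKLD

/-!
# The Hecke algebra of a parabolic subgroup as a subalgebra
-/

namespace Pool.Agent.Helper35.KL

/-- `f` is the inclusion of a parabolic subgroup; `j` is the map on the generators. -/
structure IsPar {B₁ B : Type} {M₁ : CoxeterMatrix B₁} {M : CoxeterMatrix B}
    (f : M₁.Group →* M.Group) (j : B₁ → B) : Prop where
  sm : ∀ b, f (sm M₁ b) = sm M (j b)
  len : ∀ x, len M (f x) = len M₁ x

theorem IsPar.inj {B₁ B : Type} {M₁ : CoxeterMatrix B₁} {M : CoxeterMatrix B}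
    {f : M₁.Group →* M.Group} {j : B₁ → B} (hf : IsPar f j) : Function.Injective f := by
  intro x y h
  have h1 : f (x * y⁻¹) = 1 := by rw [map_mul, map_inv, h, mul_inv_cancel]
  have h2 := hf.len (x * y⁻¹)
  rw [h1, len_one] at h2
  have h3 := len_eq_zero.1 h2.symm
  exact mul_inv_eq_one.1 h3

section sub

variable {B₁ B : Type} {M₁ : CoxeterMatrix B₁} {M : CoxeterMatrix B} {f : M₁.Group →* M.Group}
variable {j : B₁ → B} (hf : IsPar f j) {L : M.Group → ℤ}
variable {H : Type} [Ring H] [Algebra LP H] (D : KLD M L H)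

variable (f) in
/-- The span of the standard basis elements of the parabolic subgroup. -/
noncomputable def pS : Submodule LP H :=
  Submodule.span LP (Set.range fun x : M₁.Group => D.T (f x))

theorem T_par_mem (x : M₁.Group) : D.T (f x) ∈ pS f D := Submodule.subset_span ⟨x, rfl⟩

include hf in
theorem pS_sm (b : B₁) {y : H} (hy : y ∈ pS f D) : D.T (sm M (j b)) * y ∈ pS f D := by
  refine Submodule.span_induction
    (p := fun y _ => D.T (sm M (j b)) * y ∈ pS f D) ?_ ?_ ?_ ?_ hy
  · rintro _ ⟨x, rfl⟩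
    have h0 : sm M (j b) * f x = f (sm M₁ b * x) := by
      rw [map_mul, hf.sm]
    rcases len_sm_mul b x with h | h
    · simp only
      rw [D.T_sm_mul (by rw [h0, hf.len, hf.len]; exact h), h0]
      exact T_par_mem D _
    · simp only
      rw [D.T_sm_mul' (by rw [h0, hf.len, hf.len]; exact h), h0]
      exact Submodule.add_mem _ (T_par_mem D _) (Submodule.smul_mem _ _ (T_par_mem D _))
  · rw [mul_zero]
    exact Submodule.zero_mem _
  · intro a b _ _ ha hb
    rw [mul_add]
    exact Submodule.add_mem _ ha hb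
  · intro a b _ hb
    rw [mul_smul_comm]
    exact Submodule.smul_mem _ _ hb

include hf in
theorem pS_mul {x y : H} (hx : x ∈ pS f D) (hy : y ∈ pS f D) : x * y ∈ pS f D := by
  have h1 : ∀ (x : M₁.Group) (y : H), y ∈ pS f D → D.T (f x) * y ∈ pS f D := by
    intro x
    induction x using len_induction with
    | h1 =>
      intro y hy
      rwa [map_one, D.T_one, one_mul]
    | hs b w hl ih =>
      intro y hy
      rw [map_mul, hf.sm, ← D.T_sm_mul (by
        rw [← hf.sm, ← map_mul, hf.len, hf.len]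
        exact hl), mul_assoc]
      exact pS_sm hf D b (ih y hy)
  refine Submodule.span_induction (p := fun x _ => x * y ∈ pS f D) ?_ ?_ ?_ ?_ hx
  · rintro _ ⟨x, rfl⟩
    exact h1 x y hy
  · rw [zero_mul]
    exact Submodule.zero_mem _
  · intro a b _ _ ha hb
    rw [add_mul]
    exact Submodule.add_mem _ ha hb
  · intro a b _ hb
    rw [smul_mul_assoc]
    exact Submodule.smul_mem _ _ hb

include hf in
theorem pS_one : (1 : H) ∈ pS f D := by
  have h := T_par_mem (f := f) D 1
  rwa [map_one, D.T_one] at h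

include hf in
theorem pS_bar {x : H} (hx : x ∈ pS f D) : D.bar x ∈ pS f D := by
  have h1 : ∀ x : M₁.Group, D.bar (D.T (f x)) ∈ pS f D := by
    intro x
    induction x using len_induction with
    | h1 =>
      rw [map_one, D.T_one, map_one]
      exact pS_one hf D
    | hs b w hl ih =>
      rw [map_mul, hf.sm, ← D.T_sm_mul (by
        rw [← hf.sm, ← map_mul, hf.len, hf.len]
        exact hl), map_mul, D.bar_T_sm]
      refine pS_mul hf D (Submodule.sub_mem _ ?_ (Submodule.smul_mem _ _ (pS_one hf D))) ih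
      rw [← hf.sm]
      exact T_par_mem D _
  refine Submodule.span_induction (p := fun x _ => D.bar x ∈ pS f D) ?_ ?_ ?_ ?_ hx
  · rintro _ ⟨x, rfl⟩
    exact h1 x
  · rw [map_zero]
    exact Submodule.zero_mem _
  · intro a b _ _ ha hb
    rw [map_add]
    exact Submodule.add_mem _ ha hb
  · intro a b _ hb
    rw [D.bar_smul]
    exact Submodule.smul_mem _ _ hb

/-- The subalgebra of a component. -/
noncomputable def pA : Subalgebra LP H :=
  (pS f D).toSubalgebra (pS_one hf D) fun _ _ hx hy => pS_mul hf D hx hy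

theorem mem_pA {x : H} : x ∈ pA hf D ↔ x ∈ pS f D := Iff.rfl

/-- The standard basis of the subalgebra. -/
noncomputable def pT : Module.Basis M₁.Group LP (pA hf D) :=
  Module.Basis.mk (v := fun x => (⟨D.T (f x), T_par_mem D x⟩ : pA hf D)) (by
    have h1 : LinearIndependent LP fun x : M₁.Group => D.T (f x) :=
      D.T.linearIndependent.comp _ (hf.inj)
    exact LinearIndependent.of_comp (pA hf D).val.toLinearMap h1) (by
    rintro ⟨x, hx⟩ _
    have h2 : ∀ x ∈ pS f D, ∀ hx : x ∈ pA hf D, (⟨x, hx⟩ : pA hf D) ∈ Submodule.span LP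
        (Set.range fun x => (⟨D.T (f x), T_par_mem D x⟩ : pA hf D)) := by
      intro x hx
      refine Submodule.span_induction (p := fun x _ => ∀ hx : x ∈ pA hf D,
        (⟨x, hx⟩ : pA hf D) ∈ Submodule.span LP
        (Set.range fun x => (⟨D.T (f x), T_par_mem D x⟩ : pA hf D))) ?_ ?_ ?_ ?_ hx
      · rintro _ ⟨x, rfl⟩ h
        exact Submodule.subset_span ⟨x, rfl⟩
      · intro h
        exact Submodule.zero_mem _
      · intro a b ha hb iha ihb h
        exact Submodule.add_mem _ (iha ha) (ihb hb)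
      · intro a b hb ihb h
        exact Submodule.smul_mem _ a (ihb hb)
    exact h2 x hx hx)

theorem coe_pT (x : M₁.Group) : (pT hf D x : H) = D.T (f x) := by
  rw [pT, Module.Basis.mk_apply]

theorem repr_pT (y : pA hf D) (x : M₁.Group) :
    D.T.repr (y : H) (f x) = (pT hf D).repr y x := by
  classical
  have h3 : y ∈ Submodule.span LP (Set.range (pT hf D)) := (pT hf D).mem_span y
  refine Submodule.span_induction
    (p := fun (y : pA hf D) _ => D.T.repr (y : H) (f x) = (pT hf D).repr y x) ?_ ?_ ?_ ?_ h3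
  · rintro _ ⟨z, rfl⟩
    rw [coe_pT, Module.Basis.repr_self, Module.Basis.repr_self, Finsupp.single_apply,
      Finsupp.single_apply]
    by_cases h : z = x
    · rw [if_pos h, if_pos (by rw [h])]
    · rw [if_neg h, if_neg fun h' => h (hf.inj h')]
  · simp
  · intro a b _ _ ha hb
    rw [Subalgebra.coe_add, map_add, map_add, Finsupp.add_apply, Finsupp.add_apply, ha, hb]
  · intro a b _ hb
    rw [Subalgebra.coe_smul, map_smul, map_smul, Finsupp.smul_apply, Finsupp.smul_apply, hb]

theorem repr_pT' (y : pA hf D) (w : M.Group) (hw : ∀ x, w ≠ f x) :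
    D.T.repr (y : H) w = 0 := by
  classical
  have h3 : y ∈ Submodule.span LP (Set.range (pT hf D)) := (pT hf D).mem_span y
  refine Submodule.span_induction (p := fun (y : pA hf D) _ => D.T.repr (y : H) w = 0)
    ?_ ?_ ?_ ?_ h3
  · rintro _ ⟨z, rfl⟩
    rw [coe_pT, Module.Basis.repr_self, Finsupp.single_apply, if_neg fun h => hw z h.symm]
  · simp
  · intro a b _ _ ha hb
    rw [Subalgebra.coe_add, map_add, Finsupp.add_apply, ha, hb, add_zero]
  · intro a b _ hb
    rw [Subalgebra.coe_smul, map_smul, Finsupp.smul_apply, hb, smul_zero]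

/-- The bar involution of the subalgebra. -/
noncomputable def pBar : pA hf D →+* pA hf D where
  toFun x := ⟨D.bar x, pS_bar hf D x.2⟩
  map_one' := Subtype.ext (map_one D.bar)
  map_mul' x y := Subtype.ext (map_mul D.bar (x : H) (y : H))
  map_zero' := Subtype.ext (map_zero D.bar)
  map_add' x y := Subtype.ext (map_add D.bar (x : H) (y : H))

theorem coe_pBar (x : pA hf D) : (pBar hf D x : H) = D.bar x := rfl

theorem exists_par : ∃ D' : KLD M₁ (fun x => L (f x)) (pA hf D),
    (∀ x, (D'.T x : H) = D.T (f x)) ∧ (∀ x, (D'.C x : H) = D.C (f x)) ∧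
      ∀ y, (D'.bar y : H) = D.bar y := by
  have hs : ∀ (a : LP) (h : pA hf D), pBar hf D (a • h) =
      LaurentPolynomial.invert a • pBar hf D h := by
    intro a h
    exact Subtype.ext (D.bar_smul a h)
  have hb : ∀ h, pBar hf D (pBar hf D h) = h := fun h => Subtype.ext (D.bar_bar h)
  have hT : ∀ w, pBar hf D (pT hf D w) - pT hf D w ∈ Vl (pT hf D) (len M₁) (len M₁ w) := by
    intro w
    rw [mem_Vl_iff]
    intro x hx
    rw [← repr_pT, Subalgebra.coe_sub, coe_pBar, coe_pT] at hx
    have h1 := (mem_Vl_iff D.T (len M) _ _).1 (D.bar_T_sub (f w)) _ hx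
    rwa [hf.len, hf.len] at h1
  obtain ⟨C, hC1, hC2⟩ := exists_C (pT hf D) (len M₁) (pBar hf D) hs hb hT
  have hC3 : ∀ x, (C x : H) = D.C (f x) := by
    intro x
    refine D.bar_unique' ?_ (D.bar_C _) ?_
    · rw [← coe_pBar, hC1]
    · have h1 : (C x : H) - D.C (f x) = ((C x - pT hf D x : pA hf D) : H) -
          (D.C (f x) - D.T (f x)) := by
        rw [Subalgebra.coe_sub, coe_pT]
        abel
      rw [h1]
      refine AddSubgroup.sub_mem _ ?_ (D.C_sub_T_neg _)
      intro w
      by_cases hw : ∃ y, w = f y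
      · obtain ⟨y, rfl⟩ := hw
        rw [repr_pT]
        exact hC2 x y
      · rw [repr_pT' hf D _ w fun y hy => hw ⟨y, hy⟩]
        exact Dle.zero _
  refine ⟨{ T := pT hf D, T_mul := ?_, T_sq := ?_, bar := pBar hf D, bar_smul := hs, bar_T := ?_,
            C := C, bar_C := hC1, C_T := ?_ }, coe_pT hf D, hC3, fun y => rfl⟩
  · intro w w' h
    refine Subtype.ext ?_
    rw [Subalgebra.coe_mul, coe_pT, coe_pT, coe_pT, map_mul]
    refine D.T_mul _ _ ?_
    rw [← map_mul, hf.len, hf.len, hf.len]
    exact h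
  · intro b
    refine Subtype.ext ?_
    rw [Subalgebra.coe_mul, coe_pT, hf.sm, D.T_sq, Subalgebra.coe_add, Subalgebra.coe_smul,
      coe_pT, hf.sm]
    rfl
  · intro w
    refine Subtype.ext ?_
    rw [Subalgebra.coe_mul, coe_pBar, coe_pT, coe_pT, map_inv]
    exact D.bar_T _
  · intro w y
    exact hC2 w y

/-- The Hecke algebra of a component. -/
noncomputable def Dp : KLD M₁ (fun x => L (f x)) (pA hf D) := (exists_par hf D).choose

theorem coe_Tp (x : M₁.Group) : ((Dp hf D).T x : H) = D.T (f x) :=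
  (exists_par hf D).choose_spec.1 x

theorem coe_Cp (x : M₁.Group) : ((Dp hf D).C x : H) = D.C (f x) :=
  (exists_par hf D).choose_spec.2.1 x

theorem coe_barp (y : pA hf D) : ((Dp hf D).bar y : H) = D.bar y :=
  (exists_par hf D).choose_spec.2.2 y

include hf in
theorem isWeight_par (hL : IsWeight M L) : IsWeight M₁ fun x => L (f x) where
  add w w' h := by
    rw [map_mul]
    refine hL.add _ _ ?_
    rw [← map_mul, hf.len, hf.len, hf.len]
    exact h
  pos b := by
    rw [hf.sm]
    exact hL.pos _

end sub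

end Pool.Agent.Helper35.KL
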