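import Pool.Agent.Helper35.KL.Free

/-!
# The Hecke algebra of a component as a subalgebra
-/

namespace Pool.Agent.Helper35.KL

theorem exists_C {W H : Type} [Ring H] [Algebra LP H] (T : Module.Basis W LP H) (l : W → ℕ)
    (bar : H →+* H) (hs : ∀ (a : LP) h, bar (a • h) = LaurentPolynomial.invert a • bar h)
    (hb : ∀ h, bar (bar h) = h) (hT : ∀ w, bar (T w) - T w ∈ Vl T l (l w)) :
    ∃ C : Module.Basis W LP H, (∀ w, bar (C w) = C w) ∧ ∀ w, C w - T w ∈ Lat T (-1) := by
  have h1 : ∀ w, ∃ k : H, bar k = k ∧ k - T w ∈ Vl T l (l w) ∧ k - T w ∈ Lat T (-1) := by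
    intro w
    obtain ⟨k, hk1, hk2, hk3⟩ := klem T bar.toAddMonoidHom Set.univ l ⊥ hs hb (by
        intro f hf
        rw [Submodule.mem_bot] at hf ⊢
        rw [hf, map_zero]) (by
        intro f hf w _
        rw [Submodule.mem_bot] at hf
        rw [hf, map_zero, Finsupp.zero_apply]) (by
        intro w _
        refine Submodule.mem_sup_left ?_
        have h1 := hT w
        simpa [Vl] using h1) w (Set.mem_univ _)
    rw [Submodule.mem_bot] at hk3
    refine ⟨k, sub_eq_zero.1 hk3, ?_, hk2⟩
    simpa [Vl] using hk1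
  choose k h2 h3 h4 using h1
  refine ⟨triB T l k h3, fun w => ?_, fun w => ?_⟩
  · rw [triB_apply]
    exact h2 w
  · rw [triB_apply]
    exact h4 w

section sub

variable {ι : Type} {B : ι → Type} {M : ∀ i, CoxeterMatrix (B i)} {L : (sumM M).Group → ℤ}
variable {H : Type} [Ring H] [Algebra LP H] (D : KLD (sumM M) L H) (i : ι)

/-- The span of the standard basis elements of the component. -/
noncomputable def sS : Submodule LP H :=
  Submodule.span LP (Set.range fun x : (M i).Group => D.T (emb M i x))

theorem T_emb_mem (x : (M i).Group) : D.T (emb M i x) ∈ sS D i := Submodule.subset_span ⟨x, rfl⟩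

theorem sS_sm (b : B i) {y : H} (hy : y ∈ sS D i) : D.T (sm (sumM M) ⟨i, b⟩) * y ∈ sS D i := by
  refine Submodule.span_induction
    (p := fun y _ => D.T (sm (sumM M) ⟨i, b⟩) * y ∈ sS D i) ?_ ?_ ?_ ?_ hy
  · rintro _ ⟨x, rfl⟩
    have h0 : sm (sumM M) ⟨i, b⟩ * emb M i x = emb M i (sm (M i) b * x) := by
      rw [map_mul, emb_sm]
    rcases len_sm_mul b x with h | h
    · simp only
      rw [D.T_sm_mul (by rw [h0, len_emb, len_emb]; exact h), h0]
      exact T_emb_mem D i _
    · simp only
      rw [D.T_sm_mul' (by rw [h0, len_emb, len_emb]; exact h), h0]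
      exact Submodule.add_mem _ (T_emb_mem D i _) (Submodule.smul_mem _ _ (T_emb_mem D i _))
  · rw [mul_zero]
    exact Submodule.zero_mem _
  · intro a b _ _ ha hb
    rw [mul_add]
    exact Submodule.add_mem _ ha hb
  · intro a b _ hb
    rw [mul_smul_comm]
    exact Submodule.smul_mem _ _ hb

theorem sS_mul {x y : H} (hx : x ∈ sS D i) (hy : y ∈ sS D i) : x * y ∈ sS D i := by
  have h1 : ∀ (x : (M i).Group) (y : H), y ∈ sS D i → D.T (emb M i x) * y ∈ sS D i := by
    intro x
    induction x using len_induction with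
    | h1 =>
      intro y hy
      rwa [map_one, D.T_one, one_mul]
    | hs b w hl ih =>
      intro y hy
      rw [map_mul, emb_sm, ← D.T_sm_mul (by
        rw [← emb_sm, ← map_mul, len_emb, len_emb]
        exact hl), mul_assoc]
      exact sS_sm D i b (ih y hy)
  refine Submodule.span_induction (p := fun x _ => x * y ∈ sS D i) ?_ ?_ ?_ ?_ hx
  · rintro _ ⟨x, rfl⟩
    exact h1 x y hy
  · rw [zero_mul]
    exact Submodule.zero_mem _
  · intro a b _ _ ha hb
    rw [add_mul]
    exact Submodule.add_mem _ ha hb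
  · intro a b _ hb
    rw [smul_mul_assoc]
    exact Submodule.smul_mem _ _ hb

theorem sS_one : (1 : H) ∈ sS D i := by
  have h := T_emb_mem D i 1
  rwa [map_one, D.T_one] at h

theorem sS_bar {x : H} (hx : x ∈ sS D i) : D.bar x ∈ sS D i := by
  have h1 : ∀ x : (M i).Group, D.bar (D.T (emb M i x)) ∈ sS D i := by
    intro x
    induction x using len_induction with
    | h1 =>
      rw [map_one, D.T_one, map_one]
      exact sS_one D i
    | hs b w hl ih =>
      rw [map_mul, emb_sm, ← D.T_sm_mul (by
        rw [← emb_sm, ← map_mul, len_emb, len_emb]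
        exact hl), map_mul, D.bar_T_sm]
      refine sS_mul D i (Submodule.sub_mem _ ?_ (Submodule.smul_mem _ _ (sS_one D i))) ih
      rw [← emb_sm]
      exact T_emb_mem D i _
  refine Submodule.span_induction (p := fun x _ => D.bar x ∈ sS D i) ?_ ?_ ?_ ?_ hx
  · rintro _ ⟨x, rfl⟩
    exact h1 x
  · rw [map_zero]
    exact Submodule.zero_mem _
  · intro a b _ _ ha hb
    rw [map_add]
    exact Submodule.add_mem _ ha hb
  · intro a b _ hb
    rw [D.bar_smul]
    exact Submodule.smul_mem _ _ hb

/-- The subalgebra of a component. -/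
noncomputable def sA : Subalgebra LP H :=
  (sS D i).toSubalgebra (sS_one D i) fun _ _ hx hy => sS_mul D i hx hy

theorem mem_sA {x : H} : x ∈ sA D i ↔ x ∈ sS D i := Iff.rfl

/-- The standard basis of the subalgebra. -/
noncomputable def sT : Module.Basis (M i).Group LP (sA D i) :=
  Module.Basis.mk (v := fun x => (⟨D.T (emb M i x), T_emb_mem D i x⟩ : sA D i)) (by
    have h1 : LinearIndependent LP fun x : (M i).Group => D.T (emb M i x) :=
      D.T.linearIndependent.comp _ (emb_inj i)
    exact LinearIndependent.of_comp (sA D i).val.toLinearMap h1) (by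
    rintro ⟨x, hx⟩ _
    have h2 : ∀ x ∈ sS D i, ∀ hx : x ∈ sA D i, (⟨x, hx⟩ : sA D i) ∈ Submodule.span LP
        (Set.range fun x => (⟨D.T (emb M i x), T_emb_mem D i x⟩ : sA D i)) := by
      intro x hx
      refine Submodule.span_induction (p := fun x _ => ∀ hx : x ∈ sA D i,
        (⟨x, hx⟩ : sA D i) ∈ Submodule.span LP
        (Set.range fun x => (⟨D.T (emb M i x), T_emb_mem D i x⟩ : sA D i))) ?_ ?_ ?_ ?_ hx
      · rintro _ ⟨x, rfl⟩ h
        exact Submodule.subset_span ⟨x, rfl⟩
      · intro h
        exact Submodule.zero_mem _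
      · intro a b ha hb iha ihb h
        exact Submodule.add_mem _ (iha ha) (ihb hb)
      · intro a b hb ihb h
        exact Submodule.smul_mem _ a (ihb hb)
    exact h2 x hx hx)

theorem coe_sT (x : (M i).Group) : (sT D i x : H) = D.T (emb M i x) := by
  rw [sT, Module.Basis.mk_apply]

theorem repr_sT (y : sA D i) (x : (M i).Group) :
    D.T.repr (y : H) (emb M i x) = (sT D i).repr y x := by
  classical
  have h3 : y ∈ Submodule.span LP (Set.range (sT D i)) := (sT D i).mem_span y
  refine Submodule.span_induction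
    (p := fun (y : sA D i) _ => D.T.repr (y : H) (emb M i x) = (sT D i).repr y x) ?_ ?_ ?_ ?_ h3
  · rintro _ ⟨z, rfl⟩
    rw [coe_sT, Module.Basis.repr_self, Module.Basis.repr_self, Finsupp.single_apply,
      Finsupp.single_apply]
    by_cases h : z = x
    · rw [if_pos h, if_pos (by rw [h])]
    · rw [if_neg h, if_neg fun h' => h (emb_inj i h')]
  · simp
  · intro a b _ _ ha hb
    rw [Subalgebra.coe_add, map_add, map_add, Finsupp.add_apply, Finsupp.add_apply, ha, hb]
  · intro a b _ hb
    rw [Subalgebra.coe_smul, map_smul, map_smul, Finsupp.smul_apply, Finsupp.smul_apply, hb]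

theorem repr_sT' (y : sA D i) (w : (sumM M).Group) (hw : ∀ x, w ≠ emb M i x) :
    D.T.repr (y : H) w = 0 := by
  classical
  have h3 : y ∈ Submodule.span LP (Set.range (sT D i)) := (sT D i).mem_span y
  refine Submodule.span_induction (p := fun (y : sA D i) _ => D.T.repr (y : H) w = 0)
    ?_ ?_ ?_ ?_ h3
  · rintro _ ⟨z, rfl⟩
    rw [coe_sT, Module.Basis.repr_self, Finsupp.single_apply, if_neg fun h => hw z h.symm]
  · simp
  · intro a b _ _ ha hb
    rw [Subalgebra.coe_add, map_add, Finsupp.add_apply, ha, hb, add_zero]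
  · intro a b _ hb
    rw [Subalgebra.coe_smul, map_smul, Finsupp.smul_apply, hb, smul_zero]

/-- The bar involution of the subalgebra. -/
noncomputable def sBar : sA D i →+* sA D i where
  toFun x := ⟨D.bar x, sS_bar D i x.2⟩
  map_one' := Subtype.ext (map_one D.bar)
  map_mul' x y := Subtype.ext (map_mul D.bar (x : H) (y : H))
  map_zero' := Subtype.ext (map_zero D.bar)
  map_add' x y := Subtype.ext (map_add D.bar (x : H) (y : H))

theorem coe_sBar (x : sA D i) : (sBar D i x : H) = D.bar x := rfl

theorem exists_sub : ∃ D' : KLD (M i) (fun x => L (emb M i x)) (sA D i),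
    (∀ x, (D'.T x : H) = D.T (emb M i x)) ∧ (∀ x, (D'.C x : H) = D.C (emb M i x)) ∧
      ∀ y, (D'.bar y : H) = D.bar y := by
  have hs : ∀ (a : LP) (h : sA D i), sBar D i (a • h) =
      LaurentPolynomial.invert a • sBar D i h := by
    intro a h
    exact Subtype.ext (D.bar_smul a h)
  have hb : ∀ h, sBar D i (sBar D i h) = h := fun h => Subtype.ext (D.bar_bar h)
  have hT : ∀ w, sBar D i (sT D i w) - sT D i w ∈ Vl (sT D i) (len (M i)) (len (M i) w) := by
    intro w
    rw [mem_Vl_iff]
    intro x hx
    rw [← repr_sT, Subalgebra.coe_sub, coe_sBar, coe_sT] at hx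
    have h1 := (mem_Vl_iff D.T (len (sumM M)) _ _).1 (D.bar_T_sub (emb M i w)) _ hx
    rwa [len_emb, len_emb] at h1
  obtain ⟨C, hC1, hC2⟩ := exists_C (sT D i) (len (M i)) (sBar D i) hs hb hT
  have hC3 : ∀ x, (C x : H) = D.C (emb M i x) := by
    intro x
    refine D.bar_unique' ?_ (D.bar_C _) ?_
    · rw [← coe_sBar, hC1]
    · have h1 : (C x : H) - D.C (emb M i x) = ((C x - sT D i x : sA D i) : H) -
          (D.C (emb M i x) - D.T (emb M i x)) := by
        rw [Subalgebra.coe_sub, coe_sT]
        abel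
      rw [h1]
      refine AddSubgroup.sub_mem _ ?_ (D.C_sub_T_neg _)
      intro w
      by_cases hw : ∃ y, w = emb M i y
      · obtain ⟨y, rfl⟩ := hw
        rw [repr_sT]
        exact hC2 x y
      · rw [repr_sT' D i _ w fun y hy => hw ⟨y, hy⟩]
        exact Dle.zero _
  refine ⟨{ T := sT D i, T_mul := ?_, T_sq := ?_, bar := sBar D i, bar_smul := hs, bar_T := ?_,
            C := C, bar_C := hC1, C_T := ?_ }, coe_sT D i, hC3, fun y => rfl⟩
  · intro w w' h
    refine Subtype.ext ?_
    rw [Subalgebra.coe_mul, coe_sT, coe_sT, coe_sT, map_mul]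
    refine D.T_mul _ _ ?_
    rw [← map_mul, len_emb, len_emb, len_emb]
    exact h
  · intro b
    refine Subtype.ext ?_
    rw [Subalgebra.coe_mul, coe_sT, emb_sm, D.T_sq, Subalgebra.coe_add, Subalgebra.coe_smul,
      coe_sT, emb_sm]
    rfl
  · intro w
    refine Subtype.ext ?_
    rw [Subalgebra.coe_mul, coe_sBar, coe_sT, coe_sT, map_inv]
    exact D.bar_T _
  · intro w y
    exact hC2 w y

/-- The Hecke algebra of a component. -/
noncomputable def Dc : KLD (M i) (fun x => L (emb M i x)) (sA D i) := (exists_sub D i).choose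

theorem coe_T (x : (M i).Group) : ((Dc D i).T x : H) = D.T (emb M i x) :=
  (exists_sub D i).choose_spec.1 x

theorem coe_C (x : (M i).Group) : ((Dc D i).C x : H) = D.C (emb M i x) :=
  (exists_sub D i).choose_spec.2.1 x

theorem coe_bar (y : sA D i) : ((Dc D i).bar y : H) = D.bar y :=
  (exists_sub D i).choose_spec.2.2 y

theorem isWeight_emb (hL : IsWeight (sumM M) L) : IsWeight (M i) fun x => L (emb M i x) where
  add w w' h := by
    rw [map_mul]
    refine hL.add _ _ ?_
    rw [← map_mul, len_emb, len_emb, len_emb]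
    exact h
  pos b := by
    rw [emb_sm]
    exact hL.pos _

end sub

end Pool.Agent.Helper35.KL
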