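import Pool.Agent.Helper35.KL.Kc

/-!
# Homomorphisms from the left ideals of a component
-/

namespace Pool.Agent.Helper35.KL

section th

variable {ι : Type} {B : ι → Type} {M : ∀ i, CoxeterMatrix (B i)} {L : (sumM M).Group → ℤ}
variable {H : Type} [Ring H] [Algebra LP H] (D : KLD (sumM M) L H)
variable (hL : IsWeight (sumM M) L) (hl : ∀ i, (Dc D i).Lus) (hb : ∀ i, (Dc D i).Bounded)

open scoped Classical in
/-- A function on a component as a function on letters. -/
noncomputable def ex (i : ι) (η : (M i).Group → H) (x : Ltr M) : H :=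
  if h : x.1 = i then η (h ▸ x.2) else 0

theorem ex_self (i : ι) (η : (M i).Group → H) (g : (M i).Group) :
    ex (M := M) i η ⟨i, g⟩ = η g := dif_pos rfl

open scoped Classical in
/-- The linear map on the component that sends `C g` to `η g` if `a g = k`. -/
noncomputable def Le (k : ℕ) (i : ι) (η : (M i).Group → H) : sA D i →ₗ[LP] H :=
  (Dc D i).C.constr LP fun g => if (Dc D i).a g = k then η g else 0

theorem Le_C (k : ℕ) (i : ι) (η : (M i).Group → H) {g : (M i).Group} (h : (Dc D i).a g = k) :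
    Le D k i η ((Dc D i).C g) = η g := by
  rw [Le, Module.Basis.constr_basis, if_pos h]

theorem Le_C_ne (k : ℕ) (i : ι) (η : (M i).Group → H) {g : (M i).Group}
    (h : (Dc D i).a g ≠ k) : Le D k i η ((Dc D i).C g) = 0 := by
  rw [Le, Module.Basis.constr_basis, if_neg h]

open scoped Classical in
/-- The linear map that sends `TT u * C g` to `TT u * η g`. -/
noncomputable def Tht (k : ℕ) (i : ι) (η : (M i).Group → H) : H →ₗ[LP] H :=
  (dB D hL hl k i).constr LP fun w =>
    if KI D k i w then kf D (ex (M := M) i η) (nf w) else 0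

theorem Tht_dd {k : ℕ} {i : ι} (η : (M i).Group → H) {u : List (Ltr M)}
    {g : (M i).Group} (hr : Red (u ++ [⟨i, g⟩])) (hu : alL D u ≤ k) (hg : (Dc D i).a g = k) :
    Tht D hL hl k i η (TT D u * D.C (emb M i g)) = TT D u * η g := by
  rw [← dd_pr D hL hl hr hu hg, ← dB_apply, Tht, Module.Basis.constr_basis,
    if_pos (KI_pr hr hu hg), nf_pr hr, kf_snoc, ex_self]

theorem Tht_I {k : ℕ} {i : ι} (η : (M i).Group → H) {x : H} (hx : x ∈ (Fk D hL hl k).I) :
    Tht D hL hl k i η x = 0 := by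
  rw [I_eq_dB D hL hl k i] at hx
  have h : Submodule.span LP (dB D hL hl k i '' {w | (Fk D hL hl k).hv w}) ≤
      LinearMap.ker (Tht D hL hl k i η) := by
    rw [Submodule.span_le]
    rintro _ ⟨w, hw, rfl⟩
    rw [SetLike.mem_coe, LinearMap.mem_ker, Tht, Module.Basis.constr_basis, if_neg]
    intro h1
    exact KI_light D hL hl h1 hw
  exact h hx

theorem Tht_comp {k : ℕ} (hk : 0 < k) {i : ι} (η : (M i).Group → H) {u : List (Ltr M)}
    (hu : Red u) (hu2 : NE i u) (hu3 : alL D u ≤ k) {g : (M i).Group}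
    (hg : (Dc D i).a g = k) (t : sA D i) :
    Tht D hL hl k i η (TT D u * ((t : H) * D.C (emb M i g))) =
      TT D u * Le D k i η (t * (Dc D i).C g) := by
  have h1 : Le D k i η (t * (Dc D i).C g) =
      ∑ c ∈ ((Dc D i).C.repr (t * (Dc D i).C g)).support,
        (Dc D i).C.repr (t * (Dc D i).C g) c • Le D k i η ((Dc D i).C c) := by
    conv_lhs => rw [← (Dc D i).C.linearCombination_repr (t * (Dc D i).C g)]
    rw [Finsupp.linearCombination_apply, Finsupp.sum, map_sum]
    exact Finset.sum_congr rfl fun c _ => map_smul _ _ _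
  rw [T_mul_C_emb, h1, Finset.mul_sum, Finset.mul_sum, map_sum]
  refine Finset.sum_congr rfl fun c hc => ?_
  rw [mul_smul_comm, mul_smul_comm, map_smul]
  congr 1
  have h2 := a_le_of_repr D hl hL (Finsupp.mem_support_iff.1 hc)
  by_cases h3 : (Dc D i).a c = k
  · rw [Le_C D k i η h3]
    refine Tht_dd D hL hl η (red_snoc.2 ⟨hu, hu2, ?_⟩) hu3 h3
    rintro rfl
    rw [a_one_c D hL] at h3
    omega
  · rw [Le_C_ne D k i η h3, mul_zero]
    exact Tht_I D hL hl η ((Fk D hL hl k).I_mulL _ (C_emb_mem D hL hl (by omega)))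

/-- The conditions on the images of the `C g`. -/
structure Adm (k : ℕ) (i : ι) (η : (M i).Group → H) : Prop where
  mul : ∀ b g, (Dc D i).a g = k →
    D.C (emb M i b) * η g - Le D k i η ((Dc D i).C b * (Dc D i).C g) ∈ (Fk D hL hl k).I
  bar : ∀ g, (Dc D i).a g = k → D.bar (η g) - η g ∈ (Fk D hL hl k).I

variable {D hL hl} in
theorem Adm.mulT {k : ℕ} {i : ι} {η : (M i).Group → H} (h : Adm D hL hl k i η)
    {g : (M i).Group} (hg : (Dc D i).a g = k) (t : sA D i) :
    (t : H) * η g - Le D k i η (t * (Dc D i).C g) ∈ (Fk D hL hl k).I := by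
  have ht : t ∈ Submodule.span LP (Set.range (Dc D i).C) := by
    rw [Module.Basis.span_eq]
    exact Submodule.mem_top
  refine Submodule.span_induction
    (p := fun (t : sA D i) _ =>
      (t : H) * η g - Le D k i η (t * (Dc D i).C g) ∈ (Fk D hL hl k).I)
    ?_ ?_ ?_ ?_ ht
  · rintro _ ⟨b, rfl⟩
    rw [coe_C]
    exact h.mul b g hg
  · rw [ZeroMemClass.coe_zero, zero_mul, zero_mul, map_zero, sub_zero]
    exact Submodule.zero_mem _
  · intro x y _ _ hx hy
    have e : ((x + y : sA D i) : H) * η g - Le D k i η ((x + y) * (Dc D i).C g) =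
        ((x : H) * η g - Le D k i η (x * (Dc D i).C g)) +
          ((y : H) * η g - Le D k i η (y * (Dc D i).C g)) := by
      rw [Subalgebra.coe_add, add_mul, add_mul, map_add]
      abel
    rw [e]
    exact Submodule.add_mem _ hx hy
  · intro a x _ hx
    have e : ((a • x : sA D i) : H) * η g - Le D k i η ((a • x : sA D i) * (Dc D i).C g) =
        a • ((x : H) * η g - Le D k i η (x * (Dc D i).C g)) := by
      rw [Subalgebra.coe_smul, smul_mul_assoc, smul_mul_assoc, map_smul, smul_sub]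
    rw [e]
    exact Submodule.smul_mem _ _ hx

variable {D hL hl} in
theorem Adm.Tht_C {k : ℕ} (hk : 0 < k) {i : ι} {η : (M i).Group → H} (h : Adm D hL hl k i η)
    {g : (M i).Group} (hg : (Dc D i).a g = k) (y : H) :
    Tht D hL hl k i η (y * D.C (emb M i g)) - y * η g ∈ (Fk D hL hl k).I := by
  have hg1 : g ≠ 1 := by
    rintro rfl
    rw [a_one_c D hL] at hg
    omega
  have h1 := (Fk D hL hl k).cc_sub y
  set y' := Finsupp.linearCombination LP D.T ((Fk D hL hl k).cc y) with hy'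
  have h2 : Tht D hL hl k i η (y * D.C (emb M i g)) =
      Tht D hL hl k i η (y' * D.C (emb M i g)) := by
    rw [← sub_eq_zero, ← map_sub, ← sub_mul]
    exact Tht_I D hL hl η ((Fk D hL hl k).I_mulR _ h1)
  have h3 : Tht D hL hl k i η (y * D.C (emb M i g)) - y * η g =
      (Tht D hL hl k i η (y' * D.C (emb M i g)) - y' * η g) - (y - y') * η g := by
    rw [h2, sub_mul]
    abel
  rw [h3]
  refine Submodule.sub_mem _ ?_ ((Fk D hL hl k).I_mulR _ h1)
  rw [hy', Finsupp.linearCombination_apply, Finsupp.sum, Finset.sum_mul, Finset.sum_mul,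
    map_sum, ← Finset.sum_sub_distrib]
  refine Submodule.sum_mem _ fun z hz => ?_
  rw [smul_mul_assoc, smul_mul_assoc, map_smul, ← smul_sub]
  refine Submodule.smul_mem _ _ ?_
  have hz' := Finsupp.mem_support_iff.1 hz
  have h4 : ¬ (Fk D hL hl k).hv z := fun h => hz' ((Fk D hL hl k).cc_hv h y)
  rw [Fk_hv] at h4
  have hr := red_nf z
  have hz2 : D.T z = TT D (nf z) := by rw [TT_red D hr, pr_nf]
  have hz3 : alL D (nf z) ≤ k := by
    have : alL D (nf z) = al D z := rfl
    omega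
  rcases snoc_or i hr with h5 | ⟨u, x, h5, h6, h7, h8⟩
  · rw [hz2, Tht_dd D hL hl η (red_snoc.2 ⟨hr, h5, hg1⟩) hz3 hg, sub_self]
    exact Submodule.zero_mem _
  · rw [h5, alL_append] at hz3
    rw [hz2, h5, TT_append, TT_cons, TT_nil, mul_one, ← coe_T D i, mul_assoc, mul_assoc,
      Tht_comp D hL hl hk η h6 h7 (by omega) hg, ← neg_sub, ← mul_sub]
    exact Submodule.neg_mem _ ((Fk D hL hl k).I_mulL _ (h.mulT hg _))

variable {D hL hl} in
theorem Adm.Tht_mul {k : ℕ} (hk : 0 < k) {i : ι} {η : (M i).Group → H} (h : Adm D hL hl k i η)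
    (y : H) {x : H} (hx : x ∈ KT D hL hl k i) :
    Tht D hL hl k i η (y * x) - y * Tht D hL hl k i η x ∈ (Fk D hL hl k).I := by
  refine KT_induction D hL hl
    (p := fun x => Tht D hL hl k i η (y * x) - y * Tht D hL hl k i η x ∈ (Fk D hL hl k).I)
    ?_ ?_ ?_ ?_ hx
  · intro u g h1 h2 h3 h4 h5
    rw [Tht_dd D hL hl η (red_snoc.2 ⟨h1, h2, h3⟩) h4 h5, ← mul_assoc, ← mul_assoc]
    exact h.Tht_C hk h5 _
  · intro x hx
    rw [Tht_I D hL hl η hx, Tht_I D hL hl η ((Fk D hL hl k).I_mulL _ hx), mul_zero, sub_zero]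
    exact Submodule.zero_mem _
  · intro a b ha hb
    rw [mul_add, map_add, map_add, mul_add, add_sub_add_comm]
    exact Submodule.add_mem _ ha hb
  · intro a b hb
    rw [mul_smul_comm, map_smul, map_smul, mul_smul_comm, ← smul_sub]
    exact Submodule.smul_mem _ _ hb

variable {D hL hl} in
theorem Adm.Tht_bar {k : ℕ} (hk : 0 < k) {i : ι} {η : (M i).Group → H} (h : Adm D hL hl k i η)
    {x : H} (hx : x ∈ KT D hL hl k i) :
    D.bar (Tht D hL hl k i η x) - Tht D hL hl k i η (D.bar x) ∈ (Fk D hL hl k).I := by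
  refine KT_induction D hL hl
    (p := fun x => D.bar (Tht D hL hl k i η x) - Tht D hL hl k i η (D.bar x) ∈
      (Fk D hL hl k).I) ?_ ?_ ?_ ?_ hx
  · intro u g h1 h2 h3 h4 h5
    rw [Tht_dd D hL hl η (red_snoc.2 ⟨h1, h2, h3⟩) h4 h5, map_mul, map_mul, D.bar_C]
    have e : D.bar (TT D u) * D.bar (η g) - Tht D hL hl k i η (D.bar (TT D u) *
        D.C (emb M i g)) = D.bar (TT D u) * (D.bar (η g) - η g) -
          (Tht D hL hl k i η (D.bar (TT D u) * D.C (emb M i g)) - D.bar (TT D u) * η g) := by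
      rw [mul_sub]
      abel
    rw [e]
    exact Submodule.sub_mem _ ((Fk D hL hl k).I_mulL _ (h.bar g h5)) (h.Tht_C hk h5 _)
  · intro x hx
    rw [Tht_I D hL hl η hx, Tht_I D hL hl η ((Fk D hL hl k).I_bar hx), map_zero, sub_zero]
    exact Submodule.zero_mem _
  · intro a b ha hb
    rw [map_add, map_add, map_add, map_add, add_sub_add_comm]
    exact Submodule.add_mem _ ha hb
  · intro a b hb
    rw [map_smul, D.bar_smul, D.bar_smul, map_smul, ← smul_sub]
    exact Submodule.smul_mem _ _ hb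

open scoped Classical in
/-- The linear map that sends `C w` to `X w`. -/
noncomputable def Xi (k : ℕ) (i : ι) (X : (sumM M).Group → H) : H →ₗ[LP] H :=
  D.C.constr LP fun w => if KI D k i w then X w else 0

theorem Xi_C {k : ℕ} {i : ι} (X : (sumM M).Group → H) {w : (sumM M).Group}
    (hw : KI D k i w) : Xi D k i X (D.C w) = X w := by
  rw [Xi, Module.Basis.constr_basis, if_pos hw]

theorem Xi_C_ne {k : ℕ} {i : ι} (X : (sumM M).Group → H) {w : (sumM M).Group}
    (hw : ¬ KI D k i w) : Xi D k i X (D.C w) = 0 := by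
  rw [Xi, Module.Basis.constr_basis, if_neg hw]

/-- The elements `X w` correspond to the Kazhdan-Lusztig elements. -/
structure Cor (k : ℕ) (i : ι) (η : (M i).Group → H) (X : (sumM M).Group → H) : Prop extends
    Adm D hL hl k i η where
  barX : ∀ w, KI D k i w → D.bar (X w) - X w ∈ (Fk D hL hl k).I
  lamX : ∀ w, KI D k i w → X w ∈ (Fk D hL hl k).Lam 0
  neg : ∀ (u : List (Ltr M)) (g : (M i).Group), Red (u ++ [⟨i, g⟩]) → alL D u ≤ k →
    (Dc D i).a g = k → TT D u * η g - X (pr (u ++ [⟨i, g⟩])) ∈ (Fk D hL hl k).Lam (-1)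

variable {D hL hl} in
include hb in
theorem Cor.Tht_eq {k : ℕ} (hk : 0 < k) {i : ι} {η : (M i).Group → H}
    {X : (sumM M).Group → H} (h : Cor D hL hl k i η X) {w : (sumM M).Group}
    (hw : KI D k i w) : Tht D hL hl k i η (D.C w) - X w ∈ (Fk D hL hl k).I := by
  refine (Fk D hL hl k).congr_of_bar ?_ (h.barX w hw) ?_
  · have h1 := h.toAdm.Tht_bar hk (C_mem_KT D hL hl hb i hk hw)
    rwa [D.bar_C] at h1
  · obtain ⟨x, h1, h2, -⟩ := C_sub_dd D hL hl hb i hk hw
    obtain ⟨u, g, e1, e2, e3, e4, e5, e6⟩ := KI_snoc hw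
    have hr : Red (u ++ [⟨i, g⟩]) := red_snoc.2 ⟨e2, e3, e4⟩
    have hw2 : w = pr (u ++ [⟨i, g⟩]) := by rw [← e1, pr_nf]
    have h3 := Tht_I D hL hl η h2
    rw [map_sub, map_add, sub_eq_zero, hw2, dd_pr D hL hl hr e5 e6,
      Tht_dd D hL hl η hr e5 e6] at h3
    have h4 : Tht D hL hl k i η x ∈ (Fk D hL hl k).Lam (-1) := by
      have h5 : Neg D k i ≤ AddSubgroup.comap (Tht D hL hl k i η).toAddMonoidHom
          ((Fk D hL hl k).Lam (-1)) := by
        rw [Neg, AddSubgroup.closure_le]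
        rintro _ ⟨a, u', g', ha, f2, f3, f4, f5, f6, rfl⟩
        have hr' : Red (u' ++ [⟨i, g'⟩]) := red_snoc.2 ⟨f2, f3, f4⟩
        change Tht D hL hl k i η (a • (TT D u' * D.C (emb M i g'))) ∈ (Fk D hL hl k).Lam (-1)
        rw [map_smul, Tht_dd D hL hl η hr' f5 f6]
        have h6 : TT D u' * η g' ∈ (Fk D hL hl k).Lam 0 := by
          have h7 := (Fk D hL hl k).Lam_mono (show (-1 : ℤ) ≤ 0 by norm_num)
            (h.neg u' g' hr' f5 f6)
          have h8 := AddSubgroup.add_mem _ h7 (h.lamX _ (KI_pr hr' f5 f6))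
          rwa [sub_add_cancel] at h8
        have h9 := (Fk D hL hl k).smul_Lam ha h6
        rwa [add_zero] at h9
      exact h5 h1
    rw [hw2, h3]
    have h5 : TT D u * η g + Tht D hL hl k i η x - X (pr (u ++ [⟨i, g⟩])) =
        (TT D u * η g - X (pr (u ++ [⟨i, g⟩]))) + Tht D hL hl k i η x := by abel
    rw [h5]
    exact AddSubgroup.add_mem _ (h.neg u g hr e5 e6) h4

theorem Xi_I {k : ℕ} {i : ι} (X : (sumM M).Group → H) {x : H}
    (hx : x ∈ Submodule.span LP (D.C '' {w | k < al D w})) : Xi D k i X x = 0 := by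
  have h : Submodule.span LP (D.C '' {w | k < al D w}) ≤ LinearMap.ker (Xi D k i X) := by
    rw [Submodule.span_le]
    rintro _ ⟨w, hw, rfl⟩
    rw [SetLike.mem_coe, LinearMap.mem_ker, Xi_C_ne]
    intro h1
    have h2 := h1.1
    have h3 : k < al D w := hw
    omega
  exact h hx

include hb in
theorem I_eq_al (k : ℕ) : (Fk D hL hl k).I = Submodule.span LP (D.C '' {w | k < al D w}) := by
  rw [(Fk D hL hl k).I_eq_C (FF_h0 D hL hl hb _) (FF_h1 D hL hl hb _)]
  congr 2
  ext w
  exact Fk_hv D hL hl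

variable {D hL hl} in
include hb in
theorem Cor.Tht_Xi {k : ℕ} (hk : 0 < k) {i : ι} {η : (M i).Group → H}
    {X : (sumM M).Group → H} (h : Cor D hL hl k i η X) {x : H}
    (hx : x ∈ KT D hL hl k i) : Tht D hL hl k i η x - Xi D k i X x ∈ (Fk D hL hl k).I := by
  have h1 := KT_le D hL hl hb i hk hx
  obtain ⟨y, hy, z, hz, rfl⟩ := Submodule.mem_sup.1 h1
  have h2 := Tht_I D hL hl η hz
  have hz' := hz
  rw [I_eq_al D hL hl hb] at hz'
  rw [map_add, map_add, h2, Xi_I D X hz', add_zero, add_zero]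
  refine Submodule.span_induction (p := fun y _ => Tht D hL hl k i η y - Xi D k i X y ∈
    (Fk D hL hl k).I) ?_ ?_ ?_ ?_ hy
  · rintro _ ⟨w, hw, rfl⟩
    have hw' : KI D k i w := hw
    rw [Xi_C D X hw']
    exact h.Tht_eq hb hk hw'
  · rw [map_zero, map_zero, sub_zero]
    exact Submodule.zero_mem _
  · intro a b _ _ ha hb
    rw [map_add, map_add, add_sub_add_comm]
    exact Submodule.add_mem _ ha hb
  · intro a b _ hb
    rw [map_smul, map_smul, ← smul_sub]
    exact Submodule.smul_mem _ _ hb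

variable {D hL hl} in
include hb in
/-- The structure constants of the left ideal act on the elements `X w`. -/
theorem Cor.mul_X {k : ℕ} (hk : 0 < k) {i : ι} {η : (M i).Group → H}
    {X : (sumM M).Group → H} (h : Cor D hL hl k i η X) {w : (sumM M).Group}
    (hw : KI D k i w) (y : H) : y * X w - Xi D k i X (y * D.C w) ∈ (Fk D hL hl k).I := by
  have h1 := C_mem_KT D hL hl hb i hk hw
  have h2 := h.Tht_Xi hb hk (KT_mulL D hL hl hk y h1)
  have h3 := h.toAdm.Tht_mul hk y h1
  have h4 := (Fk D hL hl k).I_mulL y (h.Tht_eq hb hk hw)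
  have e : y * X w - Xi D k i X (y * D.C w) =
      (Tht D hL hl k i η (y * D.C w) - Xi D k i X (y * D.C w)) -
      (Tht D hL hl k i η (y * D.C w) - y * Tht D hL hl k i η (D.C w)) -
      y * (Tht D hL hl k i η (D.C w) - X w) := by
    rw [mul_sub]
    abel
  rw [e]
  exact Submodule.sub_mem _ (Submodule.sub_mem _ h2 h3) h4

end th

end Pool.Agent.Helper35.KL
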