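import Pool.Agent.Helper35.KL.Laurent

/-!
# Unitriangular changes of bases and lattices
-/

namespace Pool.Agent.Helper35.KL

section tri

variable {W H : Type} [AddCommGroup H] [Module LP H]

/-- The span of the basis vectors of level less than `n`. -/
noncomputable def Vl (b : W → H) (l : W → ℕ) (n : ℕ) : Submodule LP H :=
  Submodule.span LP (b '' {w | l w < n})

theorem Vl_mono (b : W → H) (l : W → ℕ) {m n : ℕ} (h : m ≤ n) : Vl b l m ≤ Vl b l n :=
  Submodule.span_mono (Set.image_mono fun _ hw => lt_of_lt_of_le hw h)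

theorem mem_Vl (b : W → H) (l : W → ℕ) {w : W} {n : ℕ} (h : l w < n) : b w ∈ Vl b l n :=
  Submodule.subset_span ⟨w, h, rfl⟩

theorem mem_Vl_iff (b : Module.Basis W LP H) (l : W → ℕ) (n : ℕ) (h : H) :
    h ∈ Vl b l n ↔ ∀ w, b.repr h w ≠ 0 → l w < n := by
  rw [Vl, Module.Basis.mem_span_image]
  constructor
  · intro h1 w hw
    exact h1 (Finsupp.mem_support_iff.2 hw)
  · intro h1 w hw
    exact h1 w (Finsupp.mem_support_iff.1 hw)

variable (T : Module.Basis W LP H) (l : W → ℕ) (d : W → H)

theorem tri_span (hd : ∀ w, d w - T w ∈ Vl T l (l w)) (w : W) : T w ∈ Submodule.span LP (Set.range d) := by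
  suffices h : ∀ n w, l w < n → T w ∈ Submodule.span LP (Set.range d) from h _ w (Nat.lt_succ_self _)
  intro n
  induction n with
  | zero => intro w hw; omega
  | succ n ih =>
    intro w hw
    have h1 : Vl T l (l w) ≤ Submodule.span LP (Set.range d) := by
      rw [Vl, Submodule.span_le]
      rintro _ ⟨y, hy, rfl⟩
      exact ih y (by
        have : l y < l w := hy
        omega)
    have h2 := h1 (hd w)
    have h3 : T w = d w - (d w - T w) := by abel
    rw [h3]
    exact Submodule.sub_mem _ (Submodule.subset_span ⟨w, rfl⟩) h2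

theorem tri_li (hd : ∀ w, d w - T w ∈ Vl T l (l w)) : LinearIndependent LP d := by
  classical
  rw [linearIndependent_iff]
  intro c hc
  by_contra hne
  have hs : c.support.Nonempty := Finsupp.support_nonempty_iff.2 hne
  obtain ⟨w, hw, hmax⟩ := Finset.exists_max_image c.support l hs
  have h1 : T.repr (Finsupp.linearCombination LP d c) w = c w := by
    rw [Finsupp.linearCombination_apply, Finsupp.sum, map_sum, Finsupp.finsetSum_apply]
    have h2 : ∀ y ∈ c.support, T.repr (c y • d y) w = if y = w then c w else 0 := by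
      intro y hy
      have h3 : d y = T y + (d y - T y) := by abel
      rw [h3, smul_add, map_add, Finsupp.add_apply, map_smul, map_smul, Finsupp.smul_apply,
        Finsupp.smul_apply, Module.Basis.repr_self]
      have h4 : T.repr (d y - T y) w = 0 := by
        by_contra h5
        have h6 := (mem_Vl_iff T l (l y) _).1 (hd y) w h5
        have h7 := hmax y hy
        omega
      rw [h4, smul_zero, add_zero]
      by_cases hyw : y = w
      · subst hyw
        simp
      · rw [Finsupp.single_eq_of_ne (Ne.symm hyw), smul_zero, if_neg hyw]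
    rw [Finset.sum_congr rfl h2, Finset.sum_ite_eq' c.support w, if_pos hw]
  rw [hc, map_zero] at h1
  exact (Finsupp.mem_support_iff.1 hw) h1.symm

/-- The basis given by a unitriangular family. -/
noncomputable def triB (hd : ∀ w, d w - T w ∈ Vl T l (l w)) : Module.Basis W LP H :=
  Module.Basis.mk (tri_li T l d hd) (by
    intro h _
    have h1 := T.mem_span h
    have h2 : Submodule.span LP (Set.range T) ≤ Submodule.span LP (Set.range d) := by
      rw [Submodule.span_le]
      rintro _ ⟨w, rfl⟩
      exact tri_span T l d hd w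
    exact h2 h1)

theorem triB_apply (hd : ∀ w, d w - T w ∈ Vl T l (l w)) (w : W) : triB T l d hd w = d w :=
  Module.Basis.mk_apply _ _ _

theorem triB_inv (hd : ∀ w, d w - T w ∈ Vl T l (l w)) (w : W) :
    T w - d w ∈ Vl d l (l w) := by
  suffices h : ∀ n w, l w < n → T w - d w ∈ Vl d l (l w) from h _ w (Nat.lt_succ_self _)
  intro n
  induction n with
  | zero => intro w hw; omega
  | succ n ih =>
    intro w hw
    have h1 : Vl T l (l w) ≤ Vl d l (l w) := by
      rw [Vl, Submodule.span_le]
      rintro _ ⟨y, hy, rfl⟩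
      have hy' : l y < l w := hy
      have h3 : T y = d y + (T y - d y) := by abel
      rw [h3]
      exact Submodule.add_mem _ (mem_Vl d l hy') (Vl_mono d l hy'.le (ih y (by omega)))
    have h2 := h1 (hd w)
    have h3 : T w - d w = -(d w - T w) := by abel
    rw [h3]
    exact Submodule.neg_mem _ h2

theorem Vl_le (hd : ∀ w, d w - T w ∈ Vl T l (l w)) (n : ℕ) : Vl T l n ≤ Vl d l n := by
  rw [Vl, Submodule.span_le]
  rintro _ ⟨y, hy, rfl⟩
  have hy' : l y < n := hy
  have h3 : T y = d y + (T y - d y) := by abel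
  rw [h3]
  exact Submodule.add_mem _ (mem_Vl d l hy') (Vl_mono d l hy'.le (triB_inv T l d hd y))

theorem Vl_ge (hd : ∀ w, d w - T w ∈ Vl T l (l w)) (n : ℕ) : Vl d l n ≤ Vl T l n := by
  rw [Vl, Submodule.span_le]
  rintro _ ⟨y, hy, rfl⟩
  have hy' : l y < n := hy
  have h3 : d y = T y + (d y - T y) := by abel
  rw [h3]
  exact Submodule.add_mem _ (mem_Vl T l hy') (Vl_mono T l hy'.le (hd y))

theorem Vl_eq (hd : ∀ w, d w - T w ∈ Vl T l (l w)) (n : ℕ) : Vl d l n = Vl T l n :=
  le_antisymm (Vl_ge T l d hd n) (Vl_le T l d hd n)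

/-- The lattice of the vectors with coordinates of degree at most `n`. -/
noncomputable def Lat (n : ℤ) : AddSubgroup H where
  carrier := {h | ∀ w, Dle n (T.repr h w)}
  add_mem' := by
    intro x y hx hy w
    rw [map_add, Finsupp.add_apply]
    exact (hx w).add (hy w)
  zero_mem' := by
    intro w
    rw [map_zero]
    exact Dle.zero n
  neg_mem' := by
    intro x hx w
    rw [map_neg, Finsupp.neg_apply]
    exact (hx w).neg

theorem mem_Lat {n : ℤ} {h : H} : h ∈ Lat T n ↔ ∀ w, Dle n (T.repr h w) := Iff.rfl

theorem Lat_mono {m n : ℤ} (hmn : m ≤ n) : Lat T m ≤ Lat T n :=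
  fun _ hx w => (hx w).mono hmn

theorem smul_Lat {m n : ℤ} {a : LP} {h : H} (ha : Dle m a) (hh : h ∈ Lat T n) :
    a • h ∈ Lat T (m + n) := by
  intro w
  rw [map_smul, Finsupp.smul_apply, smul_eq_mul]
  exact ha.mul (hh w)

theorem smul_Lat_lead {m n : ℤ} {a : LP} {h : H} (ha : Dle m a) (hh : h ∈ Lat T n) (w : W) :
    (T.repr (a • h) w).coeff (m + n) = a.coeff m * (T.repr h w).coeff n := by
  rw [map_smul, Finsupp.smul_apply, smul_eq_mul]
  exact cf_mul_lead ha (hh w)

theorem basis_mem_Lat (w : W) : T w ∈ Lat T 0 := by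
  classical
  intro y
  rw [Module.Basis.repr_self, Finsupp.single_apply]
  split_ifs
  · exact Dle.one le_rfl
  · exact Dle.zero 0

/-- Comparison of the lattices of two bases. -/
theorem lat_cmp (T' : Module.Basis W LP H) (hc : ∀ w, T w - T' w ∈ Lat T' (-1)) {n : ℤ} {h : H}
    (hh : h ∈ Lat T n) : h ∈ Lat T' n ∧ ∀ w, (T'.repr h w).coeff n = (T.repr h w).coeff n := by
  classical
  have h1 : h = ∑ y ∈ (T.repr h).support, T.repr h y • T' y +
      ∑ y ∈ (T.repr h).support, T.repr h y • (T y - T' y) := by
    rw [← Finset.sum_add_distrib]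
    conv_lhs => rw [← T.linearCombination_repr h]
    rw [Finsupp.linearCombination_apply, Finsupp.sum]
    refine Finset.sum_congr rfl fun y _ => ?_
    rw [← smul_add]
    congr 1
    abel
  have h2 : ∑ y ∈ (T.repr h).support, T.repr h y • (T y - T' y) ∈ Lat T' (n - 1) := by
    refine AddSubgroup.sum_mem _ fun y _ => ?_
    have := smul_Lat T' (hh y) (hc y)
    rwa [← sub_eq_add_neg] at this
  have h3 : T'.repr (∑ y ∈ (T.repr h).support, T.repr h y • T' y) = T.repr h := by
    rw [map_sum]
    have : ∀ y ∈ (T.repr h).support, T'.repr (T.repr h y • T' y) =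
        Finsupp.single y (T.repr h y) := by
      intro y _
      rw [map_smul, Module.Basis.repr_self, Finsupp.smul_single, smul_eq_mul, mul_one]
    rw [Finset.sum_congr rfl this]
    exact Finsupp.sum_single _
  have h4 : ∀ w, T'.repr h w = T.repr h w +
      T'.repr (∑ y ∈ (T.repr h).support, T.repr h y • (T y - T' y)) w := by
    intro w
    conv_lhs => rw [h1]
    rw [map_add, Finsupp.add_apply, h3]
  refine ⟨fun w => ?_, fun w => ?_⟩
  · rw [h4]
    exact (hh w).add ((h2 w).mono (by omega))
  · rw [h4, cf_add, (h2 w) n (by omega), add_zero]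

/-- The inverse of a unitriangular change of bases with negative coefficients has negative
coefficients. -/
theorem tri_neg (hd : ∀ w, d w - T w ∈ Vl T l (l w)) (hn : ∀ w, d w - T w ∈ Lat T (-1)) (w : W) :
    T w - d w ∈ Lat (triB T l d hd) (-1) := by
  classical
  suffices h : ∀ n w, l w < n → T w - d w ∈ Lat (triB T l d hd) (-1) from
    h _ w (Nat.lt_succ_self _)
  intro n
  induction n with
  | zero => intro w hw; omega
  | succ n ih =>
    intro w hw
    have h3 : T w - d w = -(d w - T w) := by abel
    rw [h3]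
    refine AddSubgroup.neg_mem _ ?_
    rw [← T.linearCombination_repr (d w - T w), Finsupp.linearCombination_apply, Finsupp.sum]
    refine AddSubgroup.sum_mem _ fun y hy => ?_
    have h4 := (mem_Vl_iff T l (l w) _).1 (hd w) y (Finsupp.mem_support_iff.1 hy)
    have h5 : T y ∈ Lat (triB T l d hd) 0 := by
      have h6 : T y = d y + (T y - d y) := by abel
      rw [h6]
      refine AddSubgroup.add_mem _ ?_ (Lat_mono _ (by norm_num) (ih y (by omega)))
      rw [← triB_apply T l d hd y]
      exact basis_mem_Lat _ y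
    have := smul_Lat (triB T l d hd) (hn w y) h5
    simpa using this

end tri

end Pool.Agent.Helper35.KL
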