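import Pool.Agent.Helper35.KL.Sub
import Pool.Agent.Helper35.KL.Formal

/-!
# Uniqueness of the Hecke algebra and transfer of the core properties
-/

namespace Pool.Agent.Helper35.KL

section grp

variable {B B' : Type} {M : CoxeterMatrix B} {M' : CoxeterMatrix B'}

theorem len_map_le (f : M.Group →* M'.Group) (j : B → B') (hf : ∀ b, f (sm M b) = sm M' (j b))
    (w : M.Group) : len M' (f w) ≤ len M w := by
  induction w using len_induction with
  | h1 => rw [map_one, len_one, len_one]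
  | hs b w hl ih =>
    rw [hl, map_mul, hf]
    rcases len_sm_mul (M := M') (j b) (f w) with h | h <;> omega

theorem len_equiv (φ : M.Group ≃* M'.Group) (e : B ≃ B')
    (hφ : ∀ b, φ (sm M b) = sm M' (e b)) (w : M.Group) : len M' (φ w) = len M w := by
  refine le_antisymm (len_map_le φ.toMonoidHom e hφ w) ?_
  have h := len_map_le φ.symm.toMonoidHom e.symm (fun b => by
    change φ.symm (sm M' b) = sm M (e.symm b)
    rw [MulEquiv.symm_apply_eq, hφ, Equiv.apply_symm_apply]) (φ w)
  change len M (φ.symm (φ w)) ≤ len M' (φ w) at h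
  rwa [MulEquiv.symm_apply_apply] at h

end grp

namespace KLD

section uq

variable {B B' : Type} {M : CoxeterMatrix B} {M' : CoxeterMatrix B'} {L : M.Group → ℤ}
variable {L' : M'.Group → ℤ} {H H' : Type} [Ring H] [Algebra LP H] [Ring H'] [Algebra LP H']
variable (D : KLD M L H) (D' : KLD M' L' H') (φ : M.Group ≃* M'.Group) (e : B ≃ B')
variable (hφ : ∀ b, φ (sm M b) = sm M' (e b)) (hLL : ∀ w, L w = L' (φ w))

/-- The isomorphism of the Hecke algebras. -/
noncomputable def iso : H ≃ₗ[LP] H' := D.T.equiv D'.T φ.toEquiv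

theorem iso_T (w : M.Group) : D.iso D' φ (D.T w) = D'.T (φ w) := Module.Basis.equiv_apply _ _ _ _

theorem iso_one : D.iso D' φ 1 = 1 := by
  rw [← D.T_one, iso_T, map_one, D'.T_one]

include hφ hLL in
theorem iso_sm_mul (b : B) (x : H) : D.iso D' φ (D.T (sm M b) * x) =
    D'.T (sm M' (e b)) * D.iso D' φ x := by
  have h3 : x ∈ Submodule.span LP (Set.range D.T) := D.T.mem_span x
  refine Submodule.span_induction (p := fun x _ => D.iso D' φ (D.T (sm M b) * x) =
    D'.T (sm M' (e b)) * D.iso D' φ x) ?_ ?_ ?_ ?_ h3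
  · rintro _ ⟨w, rfl⟩
    have hxi : xi (L := L) b = xi (L := L') (e b) := by
      rw [xi, xi, hLL, hφ]
    rcases len_sm_mul b w with h | h
    · have h' : len M' (sm M' (e b) * φ w) = len M' (φ w) + 1 := by
        rw [← hφ, ← map_mul, len_equiv φ e hφ, len_equiv φ e hφ, h]
      rw [D.T_sm_mul h, iso_T, iso_T, D'.T_sm_mul h', map_mul, hφ]
    · have h' : len M' (sm M' (e b) * φ w) + 1 = len M' (φ w) := by
        rw [← hφ, ← map_mul, len_equiv φ e hφ, len_equiv φ e hφ, h]
      rw [D.T_sm_mul' h, map_add, map_smul, iso_T, iso_T, D'.T_sm_mul' h', map_mul, hφ, hxi]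
  · rw [mul_zero, map_zero, mul_zero]
  · intro a b _ _ ha hb
    rw [mul_add, map_add, map_add, mul_add, ha, hb]
  · intro a b _ hb
    rw [mul_smul_comm, map_smul, map_smul, mul_smul_comm, hb]

include hφ hLL in
theorem iso_mul (x y : H) : D.iso D' φ (x * y) = D.iso D' φ x * D.iso D' φ y := by
  have h1 : ∀ w y, D.iso D' φ (D.T w * y) = D'.T (φ w) * D.iso D' φ y := by
    intro w
    induction w using len_induction with
    | h1 =>
      intro y
      rw [D.T_one, one_mul, map_one, D'.T_one, one_mul]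
    | hs b w hl ih =>
      intro y
      have h' : len M' (sm M' (e b) * φ w) = len M' (φ w) + 1 := by
        rw [← hφ, ← map_mul, len_equiv φ e hφ, len_equiv φ e hφ, hl]
      rw [← D.T_sm_mul hl, mul_assoc, iso_sm_mul D D' φ e hφ hLL, ih, map_mul, hφ,
        ← D'.T_sm_mul h', mul_assoc]
  have h3 : x ∈ Submodule.span LP (Set.range D.T) := D.T.mem_span x
  refine Submodule.span_induction (p := fun x _ => D.iso D' φ (x * y) =
    D.iso D' φ x * D.iso D' φ y) ?_ ?_ ?_ ?_ h3
  · rintro _ ⟨w, rfl⟩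
    rw [h1, iso_T]
  · rw [zero_mul, map_zero, zero_mul]
  · intro a b _ _ ha hb
    rw [add_mul, map_add, map_add, add_mul, ha, hb]
  · intro a b _ hb
    rw [smul_mul_assoc, map_smul, map_smul, smul_mul_assoc, hb]

include hφ hLL in
theorem iso_bar (x : H) : D.iso D' φ (D.bar x) = D'.bar (D.iso D' φ x) := by
  have h1 : ∀ w, D.iso D' φ (D.bar (D.T w)) = D'.bar (D'.T (φ w)) := by
    intro w
    induction w using len_induction with
    | h1 => rw [D.T_one, map_one, iso_one, map_one, D'.T_one, map_one]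
    | hs b w hl ih =>
      have hxi : xi (L := L) b = xi (L := L') (e b) := by
        rw [xi, xi, hLL, hφ]
      have h' : len M' (sm M' (e b) * φ w) = len M' (φ w) + 1 := by
        rw [← hφ, ← map_mul, len_equiv φ e hφ, len_equiv φ e hφ, hl]
      rw [← D.T_sm_mul hl, map_mul, iso_mul D D' φ e hφ hLL, ih, map_mul, hφ,
        ← D'.T_sm_mul h', map_mul, D.bar_T_sm, D'.bar_T_sm, map_sub, map_smul, iso_one, iso_T,
        hφ, hxi]
  have h3 : x ∈ Submodule.span LP (Set.range D.T) := D.T.mem_span x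
  refine Submodule.span_induction (p := fun x _ => D.iso D' φ (D.bar x) =
    D'.bar (D.iso D' φ x)) ?_ ?_ ?_ ?_ h3
  · rintro _ ⟨w, rfl⟩
    rw [h1, iso_T]
  · simp only [map_zero]
  · intro a b _ _ ha hb
    simp only [map_add]
    rw [ha, hb]
  · intro a b _ hb
    rw [D.bar_smul, map_smul, map_smul, D'.bar_smul, hb]

theorem repr_iso (x : H) (w : M.Group) :
    D'.T.repr (D.iso D' φ x) (φ w) = D.T.repr x w := by
  classical
  have h3 : x ∈ Submodule.span LP (Set.range D.T) := D.T.mem_span x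
  refine Submodule.span_induction (p := fun x _ => D'.T.repr (D.iso D' φ x) (φ w) =
    D.T.repr x w) ?_ ?_ ?_ ?_ h3
  · rintro _ ⟨y, rfl⟩
    rw [iso_T, Module.Basis.repr_self, Module.Basis.repr_self, Finsupp.single_apply,
      Finsupp.single_apply]
    by_cases h : y = w
    · rw [if_pos h, if_pos (by rw [h])]
    · rw [if_neg h, if_neg fun h' => h (φ.injective h')]
  · simp
  · intro a b _ _ ha hb
    rw [map_add, map_add, map_add, Finsupp.add_apply, Finsupp.add_apply, ha, hb]
  · intro a b _ hb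
    rw [map_smul, map_smul, map_smul, Finsupp.smul_apply, Finsupp.smul_apply, hb]

include hφ hLL in
theorem iso_C (w : M.Group) : D.iso D' φ (D.C w) = D'.C (φ w) := by
  refine D'.bar_unique' ?_ (D'.bar_C _) ?_
  · rw [← iso_bar D D' φ e hφ hLL, D.bar_C]
  · have h1 : D.iso D' φ (D.C w) - D'.C (φ w) = D.iso D' φ (D.C w - D.T w) -
        (D'.C (φ w) - D'.T (φ w)) := by
      rw [map_sub, iso_T]
      abel
    rw [h1]
    refine AddSubgroup.sub_mem _ ?_ (D'.C_sub_T_neg _)
    intro y
    obtain ⟨y, rfl⟩ := φ.surjective y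
    rw [repr_iso]
    exact D.C_sub_T_neg w y

include hφ hLL in
theorem repr_iso_C (x : H) (w : M.Group) :
    D'.C.repr (D.iso D' φ x) (φ w) = D.C.repr x w := by
  classical
  have h3 : x ∈ Submodule.span LP (Set.range D.C) := D.C.mem_span x
  refine Submodule.span_induction (p := fun x _ => D'.C.repr (D.iso D' φ x) (φ w) =
    D.C.repr x w) ?_ ?_ ?_ ?_ h3
  · rintro _ ⟨y, rfl⟩
    rw [iso_C D D' φ e hφ hLL, Module.Basis.repr_self, Module.Basis.repr_self,
      Finsupp.single_apply, Finsupp.single_apply]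
    by_cases h : y = w
    · rw [if_pos h, if_pos (by rw [h])]
    · rw [if_neg h, if_neg fun h' => h (φ.injective h')]
  · simp
  · intro a b _ _ ha hb
    rw [map_add, map_add, map_add, Finsupp.add_apply, Finsupp.add_apply, ha, hb]
  · intro a b _ hb
    rw [map_smul, map_smul, map_smul, Finsupp.smul_apply, Finsupp.smul_apply, hb]

include hφ hLL in
theorem h_iso (x y z : M.Group) : D'.h (φ x) (φ y) (φ z) = D.h x y z := by
  rw [h, h, ← iso_C D D' φ e hφ hLL, ← iso_C D D' φ e hφ hLL, ← iso_mul D D' φ e hφ hLL,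
    repr_iso_C D D' φ e hφ hLL]

include hφ hLL in
theorem p_iso (x y : M.Group) : D'.p (φ x) (φ y) = D.p x y := by
  rw [p, p, ← iso_C D D' φ e hφ hLL, repr_iso]

end uq

section transfer

variable {B B' : Type} {M : CoxeterMatrix B} {M' : CoxeterMatrix B'} {L : M.Group → ℤ}
variable {L' : M'.Group → ℤ} {H H' : Type} [Ring H] [Algebra LP H] [Ring H'] [Algebra LP H']
variable (D : KLD M L H) (D' : KLD M' L' H') (φ : M.Group ≃* M'.Group) (e : B ≃ B')
variable (hφ : ∀ b, φ (sm M b) = sm M' (e b))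
variable (hh : ∀ x y z, D'.h (φ x) (φ y) (φ z) = D.h x y z)
variable (hp : ∀ x y, D'.p (φ x) (φ y) = D.p x y)

include hh in
theorem a_transfer (w : M.Group) : D'.a (φ w) = D.a w := by
  rw [a, a]
  congr 1
  ext n
  constructor
  · rintro ⟨x, y, h⟩
    obtain ⟨x, rfl⟩ := φ.surjective x
    obtain ⟨y, rfl⟩ := φ.surjective y
    rw [hh] at h
    exact ⟨x, y, h⟩
  · rintro ⟨x, y, h⟩
    exact ⟨φ x, φ y, by rwa [hh]⟩

include hh in
theorem g_transfer (x y z : M.Group) : D'.g (φ x) (φ y) (φ z) = D.g x y z := by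
  rw [g, g, ← map_inv, hh, a_transfer D D' φ hh]

include hh hp in
theorem nn_transfer (z : M.Group) : D'.nn (φ z) = D.nn z := by
  have h1 := hp 1 z
  rw [map_one] at h1
  rw [nn, nn, h1, a_transfer D D' φ hh]

include hφ hh in
theorem leLR_transfer {y w : M.Group} (h : D'.leLR (φ y) (φ w)) : D.leLR y w := by
  have key : ∀ y' w', D'.leLR y' w' → D.leLR (φ.symm y') (φ.symm w') := by
    intro y' w' h
    refine Relation.ReflTransGen.lift φ.symm ?_ _ _ h
    intro a b hab
    obtain ⟨a, rfl⟩ := φ.surjective a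
    obtain ⟨b, rfl⟩ := φ.surjective b
    change D.stL (φ.symm (φ a)) (φ.symm (φ b)) ∨ D.stR (φ.symm (φ a)) (φ.symm (φ b))
    rw [MulEquiv.symm_apply_apply, MulEquiv.symm_apply_apply]
    rcases hab with ⟨s, hs⟩ | ⟨s, hs⟩
    · left
      refine ⟨e.symm s, ?_⟩
      have h1 := hh (sm M (e.symm s)) b a
      rw [hφ, Equiv.apply_symm_apply] at h1
      change D.h (sm M (e.symm s)) b a ≠ 0
      rw [← h1]
      exact hs
    · right
      refine ⟨e.symm s, ?_⟩
      have h1 := hh b (sm M (e.symm s)) a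
      rw [hφ, Equiv.apply_symm_apply] at h1
      change D.h b (sm M (e.symm s)) a ≠ 0
      rw [← h1]
      exact hs
  have h1 := key _ _ h
  rwa [MulEquiv.symm_apply_apply, MulEquiv.symm_apply_apply] at h1

include hφ in
theorem par_transfer (I : Set B') (w : M.Group) :
    φ w ∈ par M' I ↔ w ∈ par M (e ⁻¹' I) := by
  have h1 : (par M (e ⁻¹' I)).map φ.toMonoidHom = par M' I := by
    rw [par, MonoidHom.map_closure, par]
    congr 1
    ext x
    constructor
    · rintro ⟨_, ⟨b, hb, rfl⟩, rfl⟩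
      exact ⟨e b, hb, (hφ b).symm⟩
    · rintro ⟨b, hb, rfl⟩
      refine ⟨sm M (e.symm b), ⟨e.symm b, by simpa using hb, rfl⟩, ?_⟩
      change φ (sm M (e.symm b)) = _
      rw [hφ, Equiv.apply_symm_apply]
  rw [← h1]
  constructor
  · rintro ⟨x, hx, hxw⟩
    have : x = w := φ.injective hxw
    rwa [← this]
  · intro h
    exact ⟨w, h, rfl⟩

include hφ hh in
theorem aPar_transfer (I : Set B') (w : M.Group) : D'.aPar I (φ w) = D.aPar (e ⁻¹' I) w := by
  rw [aPar, aPar]
  congr 1
  ext n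
  constructor
  · rintro ⟨x, hx, y, hy, h⟩
    obtain ⟨x, rfl⟩ := φ.surjective x
    obtain ⟨y, rfl⟩ := φ.surjective y
    rw [hh] at h
    exact ⟨x, (par_transfer φ e hφ I x).1 hx, y, (par_transfer φ e hφ I y).1 hy, h⟩
  · rintro ⟨x, hx, y, hy, h⟩
    exact ⟨φ x, (par_transfer φ e hφ I x).2 hx, φ y, (par_transfer φ e hφ I y).2 hy, by rwa [hh]⟩

theorem Lk_sum (k : ℕ) (m : ℤ) (w : M.Group) (t : D.JJ) (z : M.Group) :
    D.Lk k m w t z = ∑ c ∈ t.support, t c * D.tk k m (D.C w * D.C c) z := by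
  classical
  conv_lhs => rw [Core.sum_single' t]
  rw [map_sum, Finsupp.finsetSum_apply]
  refine Finset.sum_congr rfl fun c _ => ?_
  rw [map_smul, Finsupp.smul_apply, Lk_single, smul_eq_mul]

theorem bul_sum (k : ℕ) (t : D.JJ) (y z : M.Group) :
    D.bul k t (Finsupp.single y 1) z = ∑ c ∈ t.support, t c * D.tk k k (D.C c * D.C y) z := by
  classical
  conv_lhs => rw [Core.sum_single' t]
  rw [map_sum, LinearMap.sum_apply, Finsupp.finsetSum_apply]
  refine Finset.sum_congr rfl fun c _ => ?_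
  rw [map_smul, LinearMap.smul_apply, Finsupp.smul_apply, bul_single, smul_eq_mul]

include hh in
theorem tk_transfer (k : ℕ) (m : ℤ) (x y z : M.Group) :
    D'.tk k m (D'.C (φ x) * D'.C (φ y)) (φ z) = D.tk k m (D.C x * D.C y) z := by
  have h1 := hh x y z
  rw [h, h] at h1
  rw [tk_apply, tk_apply, h1, a_transfer D D' φ hh]

include hh in
theorem sum_transfer (k : ℕ) (m : ℤ) (x y : M.Group) (f' : M'.Group → ℤ) (f : M.Group → ℤ)
    (hf : ∀ z, f' (φ z) = f z) :
    ∑ c ∈ (D'.tk k m (D'.C (φ x) * D'.C (φ y))).support,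
      D'.tk k m (D'.C (φ x) * D'.C (φ y)) c * f' c =
    ∑ c ∈ (D.tk k m (D.C x * D.C y)).support, D.tk k m (D.C x * D.C y) c * f c := by
  symm
  refine Finset.sum_bij (fun c _ => φ c) ?_ ?_ ?_ ?_
  · intro c hc
    rw [Finsupp.mem_support_iff] at hc ⊢
    rwa [tk_transfer D D' φ hh]
  · intro c _ c' _ h
    exact φ.injective h
  · intro c hc
    obtain ⟨c, rfl⟩ := φ.surjective c
    refine ⟨c, ?_, rfl⟩
    rw [Finsupp.mem_support_iff] at hc ⊢
    rwa [tk_transfer D D' φ hh] at hc
  · intro c _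
    rw [tk_transfer D D' φ hh, hf]

include hφ hh hp in
/-- The core properties only depend on the structure constants. -/
theorem Core.transfer (hc : D.Core) : D'.Core where
  bdd := by
    obtain ⟨N, hN⟩ := hc.bdd
    refine ⟨N, fun x y z => ?_⟩
    obtain ⟨x, rfl⟩ := φ.surjective x
    obtain ⟨y, rfl⟩ := φ.surjective y
    obtain ⟨z, rfl⟩ := φ.surjective z
    rw [hh]
    exact hN x y z
  P1' z := by
    obtain ⟨z, rfl⟩ := φ.surjective z
    have h1 := hp 1 z
    rw [map_one] at h1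
    rw [h1, a_transfer D D' φ hh]
    exact hc.P1' z
  P2' {x y z} hz h := by
    obtain ⟨x, rfl⟩ := φ.surjective x
    obtain ⟨y, rfl⟩ := φ.surjective y
    obtain ⟨z, rfl⟩ := φ.surjective z
    rw [nn_transfer D D' φ hh hp] at hz
    rw [g_transfer D D' φ hh] at h
    rw [hc.P2' hz h, map_inv]
  P3' y := by
    obtain ⟨y, rfl⟩ := φ.surjective y
    obtain ⟨z, h1, h2, h3, h4⟩ := hc.P3' y
    refine ⟨φ z, ?_, ?_, ?_, ?_⟩
    · rwa [nn_transfer D D' φ hh hp]
    · rw [← map_inv, g_transfer D D' φ hh, nn_transfer D D' φ hh hp, h2]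
    · rwa [nn_transfer D D' φ hh hp]
    · intro z' h5 h6
      obtain ⟨z', rfl⟩ := φ.surjective z'
      rw [nn_transfer D D' φ hh hp] at h5
      rw [← map_inv, g_transfer D D' φ hh] at h6
      rw [h4 z' h5 h6]
  P4' {y w} h := by
    obtain ⟨y, rfl⟩ := φ.surjective y
    obtain ⟨w, rfl⟩ := φ.surjective w
    rw [a_transfer D D' φ hh, a_transfer D D' φ hh]
    exact hc.P4' (leLR_transfer D D' φ e hφ hh h)
  P6' {z} hz := by
    obtain ⟨z, rfl⟩ := φ.surjective z
    rw [nn_transfer D D' φ hh hp] at hz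
    rw [← map_inv, hc.P6' hz]
  Q' {x y z} h := by
    obtain ⟨x, rfl⟩ := φ.surjective x
    obtain ⟨y, rfl⟩ := φ.surjective y
    obtain ⟨z, rfl⟩ := φ.surjective z
    rw [g_transfer D D' φ hh] at h
    rw [a_transfer D D' φ hh, a_transfer D D' φ hh, a_transfer D D' φ hh]
    exact hc.Q' h
  P12' I w hw := by
    obtain ⟨w, rfl⟩ := φ.surjective w
    rw [aPar_transfer D D' φ e hφ hh, a_transfer D D' φ hh]
    exact hc.P12' _ w ((par_transfer φ e hφ I w).1 hw)
  LL k m w x y hx := by
    obtain ⟨w, rfl⟩ := φ.surjective w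
    obtain ⟨x, rfl⟩ := φ.surjective x
    obtain ⟨y, rfl⟩ := φ.surjective y
    rw [a_transfer D D' φ hh] at hx
    have h1 := hc.LL k m w x y hx
    ext z
    obtain ⟨z, rfl⟩ := φ.surjective z
    have h2 := DFunLike.congr_fun h1 z
    rw [Lk_sum, bul_sum, bul_single, Lk_single] at h2 ⊢
    rw [sum_transfer D D' φ hh k k x y _ (fun c => D.tk k m (D.C w * D.C c) z)
        (fun c => tk_transfer D D' φ hh k m w c z),
      sum_transfer D D' φ hh k m w x _ (fun c => D.tk k k (D.C c * D.C y) z)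
        (fun c => tk_transfer D D' φ hh k k c y z)]
    exact h2

end transfer

end KLD

end Pool.Agent.Helper35.KL
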